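import Pool.Agent.Lib.MP_16285c_agS.Can.Spec

/-!
# Package CAN, `Apx`: approximation for finitely many discrete valuation rings
-/

set_option autoImplicit false

namespace Pool.Agent.Lib.MP_16285c_agS.Cn

namespace ApxAux

variable {E : Type} [Field E]

/-- a discrete valuation ring has an element of valuation `> 1` -/
theorem exists_one_lt (O : ValuationSubring E) (h : IsDiscreteValuationRing O) :
    ∃ c : E, 1 < O.valuation c := by
  obtain ⟨p, hp⟩ := IsDiscreteValuationRing.exists_irreducible O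
  have hp0 : (p : E) ≠ 0 := fun h0 => hp.ne_zero (Subtype.ext h0)
  have hp1 : O.valuation (p : E) < 1 :=
    (ValuationSubring.valuation_lt_one_iff O p).1 ((IsLocalRing.mem_maximalIdeal _).2 hp.not_isUnit)
  refine ⟨(p : E)⁻¹, ?_⟩
  rw [map_inv₀]
  exact (one_lt_inv₀ (zero_lt_iff.2 ((Valuation.ne_zero_iff _).2 hp0))).2 hp1

/-- in a discrete valuation ring all valuations are powers of one of them -/
theorem exists_zpow (O : ValuationSubring E) (h : IsDiscreteValuationRing O) :
    ∃ g : O.ValueGroup, 0 < g ∧ g < 1 ∧ ∀ a : E, a ≠ 0 → ∃ n : ℤ, O.valuation a = g ^ n := by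
  obtain ⟨p, hp⟩ := IsDiscreteValuationRing.exists_irreducible O
  have hp0 : (p : E) ≠ 0 := fun h0 => hp.ne_zero (Subtype.ext h0)
  have hp1 : O.valuation (p : E) < 1 :=
    (ValuationSubring.valuation_lt_one_iff O p).1 ((IsLocalRing.mem_maximalIdeal _).2 hp.not_isUnit)
  have key : ∀ x : O, x ≠ 0 → ∃ n : ℕ, O.valuation (x : E) = O.valuation (p : E) ^ n := by
    intro x hx
    obtain ⟨n, u, hu⟩ := IsDiscreteValuationRing.eq_unit_mul_pow_irreducible hx hp
    refine ⟨n, ?_⟩
    have h1 : (x : E) = ((u : O) : E) * (p : E) ^ n := by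
      have := congrArg (fun y : O => (y : E)) hu
      simpa using this
    rw [h1, map_mul, map_pow, ValuationSubring.valuation_unit, one_mul]
  refine ⟨O.valuation (p : E), zero_lt_iff.2 ((Valuation.ne_zero_iff _).2 hp0), hp1, ?_⟩
  intro a ha
  rcases O.mem_or_inv_mem a with h1 | h1
  · obtain ⟨n, hn⟩ := key ⟨a, h1⟩ (fun h0 => ha (congrArg Subtype.val h0))
    exact ⟨n, by rw [zpow_natCast]; exact hn⟩
  · obtain ⟨n, hn⟩ := key ⟨a⁻¹, h1⟩ (fun h0 => (inv_ne_zero ha) (congrArg Subtype.val h0))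
    refine ⟨-n, ?_⟩
    have h2 : O.valuation a⁻¹ = O.valuation (p : E) ^ n := hn
    rw [map_inv₀] at h2
    rw [zpow_neg, zpow_natCast, ← h2, inv_inv]

/-- powers of an element of the maximal ideal of a discrete valuation ring are small -/
theorem pow_small (O : ValuationSubring E) (h : IsDiscreteValuationRing O) (c e : E)
    (hc : O.valuation c < 1) : ∃ N : ℕ, ∀ n : ℕ, N ≤ n → O.valuation (c ^ n * e) < 1 := by
  obtain ⟨g, hg0, hg1, hg⟩ := exists_zpow O h
  by_cases he : e = 0
  · exact ⟨0, fun n _ => by rw [he, mul_zero, map_zero]; exact zero_lt_one⟩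
  by_cases hc0 : c = 0
  · refine ⟨1, fun n hn => ?_⟩
    rw [hc0, zero_pow (by omega), zero_mul, map_zero]
    exact zero_lt_one
  obtain ⟨l, hl⟩ := hg c hc0
  obtain ⟨m, hm⟩ := hg e he
  have hlt : ∀ k : ℤ, g ^ k < 1 ↔ 0 < k := by
    intro k
    constructor
    · intro hk
      by_contra hk0
      have h1 : (1 : O.ValueGroup) ≤ g ^ k := by
        obtain ⟨j, hj⟩ : ∃ j : ℕ, k = -(j : ℤ) := ⟨(-k).toNat, by omega⟩
        rw [hj, zpow_neg, zpow_natCast]
        exact (one_le_inv₀ (pow_pos hg0 _)).2 (pow_le_one₀ hg0.le hg1.le)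
      exact absurd hk (not_lt.2 h1)
    · intro hk
      obtain ⟨j, hj⟩ : ∃ j : ℕ, k = (j : ℤ) := ⟨k.toNat, by omega⟩
      have hj0 : j ≠ 0 := by omega
      rw [hj, zpow_natCast]
      exact pow_lt_one₀ hg0.le hg1 hj0
  have hl0 : 0 < l := (hlt l).1 (by rw [← hl]; exact hc)
  refine ⟨m.natAbs + 1, fun n hn => ?_⟩
  have h1 : O.valuation (c ^ n * e) = g ^ (l * n + m) := by
    rw [map_mul, map_pow, hl, hm, zpow_add₀ hg0.ne', zpow_mul, zpow_natCast]
  rw [h1]
  refine (hlt _).2 ?_
  have h2 : (n : ℤ) ≤ l * n := by nlinarith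
  omega

/-- a discrete valuation ring is maximal -/
theorem eq_of_le (O P : ValuationSubring E) (hO : IsDiscreteValuationRing O)
    (hP : IsDiscreteValuationRing P) (h : O ≤ P) : O = P := by
  refine le_antisymm h fun a ha => ?_
  by_contra haO
  have h1 : O.valuation a⁻¹ < 1 := by
    have h2 : 1 < O.valuation a := by
      rw [← not_le]
      exact fun h3 => haO ((ValuationSubring.valuation_le_one_iff _ _).1 h3)
    rw [map_inv₀]
    exact (inv_lt_one₀ (lt_trans zero_lt_one h2)).2 h2
  obtain ⟨b, hb⟩ := exists_one_lt P hP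
  obtain ⟨N, hN⟩ := pow_small O hO a⁻¹ b h1
  have h4 : a⁻¹ ^ N * b ∈ P := h ((ValuationSubring.valuation_le_one_iff _ _).1 (hN N le_rfl).le)
  have ha0 : a ≠ 0 := fun h0 => haO (h0 ▸ O.zero_mem)
  have h5 : b = a ^ N * (a⁻¹ ^ N * b) := by
    rw [inv_pow, ← mul_assoc, mul_inv_cancel₀ (pow_ne_zero _ ha0), one_mul]
  have h6 : b ∈ P := by
    rw [h5]
    exact P.mul_mem _ _ (pow_mem ha N) h4
  exact absurd ((ValuationSubring.valuation_le_one_iff _ _).2 h6) (not_le.2 hb)

/-- two different discrete valuation rings -/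
theorem two (O P : ValuationSubring E) (hO : IsDiscreteValuationRing O)
    (hP : IsDiscreteValuationRing P) (h : O ≠ P) : ∃ c : E, 1 < O.valuation c ∧ P.valuation c < 1 := by
  have h1 : ¬ O ≤ P := fun h2 => h (eq_of_le O P hO hP h2)
  have h2 : ¬ P ≤ O := fun h3 => h (eq_of_le P O hP hO h3).symm
  obtain ⟨a, haO, haP⟩ := SetLike.not_le_iff_exists.1 h1
  obtain ⟨b, hbP, hbO⟩ := SetLike.not_le_iff_exists.1 h2
  have ha0 : a ≠ 0 := fun h0 => haP (h0 ▸ P.zero_mem)
  have e1 : O.valuation a ≤ 1 := (ValuationSubring.valuation_le_one_iff _ _).2 haO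
  have e2 : 1 < P.valuation a := by
    rw [← not_le]
    exact fun h3 => haP ((ValuationSubring.valuation_le_one_iff _ _).1 h3)
  have e3 : P.valuation b ≤ 1 := (ValuationSubring.valuation_le_one_iff _ _).2 hbP
  have e4 : 1 < O.valuation b := by
    rw [← not_le]
    exact fun h3 => hbO ((ValuationSubring.valuation_le_one_iff _ _).1 h3)
  refine ⟨b / a, ?_, ?_⟩
  · rw [map_div₀]
    have h3 : 0 < O.valuation a := zero_lt_iff.2 ((Valuation.ne_zero_iff _).2 ha0)
    rw [one_lt_div₀ h3]
    exact lt_of_le_of_lt e1 e4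
  · rw [map_div₀]
    have h3 : 0 < P.valuation a := lt_trans zero_lt_one e2
    rw [div_lt_one₀ h3]
    exact lt_of_le_of_lt e3 e2

theorem frac_one {Γ : Type} [LinearOrderedCommGroupWithZero Γ] (v : Valuation E Γ) (c : E)
    (h : 1 < v c) : v (c / (1 + c)) = 1 := by
  have h0 : v 1 < v c := by
    rw [map_one]
    exact h
  have h1 : v (1 + c) = v c := Valuation.map_add_eq_of_lt_right v h0
  rw [map_div₀, h1]
  exact div_self (lt_trans zero_lt_one h).ne'

theorem frac_lt {Γ : Type} [LinearOrderedCommGroupWithZero Γ] (v : Valuation E Γ) (c : E)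
    (h : v c < 1) : v (c / (1 + c)) = v c := by
  have h1 : v (1 + c) = 1 := v.map_one_add_of_lt h
  rw [map_div₀, h1, div_one]

/-- the claim -/
theorem claim {s : ℕ} (O : Fin s → ValuationSubring E) (hO : Function.Injective O)
    (hd : ∀ i, IsDiscreteValuationRing (O i)) (i : Fin s) (J : Finset (Fin s)) : i ∉ J →
    ∃ c : E, 1 < (O i).valuation c ∧ ∀ j ∈ J, (O j).valuation c < 1 := by
  classical
  induction J using Finset.induction_on with
  | empty =>
    intro _
    obtain ⟨c, hc⟩ := exists_one_lt (O i) (hd i)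
    exact ⟨c, hc, fun j hj => absurd hj (Finset.notMem_empty j)⟩
  | insert j' J hj' ih =>
    intro hi
    have hij' : i ≠ j' := fun h => hi (h ▸ Finset.mem_insert_self _ _)
    obtain ⟨c, hc1, hc2⟩ := ih (fun h => hi (Finset.mem_insert_of_mem h))
    obtain ⟨d, hd1, hd2⟩ := two (O i) (O j') (hd i) (hd j') (fun h => hij' (hO h))
    have hN : ∃ N : ℕ, 1 ≤ N ∧ ∀ j ∈ J, (O j).valuation (c ^ N * d) < 1 := by
      have h1 : ∀ j : Fin s, ∃ N : ℕ, j ∈ J → ∀ n : ℕ, N ≤ n → (O j).valuation (c ^ n * d) < 1 := by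
        intro j
        by_cases hj : j ∈ J
        · obtain ⟨N, hN⟩ := pow_small (O j) (hd j) c d (hc2 j hj)
          exact ⟨N, fun _ => hN⟩
        · exact ⟨0, fun h => absurd h hj⟩
      choose N hN using h1
      refine ⟨(∑ j, N j) + 1, by omega, fun j hj => hN j hj _ ?_⟩
      have := Finset.single_le_sum (f := N) (fun _ _ => Nat.zero_le _) (Finset.mem_univ j)
      omega
    obtain ⟨N, hN1, hN⟩ := hN
    have hci : 1 < (O i).valuation (c ^ N) := by
      rw [map_pow]
      exact one_lt_pow₀ hc1 (by omega)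
    rcases le_or_gt ((O j').valuation c) 1 with h1 | h1
    · refine ⟨c ^ N * d, ?_, ?_⟩
      · rw [map_mul]
        exact one_lt_mul_of_lt_of_le' hci hd1.le
      · intro j hj
        rcases Finset.mem_insert.1 hj with rfl | hj
        · rw [map_mul, map_pow]
          refine lt_of_le_of_lt (mul_le_mul' (pow_le_one₀ zero_le h1) le_rfl) ?_
          rw [one_mul]
          exact hd2
        · exact hN j hj
    · refine ⟨c ^ N / (1 + c ^ N) * d, ?_, ?_⟩
      · rw [map_mul, frac_one _ _ hci, one_mul]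
        exact hd1
      · intro j hj
        rcases Finset.mem_insert.1 hj with rfl | hj
        · have h2 : 1 < (O j).valuation (c ^ N) := by
            rw [map_pow]
            exact one_lt_pow₀ h1 (by omega)
          rw [map_mul, frac_one _ _ h2, one_mul]
          exact hd2
        · have h2 : (O j).valuation (c ^ N) < 1 := by
            rw [map_pow]
            exact pow_lt_one₀ zero_le (hc2 j hj) (by omega)
          rw [map_mul, frac_lt _ _ h2, ← map_mul]
          exact hN j hj

end ApxAux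

open ApxAux in
theorem tApx : S_Apx := by
  intro E _ s O hO hd i
  obtain ⟨c, hc1, hc2⟩ := claim O hO hd i (Finset.univ.erase i) (Finset.notMem_erase i _)
  refine ⟨c / (1 + c), frac_one _ _ hc1, fun j hj => ?_⟩
  have h := hc2 j (Finset.mem_erase.2 ⟨hj, Finset.mem_univ j⟩)
  rw [frac_lt _ _ h]
  exact h

end Pool.Agent.Lib.MP_16285c_agS.Cn
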