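import Pool.Agent.Lib.MP_16285c_agS.Can.Spec

/-!
# ZDS, package CAN: the inverse image of a divisor under an endomorphism (`S_Cmp`)
-/

set_option autoImplicit false

namespace Pool.Agent.Lib.MP_16285c_agS.Cn

open Pool.Agent.Lib.MP_16285c_agS

namespace CmpAux

variable {k E : Type} [Field k] [Field E] [Algebra k E]

/-- An element is in the maximal ideal iff it is zero or its inverse is not in the ring. -/
theorem val_lt_iff (O : ValuationSubring E) (a : E) :
    O.valuation a < 1 ↔ a = 0 ∨ a⁻¹ ∉ O := by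
  by_cases ha : a = 0
  · simp [ha]
  · have hva : O.valuation a ≠ 0 := (Valuation.ne_zero_iff _).2 ha
    rw [← ValuationSubring.valuation_le_one_iff, map_inv₀]
    constructor
    · intro h
      right
      rw [not_le]
      exact (one_lt_inv₀ (zero_lt_iff.2 hva)).2 h
    · rintro (h | h)
      · exact absurd h ha
      · rw [not_le] at h
        exact (one_lt_inv₀ (zero_lt_iff.2 hva)).1 h

/-- The valuation of the inverse image. -/
theorem cm_val (ρ : E →ₐ[k] E) (O : ValuationSubring E) (a : E) :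
    (cm ρ O).valuation a < 1 ↔ O.valuation (ρ a) < 1 := by
  rw [val_lt_iff, val_lt_iff]
  have h1 : a⁻¹ ∈ cm ρ O ↔ (ρ a)⁻¹ ∈ O := by
    rw [← map_inv₀]
    exact Iff.rfl
  rw [h1, map_eq_zero]

/-- `Cst` of the inverse image. -/
theorem cm_cst (ρ : E →ₐ[k] E) (O : ValuationSubring E) (a : E) :
    a ∈ Cst k (cm ρ O) ↔ ρ a ∈ Cst k O := by
  constructor
  · rintro ⟨G, hG, h⟩
    refine ⟨G, hG, ?_⟩
    rw [Polynomial.aeval_algHom_apply]
    exact (cm_val ρ O _).1 h
  · rintro ⟨G, hG, h⟩
    refine ⟨G, hG, ?_⟩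
    rw [Polynomial.aeval_algHom_apply] at h
    exact (cm_val ρ O _).2 h

/-- `ρ` is a finite ring homomorphism. -/
theorem fin_ring (ρ : E →ₐ[k] E) (hf : Module.Finite ρ.fieldRange E) :
    (ρ : E →+* E).Finite := by
  have h1 : (algebraMap ρ.fieldRange E).Finite := hf
  have h2 : ((ρ.rangeRestrict : E →ₐ[k] ρ.range) : E →+* ρ.range).Finite :=
    RingHom.Finite.of_surjective _ ρ.rangeRestrict_surjective
  exact RingHom.Finite.comp h1 h2

/-- The inverse image is a divisor. -/
theorem plc (hD : S_Dvr) (ρ : E →ₐ[k] E) (hf : Module.Finite ρ.fieldRange E)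
    (O : ValuationSubring E) (hO : Plc k O) : Plc k (cm ρ O) := by
  refine ⟨?_, ?_⟩
  · exact @hD E E _ _ (ρ : E →+* E).toAlgebra (fin_ring ρ hf) O hO.dvr
  · intro c
    change ρ (algebraMap k E c) ∈ O
    rw [ρ.commutes]
    exact hO.con c

/-- The algebraic part. -/
theorem key (O : ValuationSubring E) (C : Subring E)
    (hint : ∀ a : E, IsIntegral C a → a ∈ C) (hlt : ∀ a, O.valuation a < 1 → a ∈ C)
    (F : Set E) (hF : ∀ x ∈ F, ∀ y ∈ F, x / y ∈ F) (hFC : ∀ x ∈ F, x ∈ O → x ∈ C)
    (a : E) (haO : a ∈ O) (Q : Polynomial E) (hQ : Q ≠ 0) (hQF : ∀ i, Q.coeff i ∈ F)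
    (hQa : Q.eval a = 0) : a ∈ C := by
  classical
  -- the index of largest valuation
  obtain ⟨l0, hl0, hmax⟩ := Finset.exists_max_image Q.support (fun i => O.valuation (Q.coeff i))
    (Polynomial.support_nonempty.2 hQ)
  have hmax' : ∀ i, O.valuation (Q.coeff i) ≤ O.valuation (Q.coeff l0) := by
    intro i
    by_cases hi : i ∈ Q.support
    · exact hmax i hi
    · rw [Polynomial.notMem_support_iff.1 hi, map_zero]
      exact zero_le'
  have hc0 : Q.coeff l0 ≠ 0 := Polynomial.mem_support_iff.1 hl0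
  set S : Finset ℕ := Q.support.filter (fun i => O.valuation (Q.coeff i) = O.valuation (Q.coeff l0))
    with hS
  have hSne : S.Nonempty := ⟨l0, by simp [hS, hc0]⟩
  set l : ℕ := S.max' hSne with hl
  have hlS : l ∈ S := S.max'_mem hSne
  have hlv : O.valuation (Q.coeff l) = O.valuation (Q.coeff l0) := (Finset.mem_filter.1 hlS).2
  have hlne : Q.coeff l ≠ 0 := Polynomial.mem_support_iff.1 (Finset.mem_filter.1 hlS).1
  have hvl : O.valuation (Q.coeff l) ≠ 0 := (Valuation.ne_zero_iff _).2 hlne
  set c : ℕ → E := fun i => Q.coeff i / Q.coeff l with hc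
  have hcF : ∀ i, c i ∈ F := fun i => hF _ (hQF i) _ (hQF l)
  have hcO : ∀ i, c i ∈ O := by
    intro i
    rw [← ValuationSubring.valuation_le_one_iff, hc]
    simp only [map_div₀]
    rw [div_le_one₀ (zero_lt_iff.2 hvl), hlv]
    exact hmax' i
  have hcC : ∀ i, c i ∈ C := fun i => hFC _ (hcF i) (hcO i)
  have hcl : c l = 1 := div_self hlne
  have hclt : ∀ i, l < i → O.valuation (c i) < 1 := by
    intro i hi
    refine lt_of_le_of_ne ((ValuationSubring.valuation_le_one_iff _ _).2 (hcO i)) ?_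
    intro h
    have h1 : O.valuation (Q.coeff i) = O.valuation (Q.coeff l0) := by
      have h2 : O.valuation (c i) * O.valuation (Q.coeff l) = O.valuation (Q.coeff i) := by
        rw [← map_mul]
        congr 1
        exact div_mul_cancel₀ _ hlne
      rw [← h2, h, one_mul, hlv]
    have h3 : i ∈ S := by
      rw [hS, Finset.mem_filter]
      refine ⟨?_, h1⟩
      rw [Polynomial.mem_support_iff]
      intro h4
      rw [h4, map_zero] at h1
      exact hc0 ((Valuation.zero_iff _).1 h1.symm)
    exact absurd (S.le_max' i h3) (not_le.2 hi)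
  -- the relation
  set n : ℕ := Q.natDegree + 1 with hn
  have hln : l < n := by
    have := Polynomial.le_natDegree_of_ne_zero hlne
    omega
  have hsum : ∑ i ∈ Finset.range n, c i * a ^ i = 0 := by
    have h1 : Q.eval a = ∑ i ∈ Finset.range n, Q.coeff i * a ^ i :=
      Polynomial.eval_eq_sum_range a
    have h2 : ∑ i ∈ Finset.range n, c i * a ^ i = (Q.eval a) / Q.coeff l := by
      rw [h1, Finset.sum_div]
      refine Finset.sum_congr rfl ?_
      intro i _
      simp only [hc]
      ring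
    rw [h2, hQa, zero_div]
  set t : E := ∑ i ∈ Finset.Ico (l + 1) n, c i * a ^ i with ht
  have hvt : O.valuation t < 1 := by
    refine Valuation.map_sum_lt _ one_ne_zero ?_
    intro i hi
    rw [Finset.mem_Ico] at hi
    rw [map_mul, map_pow]
    have h1 := hclt i (by omega)
    have h2 : O.valuation a ^ i ≤ 1 := pow_le_one' ((ValuationSubring.valuation_le_one_iff _ _).2 haO) i
    calc O.valuation (c i) * O.valuation a ^ i ≤ O.valuation (c i) * 1 := by gcongr
      _ < 1 := by rwa [mul_one]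
  have hsplit : ∑ i ∈ Finset.range l, c i * a ^ i + a ^ l + t = 0 := by
    rw [← hsum, ht, Finset.range_eq_Ico, Finset.range_eq_Ico,
      ← Finset.sum_Ico_consecutive _ (Nat.zero_le (l + 1)) (by omega : l + 1 ≤ n),
      Finset.sum_Ico_succ_top (Nat.zero_le l), hcl, one_mul]
  by_cases hl1 : l = 0
  · exfalso
    have h1 : t = -1 := by
      have := hsplit
      rw [hl1] at this
      simp only [Finset.range_zero, Finset.sum_empty, pow_zero, zero_add] at this
      linear_combination this
    rw [h1, Valuation.map_neg, map_one] at hvt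
    exact lt_irrefl _ hvt
  · apply hint
    set R : Polynomial C := ∑ i ∈ Finset.range l, Polynomial.C (⟨c i, hcC i⟩ : C) * Polynomial.X ^ i +
      Polynomial.C (⟨t, hlt t hvt⟩ : C) with hR
    have hdeg : R.degree < (l : WithBot ℕ) := by
      rw [← Polynomial.mem_degreeLT]
      refine Submodule.add_mem _ (Submodule.sum_mem _ ?_) ?_
      · intro i hi
        rw [Polynomial.mem_degreeLT]
        refine lt_of_le_of_lt (Polynomial.degree_C_mul_X_pow_le _ _) ?_
        exact_mod_cast Finset.mem_range.1 hi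
      · rw [Polynomial.mem_degreeLT]
        refine lt_of_le_of_lt Polynomial.degree_C_le ?_
        exact_mod_cast Nat.pos_of_ne_zero hl1
    refine ⟨Polynomial.X ^ l + R, Polynomial.monic_X_pow_add hdeg, ?_⟩
    rw [hR]
    simp only [Polynomial.eval₂_add, Polynomial.eval₂_finset_sum, Polynomial.eval₂_mul,
      Polynomial.eval₂_pow, Polynomial.eval₂_X, Polynomial.eval₂_C]
    change a ^ l + (∑ i ∈ Finset.range l, c i * a ^ i + t) = 0
    linear_combination hsplit

end CmpAux

open CmpAux in
/-- The inverse image of a divisor under an endomorphism. -/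
theorem tCmp : S_Cst → S_Dvr → S_Cmp := by
  intro hC hD k E _ _ _ _ ρ hf O hO
  refine ⟨plc hD ρ hf O hO, cm_val ρ O, cm_cst ρ O, ?_⟩
  rintro ⟨a, haO, ha⟩
  by_contra hcon
  push_neg at hcon
  obtain ⟨⟨C, hCC, -, hint, -, hlt, -⟩, -⟩ := hC k E O hO.con
  apply ha
  rw [← hCC]
  haveI : FiniteDimensional ρ.fieldRange E := hf
  obtain ⟨q, hq, hqa⟩ : IsAlgebraic ρ.fieldRange a := Algebra.IsAlgebraic.isAlgebraic a
  refine key O C hint hlt (Set.range ρ) ?_ ?_ a haO (q.map (algebraMap ρ.fieldRange E)) ?_ ?_ ?_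
  · rintro _ ⟨x, rfl⟩ _ ⟨y, rfl⟩
    exact ⟨x / y, map_div₀ ρ x y⟩
  · rintro _ ⟨x, rfl⟩ hx
    rw [hCC]
    exact (cm_cst ρ O x).1 (hcon x hx)
  · exact (Polynomial.map_ne_zero_iff (algebraMap ρ.fieldRange E).injective).2 hq
  · intro i
    rw [Polynomial.coeff_map]
    exact (q.coeff i).2
  · rw [Polynomial.eval_map_algebraMap]
    exact hqa

end Pool.Agent.Lib.MP_16285c_agS.Cn
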