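import Pool.Agent.Lib.MP_16285c_agS.Can.Spec

/-!
# Package CAN, module Cst: the subring of the elements with residue algebraic over `k`
-/

set_option autoImplicit false

namespace Pool.Agent.Lib.MP_16285c_agS.Cn

namespace CstAux

open Polynomial

variable {k E : Type} [Field k] [Field E] [Algebra k E] (O : ValuationSubring E)

/-- the inclusion of `k` in `O` -/
noncomputable def inc (hk : ∀ c : k, algebraMap k E c ∈ O) : k →+* O :=
  (algebraMap k E).codRestrict O.toSubring hk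

theorem lt_iff (x : O) : O.valuation (x : E) < 1 ↔ IsLocalRing.residue O x = 0 := by
  rw [IsLocalRing.residue_eq_zero_iff, ValuationSubring.valuation_lt_one_iff]

theorem eq_iff (x : O) : O.valuation (x : E) = 1 ↔ IsLocalRing.residue O x ≠ 0 := by
  rw [Ne, ← lt_iff, not_lt]
  exact ⟨fun h => h.ge, fun h => le_antisymm ((O.valuation_le_one_iff _).2 x.2) h⟩

theorem ev_coe (hk : ∀ c : k, algebraMap k E c ∈ O) (a : O) (G : Polynomial k) :
    aeval (a : E) G = ((eval₂ (inc O hk) a G : O) : E) := by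
  have h : O.subtype (eval₂ (inc O hk) a G) = eval₂ (O.subtype.comp (inc O hk)) (O.subtype a) G :=
    hom_eval₂ G (inc O hk) O.subtype a
  rw [aeval_def]
  exact h.symm

theorem res_ev (hk : ∀ c : k, algebraMap k E c ∈ O) (a : O) (G : Polynomial k) :
    IsLocalRing.residue O (eval₂ (inc O hk) a G)
      = eval₂ ((IsLocalRing.residue O).comp (inc O hk)) (IsLocalRing.residue O a) G :=
  hom_eval₂ G (inc O hk) (IsLocalRing.residue O) a

theorem mem_of (hk : ∀ c : k, algebraMap k E c ∈ O) (a : E) (G : Polynomial k) (hG : G ≠ 0)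
    (h : O.valuation (aeval a G) < 1) : a ∈ O := by
  by_contra ha
  have ha0 : a ≠ 0 := fun h0 => ha (h0 ▸ O.zero_mem)
  have h1 : 1 < O.valuation a := by
    rw [← not_le, O.valuation_le_one_iff]
    exact ha
  have h2 : O.valuation a⁻¹ < 1 := by
    rw [map_inv₀]
    exact inv_lt_one_of_one_lt₀ h1
  have h3 : a⁻¹ ∈ O := (O.valuation_le_one_iff _).1 h2.le
  let _ : Invertible a := invertibleOfNonzero ha0
  have h4 := eval₂_reverse_mul_pow (algebraMap k E) a G
  rw [invOf_eq_inv] at h4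
  have h5 : eval₂ (algebraMap k E) a⁻¹ G.reverse = aeval (((⟨a⁻¹, h3⟩ : O) : E)) G.reverse := rfl
  have h6 : O.valuation (eval₂ (algebraMap k E) a⁻¹ G.reverse) = 1 := by
    rw [h5, ev_coe O hk, eq_iff, res_ev]
    have h7 : IsLocalRing.residue O (⟨a⁻¹, h3⟩ : O) = 0 := (lt_iff O _).1 h2
    rw [h7, eval₂_at_zero, coeff_zero_reverse]
    exact (_root_.map_ne_zero _).2 (leadingCoeff_ne_zero.2 hG)
  have h8 : O.valuation (aeval a G) = O.valuation a ^ G.natDegree := by
    rw [aeval_def, ← h4, map_mul, h6, one_mul, map_pow]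
  rw [h8] at h
  exact absurd h (not_lt.2 (one_le_pow₀ h1.le))

end CstAux

open CstAux Polynomial in
theorem tCst : S_Cst := by
  intro k E _ _ _ _ O hk
  let _ : Algebra k O := (inc O hk).toAlgebra
  let κ := IsLocalRing.ResidueField O
  let ρ : O →+* κ := IsLocalRing.residue O
  let _ : Algebra k κ := (ρ.comp (inc O hk)).toAlgebra
  have hev : ∀ (a : O) (G : Polynomial k), O.valuation (aeval (a : E) G) < 1 ↔ aeval (ρ a) G = 0 := by
    intro a G
    rw [ev_coe O hk, lt_iff, res_ev]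
    rfl
  have hev1 : ∀ (a : O) (G : Polynomial k), O.valuation (aeval (a : E) G) = 1 ↔ aeval (ρ a) G ≠ 0 := by
    intro a G
    rw [ev_coe O hk, eq_iff, res_ev]
    rfl
  have hmem : ∀ a : O, (a : E) ∈ Cst k O ↔ ρ a ∈ algebraicClosure k κ := by
    intro a
    rw [mem_algebraicClosure_iff]
    constructor
    · rintro ⟨G, hG, h⟩
      exact ⟨G, hG, (hev a G).1 h⟩
    · rintro ⟨G, hG, h⟩
      exact ⟨G, hG, (hev a G).2 h⟩
  have hO : ∀ a ∈ Cst k O, a ∈ O := fun a ⟨G, hG, h⟩ => mem_of O hk a G hG h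
  let C : Subring E := ((algebraicClosure k κ).toSubring.comap ρ).map O.subtype
  have hC : ∀ a : E, a ∈ C ↔ a ∈ Cst k O := by
    intro a
    constructor
    · rintro ⟨b, hb, rfl⟩
      exact (hmem b).2 hb
    · intro h
      exact ⟨⟨a, hO a h⟩, (hmem ⟨a, hO a h⟩).1 h, rfl⟩
  have hCO : ∀ a ∈ C, a ∈ O := fun a ha => hO a ((hC a).1 ha)
  have hCr : ∀ (a : E) (ha : a ∈ O), a ∈ C ↔ ρ ⟨a, ha⟩ ∈ algebraicClosure k κ := fun a ha =>
    (hC a).trans (hmem ⟨a, ha⟩)
  refine ⟨⟨C, hC, ?_, ?_, hCO, ?_, ?_⟩, ?_⟩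
  · intro c
    rw [hCr _ (hk c)]
    exact (algebraicClosure k κ).algebraMap_mem c
  · intro a ha
    obtain ⟨p, hp, hpa⟩ := ha
    let ι : C →+* O := Subring.inclusion (S := C) (T := O.toSubring) hCO
    have haO : a ∈ O := by
      have h1 : IsIntegral O a := by
        refine ⟨p.map ι, hp.map ι, ?_⟩
        rw [eval₂_map]
        exact hpa
      obtain ⟨y, hy⟩ := IsIntegrallyClosed.algebraMap_eq_of_integral h1
      rw [← hy]
      exact y.2
    rw [hCr a haO]
    have hι : ∀ c : C, ρ (ι c) ∈ (algebraicClosure k κ).toSubring := fun c =>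
      (hCr c.1 (hCO c.1 c.2)).1 c.2
    let φ : C →+* (algebraicClosure k κ) :=
      (ρ.comp ι).codRestrict (algebraicClosure k κ).toSubring hι
    have h2 : eval₂ (ρ.comp ι) (ρ ⟨a, haO⟩) p = 0 := by
      have h3 : O.subtype (eval₂ ι (⟨a, haO⟩ : O) p) = 0 := by
        rw [hom_eval₂]
        exact hpa
      have h4 : eval₂ ι (⟨a, haO⟩ : O) p = 0 := Subtype.ext h3
      rw [← hom_eval₂, h4, map_zero]
    have h5 : IsIntegral (algebraicClosure k κ) (ρ ⟨a, haO⟩) := by
      refine ⟨p.map φ, hp.map φ, ?_⟩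
      rw [eval₂_map]
      exact h2
    rw [mem_algebraicClosure_iff']
    exact isIntegral_trans _ h5
  · intro a ha
    have haO : a ∈ O := (O.valuation_le_one_iff _).1 ha.le
    rw [hCr a haO]
    have h1 : ρ ⟨a, haO⟩ = 0 := (lt_iff O ⟨a, haO⟩).1 ha
    rw [h1]
    exact zero_mem _
  · intro a ha h1
    have haO : a ∈ O := hCO a ha
    have ha0 : a ≠ 0 := by
      rintro rfl
      rw [map_zero] at h1
      exact zero_ne_one h1
    have h2 : O.valuation a⁻¹ = 1 := by rw [map_inv₀, h1, inv_one]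
    have h3 : a⁻¹ ∈ O := (O.valuation_le_one_iff _).1 h2.le
    rw [hCr a⁻¹ h3]
    have h4 : ρ ⟨a⁻¹, h3⟩ * ρ ⟨a, haO⟩ = 1 := by
      rw [← map_mul, ← map_one ρ]
      congr 1
      exact Subtype.ext (inv_mul_cancel₀ ha0)
    rw [eq_inv_of_mul_eq_one_left h4]
    exact inv_mem ((hCr a haO).1 ha)
  · intro a ha
    have haO : a ∈ O := hO a ha
    have h1 : ρ ⟨a, haO⟩ ∈ algebraicClosure k κ := (hmem ⟨a, haO⟩).1 ha
    rw [mem_algebraicClosure_iff'] at h1
    refine ⟨minpoly k (ρ ⟨a, haO⟩), (hev ⟨a, haO⟩ _).2 (minpoly.aeval _ _), ?_⟩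
    rw [hev1 ⟨a, haO⟩]
    exact (minpoly.irreducible h1).separable.aeval_derivative_ne_zero (minpoly.aeval _ _)

end Pool.Agent.Lib.MP_16285c_agS.Cn
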