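import Pool.Agent.Lib.MP_16285c_agS.Can.Spec

/-!
# (DBd) Derivations have bounded poles
-/

set_option autoImplicit false

namespace Pool.Agent.Lib.MP_16285c_agS.Cn

open Pool.Agent.Lib.MP_16285c_agS

namespace DBdAux

/-- The integral closure of a discrete valuation ring in a finite extension is finitely generated. -/
theorem gens (V F E : Type) [CommRing V] [IsDomain V] [IsDiscreteValuationRing V] [Field F] [CharZero F]
    [Field E] [Algebra V F] [IsFractionRing V F] [Algebra F E] [Algebra V E] [IsScalarTower V F E]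
    [FiniteDimensional F E] : ∃ s : Finset E, (∀ x ∈ s, IsIntegral V x) ∧
      ∀ b : E, IsIntegral V b → b ∈ Submodule.span V (s : Set E) := by
  classical
  have hfin : Module.Finite V (integralClosure V E) :=
    IsIntegralClosure.finite V F E (integralClosure V E)
  obtain ⟨S, hS⟩ := hfin.fg_top
  refine ⟨S.image Subtype.val, ?_, fun b hb => ?_⟩
  · intro x hx
    obtain ⟨y, -, rfl⟩ := Finset.mem_image.1 hx
    exact y.2
  · have h1 : (⟨b, hb⟩ : integralClosure V E) ∈ Submodule.span V (S : Set (integralClosure V E)) := by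
      rw [hS]
      trivial
    refine Submodule.span_induction (p := fun (x : integralClosure V E) _ =>
      (x : E) ∈ Submodule.span V ((S.image Subtype.val : Finset E) : Set E)) ?_ ?_ ?_ ?_ h1
    · intro x hx
      refine Submodule.subset_span ?_
      rw [Finset.coe_image]
      exact ⟨x, hx, rfl⟩
    · exact Submodule.zero_mem _
    · intro x y _ _ hx hy
      exact Submodule.add_mem _ hx hy
    · intro a x _ hx
      have h2 : ((a • x : integralClosure V E) : E) = a • (x : E) := rfl
      rw [h2]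
      exact Submodule.smul_mem _ a hx

/-- Common denominators. -/
theorem denom {E : Type} [Field E] (O : ValuationSubring E) (s : Finset E) :
    ∃ B : E, B ≠ 0 ∧ B ∈ O ∧ ∀ x ∈ s, B * x ∈ O := by
  obtain ⟨b, hb⟩ := IsLocalization.exist_integer_multiples_of_finset (nonZeroDivisors O) (S := E) s
  refine ⟨((b : O) : E), ?_, (b : O).2, fun x hx => ?_⟩
  · intro h
    have h1 : (b : O) = 0 := Subtype.ext h
    exact nonZeroDivisors.ne_zero b.2 h1
  · obtain ⟨y, hy⟩ := hb x hx
    have h2 : ((b : O) : E) * x = (y : E) := by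
      have h3 : ((b : O) • x : E) = ((b : O) : E) * x := rfl
      rw [← h3, ← hy]
      rfl
    rw [h2]
    exact y.2

end DBdAux

open DBdAux in
theorem tDBd : S_Dvr → S_Loc → S_Int → S_DV → S_DBd := by
  intro hDvr hLoc hInt hDV k E _ _ _ _ t ht Δ hΔ O hO
  classical
  haveI hfin : FiniteDimensional (IntermediateField.adjoin k (Set.range t)) E := ht.fin
  haveI hF0 : CharZero (IntermediateField.adjoin k (Set.range t)) :=
    charZero_of_injective_algebraMap (algebraMap k _).injective
  haveI hOd : IsDiscreteValuationRing O := hO.toPlc.dvr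
  -- the field and the restriction
  generalize hFdef : IntermediateField.adjoin k (Set.range t) = F at hfin hF0
  have hDV' : ∀ f : F, (f : E) ∈ O → ∀ i, Δ i (f : E) ∈ O := by
    intro f hf i
    exact hDV k E t ht Δ hΔ O hO (f : E) (by rw [hFdef]; exact f.2) hf i
  have hVd : IsDiscreteValuationRing (O.comap (algebraMap F E)) := hDvr F E O hOd
  letI iVE : Algebra (O.comap (algebraMap F E)) E :=
    ((algebraMap F E).comp (O.comap (algebraMap F E)).subtype).toAlgebra
  haveI iT : IsScalarTower (O.comap (algebraMap F E)) F E :=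
    IsScalarTower.of_algebraMap_eq fun _ => rfl
  have hVmem : ∀ v : O.comap (algebraMap F E), (((v : F) : E)) ∈ O := fun v => v.2
  have hVsmul : ∀ (v : O.comap (algebraMap F E)) (x : E), v • x = ((v : F) : E) * x := fun v x => by
    rw [Algebra.smul_def]
    rfl
  obtain ⟨S, hS1, hS2⟩ := gens (O.comap (algebraMap F E)) F E
  -- integral elements are in `O`
  have hint : ∀ x : E, IsIntegral (O.comap (algebraMap F E)) x → x ∈ O := by
    intro x hx
    let φ : O.comap (algebraMap F E) →+* O :=
      { toFun := fun v => ⟨((v : F) : E), hVmem v⟩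
        map_one' := rfl
        map_mul' := fun _ _ => rfl
        map_zero' := rfl
        map_add' := fun _ _ => rfl }
    have hx' : IsIntegral O x := by
      obtain ⟨p, hp, hpx⟩ := hx
      refine ⟨p.map φ, hp.map φ, ?_⟩
      rw [Polynomial.eval₂_map]
      exact hpx
    obtain ⟨y, hy⟩ := IsIntegrallyClosed.isIntegral_iff.1 hx'
    rw [← hy]
    exact y.2
  -- elements of all rings over `V` are integral
  have hall : ∀ b : E, (∀ O' : ValuationSubring E, IsDiscreteValuationRing O' →
      (∀ f : F, algebraMap F E f ∈ O' ↔ f ∈ O.comap (algebraMap F E)) → b ∈ O') →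
      IsIntegral (O.comap (algebraMap F E)) b := by
    intro b hb
    obtain ⟨G, hG1, hG2, hG3⟩ := hInt F E (O.comap (algebraMap F E)) hVd b hb
    have hl : G ∈ Polynomial.lifts (algebraMap (O.comap (algebraMap F E)) F) := by
      rw [Polynomial.lifts_iff_coeff_lifts]
      exact fun n => ⟨⟨G.coeff n, hG2 n⟩, rfl⟩
    obtain ⟨Q, hQ1, -, hQ2⟩ := Polynomial.lifts_and_natDegree_eq_and_monic hl hG1
    refine ⟨Q, hQ2, ?_⟩
    rw [← hQ1, Polynomial.aeval_map_algebraMap] at hG3
    exact hG3
  obtain ⟨B, hB0, hBO, hB⟩ := denom O (S.image (Δ 0) ∪ S.image (Δ 1))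
  have hgen : ∀ x ∈ S, ∀ i, B * Δ i x ∈ O := by
    intro x hx i
    apply hB
    rw [Finset.mem_union, Finset.mem_image, Finset.mem_image]
    fin_cases i
    · exact Or.inl ⟨x, hx, rfl⟩
    · exact Or.inr ⟨x, hx, rfl⟩
  have hB1 : ∀ b : E, IsIntegral (O.comap (algebraMap F E)) b → ∀ i, B * Δ i b ∈ O := by
    intro b hb
    have h1 : b ∈ O ∧ ∀ i, B * Δ i b ∈ O := by
      refine Submodule.span_induction (p := fun (x : E) _ => x ∈ O ∧ ∀ i, B * Δ i x ∈ O)
        ?_ ?_ ?_ ?_ (hS2 b hb)
      · intro x hx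
        exact ⟨hint x (hS1 x hx), hgen x hx⟩
      · refine ⟨O.zero_mem, fun i => ?_⟩
        rw [map_zero, mul_zero]
        exact O.zero_mem
      · intro x y _ _ hx hy
        refine ⟨O.add_mem _ _ hx.1 hy.1, fun i => ?_⟩
        rw [map_add, mul_add]
        exact O.add_mem _ _ (hx.2 i) (hy.2 i)
      · intro a x _ hx
        rw [hVsmul]
        refine ⟨O.mul_mem _ _ (hVmem a) hx.1, fun i => ?_⟩
        rw [Derivation.leibniz, smul_eq_mul, smul_eq_mul]
        have h2 : B * (((a : F) : E) * Δ i x + x * Δ i ((a : F) : E)) =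
            ((a : F) : E) * (B * Δ i x) + B * x * Δ i ((a : F) : E) := by ring
        rw [h2]
        exact O.add_mem _ _ (O.mul_mem _ _ (hVmem a) (hx.2 i))
          (O.mul_mem _ _ (O.mul_mem _ _ hBO hx.1) (hDV' (a : F) (hVmem a) i))
    exact h1.2
  refine ⟨B, hB0, fun h hh i => ?_⟩
  obtain ⟨s, hs1, hs2⟩ := hLoc F E {f : F | f ∈ O.comap (algebraMap F E)} O hOd (fun f => Iff.rfl) h hh
  have hsi := hall s fun O' hO' hf => (hs2 O' hO' hf).1
  have hai := hall (s * h) fun O' hO' hf => (hs2 O' hO' hf).2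
  have hs0 : s ≠ 0 := by
    rintro rfl
    rw [map_zero] at hs1
    exact zero_ne_one hs1
  have hsinv : s⁻¹ ∈ O := by
    rw [← ValuationSubring.valuation_le_one_iff, map_inv₀, hs1, inv_one]
  have h3 : B * Δ i h = s⁻¹ * (B * Δ i (s * h) - h * (B * Δ i s)) := by
    rw [Derivation.leibniz, smul_eq_mul, smul_eq_mul]
    field_simp
    ring
  rw [h3]
  exact O.mul_mem _ _ hsinv (sub_mem (hB1 _ hai i) (O.mul_mem _ _ hh (hB1 _ hsi i)))

end Pool.Agent.Lib.MP_16285c_agS.Cn
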