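import Pool.Agent.Lib.MP_16285c_agS.Can.Spec

/-!
# Derivations preserve `O ∩ k(t)` (`S_DV`)
-/

set_option autoImplicit false

namespace Pool.Agent.Lib.MP_16285c_agS.Cn

open Pool.Agent.Lib.MP_16285c_agS

namespace DVAux

variable {k E : Type} [Field k] [Field E] [Algebra k E]

/-- The total degree of a partial derivative. -/
lemma totalDegree_pd (i : Fin 2) (a : Po k) : (MvPolynomial.pderiv i a).totalDegree ≤ a.totalDegree := by
  classical
  conv_lhs => rw [a.as_sum, map_sum]
  refine (MvPolynomial.totalDegree_finsetSum _ _).trans ?_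
  refine Finset.sup_le fun m hm => ?_
  rw [MvPolynomial.pderiv_monomial]
  refine (MvPolynomial.totalDegree_monomial_le _ _).trans ?_
  refine le_trans ?_ (MvPolynomial.le_totalDegree hm)
  rw [Finsupp.sum_fintype _ _ (fun _ => rfl), Finsupp.sum_fintype _ _ (fun _ => rfl)]
  refine Finset.sum_le_sum fun j _ => ?_
  rw [Finsupp.tsub_apply]
  exact Nat.sub_le _ _

/-- The derivative of a polynomial in `t`. -/
lemma der_aeval {t : Fin 2 → E} {Δ : Fin 2 → Derivation k E E} (hΔ : Dual t Δ) (i : Fin 2)
    (G : Po k) : Δ i (MvPolynomial.aeval t G) = MvPolynomial.aeval t (MvPolynomial.pderiv i G) := by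
  classical
  induction G using MvPolynomial.induction_on with
  | C c => simp
  | add p q hp hq => simp only [map_add, hp, hq]
  | mul_X p j hp =>
    rw [map_mul, MvPolynomial.aeval_X, Derivation.leibniz, hp, hΔ i j, Derivation.leibniz,
      MvPolynomial.pderiv_X]
    by_cases h : i = j
    · subst h
      simp [smul_eq_mul]
    · simp [smul_eq_mul, h]

/-- Polynomials in `t` are in `O`. -/
lemma aeval_mem {t : Fin 2 → E} {O : ValuationSubring E} (hk : ∀ c : k, algebraMap k E c ∈ O)
    (ht : ∀ i, t i ∈ O) (G : Po k) : MvPolynomial.aeval t G ∈ O := by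
  induction G using MvPolynomial.induction_on with
  | C c => simpa using hk c
  | add p q hp hq => simpa using O.add_mem _ _ hp hq
  | mul_X p j hp => simpa using O.mul_mem _ _ hp (ht j)

end DVAux

open DVAux in
theorem tDV : S_Res → S_Inf → S_DV := by
  classical
  intro hRes hInf k E _ _ _ _ t ht Δ hΔ O hO f hf hfO i
  have hti : Function.Injective (MvPolynomial.aeval t : Po k → E) := ht.ind
  have hz : ∀ G : Po k, G ≠ 0 → MvPolynomial.aeval t G ≠ 0 := fun G hG h0 =>
    hG (hti (by rw [h0, map_zero]))
  obtain ⟨r, s, hrs⟩ := (IntermediateField.mem_adjoin_range_iff k t f).1 hf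
  by_cases hs : s = 0
  · rw [hs, map_zero, div_zero] at hrs
    rw [hrs, map_zero]
    exact O.zero_mem
  obtain ⟨a, b, c, hab, rfl, rfl⟩ := UniqueFactorizationMonoid.exists_reduced_factors' r s hs
  have hc : c ≠ 0 := left_ne_zero_of_mul hs
  have hb : b ≠ 0 := right_ne_zero_of_mul hs
  have hfab : f = MvPolynomial.aeval t a / MvPolynomial.aeval t b := by
    rw [hrs, map_mul, map_mul, mul_div_mul_left _ _ (hz c hc)]
  have hD : Δ i f = ((MvPolynomial.aeval t b)⁻¹) ^ 2 * MvPolynomial.aeval t
      (b * MvPolynomial.pderiv i a - a * MvPolynomial.pderiv i b) := by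
    rw [hfab, Derivation.leibniz_div, der_aeval hΔ, der_aeval hΔ]
    simp only [smul_eq_mul, map_sub, map_mul]
  have hvf : O.valuation f ≤ 1 := (O.valuation_le_one_iff f).2 hfO
  have hmul : O.valuation f * O.valuation (MvPolynomial.aeval t b) =
      O.valuation (MvPolynomial.aeval t a) := by
    rw [← map_mul, hfab, div_mul_cancel₀ _ (hz b hb)]
  rw [← O.valuation_le_one_iff, hD, map_mul, map_pow, map_inv₀]
  by_cases hfin : ∀ j, t j ∈ O
  · obtain ⟨R, hR, hR'⟩ := hRes k E t ht O hO hfin
    have hRb : ¬ R ∣ b := by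
      intro h
      have h1 : ¬ R ∣ a := fun h' => hR.not_isUnit (hab h' h)
      rw [← hR'] at h h1
      apply h1
      rw [← hmul]
      exact lt_of_le_of_lt (mul_le_of_le_one_left' hvf) h
    have hvb : O.valuation (MvPolynomial.aeval t b) = 1 := by
      rw [← hR'] at hRb
      exact le_antisymm ((O.valuation_le_one_iff _).2 (aeval_mem hO.con hfin b)) (not_lt.1 hRb)
    rw [hvb, inv_one, one_pow, one_mul]
    exact (O.valuation_le_one_iff _).2 (aeval_mem hO.con hfin _)
  · push Not at hfin
    obtain ⟨l, hl1, -, -, hl⟩ := hInf k E t O hO hfin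
    by_cases ha : a = 0
    · simp [ha]
    by_cases hN : b * MvPolynomial.pderiv i a - a * MvPolynomial.pderiv i b = 0
    · simp [hN]
    have hdeg : a.totalDegree ≤ b.totalDegree := by
      by_contra hlt
      push Not at hlt
      have h1 : O.valuation (MvPolynomial.aeval t b) < O.valuation (MvPolynomial.aeval t a) := by
        rw [hl a ha, hl b hb]
        exact pow_lt_pow_right₀ hl1 hlt
      rw [← hmul] at h1
      exact absurd h1 (not_lt.2 (mul_le_of_le_one_left' hvf))
    have hNd : (b * MvPolynomial.pderiv i a - a * MvPolynomial.pderiv i b).totalDegree ≤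
        b.totalDegree * 2 := by
      refine (MvPolynomial.totalDegree_sub _ _).trans (max_le ?_ ?_)
      · refine (MvPolynomial.totalDegree_mul _ _).trans ?_
        have := totalDegree_pd i a
        omega
      · refine (MvPolynomial.totalDegree_mul _ _).trans ?_
        have := totalDegree_pd i b
        omega
    have hvb : O.valuation (MvPolynomial.aeval t b) ≠ 0 := by
      rw [Valuation.ne_zero_iff]
      exact hz b hb
    rw [hl _ hN, inv_pow, inv_mul_le_iff₀ (pow_pos (zero_lt_iff.2 hvb) 2), mul_one, hl b hb, ← pow_mul]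
    exact pow_le_pow_right₀ hl1.le hNd

end Pool.Agent.Lib.MP_16285c_agS.Cn
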