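import Pool.Agent.Lib.MP_16285c_agS.Can.Spec

/-!
# Derivations dual to a transcendence basis
-/

set_option autoImplicit false

namespace Pool.Agent.Lib.MP_16285c_agS.Cn

open scoped TensorProduct

namespace DerAux

theorem der_der (K L : Type) [Field K] [Field L] [Algebra K L] [Algebra (MvPolynomial (Fin 2) K) L]
    [IsScalarTower K (MvPolynomial (Fin 2) K) L]
    [Algebra.FormallyEtale (MvPolynomial (Fin 2) K) L] (f : Fin 2 → L) :
    ∃ D : Derivation K L L,
      ∀ j, D (algebraMap (MvPolynomial (Fin 2) K) L (MvPolynomial.X j)) = f j := by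
  refine ⟨(((Derivation.liftKaehlerDifferential
    (MvPolynomial.mkDerivation K f)).liftBaseChange L) ∘ₗ
      ((KaehlerDifferential.tensorKaehlerEquivOfFormallyEtale K (MvPolynomial (Fin 2) K) L).symm :
        Ω[L⁄K] →ₗ[L] L ⊗[MvPolynomial (Fin 2) K] Ω[MvPolynomial (Fin 2) K⁄K])).compDer
          (KaehlerDifferential.D K L), fun j => ?_⟩
  change (LinearMap.liftBaseChange L (MvPolynomial.mkDerivation K f).liftKaehlerDifferential)
    ((KaehlerDifferential.tensorKaehlerEquivOfFormallyEtale K (MvPolynomial (Fin 2) K) L).symm
      (KaehlerDifferential.D K L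
        (algebraMap (MvPolynomial (Fin 2) K) L (MvPolynomial.X j)))) = f j
  rw [KaehlerDifferential.tensorKaehlerEquivOfFormallyEtale_symm_D_algebraMap,
    LinearMap.liftBaseChange_tmul, one_smul, Derivation.liftKaehlerDifferential_comp_D,
    MvPolynomial.mkDerivation_X]

theorem ex (k E : Type) [Field k] [CharZero k] [Field E] [Algebra k E] (t : Fin 2 → E)
    (ht : Tb k t) (f : Fin 2 → E) : ∃ D : Derivation k E E, ∀ j, D (t j) = f j := by
  let e := ht.ind.aevalEquivField
  let i1 : Algebra (FractionRing (MvPolynomial (Fin 2) k)) E :=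
    ((algebraMap (IntermediateField.adjoin k (Set.range t)) E).comp
      (e : FractionRing (MvPolynomial (Fin 2) k) →+*
        IntermediateField.adjoin k (Set.range t))).toAlgebra
  let i2 : Algebra (MvPolynomial (Fin 2) k) E :=
    ((algebraMap (FractionRing (MvPolynomial (Fin 2) k)) E).comp
      (algebraMap (MvPolynomial (Fin 2) k) (FractionRing (MvPolynomial (Fin 2) k)))).toAlgebra
  have t1 : IsScalarTower (MvPolynomial (Fin 2) k) (FractionRing (MvPolynomial (Fin 2) k)) E :=
    IsScalarTower.of_algebraMap_eq fun a => rfl
  have hk : ∀ a : k, algebraMap (FractionRing (MvPolynomial (Fin 2) k)) E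
      (algebraMap k (FractionRing (MvPolynomial (Fin 2) k)) a) = algebraMap k E a := by
    intro a
    change algebraMap (IntermediateField.adjoin k (Set.range t)) E
      (e (algebraMap k (FractionRing (MvPolynomial (Fin 2) k)) a)) = _
    rw [e.commutes]
    rfl
  have t2 : IsScalarTower k (MvPolynomial (Fin 2) k) E := by
    refine IsScalarTower.of_algebraMap_eq fun a => ?_
    rw [← hk a, IsScalarTower.algebraMap_apply k (MvPolynomial (Fin 2) k)
      (FractionRing (MvPolynomial (Fin 2) k))]
    rfl
  have hfin := ht.fin
  have s0 : Algebra.IsSeparable (IntermediateField.adjoin k (Set.range t)) E := by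
    have : CharZero (IntermediateField.adjoin k (Set.range t)) :=
      charZero_of_injective_algebraMap
        (algebraMap k (IntermediateField.adjoin k (Set.range t))).injective
    infer_instance
  have s1 : Algebra.IsSeparable (FractionRing (MvPolynomial (Fin 2) k)) E := by
    refine Algebra.IsSeparable.of_equiv_equiv
      (A₁ := IntermediateField.adjoin k (Set.range t)) (B₁ := E) e.symm.toRingEquiv
      (RingEquiv.refl E) ?_
    ext a
    change algebraMap (IntermediateField.adjoin k (Set.range t)) E (e (e.symm a)) =
      algebraMap (IntermediateField.adjoin k (Set.range t)) E a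
    rw [e.apply_symm_apply]
  have h1 : Algebra.FormallyEtale (MvPolynomial (Fin 2) k)
      (FractionRing (MvPolynomial (Fin 2) k)) :=
    Algebra.FormallyEtale.of_isLocalization (nonZeroDivisors (MvPolynomial (Fin 2) k))
  have h3 : Algebra.FormallyEtale (FractionRing (MvPolynomial (Fin 2) k)) E :=
    Algebra.FormallyEtale.of_isSeparable _ _
  have h4 : Algebra.FormallyEtale (MvPolynomial (Fin 2) k) E :=
    Algebra.FormallyEtale.comp _ (FractionRing (MvPolynomial (Fin 2) k)) _
  obtain ⟨D, hD⟩ := der_der k E f
  refine ⟨D, fun j => ?_⟩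
  have hX : algebraMap (MvPolynomial (Fin 2) k) E (MvPolynomial.X j) = t j := by
    change ((e (algebraMap (MvPolynomial (Fin 2) k) (FractionRing (MvPolynomial (Fin 2) k))
      (MvPolynomial.X j)) : IntermediateField.adjoin k (Set.range t)) : E) = t j
    rw [AlgebraicIndependent.aevalEquivField_algebraMap_apply_coe, MvPolynomial.aeval_X]
  rw [← hX]
  exact hD j

theorem uni (k E : Type) [Field k] [CharZero k] [Field E] [Algebra k E] (t : Fin 2 → E)
    (ht : Tb k t) (φ : E →+* E) (δ : E → E) (ha : ∀ a b, δ (a + b) = δ a + δ b)
    (hm : ∀ a b, δ (a * b) = φ a * δ b + φ b * δ a) (hk : ∀ c : k, δ (algebraMap k E c) = 0)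
    (htj : ∀ j, δ (t j) = 0) : ∀ a, δ a = 0 := by
  have h0 : δ 0 = 0 := by
    have := ha 0 0
    rw [add_zero] at this
    have h2 : δ 0 + 0 = δ 0 + δ 0 := by rw [add_zero]; exact this
    exact (add_left_cancel h2).symm
  have h1 : δ 1 = 0 := by
    have := hk 1
    rwa [map_one] at this
  have hinv : ∀ a, δ a = 0 → δ a⁻¹ = 0 := by
    intro a h
    rcases eq_or_ne a 0 with rfl | hne
    · rw [inv_zero]
      exact h0
    · have h3 := hm a a⁻¹
      rw [mul_inv_cancel₀ hne, h1, h, mul_zero, add_zero] at h3
      rcases mul_eq_zero.1 h3.symm with h4 | h4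
      · exact absurd (φ.injective (by rw [h4, map_zero])) hne
      · exact h4
  let Z : IntermediateField k E :=
    { carrier := {a | δ a = 0}
      mul_mem' := by
        intro a b (h : δ a = 0) (h' : δ b = 0)
        show δ (a * b) = 0
        rw [hm, h, h', mul_zero, mul_zero, add_zero]
      one_mem' := h1
      add_mem' := by
        intro a b (h : δ a = 0) (h' : δ b = 0)
        show δ (a + b) = 0
        rw [ha, h, h', add_zero]
      zero_mem' := h0
      algebraMap_mem' := hk
      inv_mem' := hinv }
  have hZ : IntermediateField.adjoin k (Set.range t) ≤ Z := by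
    rw [IntermediateField.adjoin_le_iff]
    rintro _ ⟨j, rfl⟩
    exact htj j
  intro a
  have hfin := ht.fin
  have hint : IsIntegral (IntermediateField.adjoin k (Set.range t)) a :=
    Algebra.IsIntegral.isIntegral a
  have hintZ : IsIntegral Z a := by
    obtain ⟨p, hp, hp0⟩ := hint
    refine ⟨p.map (IntermediateField.inclusion hZ).toRingHom, hp.map _, ?_⟩
    rw [Polynomial.eval₂_map]
    exact hp0
  have : CharZero Z := charZero_of_injective_algebraMap (algebraMap k Z).injective
  have hsep := (minpoly.irreducible hintZ).separable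
  have hder : ∀ q : Polynomial Z, δ (Polynomial.aeval a q) =
      φ (Polynomial.aeval a (Polynomial.derivative q)) * δ a := by
    intro q
    induction q using Polynomial.induction_on' with
    | add p q hp hq => rw [map_add, ha, hp, hq, Polynomial.derivative_add, map_add, map_add, add_mul]
    | monomial n c =>
      have hc : δ (algebraMap Z E c) = 0 := c.2
      have hpow : ∀ n : ℕ, δ (a ^ n) = φ ((n : E) * a ^ (n - 1)) * δ a := by
        intro n
        induction n with
        | zero => simp [h1]
        | succ n ih =>
          rw [pow_succ, hm, ih]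
          rcases n with _ | n
          · simp
          · simp only [Nat.add_sub_cancel, map_mul, map_pow, map_natCast]
            push_cast
            ring
      rw [Polynomial.aeval_monomial, hm, hc, mul_zero, add_zero, hpow,
        Polynomial.derivative_monomial, Polynomial.aeval_monomial]
      simp only [map_mul, map_pow, map_natCast]
      ring
  have h5 := hder (minpoly Z a)
  rw [minpoly.aeval, h0] at h5
  rcases mul_eq_zero.1 h5.symm with h6 | h6
  · exfalso
    have h7 : Polynomial.aeval a (Polynomial.derivative (minpoly Z a)) = 0 :=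
      φ.injective (by rw [h6, map_zero])
    exact hsep.aeval_derivative_ne_zero (minpoly.aeval Z a) h7
  · exact h6

end DerAux

theorem tDer : S_Der := by
  intro k E _ _ _ _ t ht
  refine ⟨?_, DerAux.uni k E t ht⟩
  choose Δ hΔ using fun i : Fin 2 => DerAux.ex k E t ht (fun j => if i = j then 1 else 0)
  exact ⟨Δ, fun i j => hΔ i j⟩

end Pool.Agent.Lib.MP_16285c_agS.Cn
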