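import Pool.Agent.Lib.MP_16285c_agS.Can.Spec

/-!
# Criteria for divisors (statement `S_Dvc`)
-/

set_option autoImplicit false

namespace Pool.Agent.Lib.MP_16285c_agS.Cn

namespace DvcAux

variable {k E : Type} [Field k] [Field E] [Algebra k E] {t : Fin 2 → E}

theorem one_mem : (1 : E) ∈ U3 k t := Submodule.subset_span (by simp)

theorem t_mem (i : Fin 2) : t i ∈ U3 k t := by
  apply Submodule.subset_span
  fin_cases i <;> simp

/-- Quotients of elements of `⟨1, t₀, t₁⟩` by a fixed element are in a subring. -/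
theorem div_mem {C : Subring E} (hk : ∀ c : k, algebraMap k E c ∈ C) {w : E} (h1 : 1 / w ∈ C)
    (ht : ∀ i, t i / w ∈ C) {u : E} (hu : u ∈ U3 k t) : u / w ∈ C := by
  obtain ⟨a, b, c, rfl⟩ := Submodule.mem_span_triple.1 hu
  have e : (a • (1 : E) + b • t 0 + c • t 1) / w =
      algebraMap k E a * (1 / w) + algebraMap k E b * (t 0 / w) + algebraMap k E c * (t 1 / w) := by
    simp only [Algebra.smul_def]
    ring
  rw [e]
  exact C.add_mem (C.add_mem (C.mul_mem (hk a) h1) (C.mul_mem (hk b) (ht 0)))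
    (C.mul_mem (hk c) (ht 1))

/-- If `x` and `x⁻¹` are in `O`, then `x` has valuation one. -/
theorem val_one {O : ValuationSubring E} {x : E} (h0 : x ≠ 0) (h : x ∈ O) (h' : x⁻¹ ∈ O) :
    O.valuation x = 1 := by
  apply le_antisymm ((O.valuation_le_one_iff x).2 h)
  have h2 := (O.valuation_le_one_iff x⁻¹).2 h'
  have hx : O.valuation x ≠ 0 := (Valuation.ne_zero_iff _).2 h0
  rw [map_inv₀] at h2
  exact (inv_le_one₀ (zero_lt_iff.2 hx)).1 h2

end DvcAux

open DvcAux in
theorem tDvc : S_Cst → S_Dvc := by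
  intro hCst k E _ _ _ _ t O
  -- facts about the subring `C`
  have key : ∀ hk : (∀ c : k, algebraMap k E c ∈ O), ∃ C : Subring E, (∀ a, a ∈ C ↔ a ∈ Cst k O) ∧
      (∀ c : k, algebraMap k E c ∈ C) ∧ (∀ a ∈ C, a ∈ O) ∧ (∀ a, O.valuation a < 1 → a ∈ C) ∧
      ∀ a ∈ C, O.valuation a = 1 → a⁻¹ ∈ C := by
    intro hk
    obtain ⟨⟨C, h1, h2, -, h4, h5, h6⟩, -⟩ := hCst k E O hk
    exact ⟨C, h1, h2, h4, h5, h6⟩
  have p1 : Dv k t O → (∀ i, t i ∈ O) → ∃ i, t i ∉ Cst k O := by
    intro hD _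
    by_contra hcon
    push Not at hcon
    obtain ⟨C, hC, hk, -, -, -⟩ := key hD.con
    refine hD.nc ⟨1, one_mem, one_ne_zero, fun u hu => ?_⟩
    refine (hC _).1 (div_mem hk ?_ (fun i => ?_) hu)
    · rw [div_one]
      exact C.one_mem
    · rw [div_one]
      exact (hC _).2 (hcon i)
  have p2 : Plc k O → (∀ i, t i ∈ O) → (∃ i, t i ∉ Cst k O) → Dv k t O := by
    intro hP ht hne
    refine ⟨hP, ?_⟩
    rintro ⟨w, hw, hw0, h⟩
    obtain ⟨C, hC, hk, hCO, -, hinv⟩ := key hP.con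
    obtain ⟨i, hi⟩ := hne
    have h1 : 1 / w ∈ C := (hC _).2 (h 1 one_mem)
    have hwO : w ∈ O := by
      have := div_mem (C := O.toSubring) (w := 1) (t := t) hP.con (by simp)
        (fun i => by rw [div_one]; exact ht i) hw
      rwa [div_one] at this
    have h1O : w⁻¹ ∈ O := by
      rw [← one_div]
      exact hCO _ h1
    have hv : O.valuation (1 / w) = 1 := by
      rw [one_div]
      exact val_one (inv_ne_zero hw0) h1O (by rwa [inv_inv])
    have hwC : w ∈ C := by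
      have := hinv _ h1 hv
      rwa [one_div, inv_inv] at this
    apply hi
    have h2 : t i / w ∈ C := (hC _).2 (h (t i) (t_mem i))
    have h3 := C.mul_mem h2 hwC
    rw [div_mul_cancel₀ _ hw0] at h3
    exact (hC _).1 h3
  have p3 : Dv k t O → (∃ i, t i ∉ O) → ∃ l, 1 < O.valuation (t l) ∧ (∀ i, t i / t l ∈ O) ∧
      ∃ i, t i / t l ∉ Cst k O := by
    intro hD hne
    obtain ⟨C, hC, hk, -, hm, -⟩ := key hD.con
    obtain ⟨l, hl⟩ : ∃ l, ∀ i, O.valuation (t i) ≤ O.valuation (t l) := by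
      rcases le_total (O.valuation (t 0)) (O.valuation (t 1)) with h | h
      · exact ⟨1, fun i => by fin_cases i; exacts [h, le_rfl]⟩
      · exact ⟨0, fun i => by fin_cases i; exacts [le_rfl, h]⟩
    obtain ⟨i, hi⟩ := hne
    have hv : 1 < O.valuation (t l) := by
      refine lt_of_lt_of_le ?_ (hl i)
      rw [← not_le]
      exact fun h => hi ((O.valuation_le_one_iff _).1 h)
    have hv0 : O.valuation (t l) ≠ 0 := (zero_lt_one.trans hv).ne'
    have ht0 : t l ≠ 0 := (Valuation.ne_zero_iff _).1 hv0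
    refine ⟨l, hv, fun i => ?_, ?_⟩
    · rw [← O.valuation_le_one_iff, map_div₀]
      exact (div_le_one₀ (zero_lt_iff.2 hv0)).2 (hl i)
    · by_contra hcon
      push Not at hcon
      refine hD.nc ⟨t l, t_mem l, ht0, fun u hu => ?_⟩
      refine (hC _).1 (div_mem hk ?_ (fun i => (hC _).2 (hcon i)) hu)
      apply hm
      rw [map_div₀, map_one]
      exact (div_lt_one₀ (zero_lt_iff.2 hv0)).2 hv
  have p4 : Plc k O → ∀ l, 1 < O.valuation (t l) → (∀ i, t i / t l ∈ O) →
      (∃ i, t i / t l ∉ Cst k O) → Dv k t O := by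
    intro hP l hv hO hne
    refine ⟨hP, ?_⟩
    rintro ⟨w, hw, hw0, h⟩
    obtain ⟨C, hC, hk, hCO, -, hinv⟩ := key hP.con
    obtain ⟨i, hi⟩ := hne
    have hv0 : O.valuation (t l) ≠ 0 := (zero_lt_one.trans hv).ne'
    have ht0 : t l ≠ 0 := (Valuation.ne_zero_iff _).1 hv0
    have hwO : w / t l ∈ O := by
      refine div_mem (C := O.toSubring) (w := t l) (t := t) hP.con ?_ hO hw
      change (1 / t l) ∈ O
      rw [← O.valuation_le_one_iff, map_div₀, map_one]
      exact ((div_lt_one₀ (zero_lt_iff.2 hv0)).2 hv).le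
    have h1 : t l / w ∈ C := (hC _).2 (h (t l) (t_mem l))
    have hv1 : O.valuation (t l / w) = 1 :=
      val_one (div_ne_zero ht0 hw0) (hCO _ h1) (by rwa [inv_div])
    have hwC : w / t l ∈ C := by
      have := hinv _ h1 hv1
      rwa [inv_div] at this
    apply hi
    have h2 : t i / w ∈ C := (hC _).2 (h (t i) (t_mem i))
    have h3 := C.mul_mem h2 hwC
    rw [div_mul_div_cancel₀ hw0] at h3
    exact (hC _).1 h3
  refine ⟨p1, p2, p3, p4, fun hD => ?_⟩
  by_cases hall : ∀ i, t i ∈ O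
  · obtain ⟨i, hi⟩ := p1 hD hall
    exact ⟨t i, hall i, hi⟩
  · push Not at hall
    obtain ⟨l, -, h2, i, hi⟩ := p3 hD hall
    exact ⟨t i / t l, h2 i, hi⟩

end Pool.Agent.Lib.MP_16285c_agS.Cn
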