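import Pool.Agent.Lib.MP_16285c_agS.Can.Spec

set_option autoImplicit false

namespace Pool.Agent.Lib.MP_16285c_agS.Cn

namespace DvrAux

private theorem val_eq {E : Type} [Field E] (O : ValuationSubring E)
    (hO : IsDiscreteValuationRing O) : ∃ π : E, π ≠ 0 ∧ O.valuation π < 1 ∧
      ∀ a ∈ O, a ≠ 0 → ∃ n : ℕ, O.valuation a = O.valuation π ^ n := by
  obtain ⟨p, hp⟩ := IsDiscreteValuationRing.exists_irreducible O
  refine ⟨(p : E), ?_, ?_, ?_⟩
  · intro h
    exact hp.ne_zero (Subtype.ext h)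
  · rcases O.valuation_lt_one_or_eq_one p with h | h
    · exact h
    · exact absurd ((O.valuation_eq_one_iff p).mpr h) hp.not_isUnit
  · intro a ha ha0
    have hne : (⟨a, ha⟩ : O) ≠ 0 := by
      intro h
      exact ha0 (congrArg (fun z : O => (z : E)) h)
    obtain ⟨n, u, hu⟩ := IsDiscreteValuationRing.eq_unit_mul_pow_irreducible hne hp
    refine ⟨n, ?_⟩
    have h1 : a = ((u : O) : E) * (p : E) ^ n := congrArg (fun z : O => (z : E)) hu
    rw [h1, map_mul, map_pow, O.valuation_unit, one_mul]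

private theorem exists_lt {F E : Type} [Field F] [Field E] [Algebra F E] [FiniteDimensional F E]
    (O : ValuationSubring E) (π : E) (hπ0 : π ≠ 0) (hπ : O.valuation π < 1) :
    ∃ f : F, f ≠ 0 ∧ O.valuation (algebraMap F E f) < 1 := by
  by_contra hcon
  push Not at hcon
  have hF : ∀ f : F, algebraMap F E f ∈ O := by
    intro f
    by_cases hf : f = 0
    · rw [hf, map_zero]
      exact O.zero_mem
    · have h1 := hcon f⁻¹ (inv_ne_zero hf)
      rw [map_inv₀, map_inv₀] at h1
      have h2 : O.valuation (algebraMap F E f) ≠ 0 := by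
        rw [Ne, map_eq_zero, map_eq_zero]
        exact hf
      rw [← O.valuation_le_one_iff]
      by_contra h3
      rw [not_le] at h3
      exact absurd h1 (not_le.mpr (inv_lt_one_of_one_lt₀ h3))
  have hall : ∀ a : E, a ∈ O := by
    intro a
    have ha : IsIntegral F a := Algebra.IsIntegral.isIntegral a
    obtain ⟨p, hp, hpa⟩ := ha
    let φ : F →+* O := (algebraMap F E).codRestrict O hF
    have hint : IsIntegral O a := by
      refine ⟨p.map φ, hp.map φ, ?_⟩
      rw [Polynomial.eval₂_map]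
      exact hpa
    obtain ⟨y, hy⟩ := IsIntegrallyClosed.algebraMap_eq_of_integral hint
    rw [← hy]
    exact y.2
  have h1 := (O.valuation_le_one_iff π⁻¹).mpr (hall π⁻¹)
  rw [map_inv₀] at h1
  have h2 : O.valuation π ≠ 0 := by
    rw [Ne, map_eq_zero]
    exact hπ0
  exact absurd h1 (not_le.mpr ((one_lt_inv₀ (zero_lt_iff.mpr h2)).mpr hπ))

private theorem isUnit_of {F E : Type} [Field F] [Field E] [Algebra F E] (O : ValuationSubring E)
    (z : O.comap (algebraMap F E)) (hz : O.valuation (algebraMap F E (z : F)) = 1) :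
    IsUnit z := by
  have hz0 : (z : F) ≠ 0 := by
    intro h
    rw [h, map_zero, map_zero] at hz
    exact zero_ne_one hz
  have hinv : (z : F)⁻¹ ∈ O.comap (algebraMap F E) := by
    rw [ValuationSubring.mem_comap, map_inv₀, ← O.valuation_le_one_iff, map_inv₀, hz, inv_one]
  exact ⟨⟨z, ⟨(z : F)⁻¹, hinv⟩, Subtype.ext (mul_inv_cancel₀ hz0),
    Subtype.ext (inv_mul_cancel₀ hz0)⟩, rfl⟩

end DvrAux

open DvrAux in
theorem tDvr : S_Dvr := by
  intro F E _ _ _ _ O hO
  obtain ⟨π, hπ0, hπ, hval⟩ := val_eq O hO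
  have hv0 : O.valuation π ≠ 0 := by
    rw [Ne, map_eq_zero]
    exact hπ0
  have hvpos : 0 < O.valuation π := zero_lt_iff.mpr hv0
  have hinj : Function.Injective fun n : ℕ => O.valuation π ^ n :=
    pow_right_injective₀ hvpos hπ.ne
  classical
  have hex : ∃ n : ℕ, 0 < n ∧ ∃ f : F, f ≠ 0 ∧
      O.valuation (algebraMap F E f) = O.valuation π ^ n := by
    obtain ⟨f, hf0, hf⟩ := exists_lt (F := F) O π hπ0 hπ
    obtain ⟨n, hn⟩ := hval (algebraMap F E f) ((O.valuation_le_one_iff _).mp hf.le)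
      (by rw [Ne, map_eq_zero]; exact hf0)
    refine ⟨n, Nat.pos_of_ne_zero ?_, f, hf0, hn⟩
    rintro rfl
    rw [pow_zero] at hn
    exact hf.ne hn
  obtain ⟨he, f₀, hf0, hfv⟩ := Nat.find_spec hex
  set e := Nat.find hex with hedef
  have hmin : ∀ (r : ℕ), r < e → ∀ f : F, f ≠ 0 →
      O.valuation (algebraMap F E f) = O.valuation π ^ r → r = 0 := by
    intro r hr f hf hfr
    by_contra h
    exact Nat.find_min hex hr ⟨Nat.pos_of_ne_zero h, f, hf, hfr⟩
  have hfac : ∀ a : F, a ≠ 0 → algebraMap F E a ∈ O →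
      ∃ j : ℕ, O.valuation (algebraMap F E a) = O.valuation π ^ (e * j) ∧
        O.valuation (algebraMap F E (a / f₀ ^ j)) = 1 := by
    intro a ha haO
    obtain ⟨n, hn⟩ := hval _ haO (by rw [Ne, map_eq_zero]; exact ha)
    have hg0 : a / f₀ ^ (n / e) ≠ 0 := div_ne_zero ha (pow_ne_zero _ hf0)
    have hg : O.valuation (algebraMap F E (a / f₀ ^ (n / e))) = O.valuation π ^ (n % e) := by
      rw [map_div₀, map_div₀, map_pow, map_pow, hn, hfv, ← pow_mul,
        div_eq_iff (pow_ne_zero _ hv0), ← pow_add, Nat.mod_add_div]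
    have hr := hmin (n % e) (Nat.mod_lt _ he) _ hg0 hg
    refine ⟨n / e, ?_, ?_⟩
    · rw [hn]
      congr 1
      have := Nat.mod_add_div n e
      omega
    · rw [hg, hr, pow_zero]
  have hf₀O : algebraMap F E f₀ ∈ O := by
    rw [← O.valuation_le_one_iff, hfv]
    exact pow_le_one₀ hvpos.le hπ.le
  let f : O.comap (algebraMap F E) := ⟨f₀, hf₀O⟩
  apply IsDiscreteValuationRing.ofHasUnitMulPowIrreducibleFactorization
  refine ⟨f, ⟨?_, ?_⟩, ?_⟩
  · rintro ⟨u, hu⟩
    have h1 : (f₀ : F) * ((u⁻¹ : (O.comap (algebraMap F E))ˣ) : O.comap (algebraMap F E)) = 1 := by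
      have h2 : f * ((u⁻¹ : (O.comap (algebraMap F E))ˣ) : O.comap (algebraMap F E)) = 1 := by
        rw [← hu]
        exact u.mul_inv
      exact congrArg (fun z : O.comap (algebraMap F E) => (z : F)) h2
    have h2 : O.valuation (algebraMap F E
        (((u⁻¹ : (O.comap (algebraMap F E))ˣ) : O.comap (algebraMap F E)) : F)) ≤ 1 :=
      (O.valuation_le_one_iff _).mpr ((u⁻¹ : (O.comap (algebraMap F E))ˣ) :
        O.comap (algebraMap F E)).2
    have h3 : O.valuation (algebraMap F E f₀) * O.valuation (algebraMap F E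
        (((u⁻¹ : (O.comap (algebraMap F E))ˣ) : O.comap (algebraMap F E)) : F)) = 1 := by
      rw [← map_mul, ← map_mul, h1, map_one, map_one]
    have h4 : O.valuation (algebraMap F E f₀) < 1 := by
      rw [hfv]
      exact pow_lt_one₀ hvpos.le hπ he.ne'
    have h5 : O.valuation (algebraMap F E f₀) * O.valuation (algebraMap F E
        (((u⁻¹ : (O.comap (algebraMap F E))ˣ) : O.comap (algebraMap F E)) : F)) < 1 :=
      mul_lt_one_of_lt_of_le h4 h2
    exact h5.ne h3
  · intro a b hab
    have hab' : f₀ = (a : F) * (b : F) :=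
      congrArg (fun z : O.comap (algebraMap F E) => (z : F)) hab
    have ha0 : (a : F) ≠ 0 := by
      intro h
      rw [h, zero_mul] at hab'
      exact hf0 hab'
    have hb0 : (b : F) ≠ 0 := by
      intro h
      rw [h, mul_zero] at hab'
      exact hf0 hab'
    obtain ⟨i, hi, -⟩ := hfac a ha0 a.2
    obtain ⟨j, hj, -⟩ := hfac b hb0 b.2
    have h1 : O.valuation π ^ e = O.valuation π ^ (e * i + e * j) := by
      rw [pow_add, ← hi, ← hj, ← map_mul, ← map_mul, ← hab', hfv]
    have h2 : e = e * (i + j) := by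
      rw [mul_add]
      exact hinj h1
    have h3 : i + j = 1 := by
      have h4 : e * 1 = e * (i + j) := by rw [mul_one]; exact h2
      exact (Nat.eq_of_mul_eq_mul_left he h4).symm
    rcases Nat.eq_zero_or_pos i with h0 | h0
    · left
      apply isUnit_of
      rw [hi, h0, mul_zero, pow_zero]
    · right
      apply isUnit_of
      have : j = 0 := by omega
      rw [hj, this, mul_zero, pow_zero]
  · intro x hx
    have hx0 : (x : F) ≠ 0 := by
      intro h
      exact hx (Subtype.ext h)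
    obtain ⟨j, -, hj⟩ := hfac x hx0 x.2
    have hgO : (x : F) / f₀ ^ j ∈ O.comap (algebraMap F E) := by
      rw [ValuationSubring.mem_comap, ← O.valuation_le_one_iff, hj]
    have hgu : IsUnit (⟨(x : F) / f₀ ^ j, hgO⟩ : O.comap (algebraMap F E)) := isUnit_of O _ hj
    refine ⟨j, ?_⟩
    obtain ⟨u, hu⟩ := hgu
    refine ⟨u, ?_⟩
    rw [hu]
    apply Subtype.ext
    change f₀ ^ j * ((x : F) / f₀ ^ j) = x
    rw [mul_comm, div_mul_cancel₀ _ (pow_ne_zero _ hf0)]

end Pool.Agent.Lib.MP_16285c_agS.Cn
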