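import Pool.Agent.Lib.MP_16285c_agS.Can.Spec

/-!
# Package CAN of Theorem S: a plane model on which no divisor is contracted (`tF1`)
-/

set_option autoImplicit false

namespace Pool.Agent.Lib.MP_16285c_agS.Cn

open Pool.Agent.Lib.MP_16285c_agS

namespace F1Aux

/-- A nonconstant element of `O` is not contracted. -/
theorem notCt (hCst : S_Cst) {k E : Type} [Field k] [CharZero k] [Field E] [Algebra k E]
    (O : ValuationSubring E) (hk : ∀ c : k, algebraMap k E c ∈ O) (f : E) (hf : f ∈ O)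
    (hc : f ∉ Cst k O) : ¬ Ct k O (Submodule.span k {1, f}) := by
  rintro ⟨w, hw, hw0, hq⟩
  obtain ⟨⟨C, hC, hkC, hint, hCO, hm, hinv⟩, -⟩ := hCst k E O hk
  have h1 : 1 / w ∈ C := (hC _).2 (hq 1 (Submodule.subset_span (by simp)))
  have h2 : f / w ∈ C := (hC _).2 (hq f (Submodule.subset_span (by simp)))
  have hwO : w ∈ O := by
    obtain ⟨a, b, rfl⟩ := Submodule.mem_span_pair.1 hw
    rw [Algebra.smul_def, Algebra.smul_def]
    exact O.add_mem _ _ (O.mul_mem _ _ (hk a) O.one_mem) (O.mul_mem _ _ (hk b) hf)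
  have hv1 : O.valuation w ≤ 1 := (O.valuation_le_one_iff w).2 hwO
  have hv2 : O.valuation (1 / w) ≤ 1 := (O.valuation_le_one_iff _).2 (hCO _ h1)
  have hv3 : O.valuation (1 / w) = 1 := by
    refine le_antisymm hv2 ?_
    rw [one_div, map_inv₀]
    have h0 : O.valuation w ≠ 0 := (Valuation.ne_zero_iff _).2 hw0
    exact (one_le_inv₀ (zero_lt_iff.2 h0)).2 hv1
  have h3 : w ∈ C := by
    have := hinv _ h1 hv3
    rwa [one_div, inv_inv] at this
  apply hc
  rw [← hC]
  have h4 : f = (f / w) * w := by field_simp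
  rw [h4]
  exact C.mul_mem h2 h3

/-- The linear system `U`. -/
theorem exU (hCst : S_Cst) (hPr : S_Pr) {k E : Type} [Field k] [CharZero k] [Field E] [Algebra k E]
    (x : Fin 2 → E) (X : Set (ValuationSubring E)) (hX : X.Finite) :
    (∀ O ∈ X, (∀ c : k, algebraMap k E c ∈ O) ∧ ∃ f ∈ O, f ∉ Cst k O) →
    ∃ U : Submodule k E, Module.Finite k U ∧ U3 k x ≤ U ∧
      (∀ O : ValuationSubring E, (∀ c : k, algebraMap k E c ∈ O) → ¬ Ct k O (U3 k x) → ¬ Ct k O U) ∧
      ∀ O ∈ X, ¬ Ct k O U := by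
  classical
  induction X, hX using Set.Finite.induction_on with
  | empty =>
    intro _
    refine ⟨U3 k x, ?_, le_rfl, fun O _ h => h, fun O hO => hO.elim⟩
    exact Module.Finite.iff_fg.2 (Submodule.fg_span (by simp))
  | @insert O₀ X' hne hfin ih =>
    intro h
    obtain ⟨U, hUf, hU3, hU1, hU2⟩ := ih (fun O hO => h O (Set.mem_insert_of_mem _ hO))
    obtain ⟨hk0, f, hfO, hfC⟩ := h O₀ (Set.mem_insert _ _)
    have hW : Module.Finite k (Submodule.span k ({1, f} : Set E)) :=
      Module.Finite.iff_fg.2 (Submodule.fg_span (by simp))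
    have h1W : (1 : E) ∈ Submodule.span k ({1, f} : Set E) := Submodule.subset_span (by simp)
    refine ⟨U * Submodule.span k {1, f}, ?_, ?_, ?_, ?_⟩
    · exact Module.Finite.iff_fg.2 (Submodule.FG.mul (Module.Finite.iff_fg.1 hUf)
        (Module.Finite.iff_fg.1 hW))
    · intro u hu
      have := Submodule.mul_mem_mul (hU3 hu) h1W
      rwa [mul_one] at this
    · intro O hk hn hct
      exact hU1 O hk hn (hPr k E O hk U _ hUf hW hct).1
    · intro O hO hct
      rcases Set.mem_insert_iff.1 hO with rfl | hO'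
      · exact notCt hCst O hk0 f hfO hfC (hPr k E O hk0 U _ hUf hW hct).2
      · exact hU2 O hO' (hPr k E O (h O hO).1 U _ hUf hW hct).1

open scoped IntermediateField.algebraAdjoinAdjoin in
/-- Three elements are algebraically dependent. -/
theorem dep {k E : Type} [Field k] [Field E] [Algebra k E] (x : Fin 2 → E) (hx : Tb k x)
    (y : Fin 3 → E) : ¬ AlgebraicIndependent k y := by
  intro hy
  have := hx.fin
  have halg : Algebra.IsAlgebraic (IntermediateField.adjoin k (Set.range x)) E := inferInstance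
  have halg2 : Algebra.IsAlgebraic (Algebra.adjoin k (Set.range x)) E :=
    (IsFractionRing.comap_isAlgebraic_iff (K := IntermediateField.adjoin k (Set.range x))).2 halg
  have hb : IsTranscendenceBasis k x := hx.ind.isTranscendenceBasis_iff_isAlgebraic.2 halg2
  have h1 := hy.cardinalMk_le_trdeg
  rw [← hb.cardinalMk_eq_trdeg] at h1
  simp only [Cardinal.mk_fin] at h1
  have h2 : (3 : ℕ) ≤ 2 := by exact_mod_cast h1
  omega

/-- `1, x₀, x₁` are independent. -/
theorem li {k E : Type} [Field k] [Field E] [Algebra k E] (x : Fin 2 → E)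
    (hx : AlgebraicIndependent k x) : LinearIndependent k ![1, x 0, x 1] := by
  rw [Fintype.linearIndependent_iff]
  intro g hg
  simp only [Fin.sum_univ_three, Matrix.cons_val_zero, Matrix.cons_val_one, Matrix.cons_val_two,
    Matrix.head_cons, Matrix.tail_cons] at hg
  have h1 : (MvPolynomial.aeval x : MvPolynomial (Fin 2) k →ₐ[k] E)
      (MvPolynomial.C (g 0) + MvPolynomial.C (g 1) * MvPolynomial.X 0 +
        MvPolynomial.C (g 2) * MvPolynomial.X 1) = 0 := by
    simp only [map_add, map_mul, MvPolynomial.aeval_C, MvPolynomial.aeval_X]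
    rw [← hg]
    simp only [Algebra.smul_def, mul_one]
  have h2 := hx.eq_zero_of_aeval_eq_zero _ h1
  have h00 : (0 : Fin 2 →₀ ℕ) ≠ Finsupp.single 0 1 := by
    intro h; have := DFunLike.congr_fun h 0; simp at this
  have h01 : (0 : Fin 2 →₀ ℕ) ≠ Finsupp.single 1 1 := by
    intro h; have := DFunLike.congr_fun h 1; simp at this
  have h10 : (Finsupp.single 0 1 : Fin 2 →₀ ℕ) ≠ Finsupp.single 1 1 := by
    intro h; have := DFunLike.congr_fun h 1; simp at this
  have e0 := congrArg (MvPolynomial.coeff 0) h2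
  have e1 := congrArg (MvPolynomial.coeff (Finsupp.single 0 1)) h2
  have e2 := congrArg (MvPolynomial.coeff (Finsupp.single 1 1)) h2
  simp only [MvPolynomial.coeff_add, MvPolynomial.coeff_C, MvPolynomial.coeff_C_mul,
    MvPolynomial.coeff_X, MvPolynomial.coeff_zero, if_neg h00, if_neg h01, if_neg h10,
    if_neg h00.symm, if_neg h01.symm, if_neg h10.symm, if_true, mul_zero, add_zero, zero_add,
    mul_one] at e0 e1 e2
  intro i
  fin_cases i
  · exact e0
  · exact e1
  · exact e2

end F1Aux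

open F1Aux in
theorem tF1 : S_Cst → S_Dvc → S_Pr → S_GN → S_Cmp → S_F1a → S_TbC → S_F1 := by
  intro hCst hDvc hPr hGN hCmp hF1a hTbC k E _ _ _ _ x hx ρ hρ
  have hfin := (hF1a k E x hx ρ hρ).image (cm ρ)
  obtain ⟨U, hUf, hU3, hU1, hU2⟩ := exU (k := k) hCst hPr x _ hfin (by
    rintro O' ⟨O, ⟨hO, hO'⟩, rfl⟩
    obtain ⟨c1, -, -, c4⟩ := hCmp k E ρ hρ O hO.toPlc
    exact ⟨c1.con, c4 ((hDvc k E x O).2.2.2.2 hO)⟩)
  have hrank : 3 ≤ Module.finrank k U := by
    have h1 := li x hx.ind
    have h2 : ∀ i, ![1, x 0, x 1] i ∈ U := by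
      intro i
      apply hU3
      apply Submodule.subset_span
      fin_cases i <;> simp
    have h3 : LinearIndependent k (fun i => (⟨![1, x 0, x 1] i, h2 i⟩ : U)) := by
      apply LinearIndependent.of_comp U.subtype
      exact h1
    simpa using h3.fintype_card_le_finrank
  obtain ⟨s, hsU, hsli, hsC⟩ := hGN k E (dep x hx) U hUf hrank
  have hs0 : s 0 ≠ 0 := hsli.ne_zero 0
  have hspan : Submodule.span k (Set.range s) ≤ U := by
    rw [Submodule.span_le]
    rintro _ ⟨i, rfl⟩
    exact hsU i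
  have hCtU : ∀ O' : ValuationSubring E, Plc k O' →
      Ct k O' (U3 k ![s 1 / s 0, s 2 / s 0]) → Ct k O' U := by
    rintro O' hP ⟨w', hw', hw0, hq⟩
    obtain ⟨⟨C, hC, hkC, hint, -, -, -⟩, -⟩ := hCst k E O' hP.con
    have h1 : s 0 * w' ∈ Submodule.span k (Set.range s) := by
      have h2 : U3 k ![s 1 / s 0, s 2 / s 0] ≤
          (Submodule.span k (Set.range s)).comap (LinearMap.mulLeft k (s 0)) := by
        rw [U3, Submodule.span_le]
        intro a ha
        simp only [Matrix.cons_val_zero, Matrix.cons_val_one, Set.mem_insert_iff,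
          Set.mem_singleton_iff] at ha
        rw [SetLike.mem_coe, Submodule.mem_comap, LinearMap.mulLeft_apply]
        rcases ha with rfl | rfl | rfl
        · rw [mul_one]; exact Submodule.subset_span ⟨0, rfl⟩
        · rw [mul_div_cancel₀ _ hs0]; exact Submodule.subset_span ⟨1, rfl⟩
        · rw [mul_div_cancel₀ _ hs0]; exact Submodule.subset_span ⟨2, rfl⟩
      exact h2 hw'
    have hne : s 0 * w' ≠ 0 := mul_ne_zero hs0 hw0
    refine ⟨s 0 * w', hspan h1, hne, fun u hu => ?_⟩
    rw [← hC]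
    refine hsC C hkC hint _ h1 hne ?_ u hu
    intro i
    rw [hC]
    have hi : s i / (s 0 * w') = (s i / s 0) / w' := by rw [div_div]
    rw [hi]
    apply hq
    apply Submodule.subset_span
    fin_cases i
    · simp [hs0]
    · simp
    · simp
  refine ⟨![s 1 / s 0, s 2 / s 0], ?_, ?_⟩
  · refine hTbC k E x hx _ ?_
    intro C hkC hint hinv ht i
    have hsi : ∀ j, s j / s 0 ∈ C := by
      intro j
      fin_cases j
      · simp only [Fin.zero_eta, div_self hs0]; exact C.one_mem
      · exact ht 0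
      · exact ht 1
    have hU := hsC C hkC hint (s 0) (Submodule.subset_span ⟨0, rfl⟩) hs0 hsi
    have h1 : (1 : E) / s 0 ∈ C := hU 1 (hU3 (Submodule.subset_span (by simp)))
    have h2 : x i / s 0 ∈ C := hU _ (hU3 (Submodule.subset_span (by fin_cases i <;> simp)))
    have h3 := hinv _ h1
    have h4 : x i = (x i / s 0) * (1 / s 0)⁻¹ := by field_simp
    rw [h4]
    exact C.mul_mem h2 h3
  · intro O hO
    obtain ⟨c1, -, -, -⟩ := hCmp k E ρ hρ O hO.toPlc
    refine ⟨⟨hO.toPlc, fun h => hU1 O hO.con hO.nc (hCtU O hO.toPlc h)⟩,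
      ⟨c1, fun h => ?_⟩⟩
    have h1 := hCtU _ c1 h
    by_cases hO' : Dv k x (cm ρ O)
    · exact hU1 _ c1.con hO'.nc h1
    · exact hU2 _ ⟨O, ⟨hO, hO'⟩, rfl⟩ h1

end Pool.Agent.Lib.MP_16285c_agS.Cn
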