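import Pool.Agent.Lib.MP_16285c_agS.Can.Spec

/-!
# Package CAN: only finitely many divisors are contracted by the plane coordinates after pull back
-/

set_option autoImplicit false

namespace Pool.Agent.Lib.MP_16285c_agS.Cn

open Pool.Agent.Lib.MP_16285c_agS

namespace F1aAux

/-- Values of polynomials are in `O`. -/
theorem aeval_mem (k E : Type) [Field k] [Field E] [Algebra k E] (x : Fin 2 → E) (O : ValuationSubring E)
    (hk : ∀ c : k, algebraMap k E c ∈ O) (hx : ∀ i, x i ∈ O) (G : Po k) : MvPolynomial.aeval x G ∈ O := by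
  induction G using MvPolynomial.induction_on with
  | C a => rw [MvPolynomial.aeval_C]; exact hk a
  | add p q hp hq => rw [map_add]; exact O.add_mem _ _ hp hq
  | mul_X p i hp => rw [map_mul, MvPolynomial.aeval_X]; exact O.mul_mem _ _ hp (hx i)

/-- Roots of monic polynomials are in `O`. -/
theorem root_mem (k E : Type) [Field k] [Field E] [Algebra k E] (x : Fin 2 → E) (O : ValuationSubring E)
    (hk : ∀ c : k, algebraMap k E c ∈ O) (hx : ∀ i, x i ∈ O) (z : E) (P : PZ k) (hP : P.Monic)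
    (h0 : ev x z P = 0) : z ∈ O := by
  let f : Po k →+* O := (MvPolynomial.aeval x : Po k →ₐ[k] E).toRingHom.codRestrict O
    fun G => aeval_mem k E x O hk hx G
  have hf : (algebraMap O E).comp f = (MvPolynomial.aeval x : Po k →ₐ[k] E).toRingHom := rfl
  have hi : IsIntegral O z := by
    refine ⟨P.map f, hP.map f, ?_⟩
    rw [Polynomial.eval₂_map, hf]
    exact h0
  obtain ⟨w, hw⟩ := IsIntegrallyClosed.isIntegral_iff.1 hi
  rw [← hw]
  exact w.2

/-- Values of polynomials are in `O`. -/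
theorem ev_mem (k E : Type) [Field k] [Field E] [Algebra k E] (x : Fin 2 → E) (O : ValuationSubring E)
    (hk : ∀ c : k, algebraMap k E c ∈ O) (hx : ∀ i, x i ∈ O) (z : E) (hz : z ∈ O) (N : PZ k) :
    ev x z N ∈ O := by
  have h : ev x z N = N.sum fun e a => (MvPolynomial.aeval x : Po k →ₐ[k] E).toRingHom a * z ^ e :=
    Polynomial.eval₂_eq_sum
  rw [h, Polynomial.sum]
  exact sum_mem fun e _ => mul_mem (aeval_mem k E x O hk hx _) (pow_mem hz e)

/-- Division by a unit. -/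
theorem div_mem (E : Type) [Field E] (O : ValuationSubring E) (a b c : E) (h : a * b = c) (hb : O.valuation b = 1)
    (hc : c ∈ O) : a ∈ O := by
  rw [← ValuationSubring.valuation_le_one_iff] at hc ⊢
  rw [← h, map_mul, hb, mul_one] at hc
  exact hc

end F1aAux

open F1aAux in
/-- **F1a**. -/
theorem tF1a : S_Cst → S_Cmp → S_Dvc → S_Mdl → S_Exc → S_Der → S_DO → S_Jac → S_F1a := by
  intro hCst hCmp hDvc hMdl hExc hDer hDO hJac k E _ _ _ _ x hT ρ hfin
  obtain ⟨z, P, m, D, hM⟩ := hMdl k E x hT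
  obtain ⟨⟨Δ, hΔ⟩, -⟩ := hDer k E x hT
  set y : Fin 2 → E := fun i => ρ (x i) with hy
  obtain ⟨hJ1, hJ2⟩ := hJac k E x hT
  have hTy : Tb k y := hJ1 ρ hfin
  set J : E := Δ 0 (y 0) * Δ 1 (y 1) - Δ 0 (y 1) * Δ 1 (y 0) with hJ
  have hJ0 : J ≠ 0 := hJ2 Δ hΔ y hTy
  obtain ⟨N0, c0, hc0, hN0⟩ := hM.gen (y 0)
  obtain ⟨N1, c1, hc1, hN1⟩ := hM.gen (y 1)
  obtain ⟨NJ, cJ, hcJ, hNJ⟩ := hM.gen J⁻¹
  have hne : D * (c0 * c1 * cJ) ≠ 0 := mul_ne_zero hM.ne (mul_ne_zero (mul_ne_zero hc0 hc1) hcJ)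
  refine (hExc k E x hT _ hne).subset ?_
  rintro O ⟨hO, hn⟩
  refine ⟨hO, ?_⟩
  by_contra hcon
  apply hn
  rw [not_or, not_exists] at hcon
  obtain ⟨hx', hv⟩ := hcon
  have hx : ∀ i, x i ∈ O := fun i => not_not.1 (hx' i)
  have hk := hO.toPlc.con
  have hle : ∀ G : Po k, O.valuation (MvPolynomial.aeval x G) ≤ 1 := fun G =>
    (O.valuation_le_one_iff _).2 (aeval_mem k E x O hk hx G)
  have hmul : ∀ G H : Po k, ¬ O.valuation (MvPolynomial.aeval x (G * H)) < 1 →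
      O.valuation (MvPolynomial.aeval x G) = 1 ∧ O.valuation (MvPolynomial.aeval x H) = 1 := by
    intro G H h
    rw [map_mul, map_mul] at h
    constructor
    · by_contra h1
      exact h (mul_lt_one_of_lt_of_le (lt_of_le_of_ne (hle G) h1) (hle H))
    · by_contra h1
      rw [mul_comm] at h
      exact h (mul_lt_one_of_lt_of_le (lt_of_le_of_ne (hle H) h1) (hle G))
  obtain ⟨hvD, hvc⟩ := hmul _ _ hv
  obtain ⟨hv01, hvJ⟩ := hmul _ _ (by rw [hvc]; exact lt_irrefl 1)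
  obtain ⟨hv0, hv1⟩ := hmul _ _ (by rw [hv01]; exact lt_irrefl 1)
  have hG : Gd k x D O := ⟨hO, hx, hvD⟩
  have hz : z ∈ O := root_mem k E x O hk hx z P hM.mon hM.rt
  have hy0 : y 0 ∈ O := div_mem E O _ _ _ hN0 hv0 (ev_mem k E x O hk hx z hz _)
  have hy1 : y 1 ∈ O := div_mem E O _ _ _ hN1 hv1 (ev_mem k E x O hk hx z hz _)
  have hJi : J⁻¹ ∈ O := div_mem E O _ _ _ hNJ hvJ (ev_mem k E x O hk hx z hz _)
  have hyO : ∀ i, y i ∈ O := by
    intro i
    fin_cases i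
    · exact hy0
    · exact hy1
  have hΔO : ∀ e ∈ O, ∀ i, Δ i e ∈ O := hDO k E x z P m D hT hM Δ hΔ O hG
  obtain ⟨hP', -, hC', -⟩ := hCmp k E ρ hfin O hO.toPlc
  refine (hDvc k E x (cm ρ O)).2.1 hP' (fun i => hyO i) ?_
  by_contra hall
  rw [not_exists] at hall
  have hyC : ∀ i, y i ∈ Cst k O := fun i => (hC' (x i)).1 (not_not.1 (hall i))
  obtain ⟨-, hC2⟩ := hCst k E O hk
  obtain ⟨G0, hG0, hG0'⟩ := hC2 _ (hyC 0)
  obtain ⟨G1, hG1, hG1'⟩ := hC2 _ (hyC 1)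
  have : IsDiscreteValuationRing O := hO.toPlc.dvr
  obtain ⟨π, hπ⟩ := IsDiscreteValuationRing.exists_irreducible O
  have hπ1 : O.valuation (π : E) < 1 := by
    have h1 : π ∈ IsLocalRing.maximalIdeal O := hπ.not_isUnit
    exact (O.valuation_lt_one_iff π).1 h1
  have hdiv : ∀ a : E, O.valuation a < 1 → ∃ h : E, h ∈ O ∧ a = (π : E) * h := by
    intro a ha
    have haO : a ∈ O := (O.valuation_le_one_iff a).1 ha.le
    have h1 : (⟨a, haO⟩ : O) ∈ IsLocalRing.maximalIdeal O := (O.valuation_lt_one_iff ⟨a, haO⟩).2 ha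
    rw [hπ.maximalIdeal_eq, Ideal.mem_span_singleton] at h1
    obtain ⟨h, hh⟩ := h1
    exact ⟨h, h.2, congrArg Subtype.val hh⟩
  obtain ⟨h0, hh0, he0⟩ := hdiv _ hG0
  obtain ⟨h1, hh1, he1⟩ := hdiv _ hG1
  have key : ∀ (i : Fin 2) (u h : E) (G : Polynomial k), Polynomial.aeval u G = (π : E) * h →
      Polynomial.aeval u G.derivative * Δ i u = (π : E) * Δ i h + h * Δ i (π : E) := by
    intro i u h G hG
    have h2 := (Δ i).map_aeval G u
    rw [hG, Derivation.leibniz, smul_eq_mul, smul_eq_mul, smul_eq_mul] at h2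
    rw [← h2]
  have k00 := key 0 _ _ _ he0
  have k10 := key 1 _ _ _ he0
  have k01 := key 0 _ _ _ he1
  have k11 := key 1 _ _ _ he1
  set A0 : E := Polynomial.aeval (y 0) G0.derivative
  set A1 : E := Polynomial.aeval (y 1) G1.derivative
  set W : E := (π : E) * (Δ 0 h0 * Δ 1 h1) + Δ 0 h0 * (h1 * Δ 1 (π : E)) + h0 * Δ 0 (π : E) * Δ 1 h1 -
    ((π : E) * (Δ 0 h1 * Δ 1 h0) + Δ 0 h1 * (h0 * Δ 1 (π : E)) + h1 * Δ 0 (π : E) * Δ 1 h0) with hW
  have hWO : W ∈ O := by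
    have hπO : (π : E) ∈ O := π.2
    rw [hW]
    exact sub_mem (add_mem (add_mem (mul_mem hπO (mul_mem (hΔO _ hh0 0) (hΔO _ hh1 1)))
      (mul_mem (hΔO _ hh0 0) (mul_mem hh1 (hΔO _ hπO 1)))) (mul_mem (mul_mem hh0 (hΔO _ hπO 0)) (hΔO _ hh1 1)))
      (add_mem (add_mem (mul_mem hπO (mul_mem (hΔO _ hh1 0) (hΔO _ hh0 1)))
      (mul_mem (hΔO _ hh1 0) (mul_mem hh0 (hΔO _ hπO 1)))) (mul_mem (mul_mem hh1 (hΔO _ hπO 0)) (hΔO _ hh0 1)))
  have hfinal : A0 * A1 * J = (π : E) * W := by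
    have e1 : A0 * A1 * J = (A0 * Δ 0 (y 0)) * (A1 * Δ 1 (y 1)) - (A1 * Δ 0 (y 1)) * (A0 * Δ 1 (y 0)) := by
      rw [hJ]; ring
    rw [e1, k00, k11, k01, k10, hW]
    ring
  have hvJ' : O.valuation J = O.valuation (π : E) * O.valuation W := by
    have h2 := congrArg O.valuation hfinal
    rw [map_mul, map_mul, map_mul, hG0', hG1', one_mul, one_mul] at h2
    exact h2
  have hlt : O.valuation J < 1 := by
    rw [hvJ']
    exact mul_lt_one_of_lt_of_le hπ1 ((O.valuation_le_one_iff W).2 hWO)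
  have h3 : O.valuation J * O.valuation J⁻¹ < 1 :=
    mul_lt_one_of_lt_of_le hlt ((O.valuation_le_one_iff _).2 hJi)
  rw [← map_mul, mul_inv_cancel₀ hJ0, map_one] at h3
  exact lt_irrefl _ h3

end Pool.Agent.Lib.MP_16285c_agS.Cn
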