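import Pool.Agent.Lib.MP_16285c_agS.Can.Spec

/-!
# (F3): the numerators of the logarithmic form
-/

set_option autoImplicit false

namespace Pool.Agent.Lib.MP_16285c_agS.Cn

open Pool.Agent.Lib.MP_16285c_agS

namespace F3Aux

open MvPolynomial

/-! ## The linear change of coordinates -/

section poly

variable {k : Type} [Field k]

/-- `T₀ ↦ T₀ + c T₁`, `T₁ ↦ T₁`. -/
noncomputable def ph (c : k) : Po k →ₐ[k] Po k := aeval ![X 0 + C c * X 1, X 1]

theorem ph_X0 (c : k) : ph c (X 0) = X 0 + C c * X 1 := by simp [ph]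

theorem ph_X1 (c : k) : ph c (X 1) = X 1 := by simp [ph]

theorem ph_ph (c : k) (G : Po k) : ph (-c) (ph c G) = G := by
  have h : (ph (-c)).comp (ph c) = AlgHom.id k (Po k) := by
    apply MvPolynomial.algHom_ext
    intro i
    rw [AlgHom.comp_apply, AlgHom.id_apply]
    fin_cases i
    · change ph (-c) (ph c (X 0)) = X 0
      rw [ph_X0, map_add, map_mul, ph_X0, ph_X1, ← algebraMap_eq, AlgHom.commutes, map_neg]
      ring
    · change ph (-c) (ph c (X 1)) = X 1
      rw [ph_X1, ph_X1]
  exact congrArg (fun f : Po k →ₐ[k] Po k => f G) h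

theorem ph_ph' (c : k) (G : Po k) : ph c (ph (-c) G) = G := by
  have h := ph_ph (-c) G
  rwa [neg_neg] at h

theorem ph_inj (c : k) : Function.Injective (ph c) := Function.LeftInverse.injective (ph_ph c)

theorem ph_deg (c : k) (G : Po k) : (ph c G).totalDegree ≤ G.totalDegree := by
  have h0 : ∀ i : Fin 2, ((![X 0 + C c * X 1, X 1] : Fin 2 → Po k) i).totalDegree ≤ 1 := by
    intro i
    fin_cases i
    · change (X 0 + C c * X 1 : Po k).totalDegree ≤ 1
      refine (totalDegree_add _ _).trans (max_le (totalDegree_X 0).le ?_)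
      refine (totalDegree_mul _ _).trans ?_
      rw [totalDegree_C, totalDegree_X]
    · exact (totalDegree_X 1).le
  unfold ph
  rw [aeval_def, eval₂_eq']
  refine totalDegree_finsetSum_le fun s hs => ?_
  refine (totalDegree_mul _ _).trans ?_
  rw [algebraMap_eq, totalDegree_C, zero_add]
  refine (totalDegree_finsetProd _ _).trans ?_
  refine le_trans (Finset.sum_le_sum fun i _ => (totalDegree_pow _ _).trans
    (Nat.mul_le_mul_left (s i) (h0 i))) ?_
  have h1 : ∑ i : Fin 2, s i * 1 = s.sum fun _ e => e := by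
    rw [Finsupp.sum_fintype _ _ (fun _ => rfl)]
    simp
  rw [h1]
  exact le_totalDegree hs

theorem ph_deg_eq (c : k) (G : Po k) : (ph c G).totalDegree = G.totalDegree :=
  le_antisymm (ph_deg c G) (by
    have h := ph_deg (-c) (ph c G)
    rwa [ph_ph] at h)

theorem coeff_top (d : ℕ) (G : Po k) : coeff (Finsupp.single 1 d) G =
    (aeval ![(0 : Polynomial k), Polynomial.X] G : Polynomial k).coeff d := by
  induction G using MvPolynomial.induction_on' with
  | monomial s a =>
    rw [coeff_monomial, aeval_monomial, Finsupp.prod_fintype _ _ (fun _ => pow_zero _),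
      Fin.prod_univ_two]
    simp only [Matrix.cons_val_zero, Matrix.cons_val_one, Polynomial.algebraMap_apply,
      Algebra.algebraMap_self, RingHom.id_apply]
    by_cases h0 : s 0 = 0
    · rw [h0, pow_zero, one_mul, Polynomial.coeff_C_mul, Polynomial.coeff_X_pow]
      by_cases h1 : s 1 = d
      · have h2 : s = Finsupp.single 1 d := by
          ext i
          fin_cases i
          · simpa using h0
          · simpa using h1
        rw [if_pos h2, if_pos h1.symm, mul_one]
      · have h2 : s ≠ Finsupp.single 1 d := by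
          intro h
          apply h1
          rw [h]
          simp
        rw [if_neg h2, if_neg (Ne.symm h1), mul_zero]
    · have h2 : s ≠ Finsupp.single 1 d := by
        intro h
        apply h0
        rw [h]
        simp
      rw [if_neg h2, zero_pow h0, zero_mul, mul_zero, Polynomial.coeff_zero]
  | add p q hp hq => rw [coeff_add, map_add, Polynomial.coeff_add, hp, hq]

/-- The coefficient of `T₁ ^ d` of `ph c G` as a polynomial in `c`. -/
noncomputable def Qd (G : Po k) (d : ℕ) : Polynomial k :=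
  ∑ s ∈ G.support.filter (fun s => s 0 + s 1 = d), Polynomial.C (coeff s G) * Polynomial.X ^ s 0

theorem Qd_eval (G : Po k) (d : ℕ) (c : k) :
    coeff (Finsupp.single 1 d) (ph c G) = (Qd G d).eval c := by
  rw [coeff_top]
  have h1 : (aeval ![(0 : Polynomial k), Polynomial.X] (ph c G) : Polynomial k) =
      aeval ![Polynomial.C c * Polynomial.X, Polynomial.X] G := by
    have h2 : (aeval ![(0 : Polynomial k), Polynomial.X]).comp (ph c) =
        (aeval ![Polynomial.C c * Polynomial.X, Polynomial.X] : Po k →ₐ[k] Polynomial k) := by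
      apply MvPolynomial.algHom_ext
      intro i
      rw [AlgHom.comp_apply]
      fin_cases i
      · change aeval ![(0 : Polynomial k), Polynomial.X] (ph c (X 0)) = _
        rw [ph_X0]
        simp
      · change aeval ![(0 : Polynomial k), Polynomial.X] (ph c (X 1)) = _
        rw [ph_X1]
        simp
    exact congrArg (fun f : Po k →ₐ[k] Polynomial k => f G) h2
  rw [h1, aeval_def, eval₂_eq', Polynomial.finsetSum_coeff, Qd, Polynomial.eval_finsetSum,
    Finset.sum_filter]
  refine Finset.sum_congr rfl fun s _ => ?_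
  rw [Fin.prod_univ_two]
  simp only [Matrix.cons_val_zero, Matrix.cons_val_one, Polynomial.algebraMap_apply,
    Algebra.algebraMap_self, RingHom.id_apply]
  rw [Polynomial.coeff_C_mul, mul_pow, mul_assoc, ← pow_add, ← Polynomial.C_pow,
    Polynomial.coeff_C_mul, Polynomial.coeff_X_pow]
  by_cases h : s 0 + s 1 = d
  · rw [if_pos h.symm, if_pos h, Polynomial.eval_mul, Polynomial.eval_C, Polynomial.eval_pow,
      Polynomial.eval_X, mul_one]
  · rw [if_neg (Ne.symm h), if_neg h, mul_zero, mul_zero]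

theorem Qd_ne (G : Po k) (hG : G ≠ 0) : Qd G G.totalDegree ≠ 0 := by
  obtain ⟨s, hs, hsd⟩ : ∃ s ∈ G.support, s 0 + s 1 = G.totalDegree := by
    have hne : G.support.Nonempty := support_nonempty.2 hG
    obtain ⟨s, hs, h1⟩ := Finset.exists_mem_eq_sup G.support hne fun s => s.sum fun _ e => e
    refine ⟨s, hs, ?_⟩
    unfold MvPolynomial.totalDegree
    rw [h1, Finsupp.sum_fintype _ _ (fun _ => rfl), Fin.sum_univ_two]
  intro h0
  have h1 : (Qd G G.totalDegree).coeff (s 0) = coeff s G := by
    unfold Qd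
    rw [Polynomial.finsetSum_coeff, Finset.sum_eq_single s]
    · rw [Polynomial.coeff_C_mul, Polynomial.coeff_X_pow, if_pos rfl, mul_one]
    · intro u hu hus
      rw [Finset.mem_filter] at hu
      rw [Polynomial.coeff_C_mul, Polynomial.coeff_X_pow, if_neg, mul_zero]
      intro h2
      apply hus
      have h3 : u 1 = s 1 := by omega
      ext i
      fin_cases i
      · exact h2.symm
      · exact h3
    · intro h2
      exact absurd (Finset.mem_filter.2 ⟨hs, hsd⟩) h2
  rw [h0, Polynomial.coeff_zero] at h1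
  exact (mem_support_iff.1 hs) h1.symm

theorem exists_good [CharZero k] (G : Po k) (hG : G ≠ 0) : ∃ c c' : k, c ≠ c' ∧
    coeff (Finsupp.single 1 G.totalDegree) (ph c G) ≠ 0 ∧
    coeff (Finsupp.single 1 G.totalDegree) (ph c' G) ≠ 0 := by
  have h0 := Qd_ne G hG
  have hex : ∀ q : Polynomial k, q ≠ 0 → ∃ c, q.eval c ≠ 0 := by
    intro q hq
    by_contra hn
    push Not at hn
    exact hq (Polynomial.funext fun r => by rw [hn r, Polynomial.eval_zero])
  obtain ⟨c, hc⟩ := hex _ h0
  obtain ⟨c', hc'⟩ := hex (Qd G G.totalDegree * (Polynomial.X - Polynomial.C c))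
    (mul_ne_zero h0 (Polynomial.X_sub_C_ne_zero c))
  rw [Polynomial.eval_mul, Polynomial.eval_sub, Polynomial.eval_X, Polynomial.eval_C] at hc'
  refine ⟨c, c', ?_, ?_, ?_⟩
  · rintro rfl
    exact hc' (by rw [sub_self, mul_zero])
  · rw [Qd_eval]
    exact hc
  · rw [Qd_eval]
    exact left_ne_zero_of_mul hc'

theorem pderiv_ph (c : k) (G : Po k) :
    pderiv 1 (ph c G) = ph c (C c * pderiv 0 G + pderiv 1 G) := by
  induction G using MvPolynomial.induction_on with
  | C a =>
    rw [← algebraMap_eq, AlgHom.commutes, algebraMap_eq]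
    simp only [pderiv_C, mul_zero, add_zero, map_zero]
  | add p q hp hq =>
    have e0 : pderiv 0 (p + q) = pderiv 0 p + pderiv 0 q := map_add _ _ _
    have e1 : pderiv 1 (p + q) = pderiv 1 p + pderiv 1 q := map_add _ _ _
    rw [e0, e1, map_add (ph c) p q, map_add (pderiv 1), hp, hq, ← map_add (ph c)]
    congr 1
    ring
  | mul_X p i hp =>
    rw [map_mul, pderiv_mul, hp, pderiv_mul, pderiv_mul]
    fin_cases i
    · change ph c (C c * pderiv 0 p + pderiv 1 p) * ph c (X 0) + ph c p * pderiv 1 (ph c (X 0)) =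
        ph c (C c * (pderiv 0 p * X 0 + p * pderiv 0 (X 0)) + (pderiv 1 p * X 0 + p * pderiv 1 (X 0)))
      have h1 : pderiv 1 (ph c (X 0)) = ph c (C c) := by
        rw [ph_X0, map_add, pderiv_mul, pderiv_C, pderiv_X_self, pderiv_X_of_ne (by decide),
          ← algebraMap_eq, AlgHom.commutes]
        ring
      rw [h1, pderiv_X_self, pderiv_X_of_ne (by decide), ← map_mul, ← map_mul, ← map_add]
      congr 1
      ring
    · change ph c (C c * pderiv 0 p + pderiv 1 p) * ph c (X 1) + ph c p * pderiv 1 (ph c (X 1)) =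
        ph c (C c * (pderiv 0 p * X 1 + p * pderiv 0 (X 1)) + (pderiv 1 p * X 1 + p * pderiv 1 (X 1)))
      have h1 : pderiv 1 (ph c (X 1)) = ph c 1 := by
        rw [ph_X1, pderiv_X_self, map_one]
      rw [h1, pderiv_X_self, pderiv_X_of_ne (by decide), ← map_mul, ← map_mul, ← map_add]
      congr 1
      ring

theorem wle_map {m N : ℕ} {H : PZ k} (h : Wle m N H) (c : k) :
    Wle m N (H.map (ph c).toRingHom) := by
  intro e he
  have h1 : e ∈ H.support := Polynomial.support_map_subset _ _ he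
  rw [Polynomial.coeff_map]
  exact (Nat.add_le_add_right (ph_deg c _) _).trans (h e h1)

theorem wle_comb {m N : ℕ} {H H' : PZ k} (h : Wle m N H) (h' : Wle m N H') (a b : k) :
    Wle m N (Polynomial.C (C a) * H + Polynomial.C (C b) * H') := by
  intro e he
  rw [Polynomial.mem_support_iff, Polynomial.coeff_add, Polynomial.coeff_C_mul,
    Polynomial.coeff_C_mul] at he
  rw [Polynomial.coeff_add, Polynomial.coeff_C_mul, Polynomial.coeff_C_mul]
  have hb : ∀ (a : k) (G : Po k), (C a * G).totalDegree ≤ G.totalDegree := by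
    intro a G
    refine (totalDegree_mul _ _).trans ?_
    rw [totalDegree_C, zero_add]
  by_cases h1 : H.coeff e = 0
  · rw [h1, mul_zero, zero_add] at he ⊢
    have h2 : H'.coeff e ≠ 0 := right_ne_zero_of_mul he
    exact (Nat.add_le_add_right (hb b _) _).trans (h' e (Polynomial.mem_support_iff.2 h2))
  · have h3 := h e (Polynomial.mem_support_iff.2 h1)
    by_cases h2 : H'.coeff e = 0
    · rw [h2, mul_zero, add_zero]
      exact (Nat.add_le_add_right (hb a _) _).trans h3
    · have h4 := h' e (Polynomial.mem_support_iff.2 h2)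
      have h5 := totalDegree_add (C a * H.coeff e) (C b * H'.coeff e)
      have h6 := hb a (H.coeff e)
      have h7 := hb b (H'.coeff e)
      have h8 : (C a * H.coeff e + C b * H'.coeff e).totalDegree ≤
          max (H.coeff e).totalDegree (H'.coeff e).totalDegree :=
        h5.trans (max_le_max h6 h7)
      rcases le_total (H.coeff e).totalDegree (H'.coeff e).totalDegree with h9 | h9
      · rw [max_eq_right h9] at h8
        omega
      · rw [max_eq_left h9] at h8
        omega

end poly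

/-! ## Residues -/

section res

variable {k E : Type} [Field k] [Field E] [Algebra k E]

/-- The constants in `O`. -/
def ic (O : ValuationSubring E) (hO : ∀ c : k, algebraMap k E c ∈ O) : k →+* O :=
  (algebraMap k E).codRestrict O hO

theorem ic_coe (O : ValuationSubring E) (hO : ∀ c : k, algebraMap k E c ∈ O) (c : k) :
    ((ic O hO c : O) : E) = algebraMap k E c := rfl

theorem res_exists (O : ValuationSubring E) (hO : ∀ c : k, algebraMap k E c ∈ O) :
    ∃ (κ : Type) (_ : Field κ) (_ : Algebra k κ) (r : O →+* κ), Function.Surjective r ∧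
      (∀ a : O, r a = 0 ↔ O.valuation (a : E) < 1) ∧ ∀ c : k, algebraMap k κ c = r (ic O hO c) := by
  refine ⟨IsLocalRing.ResidueField O, inferInstance,
    ((IsLocalRing.residue O).comp (ic O hO)).toAlgebra, IsLocalRing.residue O,
    IsLocalRing.residue_surjective, ?_, fun _ => rfl⟩
  intro a
  rw [IsLocalRing.residue_eq_zero_iff, ValuationSubring.valuation_lt_one_iff]

theorem ev_res (O : ValuationSubring E) (hO : ∀ c : k, algebraMap k E c ∈ O) {κ : Type} [Field κ]
    [Algebra k κ] (r : O →+* κ) (hr : ∀ c : k, algebraMap k κ c = r (ic O hO c)) (y : Fin 2 → O)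
    (w : O) (N : PZ k) : ∃ b : O, (b : E) = ev (fun j => (y j : E)) (w : E) N ∧
      r b = ev (fun j => r (y j)) (r w) N := by
  refine ⟨Polynomial.eval₂RingHom (eval₂Hom (ic O hO) y) w N, ?_, ?_⟩
  · have h : (algebraMap O E).comp (Polynomial.eval₂RingHom (eval₂Hom (ic O hO) y) w) =
        ev (fun j => (y j : E)) (w : E) := by
      apply Polynomial.ringHom_ext'
      · apply MvPolynomial.ringHom_ext
        · intro c
          simp [ev]
          rfl
        · intro i
          simp [ev]
      · simp [ev]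
    exact congrArg (fun f : PZ k →+* E => f N) h
  · have h : r.comp (Polynomial.eval₂RingHom (eval₂Hom (ic O hO) y) w) =
        ev (fun j => r (y j)) (r w) := by
      apply Polynomial.ringHom_ext'
      · apply MvPolynomial.ringHom_ext
        · intro c
          simp [ev, hr]
        · intro i
          simp [ev]
      · simp [ev]
    exact congrArg (fun f : PZ k →+* κ => f N) h

theorem ev_lt (O : ValuationSubring E) (hO : ∀ c : k, algebraMap k E c ∈ O) {κ : Type} [Field κ]
    [Algebra k κ] (r : O →+* κ) (hr0 : ∀ a : O, r a = 0 ↔ O.valuation (a : E) < 1)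
    (hr : ∀ c : k, algebraMap k κ c = r (ic O hO c)) (y : Fin 2 → O)
    (w : O) (N : PZ k) : O.valuation (ev (fun j => (y j : E)) (w : E) N) < 1 ↔
      ev (fun j => r (y j)) (r w) N = 0 := by
  obtain ⟨b, hb, hb'⟩ := ev_res O hO r hr y w N
  rw [← hb, ← hb', hr0]

theorem ev_C (y : Fin 2 → E) (w : E) (G : Po k) : ev y w (Polynomial.C G) = aeval y G := by
  simp [ev]

/-- `N^c(t₀ - c t₁, t₁, z) = N(t, z)`. -/
theorem ev_ph (t y : Fin 2 → E) (z : E) (c : k) (h0 : y 0 = t 0 - algebraMap k E c * t 1)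
    (h1 : y 1 = t 1) (N : PZ k) : ev y z (N.map (ph c).toRingHom) = ev t z N := by
  have h : (ev y z).comp (Polynomial.mapRingHom (ph c).toRingHom) = ev t z := by
    apply Polynomial.ringHom_ext'
    · apply MvPolynomial.ringHom_ext
      · intro a
        have h2 : ph c (C a) = C a := by
          rw [← algebraMap_eq, AlgHom.commutes]
        simp [ev, h2]
      · intro i
        fin_cases i
        · have h2 : ph c (X 0) = X 0 + C c * X 1 := ph_X0 c
          simp [ev, h2, h0, h1]
        · have h2 : ph c (X 1) = X 1 := ph_X1 c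
          simp [ev, h2, h1]
    · simp [ev]
  exact congrArg (fun f : PZ k →+* E => f N) h

theorem aeval_ph (t y : Fin 2 → E) (c : k) (h0 : y 0 = t 0 - algebraMap k E c * t 1)
    (h1 : y 1 = t 1) (G : Po k) : aeval y (ph c G) = aeval t G := by
  have h := ev_ph t y 0 c h0 h1 (Polynomial.C G)
  rw [Polynomial.map_C, ev_C, ev_C] at h
  exact h

theorem z_mem (O : ValuationSubring E) (hO : ∀ c : k, algebraMap k E c ∈ O) (t : Fin 2 → E)
    (ht : ∀ j, t j ∈ O) (z : E) (P : PZ k) (hP : P.Monic) (hz : ev t z P = 0) : z ∈ O := by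
  have hi : IsIntegral O z := by
    refine ⟨P.map (eval₂Hom (ic O hO) fun j => (⟨t j, ht j⟩ : O)), hP.map _, ?_⟩
    rw [Polynomial.eval₂_map]
    have h : (algebraMap O E).comp (eval₂Hom (ic O hO) fun j => (⟨t j, ht j⟩ : O)) =
        (aeval t : Po k →ₐ[k] E).toRingHom := by
      apply MvPolynomial.ringHom_ext
      · intro c
        simp
        rfl
      · intro i
        simp
    rw [h]
    exact hz
  obtain ⟨a, ha⟩ := IsIntegrallyClosed.isIntegral_iff.1 hi
  rw [← ha]
  exact a.2

theorem lt_comb (O : ValuationSubring E) (hO : ∀ c : k, algebraMap k E c ∈ O) (a b : k) {u v : E}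
    (hu : O.valuation u < 1) (hv : O.valuation v < 1) :
    O.valuation (algebraMap k E a * u + algebraMap k E b * v) < 1 := by
  have h : ∀ (a : k) (u : E), O.valuation u < 1 → O.valuation (algebraMap k E a * u) < 1 := by
    intro a u hu
    rw [map_mul]
    have h1 : O.valuation (algebraMap k E a) ≤ 1 := (O.valuation_le_one_iff _).2 (hO a)
    exact (mul_le_of_le_one_left' h1).trans_lt hu
  exact O.valuation.map_add_lt (h a u hu) (h b v hv)

/-- `t₀ - c t₁` is not algebraic over `k` modulo the maximal ideal. -/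
theorem not_cst [CharZero k] (hCst : S_Cst) (hDvc : S_Dvc) (O : ValuationSubring E) (t : Fin 2 → E)
    (hDv : Dv k t O) (ht : ∀ j, t j ∈ O) (R : Po k) (hR : Irreducible R) (c : k)
    (hc : coeff (Finsupp.single 1 R.totalDegree) (ph c R) ≠ 0)
    (hv : O.valuation (aeval t R) < 1) : t 0 - algebraMap k E c * t 1 ∉ Cst k O := by
  intro hmem
  obtain ⟨⟨B, hB, hBk, hBint, -, hBv, -⟩, -⟩ := hCst k E O hDv.con
  obtain ⟨i, hi⟩ := (hDvc k E t O).1 hDv ht
  have hy0 : t 0 - algebraMap k E c * t 1 ∈ B := (hB _).2 hmem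
  obtain ⟨d, hd⟩ : ∃ d, d = R.totalDegree := ⟨_, rfl⟩
  rw [← hd] at hc
  have hd1 : d ≠ 0 := by
    intro h0
    rw [hd] at h0
    rw [totalDegree_eq_zero_iff_eq_C] at h0
    rw [h0, ← algebraMap_eq, AlgHom.commutes] at hv
    have h2 : coeff 0 R ≠ 0 := by
      intro h3
      rw [h3, map_zero] at h0
      exact hR.ne_zero h0
    have h4 : algebraMap k E (coeff 0 R) * algebraMap k E (coeff 0 R)⁻¹ = 1 := by
      rw [← map_mul, mul_inv_cancel₀ h2, map_one]
    have h5 : O.valuation (algebraMap k E (coeff 0 R)⁻¹) ≤ 1 :=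
      (O.valuation_le_one_iff _).2 (hDv.con _)
    have h6 := congrArg O.valuation h4
    rw [map_mul, map_one] at h6
    have h7 : O.valuation (algebraMap k E (coeff 0 R)) * O.valuation (algebraMap k E (coeff 0 R)⁻¹) < 1 :=
      (mul_le_of_le_one_right' h5).trans_lt hv
    exact absurd h6 h7.ne
  obtain ⟨y, hy⟩ : ∃ y : Fin 2 → E, y = ![t 0 - algebraMap k E c * t 1, t 1] := ⟨_, rfl⟩
  have e0 : y 0 = t 0 - algebraMap k E c * t 1 := by rw [hy]; rfl
  have e1 : y 1 = t 1 := by rw [hy]; rfl
  have hval : aeval y (ph c R) = aeval t R := aeval_ph t y c e0 e1 R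
  have hε : aeval t R ∈ B := hBv _ hv
  obtain ⟨ib, hib⟩ : ∃ ib : k →+* B, ib = (algebraMap k E).codRestrict B hBk := ⟨_, rfl⟩
  have hibc : ∀ a : k, ((ib a : B) : E) = algebraMap k E a := by
    intro a
    rw [hib]
    rfl
  obtain ⟨a, ha⟩ : ∃ a, a = coeff (Finsupp.single 1 d) (ph c R) := ⟨_, rfl⟩
  rw [← ha] at hc
  obtain ⟨p, hp⟩ : ∃ p : Polynomial B, p = ∑ s ∈ (ph c R).support,
    Polynomial.C (ib (coeff s (ph c R)) * ⟨_, hy0⟩ ^ s 0) * Polynomial.X ^ s 1 := ⟨_, rfl⟩
  have hsd : ∀ s ∈ (ph c R).support, s 0 + s 1 ≤ d := by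
    intro s hs
    have h1 := le_totalDegree hs
    rw [Finsupp.sum_fintype _ _ (fun _ => rfl), Fin.sum_univ_two] at h1
    exact h1.trans ((ph_deg c R).trans hd.ge)
  have hpn : p.natDegree ≤ d := by
    rw [hp]
    refine Polynomial.natDegree_sum_le_of_forall_le _ _ fun s hs => ?_
    refine (Polynomial.natDegree_C_mul_X_pow_le _ _).trans ?_
    have := hsd s hs
    omega
  have hpc : p.coeff d = ib a := by
    rw [hp, Polynomial.finsetSum_coeff, Finset.sum_eq_single (Finsupp.single 1 d)]
    · rw [Polynomial.coeff_C_mul, Polynomial.coeff_X_pow, ← ha]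
      simp
    · intro s hs hne
      rw [Polynomial.coeff_C_mul, Polynomial.coeff_X_pow, if_neg, mul_zero]
      intro h1
      apply hne
      have h2 := hsd s hs
      ext i
      fin_cases i
      · change s 0 = (Finsupp.single 1 d : Fin 2 →₀ ℕ) 0
        rw [Finsupp.single_apply, if_neg (by decide)]
        omega
      · change s 1 = (Finsupp.single 1 d : Fin 2 →₀ ℕ) 1
        rw [Finsupp.single_apply, if_pos rfl]
        exact h1.symm
    · intro h1
      rw [notMem_support_iff, ← ha] at h1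
      exact absurd h1 hc
  have hpe : Polynomial.eval₂ (algebraMap B E) (t 1) p = aeval t R := by
    rw [← hval, hp, Polynomial.eval₂_finsetSum, aeval_def, eval₂_eq']
    refine Finset.sum_congr rfl fun s _ => ?_
    rw [Polynomial.eval₂_mul, Polynomial.eval₂_C, Polynomial.eval₂_pow, Polynomial.eval₂_X,
      Fin.prod_univ_two, e0, e1, map_mul, map_pow]
    rw [mul_assoc]
    congr 1
    exact hibc _
  have hint : IsIntegral B (t 1) := by
    refine ⟨Polynomial.C (ib a⁻¹) * (p - Polynomial.C ⟨_, hε⟩), ?_, ?_⟩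
    · refine Polynomial.monic_of_natDegree_le_of_coeff_eq_one d ?_ ?_
      · refine (Polynomial.natDegree_C_mul_le _ _).trans ?_
        refine (Polynomial.natDegree_sub_le _ _).trans (max_le hpn ?_)
        rw [Polynomial.natDegree_C]
        exact Nat.zero_le _
      · rw [Polynomial.coeff_C_mul, Polynomial.coeff_sub, hpc, Polynomial.coeff_C, if_neg hd1,
          sub_zero, ← map_mul, inv_mul_cancel₀ hc, map_one]
    · rw [Polynomial.eval₂_mul, Polynomial.eval₂_sub, hpe, Polynomial.eval₂_C, Polynomial.eval₂_C]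
      have h1 : algebraMap B E (⟨_, hε⟩ : B) = aeval t R := rfl
      rw [h1, sub_self, mul_zero]
  have ht1 : t 1 ∈ B := hBint _ hint
  have ht0 : t 0 ∈ B := by
    have h1 := B.add_mem hy0 (B.mul_mem (hBk c) ht1)
    rwa [sub_add_cancel] at h1
  have hall : ∀ i, t i ∈ B := by
    intro i
    fin_cases i
    · exact ht0
    · exact ht1
  exact hi ((hB _).1 (hall i))

/-- The residue of the point `(y, z)`, `y = (t₀ - c t₁, t₁)`. -/
theorem point [CharZero k] (hCst : S_Cst) (hDvc : S_Dvc) (O : ValuationSubring E) (t y : Fin 2 → E)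
    (z : E) (P : PZ k) (hPm : P.Monic) (hPz : ev t z P = 0)
    (hDv : Dv k t O) (ht : ∀ j, t j ∈ O) (R : Po k) (hR : Irreducible R) (c : k)
    (h0 : y 0 = t 0 - algebraMap k E c * t 1) (h1 : y 1 = t 1)
    (hc : coeff (Finsupp.single 1 R.totalDegree) (ph c R) ≠ 0)
    (hv : O.valuation (aeval t R) < 1) :
    ∃ (κ : Type) (_ : Field κ) (_ : Algebra k κ) (r : O →+* κ) (Y : Fin 2 → κ) (W : κ),
      Function.Surjective r ∧ (∀ N : PZ k, ∃ b : O, (b : E) = ev y z N ∧ r b = ev Y W N) ∧
      (∀ N : PZ k, O.valuation (ev y z N) < 1 ↔ ev Y W N = 0) ∧ Transcendental k (Y 0) := by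
  obtain ⟨κ, hκ1, hκ2, r, hs, hr0, hr⟩ := res_exists O hDv.con
  have hz : z ∈ O := z_mem O hDv.con t ht z P hPm hPz
  have hy : ∀ j, y j ∈ O := by
    intro j
    fin_cases j
    · change y 0 ∈ O
      rw [h0]
      exact O.sub_mem (ht 0) (O.mul_mem _ _ (hDv.con c) (ht 1))
    · change y 1 ∈ O
      rw [h1]
      exact ht 1
  have hlt : ∀ N : PZ k, O.valuation (ev y z N) < 1 ↔
      ev (fun j => r ⟨y j, hy j⟩) (r ⟨z, hz⟩) N = 0 := fun N =>
    ev_lt O hDv.con r hr0 hr (fun j => ⟨y j, hy j⟩) ⟨z, hz⟩ N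
  refine ⟨κ, hκ1, hκ2, r, fun j => r ⟨y j, hy j⟩, r ⟨z, hz⟩, hs,
    fun N => ev_res O hDv.con r hr (fun j => ⟨y j, hy j⟩) ⟨z, hz⟩ N, hlt, ?_⟩
  rintro ⟨G, hG, hG0⟩
  refine not_cst hCst hDvc O t hDv ht R hR c hc hv ⟨G, hG, ?_⟩
  have h2 := (hlt (Polynomial.C (Polynomial.aeval (X 0) G))).2 (by
    rw [ev_C, ← Polynomial.aeval_algHom_apply, aeval_X]
    exact hG0)
  rw [ev_C, ← Polynomial.aeval_algHom_apply, aeval_X, h0] at h2
  exact h2

theorem main_c [CharZero k] (hCst : S_Cst) (hDvc : S_Dvc) (hUnr : S_Unr) (hTrB : S_TrB)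
    (t : Fin 2 → E) (z : E) (P : PZ k) (m : ℕ) (D : Po k) (hTb : Tb k t) (hM : Mdl k t z P m D)
    (O : ValuationSubring E) (hO : Gd k t D O) (R : Po k) (hR : Irreducible R)
    (hRO : ∀ G : Po k, O.valuation (aeval t G) < 1 ↔ R ∣ G) (c : k)
    (hc : coeff (Finsupp.single 1 R.totalDegree) (ph c R) ≠ 0) :
    ∃ H : PZ k, Wle m (R.totalDegree + m * P.natDegree) H ∧
      O.valuation (ev t z H -
        aeval t (C c * pderiv 0 R + pderiv 1 R) * ev t z P.derivative) < 1 ∧
      ∀ O₁ : ValuationSubring E, Dv k t O₁ → (∀ j, t j ∈ O₁) →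
        O₁.valuation (aeval t R) < 1 → O₁ ≠ O → O₁.valuation (ev t z H) < 1 := by
  obtain ⟨y, hy⟩ : ∃ y : Fin 2 → E, y = ![t 0 - algebraMap k E c * t 1, t 1] := ⟨_, rfl⟩
  have e0 : y 0 = t 0 - algebraMap k E c * t 1 := by rw [hy]; rfl
  have e1 : y 1 = t 1 := by rw [hy]; rfl
  have hev := ev_ph t y z c e0 e1
  have hae := aeval_ph t y c e0 e1
  have hv : O.valuation (aeval t R) < 1 := (hRO R).2 dvd_rfl
  obtain ⟨hU1, -, hU3⟩ := hUnr k E t z P m D hTb hM O hO R hR hRO
  obtain ⟨κ, hκ1, hκ2, r, Y, W, hs, hb, hlt, htr⟩ := point hCst hDvc O t y z P hM.mon hM.rt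
    hO.toDv hO.fin R hR c e0 e1 hc hv
  have hdeg : (P.map (ph c).toRingHom).natDegree = P.natDegree := hM.mon.natDegree_map _
  have hlt0 : ∀ (O' : ValuationSubring E), O'.valuation (0 : E) < 1 := by
    intro O'
    rw [map_zero]
    exact zero_lt_one
  obtain ⟨H, hH1, hH2, hH3⟩ := hTrB k κ Y W (ph c R) (P.map (ph c).toRingHom) m htr (by
      intro a
      obtain ⟨e, rfl⟩ := hs a
      obtain ⟨N, B, hB, hN⟩ := hU1 e e.2
      refine ⟨N.map (ph c).toRingHom, B.map (ph c).toRingHom, ?_, ?_⟩
      · intro h0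
        rw [← hlt, hev, hB] at h0
        exact lt_irrefl _ h0
      · obtain ⟨b1, hb1, hb1'⟩ := hb (B.map (ph c).toRingHom)
        obtain ⟨b2, hb2, hb2'⟩ := hb (N.map (ph c).toRingHom)
        rw [← hb1', ← hb2', ← map_mul]
        congr 1
        apply Subtype.ext
        rw [hb2, hev]
        change (e : E) * (b1 : E) = _
        rw [hb1, hev]
        exact hN)
    (by
      rw [← ev_C Y W, ← hlt, ev_C, hae]
      exact hv)
    (by
      intro h0
      exact hR.ne_zero (ph_inj c (by rw [h0, map_zero])))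
    (by
      rw [ph_deg_eq]
      exact hc)
    (hM.mon.map _)
    (by
      rw [← hlt, hev, hM.rt]
      exact hlt0 O)
    (by
      rw [hdeg]
      exact wle_map hM.wt c)
  rw [ph_deg_eq, hdeg] at hH1
  have hcomp : (ph c).toRingHom.comp (ph (-c)).toRingHom = RingHom.id (Po k) := by
    apply RingHom.ext
    intro G
    exact ph_ph' c G
  have hevH : ev t z (H.map (ph (-c)).toRingHom) = ev y z H := by
    rw [← hev, Polynomial.map_map, hcomp, Polynomial.map_id]
  refine ⟨H.map (ph (-c)).toRingHom, wle_map hH1 (-c), ?_, ?_⟩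
  · have h2 : ev t z (H.map (ph (-c)).toRingHom) -
        aeval t (C c * pderiv 0 R + pderiv 1 R) * ev t z P.derivative =
        ev y z (H - Polynomial.C (pderiv 1 (ph c R)) * (P.map (ph c).toRingHom).derivative) := by
      rw [hevH, map_sub, map_mul, ev_C, pderiv_ph, hae, Polynomial.derivative_map, hev]
    rw [h2, hlt, map_sub, map_mul, ev_C, hH2, sub_self]
  · intro O₁ hDv₁ ht₁ hv₁ hne
    obtain ⟨κ₁, hκ₁1, hκ₁2, r₁, Y₁, W₁, hs₁, hb₁, hlt₁, htr₁⟩ := point hCst hDvc O₁ t y z P hM.mon
      hM.rt hDv₁ ht₁ R hR c e0 e1 hc hv₁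
    rw [hevH, hlt₁]
    rcases hH3 κ₁ Y₁ W₁ htr₁ (by
        rw [← ev_C Y₁ W₁, ← hlt₁, ev_C, hae]
        exact hv₁) (by
        rw [← hlt₁, hev, hM.rt]
        exact hlt0 O₁) with h | h
    · exact h
    · exfalso
      apply hne
      refine hU3 O₁ hDv₁.toPlc ht₁ fun N => ?_
      rw [← hev, hlt, h, ← hlt₁]

end res

end F3Aux

open F3Aux MvPolynomial in
/-- (F3) -/
theorem tF3 : S_Cst → S_Dvc → S_Unr → S_TrB → S_F3 := by
  intro hCst hDvc hUnr hTrB k E _ _ _ _ t z P m D hTb hM O hO R hR hRO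
  obtain ⟨c, c', hcc, hc, hc'⟩ := exists_good R hR.ne_zero
  obtain ⟨H, hH1, hH2, hH3⟩ := main_c hCst hDvc hUnr hTrB t z P m D hTb hM O hO R hR hRO c hc
  obtain ⟨H', hH1', hH2', hH3'⟩ := main_c hCst hDvc hUnr hTrB t z P m D hTb hM O hO R hR hRO c' hc'
  have hcon := hO.toDv.con
  obtain ⟨q, hq⟩ : ∃ q, q = (c - c')⁻¹ := ⟨_, rfl⟩
  have hqc : q * (c - c') = 1 := by
    rw [hq]
    exact inv_mul_cancel₀ (sub_ne_zero.2 hcc)
  have hev : ∀ a b : k, ev t z (Polynomial.C (C a) * H + Polynomial.C (C b) * H') =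
      algebraMap k E a * ev t z H + algebraMap k E b * ev t z H' := by
    intro a b
    rw [map_add, map_mul, map_mul, ev_C, ev_C, ← algebraMap_eq, AlgHom.commutes, AlgHom.commutes]
  have key : ∀ (a b : k) (i : Fin 2), aeval t (pderiv i R) =
      algebraMap k E a * aeval t (C c * pderiv 0 R + pderiv 1 R) +
        algebraMap k E b * aeval t (C c' * pderiv 0 R + pderiv 1 R) →
      ∃ G : PZ k, Wle m (R.totalDegree + m * P.natDegree) G ∧
      O.valuation (ev t z G -
        MvPolynomial.aeval t (MvPolynomial.pderiv i R) * ev t z P.derivative) < 1 ∧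
      ∀ O₁ : ValuationSubring E, Dv k t O₁ → (∀ j, t j ∈ O₁) →
        O₁.valuation (MvPolynomial.aeval t R) < 1 → O₁ ≠ O → O₁.valuation (ev t z G) < 1 := by
    intro a b i hi
    refine ⟨Polynomial.C (C a) * H + Polynomial.C (C b) * H', wle_comb hH1 hH1' a b, ?_, ?_⟩
    · rw [hev, hi]
      have h := lt_comb O hcon a b hH2 hH2'
      have h2 : algebraMap k E a * ev t z H + algebraMap k E b * ev t z H' -
          (algebraMap k E a * aeval t (C c * pderiv 0 R + pderiv 1 R) +
            algebraMap k E b * aeval t (C c' * pderiv 0 R + pderiv 1 R)) * ev t z P.derivative =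
          algebraMap k E a * (ev t z H -
            aeval t (C c * pderiv 0 R + pderiv 1 R) * ev t z P.derivative) +
          algebraMap k E b * (ev t z H' -
            aeval t (C c' * pderiv 0 R + pderiv 1 R) * ev t z P.derivative) := by
        ring
      rw [h2]
      exact h
    · intro O₁ h1 h2 h3 h4
      rw [hev]
      exact lt_comb O₁ h1.con a b (hH3 O₁ h1 h2 h3 h4) (hH3' O₁ h1 h2 h3 h4)
  have hexp : ∀ c : k, aeval t (C c * pderiv 0 R + pderiv 1 R) =
      algebraMap k E c * aeval t (pderiv 0 R) + aeval t (pderiv 1 R) := by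
    intro c
    rw [map_add, map_mul, ← algebraMap_eq, AlgHom.commutes]
  have hqE : algebraMap k E q * (algebraMap k E c - algebraMap k E c') = 1 := by
    rw [← map_sub, ← map_mul, hqc, map_one]
  obtain ⟨G0, hG0⟩ := key q (-q) 0 (by
    rw [hexp, hexp, map_neg]
    linear_combination (-(aeval t (pderiv 0 R))) * hqE)
  obtain ⟨G1, hG1⟩ := key (-(c' * q)) (c * q) 1 (by
    rw [hexp, hexp, map_neg, map_mul, map_mul]
    linear_combination (-(aeval t (pderiv 1 R))) * hqE)
  refine ⟨![G0, G1], fun i => ?_⟩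
  fin_cases i
  · exact hG0
  · exact hG1

end Pool.Agent.Lib.MP_16285c_agS.Cn
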