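import Pool.Agent.Lib.MP_16285c_agS.Can.Spec

/-!
# Package CAN: pullback of logarithmic forms (`S_F5`)
-/

set_option autoImplicit false

namespace Pool.Agent.Lib.MP_16285c_agS.Cn

open Pool.Agent.Lib.MP_16285c_agS

namespace F5Aux

variable {k E : Type} [Field k] [Field E] [Algebra k E]

theorem smul_mem_Om (Δ : Fin 2 → Derivation k E E) (O : ValuationSubring E) (a : E) (ha : a ∈ O)
    (w : Fin 2 → E) (hw : w ∈ Om Δ O) : a • w ∈ Om Δ O :=
  (Om Δ O).smul_mem (⟨a, ha⟩ : O) hw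

theorem dd_mem_Om (Δ : Fin 2 → Derivation k E E) (O : ValuationSubring E) (a : E) (ha : a ∈ O) :
    dd Δ a ∈ Om Δ O :=
  Submodule.subset_span ⟨(⟨a, ha⟩ : O), rfl⟩

theorem dd_mul (Δ : Fin 2 → Derivation k E E) (a b : E) :
    dd Δ (a * b) = a • dd Δ b + b • dd Δ a := by
  funext i
  simp only [dd, Pi.add_apply, Pi.smul_apply, Derivation.leibniz]

/-- An element of the maximal ideal which divides all its elements is irreducible. -/
theorem irr_of (O : ValuationSubring E) [IsDiscreteValuationRing O] (r : O) (hr : (r : E) ≠ 0)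
    (hv : ¬ IsUnit r) (hd : ∀ e : E, O.valuation e < 1 → e / r ∈ O) : Irreducible r := by
  obtain ⟨ϖ, hϖ⟩ := IsDiscreteValuationRing.exists_irreducible O
  have h1 : O.valuation (ϖ : E) < 1 := by
    rw [← ValuationSubring.valuation_lt_one_iff]
    exact (IsLocalRing.mem_maximalIdeal _).2 hϖ.not_isUnit
  have h2 := hd _ h1
  have h3 : ϖ = r * ⟨_, h2⟩ := by
    apply Subtype.ext
    change (ϖ : E) = r * (ϖ / r)
    field_simp
  rcases hϖ.isUnit_or_isUnit h3 with h4 | h4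
  · exact (hv h4).elim
  · have h5 : Associated r ϖ := by
      obtain ⟨u, hu⟩ := h4
      refine ⟨u, ?_⟩
      rw [hu, ← h3]
    exact h5.irreducible_iff.2 hϖ

end F5Aux

theorem tF5 : S_Pb → S_F5 := by
  intro hPb k E _ _ _ _ x hx Δ hΔ ρ
  obtain ⟨p1, p2, p3, p4⟩ := hPb k E x hx Δ hΔ ρ
  constructor
  · intro O ω r hI hr0 hr1 hr2 hω
    have hcm : cm ρ O = O := by
      ext a
      exact hI.inv a
    have hdvr : IsDiscreteValuationRing O := hI.dvr
    have hrO : r ∈ O := (O.valuation_le_one_iff r).1 hr1.le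
    have hrn : ¬ IsUnit (⟨r, hrO⟩ : O) := by
      intro h
      have h1 := (O.valuation_eq_one_iff (⟨r, hrO⟩ : O)).1 h
      exact hr1.ne h1
    have hirr : Irreducible (⟨r, hrO⟩ : O) := F5Aux.irr_of O ⟨r, hrO⟩ hr0 hrn hr2
    obtain ⟨v, hv1, hv2⟩ := hI.uni _ hirr
    have hv3 : O.valuation (ρ r) < 1 := by
      have h1 : O.valuation (v : E) < 1 := by
        rw [← ValuationSubring.valuation_lt_one_iff]
        exact (IsLocalRing.mem_maximalIdeal _).2 hv2.not_isUnit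
      rwa [hv1] at h1
    have hc := hr2 _ hv3
    have hρr : ρ r ≠ 0 := by
      rw [Ne, map_eq_zero]
      exact hr0
    have hcu : IsUnit (⟨ρ r / r, hc⟩ : O) := by
      have h1 : v = (⟨r, hrO⟩ : O) * ⟨ρ r / r, hc⟩ := by
        apply Subtype.ext
        change (v : E) = r * (ρ r / r)
        rw [hv1]
        field_simp
      rcases hv2.isUnit_or_isUnit h1 with h2 | h2
      · exact (hrn h2).elim
      · exact h2
    have hci : (ρ r / r)⁻¹ ∈ O := by
      rw [← ValuationSubring.valuation_le_one_iff, map_inv₀]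
      have h1 := (O.valuation_eq_one_iff (⟨ρ r / r, hc⟩ : O)).1 hcu
      change O.valuation (ρ r / r) = 1 at h1
      rw [h1, inv_one]
    have hη : pb ρ x Δ (ω - r⁻¹ • dd Δ r) ∈ Om Δ O := by
      apply p4
      rw [hcm]
      exact hω
    have h5 : pb ρ x Δ ω = pb ρ x Δ (ω - r⁻¹ • dd Δ r) + (ρ r)⁻¹ • dd Δ (ρ r) := by
      have h6 := p3 (ω - r⁻¹ • dd Δ r) (r⁻¹ • dd Δ r)
      rw [sub_add_cancel, p2, p1, map_inv₀] at h6
      exact h6
    have h7 : (ρ r)⁻¹ • dd Δ (ρ r) = r⁻¹ • dd Δ r + (ρ r / r)⁻¹ • dd Δ (ρ r / r) := by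
      have h8 : ρ r = (ρ r / r) * r := by field_simp
      have h9 : dd Δ (ρ r) = (ρ r / r) • dd Δ r + r • dd Δ (ρ r / r) := by
        conv_lhs => rw [h8]
        exact F5Aux.dd_mul Δ _ _
      rw [h9, smul_add, smul_smul, smul_smul]
      congr 2
      · field_simp
      · field_simp
    have h10 : pb ρ x Δ ω - ω = pb ρ x Δ (ω - r⁻¹ • dd Δ r) - (ω - r⁻¹ • dd Δ r) +
        (ρ r / r)⁻¹ • dd Δ (ρ r / r) := by
      rw [h5, h7]
      abel
    rw [h10]
    exact add_mem (sub_mem hη hω) (F5Aux.smul_mem_Om Δ O _ hci _ (F5Aux.dd_mem_Om Δ O _ hc))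
  · intro O₁ ω b₁ b₂ hb₁ hb₂ h1 h2
    have h3 : ρ b₂ ∈ O₁ := hb₂
    have h4 := p4 O₁ _ h2
    have h5 : (b₁ * ρ b₂) • (pb ρ x Δ ω - ω) =
        b₁ • pb ρ x Δ (b₂ • ω) - ρ b₂ • (b₁ • ω) := by
      rw [p2, smul_sub, smul_smul, smul_smul, mul_comm (ρ b₂) b₁]
    rw [h5]
    exact sub_mem (F5Aux.smul_mem_Om Δ O₁ _ hb₁ _ h4) (F5Aux.smul_mem_Om Δ O₁ _ h3 _ h1)

end Pool.Agent.Lib.MP_16285c_agS.Cn
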