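import Pool.Agent.Lib.MP_16285c_agS.Can.Spec

/-!
# Package CAN: finite fibres of the inverse image
-/

set_option autoImplicit false

namespace Pool.Agent.Lib.MP_16285c_agS.Cn

open Pool.Agent.Lib.MP_16285c_agS

theorem tFbc : S_Fib → S_Fbc := by
  intro hFib k E _ _ _ ρ hfin T hT
  haveI : FiniteDimensional ρ.fieldRange E := hfin
  have hsub : {O : ValuationSubring E | Plc k O ∧ cm ρ O ∈ T} ⊆
      ⋃ O' ∈ T, {O : ValuationSubring E | IsDiscreteValuationRing O ∧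
        ∀ f : ρ.fieldRange, algebraMap ρ.fieldRange E f ∈ O ↔
          f ∈ {f : ρ.fieldRange | ∃ e ∈ O', ρ e = (f : E)}} := by
    rintro O ⟨hP, hO⟩
    refine Set.mem_biUnion hO ⟨hP.dvr, ?_⟩
    rintro ⟨f, e, rfl⟩
    change ρ e ∈ O ↔ ∃ e' ∈ cm ρ O, ρ e' = ρ e
    constructor
    · intro h
      exact ⟨e, h, rfl⟩
    · rintro ⟨e', he', h⟩
      rw [← h]
      exact he'
  exact (hT.biUnion fun O' _ => hFib ρ.fieldRange E _).subset hsub

end Pool.Agent.Lib.MP_16285c_agS.Cn
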