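import Pool.Agent.Lib.MP_16285c_agS.Can.Spec

/-!
# (Fib) Finitely many discrete valuation rings over a valuation ring of a subfield
-/

set_option autoImplicit false

namespace Pool.Agent.Lib.MP_16285c_agS.Cn

theorem tFib : S_Apx → S_Fib := by
  intro hApx F E _ _ _ _ V
  by_contra hinf
  have hinf' : {O : ValuationSubring E | IsDiscreteValuationRing O ∧
    ∀ f : F, algebraMap F E f ∈ O ↔ f ∈ V}.Infinite := hinf
  obtain ⟨S, hS, hcard⟩ := hinf'.exists_subset_card_eq (Module.finrank F E + 1)
  let e := (Finset.equivFinOfCardEq hcard).symm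
  let O : Fin (Module.finrank F E + 1) → ValuationSubring E := fun i => (e i : ValuationSubring E)
  have hO : ∀ i, IsDiscreteValuationRing (O i) ∧ ∀ f : F, algebraMap F E f ∈ O i ↔ f ∈ V :=
    fun i => hS (e i).2
  have hOi : Function.Injective O := fun i j hij => e.injective (Subtype.ext hij)
  choose a ha1 ha2 using hApx E _ O hOi fun i => (hO i).1
  have hli : LinearIndependent F a := by
    rw [Fintype.linearIndependent_iff]
    intro c hc
    by_contra hne
    push Not at hne
    obtain ⟨i₀, hi₀⟩ := hne
    obtain ⟨l, hl⟩ := Finite.exists_max fun i => (O 0).valuation (algebraMap F E (c i))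
    have hcl : c l ≠ 0 := by
      intro h0
      have h1 := hl i₀
      simp only [h0, map_zero, le_zero_iff, Valuation.zero_iff] at h1
      exact hi₀ ((map_eq_zero _).1 h1)
    have hq : ∀ i, algebraMap F E (c i / c l) ∈ O l := by
      intro i
      rw [(hO l).2, ← (hO 0).2, ← ValuationSubring.valuation_le_one_iff, map_div₀, map_div₀]
      have h2 : (O 0).valuation (algebraMap F E (c l)) ≠ 0 := by
        rw [Valuation.ne_zero_iff, ne_eq, map_eq_zero]
        exact hcl
      exact div_le_one_of_le₀ (hl i) zero_le
    have hsum : a l = -∑ i ∈ Finset.univ.erase l, algebraMap F E (c i / c l) * a i := by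
      have h3 : c l • a l + ∑ i ∈ Finset.univ.erase l, c i • a i = 0 := by
        rw [Finset.add_sum_erase Finset.univ (fun i => c i • a i) (Finset.mem_univ l)]
        exact hc
      have h4 : algebraMap F E (c l) ≠ 0 := by
        rw [ne_eq, map_eq_zero]
        exact hcl
      have h5 : algebraMap F E (c l) * (a l + ∑ i ∈ Finset.univ.erase l,
          algebraMap F E (c i / c l) * a i) = 0 := by
        rw [mul_add, Finset.mul_sum]
        have h6 : ∀ i ∈ Finset.univ.erase l, algebraMap F E (c l) *
            (algebraMap F E (c i / c l) * a i) = c i • a i := by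
          intro i _
          rw [← mul_assoc, ← map_mul, mul_div_cancel₀ _ hcl, Algebra.smul_def]
        rw [Finset.sum_congr rfl h6, ← Algebra.smul_def]
        exact h3
      exact eq_neg_of_add_eq_zero_left ((mul_eq_zero.1 h5).resolve_left h4)
    have hlt : (O l).valuation (a l) < 1 := by
      rw [hsum, Valuation.map_neg]
      refine Valuation.map_sum_lt _ one_ne_zero fun i hi => ?_
      rw [map_mul]
      have h7 := ((O l).valuation_le_one_iff _).2 (hq i)
      have h8 := ha2 i l (Finset.ne_of_mem_erase hi).symm
      exact (mul_le_of_le_one_left' h7).trans_lt h8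
    rw [ha1 l] at hlt
    exact lt_irrefl _ hlt
  have h9 := hli.fintype_card_le_finrank
  rw [Fintype.card_fin] at h9
  omega

end Pool.Agent.Lib.MP_16285c_agS.Cn
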