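import Pool.Agent.Lib.MP_16285c_agS.Can.Spec

/-!
# Elements in all valuation rings over a discrete valuation ring are integral (helper76)
-/

set_option autoImplicit false

namespace Pool.Agent.Lib.MP_16285c_agS.Cn

open Pool.Agent.Lib.MP_16285c_agS

namespace IntAux

variable {A : Type} [CommRing A] [IsDomain A]

/-- The localization at a prime ideal as a subalgebra of the fraction field. -/
noncomputable abbrev Lc (E : Type) [Field E] [Algebra A E] [IsFractionRing A E] (𝔮 : Ideal A)
    [𝔮.IsPrime] : Subalgebra A E :=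
  Localization.subalgebra.ofField E 𝔮.primeCompl (Ideal.primeCompl_le_nonZeroDivisors 𝔮)

theorem memLc {E : Type} [Field E] [Algebra A E] [IsFractionRing A E] (𝔮 : Ideal A) [𝔮.IsPrime]
    (x : E) : x ∈ Lc E 𝔮 ↔ ∃ n d : A, d ∉ 𝔮 ∧ x * algebraMap A E d = algebraMap A E n := by
  have ne0 : ∀ d : A, d ∉ 𝔮 → algebraMap A E d ≠ 0 := by
    intro d hd h
    have : d = 0 := (IsFractionRing.injective A E) (by rw [h, map_zero])
    exact hd (this ▸ 𝔮.zero_mem)
  constructor
  · rintro ⟨n, d, hd, rfl⟩
    refine ⟨n, d, hd, ?_⟩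
    rw [mul_assoc, inv_mul_cancel₀ (ne0 d hd), mul_one]
  · rintro ⟨n, d, hd, h⟩
    refine ⟨n, d, hd, ?_⟩
    rw [← h, mul_assoc, mul_inv_cancel₀ (ne0 d hd), mul_one]

/-- The valuation ring of a nonzero prime ideal of a Dedekind domain. -/
theorem exO [IsDedekindDomain A] (E : Type) [Field E] [Algebra A E] [IsFractionRing A E]
    (𝔮 : Ideal A) [𝔮.IsPrime] (h0 : 𝔮 ≠ ⊥) :
    ∃ O : ValuationSubring E, IsDiscreteValuationRing O ∧
      ∀ x : E, x ∈ O ↔ ∃ n d : A, d ∉ 𝔮 ∧ x * algebraMap A E d = algebraMap A E n := by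
  have hloc : IsLocalization.AtPrime (Lc E 𝔮) 𝔮 :=
    Localization.subalgebra.isLocalization_ofField E 𝔮.primeCompl
      (Ideal.primeCompl_le_nonZeroDivisors 𝔮)
  have hdvr : IsDiscreteValuationRing (Lc E 𝔮) :=
    IsLocalization.AtPrime.isDiscreteValuationRing_of_dedekind_domain A h0 (Lc E 𝔮)
  let O : ValuationSubring E :=
    { (Lc E 𝔮).toSubring with
      mem_or_inv_mem' := by
        intro x
        rcases ValuationRing.isInteger_or_isInteger (Lc E 𝔮) x with ⟨y, hy⟩ | ⟨y, hy⟩
        · left
          rw [← hy]; exact y.2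
        · right
          rw [← hy]; exact y.2 }
  let e : (Lc E 𝔮) ≃+* O :=
    { toFun := fun x => ⟨x.1, x.2⟩
      invFun := fun x => ⟨x.1, x.2⟩
      left_inv := fun _ => rfl
      right_inv := fun _ => rfl
      map_mul' := fun _ _ => rfl
      map_add' := fun _ _ => rfl }
  exact ⟨O, IsDiscreteValuationRing.RingEquivClass.isDiscreteValuationRing e, fun x => memLc 𝔮 x⟩

/-- The ideal of denominators. -/
def den {E : Type} [Field E] [Algebra A E] (b : E) : Ideal A where
  carrier := {d | ∃ n : A, b * algebraMap A E d = algebraMap A E n}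
  add_mem' := by
    rintro x y ⟨n, hn⟩ ⟨m, hm⟩
    exact ⟨n + m, by rw [map_add, mul_add, hn, hm, map_add]⟩
  zero_mem' := ⟨0, by rw [map_zero, mul_zero]⟩
  smul_mem' := by
    rintro c x ⟨n, hn⟩
    exact ⟨c * n, by rw [smul_eq_mul, map_mul, mul_left_comm, hn, map_mul]⟩

end IntAux

open IntAux in
/-- **Int**: an element of all the discrete valuation rings over `V` is integral over `V`. -/
theorem tInt : S_Int := by
  intro F E _ _ _ _ _ V hV b hb
  have hD : IsDedekindDomain (integralClosure V E) := integralClosure.isDedekindDomain V F E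
  have hfr : IsFractionRing (integralClosure V E) E :=
    integralClosure.isFractionRing_of_finite_extension F E
  have hVB : ∀ v : V, algebraMap (integralClosure V E) E (algebraMap V (integralClosure V E) v) =
      algebraMap F E (v : F) := by
    intro v
    rfl
  -- the ring of a maximal ideal
  have hO : ∀ 𝔮 : Ideal (integralClosure V E), 𝔮.IsMaximal → 𝔮 ≠ ⊥ →
      ∃ n d : integralClosure V E, d ∉ 𝔮 ∧ b * algebraMap (integralClosure V E) E d =
        algebraMap (integralClosure V E) E n := by
    intro 𝔮 hm h0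
    have hp : 𝔮.IsPrime := hm.isPrime
    obtain ⟨O, hO1, hO2⟩ := exO E 𝔮 h0
    refine (hO2 b).mp (hb O hO1 fun f => ⟨fun hf => ?_, fun hf => ?_⟩)
    · by_contra hfV
      have hf0 : f ≠ 0 := by
        rintro rfl
        exact hfV V.zero_mem
      have hinv : f⁻¹ ∈ V := (V.mem_or_inv_mem f).resolve_left hfV
      have hnu : ¬ IsUnit (⟨f⁻¹, hinv⟩ : V) := by
        rintro ⟨u, hu⟩
        apply hfV
        have h1 : (u : V) * ((u⁻¹ : Vˣ) : V) = 1 := Units.mul_inv u
        have h2 : (f⁻¹ : F) * (((u⁻¹ : Vˣ) : V) : F) = 1 := by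
          have := congrArg (Subtype.val) h1
          rw [hu] at this
          exact this
        have h3 : (((u⁻¹ : Vˣ) : V) : F) = f := by
          have h4 : f * (f⁻¹ * (((u⁻¹ : Vˣ) : V) : F)) = f * 1 := by rw [h2]
          rwa [← mul_assoc, mul_inv_cancel₀ hf0, one_mul, mul_one] at h4
        rw [← h3]
        exact (((u⁻¹ : Vˣ) : V)).2
      have hcm : 𝔮.comap (algebraMap V (integralClosure V E)) ≠ ⊥ :=
        Ideal.IsIntegral.comap_ne_bot V h0
      have hmax : (𝔮.comap (algebraMap V (integralClosure V E))).IsMaximal :=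
        Ideal.IsPrime.isMaximal (Ideal.comap_isPrime _ _) hcm
      have heq : 𝔮.comap (algebraMap V (integralClosure V E)) = IsLocalRing.maximalIdeal V :=
        IsLocalRing.eq_maximalIdeal hmax
      have hmem : algebraMap V (integralClosure V E) ⟨f⁻¹, hinv⟩ ∈ 𝔮 := by
        rw [← Ideal.mem_comap, heq]
        exact hnu
      obtain ⟨n, d, hd, hnd⟩ := (hO2 _).mp hf
      apply hd
      have h5 : algebraMap (integralClosure V E) E d = algebraMap (integralClosure V E) E
          (n * algebraMap V (integralClosure V E) ⟨f⁻¹, hinv⟩) := by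
        rw [map_mul, hVB, ← hnd]
        show _ = algebraMap F E f * _ * algebraMap F E f⁻¹
        rw [mul_right_comm, ← map_mul, mul_inv_cancel₀ hf0, map_one, one_mul]
      rw [IsFractionRing.injective (integralClosure V E) E h5]
      exact 𝔮.mul_mem_left _ hmem
    · refine (hO2 _).mpr ⟨algebraMap V (integralClosure V E) ⟨f, hf⟩, 1, ?_, ?_⟩
      · exact fun h => hm.ne_top ((Ideal.eq_top_iff_one _).mpr h)
      · rw [map_one, mul_one, hVB]
  -- the ideal of denominators is the unit ideal
  have hne : den (A := integralClosure V E) b ≠ ⊥ := by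
    obtain ⟨n, d, hd, hnd⟩ := IsFractionRing.div_surjective (A := integralClosure V E) b
    intro h
    have hd0 : d ≠ 0 := nonZeroDivisors.ne_zero hd
    have hd1 : algebraMap (integralClosure V E) E d ≠ 0 := fun h =>
      hd0 (IsFractionRing.injective (integralClosure V E) E (by rw [h, map_zero]))
    have : d ∈ den (A := integralClosure V E) b :=
      ⟨n, by rw [← hnd, div_mul_cancel₀ _ hd1]⟩
    rw [h] at this
    exact hd0 (by simpa using this)
  have htop : den (A := integralClosure V E) b = ⊤ := by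
    by_contra hnt
    obtain ⟨𝔮, hm, hle⟩ := Ideal.exists_le_maximal _ hnt
    have h0 : 𝔮 ≠ ⊥ := by
      intro h
      exact hne (le_bot_iff.mp (h ▸ hle))
    obtain ⟨n, d, hd, hnd⟩ := hO 𝔮 hm h0
    exact hd (hle ⟨n, hnd⟩)
  have h1 : (1 : integralClosure V E) ∈ den (A := integralClosure V E) b := by
    rw [htop]; exact Submodule.mem_top
  obtain ⟨n, hn⟩ := h1
  rw [map_one, mul_one] at hn
  have hint : IsIntegral V b := by
    rw [hn]
    exact n.2
  obtain ⟨p, hp1, hp2⟩ := hint
  refine ⟨p.map (algebraMap V F), hp1.map _, fun i => ?_, ?_⟩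
  · rw [Polynomial.coeff_map]
    exact (p.coeff i).2
  · rw [Polynomial.aeval_map_algebraMap]
    exact hp2

end Pool.Agent.Lib.MP_16285c_agS.Cn
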