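import Pool.Agent.Lib.MP_16285c_agS.Can.Spec

/-!
# Weights at infinity (Inz)
-/

set_option autoImplicit false

namespace Pool.Agent.Lib.MP_16285c_agS.Cn

open Pool.Agent.Lib.MP_16285c_agS

namespace InzAux

section

variable {k E : Type} [Field k] [Field E] [Algebra k E] {t : Fin 2 → E} {O : ValuationSubring E}
  {l : Fin 2}

/-- Values of polynomials in `t`. -/
theorem poly_le (hk : ∀ c : k, algebraMap k E c ∈ O) (hl : 1 < O.valuation (t l))
    (ht : ∀ i, t i / t l ∈ O) (G : Po k) :
    O.valuation (MvPolynomial.aeval t G) ≤ O.valuation (t l) ^ G.totalDegree := by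
  have h0 : O.valuation (t l) ≠ 0 := (lt_trans zero_lt_one hl).ne'
  have hT : ∀ i, O.valuation (t i) ≤ O.valuation (t l) := by
    intro i
    have h1 := (O.valuation_le_one_iff _).2 (ht i)
    rw [map_div₀] at h1
    exact (div_le_one₀ (zero_lt_iff.2 h0)).1 h1
  rw [MvPolynomial.aeval_def, MvPolynomial.eval₂_eq']
  refine Valuation.map_sum_le _ fun s hs => ?_
  rw [map_mul, map_prod]
  have h2 : O.valuation (algebraMap k E (MvPolynomial.coeff s G)) ≤ 1 :=
    (O.valuation_le_one_iff _).2 (hk _)
  have h3 : ∏ i, O.valuation (t i ^ s i) ≤ O.valuation (t l) ^ (∑ i, s i) := by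
    rw [← Finset.prod_pow_eq_pow_sum]
    refine Finset.prod_le_prod' fun i _ => ?_
    rw [map_pow]
    exact pow_le_pow_left' (hT i) (s i)
  have h4 : ∑ i, s i ≤ G.totalDegree := by
    have h5 := MvPolynomial.le_totalDegree hs
    rw [Finsupp.sum_fintype s (fun _ e => e) (fun _ => rfl)] at h5
    exact h5
  calc O.valuation (algebraMap k E (MvPolynomial.coeff s G)) * ∏ i, O.valuation (t i ^ s i)
      ≤ 1 * O.valuation (t l) ^ (∑ i, s i) := mul_le_mul' h2 h3
    _ = O.valuation (t l) ^ (∑ i, s i) := one_mul _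
    _ ≤ O.valuation (t l) ^ G.totalDegree := pow_le_pow_right' hl.le h4

/-- The value of `z`. -/
theorem z_le (hk : ∀ c : k, algebraMap k E c ∈ O) (hl : 1 < O.valuation (t l))
    (ht : ∀ i, t i / t l ∈ O) {z : E} {P : PZ k} {m : ℕ} {D : Po k} (hM : Mdl k t z P m D) :
    O.valuation z ≤ O.valuation (t l) ^ m := by
  by_contra hz
  rw [not_le] at hz
  have h0 : O.valuation (t l) ≠ 0 := (lt_trans zero_lt_one hl).ne'
  have hz0 : O.valuation z ≠ 0 := (lt_of_le_of_lt zero_le hz).ne'
  have h1 := hM.rt
  have h2 : ev t z P = ∑ j ∈ Finset.range (P.natDegree + 1),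
      MvPolynomial.aeval t (P.coeff j) * z ^ j := by
    show Polynomial.eval₂ _ z P = _
    rw [Polynomial.eval₂_eq_sum_range]
    rfl
  rw [h2, Finset.sum_range_succ, hM.mon.coeff_natDegree, map_one, one_mul] at h1
  have h3 : O.valuation (∑ j ∈ Finset.range P.natDegree,
      MvPolynomial.aeval t (P.coeff j) * z ^ j) < O.valuation z ^ P.natDegree := by
    refine Valuation.map_sum_lt _ (pow_ne_zero _ hz0) fun j hj => ?_
    rw [Finset.mem_range] at hj
    by_cases hc : P.coeff j = 0
    · rw [hc, map_zero, zero_mul, map_zero]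
      exact zero_lt_iff.2 (pow_ne_zero _ hz0)
    · have h4 := hM.wt j (Polynomial.mem_support_iff.2 hc)
      have h5 : (P.coeff j).totalDegree ≤ m * (P.natDegree - j) := by
        rw [Nat.mul_sub]
        omega
      have h6 : O.valuation (MvPolynomial.aeval t (P.coeff j)) ≤
          (O.valuation (t l) ^ m) ^ (P.natDegree - j) := by
        rw [← pow_mul]
        exact (poly_le hk hl ht _).trans (pow_le_pow_right' hl.le h5)
      have h7 : (O.valuation (t l) ^ m) ^ (P.natDegree - j) <
          O.valuation z ^ (P.natDegree - j) :=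
        pow_lt_pow_left₀ hz zero_le (by omega)
      have h8 : O.valuation z ^ P.natDegree =
          O.valuation z ^ (P.natDegree - j) * O.valuation z ^ j := by
        rw [← pow_add]
        congr 1
        omega
      rw [map_mul, map_pow, h8]
      exact mul_lt_mul_of_pos_right (lt_of_le_of_lt h6 h7) (zero_lt_iff.2 (pow_ne_zero _ hz0))
  have h9 : ∑ j ∈ Finset.range P.natDegree, MvPolynomial.aeval t (P.coeff j) * z ^ j =
      -z ^ P.natDegree := eq_neg_of_add_eq_zero_left h1
  rw [h9, Valuation.map_neg, map_pow] at h3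
  exact lt_irrefl _ h3

end

end InzAux

open InzAux in
theorem tInz : S_Inz := by
  intro k E _ _ _ _ t z P m D hM O hk l hl ht N H hH
  have h2 : ev t z H = ∑ j ∈ Finset.range (H.natDegree + 1),
      MvPolynomial.aeval t (H.coeff j) * z ^ j := by
    show Polynomial.eval₂ _ z H = _
    rw [Polynomial.eval₂_eq_sum_range]
    rfl
  rw [h2]
  refine Valuation.map_sum_le _ fun j _ => ?_
  by_cases hc : H.coeff j = 0
  · rw [hc, map_zero, zero_mul, map_zero]
    exact zero_le
  · have h4 := hH j (Polynomial.mem_support_iff.2 hc)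
    rw [map_mul, map_pow]
    calc O.valuation (MvPolynomial.aeval t (H.coeff j)) * O.valuation z ^ j
        ≤ O.valuation (t l) ^ (H.coeff j).totalDegree * (O.valuation (t l) ^ m) ^ j :=
          mul_le_mul' (poly_le hk hl ht _) (pow_le_pow_left' (z_le hk hl ht hM) j)
      _ = O.valuation (t l) ^ ((H.coeff j).totalDegree + m * j) := by
          rw [← pow_mul, ← pow_add]
      _ ≤ O.valuation (t l) ^ N := pow_le_pow_right' hl.le h4

end Pool.Agent.Lib.MP_16285c_agS.Cn
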