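import Pool.Agent.Lib.MP_16285c_agS.Can.Spec

/-!
# CAN: the Jacobian of a transcendence basis does not vanish (`S_Jac`)
-/

set_option autoImplicit false

namespace Pool.Agent.Lib.MP_16285c_agS.Cn.JacM

open Pool.Agent.Lib.MP_16285c_agS Pool.Agent.Lib.MP_16285c_agS.Cn
open scoped IntermediateField.algebraAdjoinAdjoin

variable {k E : Type} [Field k] [Field E] [Algebra k E]

theorem trdeg_eq {x : Fin 2 → E} (hx : Tb k x) : Algebra.trdeg k E = 2 := by
  have := hx.fin
  have h1 : Algebra.IsAlgebraic (IntermediateField.adjoin k (Set.range x)) E :=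
    Algebra.IsAlgebraic.of_finite _ _
  have h2 : Algebra.IsAlgebraic (Algebra.adjoin k (Set.range x)) E :=
    Algebra.IsAlgebraic.trans (Algebra.adjoin k (Set.range x))
      (IntermediateField.adjoin k (Set.range x)) E
  have hb : IsTranscendenceBasis k x :=
    isTranscendenceBasis_iff_algebraicIndependent_isAlgebraic.2 ⟨hx.ind, h2⟩
  rw [← hb.cardinalMk_eq_trdeg]
  simp

/-- A subfield over which `E` is algebraic: `E` is finite over it. -/
theorem fin_of_alg {x : Fin 2 → E} (hx : Tb k x) (F : IntermediateField k E)
    (h : Algebra.IsAlgebraic F E) : Module.Finite F E := by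
  have := hx.fin
  let b := Module.finBasis (IntermediateField.adjoin k (Set.range x)) E
  let S : Set E := Set.range x ∪ Set.range b
  have hSf : S.Finite := (Set.finite_range x).union (Set.finite_range b)
  have : Finite S := hSf
  have h1 : FiniteDimensional F (IntermediateField.adjoin F S) :=
    IntermediateField.finiteDimensional_adjoin fun a _ => (h.isAlgebraic a).isIntegral
  have hle : IntermediateField.adjoin k (Set.range x) ≤
      (IntermediateField.adjoin F S).restrictScalars k := by
    rw [IntermediateField.adjoin_le_iff]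
    intro a ha
    exact IntermediateField.subset_adjoin F S (Or.inl ha)
  have htop : IntermediateField.adjoin F S = ⊤ := by
    rw [eq_top_iff]
    rintro e -
    rw [← b.sum_repr e]
    refine sum_mem fun i _ => ?_
    rw [Algebra.smul_def]
    refine mul_mem ?_ ?_
    · exact hle (b.repr e i).2
    · exact IntermediateField.subset_adjoin F S (Or.inr ⟨i, rfl⟩)
  rw [htop] at h1
  exact Module.Finite.equiv (IntermediateField.topEquiv (F := F) (E := E)).toLinearEquiv

end Pool.Agent.Lib.MP_16285c_agS.Cn.JacM

namespace Pool.Agent.Lib.MP_16285c_agS.Cn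

open JacM in
theorem tJac (h_Der : S_Der) : S_Jac := by
  intro k E _ _ _ _ x hx
  refine ⟨?_, ?_⟩
  · intro ρ _
    have hi : AlgebraicIndependent k (fun i => ρ (x i)) :=
      hx.ind.map' (f := ρ) ρ.toRingHom.injective
    refine ⟨hi, fin_of_alg hx _ ?_⟩
    have hr : IsTranscendenceBasis k (fun i => ρ (x i)) := by
      apply hi.isTranscendenceBasis_of_trdeg_le_of_finite
      rw [trdeg_eq hx]
      simp
    exact hr.isAlgebraic_field
  · intro Δ hΔ y hy hdet
    have key : ∀ e0 e1 : E, (∀ j, e0 * Δ 0 (y j) + e1 * Δ 1 (y j) = 0) → e0 = 0 ∧ e1 = 0 := by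
      intro e0 e1 he
      have h0 := (h_Der k E y hy).2 (RingHom.id E) (fun a => e0 * Δ 0 a + e1 * Δ 1 a)
        (by intro a b; simp only [map_add]; ring)
        (by
          intro a b
          simp only [Derivation.leibniz, smul_eq_mul, RingHom.id_apply]
          ring)
        (by intro c; simp)
        he
      have h00 : Δ 0 (x 0) = 1 := by simpa using hΔ 0 0
      have h01 : Δ 0 (x 1) = 0 := by simpa using hΔ 0 1
      have h10 : Δ 1 (x 0) = 0 := by simpa using hΔ 1 0
      have h11 : Δ 1 (x 1) = 1 := by simpa using hΔ 1 1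
      have e0h := h0 (x 0)
      have e1h := h0 (x 1)
      simp only [h00, h10, h01, h11, mul_one, mul_zero, add_zero, zero_add] at e0h e1h
      exact ⟨e0h, e1h⟩
    have k1 := key (Δ 1 (y 0)) (-Δ 0 (y 0)) (by
      intro j
      fin_cases j
      · simp only [Fin.zero_eta, Fin.isValue]; ring
      · simp only [Fin.mk_one, Fin.isValue]; linear_combination -hdet)
    have k2 := key (Δ 1 (y 1)) (-Δ 0 (y 1)) (by
      intro j
      fin_cases j
      · simp only [Fin.zero_eta, Fin.isValue]; linear_combination hdet
      · simp only [Fin.mk_one, Fin.isValue]; ring)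
    have k3 := key 1 0 (by
      intro j
      fin_cases j
      · simp only [Fin.zero_eta, Fin.isValue]; linear_combination -k1.2
      · simp only [Fin.mk_one, Fin.isValue]; linear_combination -k2.2)
    exact one_ne_zero k3.1

end Pool.Agent.Lib.MP_16285c_agS.Cn
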