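import Pool.Agent.Lib.MP_16285c_agS.Can.Spec

/-!
# Localization of the discrete valuation rings with a given restriction
-/

set_option autoImplicit false

namespace Pool.Agent.Lib.MP_16285c_agS.Cn

namespace LocAux

theorem pow_mul_mem {E : Type} [Field E] (O : ValuationSubring E) (hO : IsDiscreteValuationRing O)
    (a e : E) (ha : O.valuation a < 1) : ∃ n : ℕ, a ^ n * e ∈ O := by
  obtain ⟨π, hπ⟩ := IsDiscreteValuationRing.exists_irreducible O
  have haO : a ∈ O := (O.valuation_le_one_iff a).1 ha.le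
  have hmem : (⟨a, haO⟩ : O) ∈ IsLocalRing.maximalIdeal O :=
    (O.valuation_lt_one_iff ⟨a, haO⟩).2 ha
  rw [(IsDiscreteValuationRing.irreducible_iff_uniformizer π).1 hπ,
    Ideal.mem_span_singleton] at hmem
  obtain ⟨b, hb⟩ := hmem
  rcases O.mem_or_inv_mem e with he | he
  · exact ⟨0, by simpa using he⟩
  · by_cases h0 : e = 0
    · exact ⟨0, by simp [h0, O.zero_mem]⟩
    · have hy : (⟨e⁻¹, he⟩ : O) ≠ 0 := by
        intro h
        exact inv_ne_zero h0 (congrArg Subtype.val h)
      obtain ⟨n, u, hu⟩ := IsDiscreteValuationRing.associated_pow_irreducible hy hπ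
      refine ⟨n, ?_⟩
      have h1 : (⟨a, haO⟩ : O) ^ n = ⟨e⁻¹, he⟩ * (↑u * b ^ n) := by
        rw [hb, mul_pow, ← hu]; ring
      have h2 : a ^ n = e⁻¹ * (((↑u * b ^ n : O)) : E) := by
        have := congrArg (Subtype.val : O → E) h1
        simpa using this
      have h3 : a ^ n * e = (((↑u * b ^ n : O)) : E) := by
        rw [h2]; field_simp
      rw [h3]
      exact (↑u * b ^ n : O).2

end LocAux

open LocAux in
theorem tLoc : S_Apx → S_Fib → S_Loc := by
  intro hA hF F E _ _ _ _ V O hO hV e he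
  have hfin := hF F E V
  have : Finite {O : ValuationSubring E | IsDiscreteValuationRing O ∧
    ∀ f : F, algebraMap F E f ∈ O ↔ f ∈ V} := hfin.to_subtype
  obtain ⟨n, ⟨q⟩⟩ := Finite.exists_equiv_fin {O : ValuationSubring E |
    IsDiscreteValuationRing O ∧ ∀ f : F, algebraMap F E f ∈ O ↔ f ∈ V}
  have hinj : Function.Injective (fun i : Fin n => (q.symm i : ValuationSubring E)) :=
    Subtype.val_injective.comp q.symm.injective
  have hd : ∀ i : Fin n, IsDiscreteValuationRing (q.symm i : ValuationSubring E) :=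
    fun i => (q.symm i).2.1
  obtain ⟨a, ha, haj⟩ := hA E n (fun i => (q.symm i : ValuationSubring E)) hinj hd (q ⟨O, hO, hV⟩)
  have hsy : ∀ (O' : ValuationSubring E) (h1 : IsDiscreteValuationRing O')
      (h2 : ∀ f : F, algebraMap F E f ∈ O' ↔ f ∈ V),
      (q.symm (q ⟨O', h1, h2⟩) : ValuationSubring E) = O' := by
    intro O' h1 h2
    rw [Equiv.symm_apply_apply]
  have ha' : O.valuation a = 1 := by
    have key : ∀ W : ValuationSubring E, W = O → W.valuation a = 1 → O.valuation a = 1 := by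
      rintro W rfl h
      exact h
    exact key _ (hsy O hO hV) ha
  have hlt : ∀ O' : ValuationSubring E, (h1 : IsDiscreteValuationRing O') →
      (h2 : ∀ f : F, algebraMap F E f ∈ O' ↔ f ∈ V) → O' ≠ O → O'.valuation a < 1 := by
    intro O' h1 h2 hne
    have key : ∀ W : ValuationSubring E, W = O' → W.valuation a < 1 → O'.valuation a < 1 := by
      rintro W rfl h
      exact h
    exact key _ (hsy O' h1 h2)
      (haj (q ⟨O', h1, h2⟩) (fun hq => hne (congrArg Subtype.val (q.injective hq))))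
  have hmem : ∀ i : Fin n, a ∈ (q.symm i : ValuationSubring E) := by
    intro i
    by_cases hi : (q.symm i : ValuationSubring E) = O
    · rw [hi]; exact (O.valuation_le_one_iff a).1 ha'.le
    · exact ((q.symm i : ValuationSubring E).valuation_le_one_iff a).1
        (hlt _ (q.symm i).2.1 (q.symm i).2.2 hi).le
  have hex : ∀ i : Fin n, ∃ m : ℕ, a ^ m * e ∈ (q.symm i : ValuationSubring E) := by
    intro i
    by_cases hi : (q.symm i : ValuationSubring E) = O
    · exact ⟨0, by rw [hi]; simpa using he⟩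
    · exact pow_mul_mem _ (q.symm i).2.1 a e (hlt _ (q.symm i).2.1 (q.symm i).2.2 hi)
  choose m hm using hex
  refine ⟨a ^ (Finset.univ.sup m), by rw [map_pow, ha', one_pow], ?_⟩
  intro O' h1 h2
  obtain ⟨i, hi⟩ : ∃ i : Fin n, (q.symm i : ValuationSubring E) = O' :=
    ⟨q ⟨O', h1, h2⟩, hsy O' h1 h2⟩
  have haO' : a ∈ O' := hi ▸ hmem i
  have hmO' : a ^ m i * e ∈ O' := hi ▸ hm i
  refine ⟨pow_mem haO' _, ?_⟩
  have hle : m i ≤ Finset.univ.sup m := Finset.le_sup (Finset.mem_univ _)
  obtain ⟨c, hc⟩ := Nat.exists_eq_add_of_le hle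
  rw [hc, pow_add, mul_comm (a ^ m _), mul_assoc]
  exact O'.mul_mem _ _ (pow_mem haO' _) hmO'

end Pool.Agent.Lib.MP_16285c_agS.Cn
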