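import Pool.Agent.Lib.MP_16285c_agS.Can.Spec

/-!
# Existence of an integral primitive element with weights
-/

set_option autoImplicit false

namespace Pool.Agent.Lib.MP_16285c_agS.Cn

namespace MdlAux

variable {k E : Type} [Field k] [Field E] [Algebra k E]

/-- the field `k(t)` -/
abbrev KT (k : Type) {E : Type} [Field k] [Field E] [Algebra k E] (t : Fin 2 → E) :
    IntermediateField k E := IntermediateField.adjoin k (Set.range t)

/-- the value in `k(t)` -/
noncomputable def th (t : Fin 2 → E) : Po k →ₐ[k] KT k t :=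
  MvPolynomial.aeval fun i => ⟨t i, IntermediateField.subset_adjoin k _ ⟨i, rfl⟩⟩

theorem th_coe (t : Fin 2 → E) (A : Po k) : ((th t A : KT k t) : E) = MvPolynomial.aeval t A := by
  have h : ((KT k t).val).comp (th t) = MvPolynomial.aeval t := by
    refine MvPolynomial.algHom_ext fun i => ?_
    simp [th]
  exact DFunLike.congr_fun h A

theorem th_inj {t : Fin 2 → E} (ht : AlgebraicIndependent k t) :
    Function.Injective (th t : Po k →ₐ[k] KT k t) := by
  intro a b h
  have h1 : MvPolynomial.aeval t a = MvPolynomial.aeval t b := by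
    rw [← th_coe, ← th_coe, h]
  exact ht h1

theorem th_frac {t : Fin 2 → E} (ht : AlgebraicIndependent k t) (f : KT k t) :
    ∃ a b : Po k, b ≠ 0 ∧ f * th t b = th t a := by
  have h1 := f.2
  rw [IntermediateField.mem_adjoin_range_iff] at h1
  obtain ⟨r, s, hrs⟩ := h1
  by_cases h0 : MvPolynomial.aeval t s = 0
  · refine ⟨0, 1, one_ne_zero, ?_⟩
    rw [h0, div_zero] at hrs
    have : f = 0 := Subtype.ext hrs
    rw [this]
    simp
  · refine ⟨r, s, ?_, ?_⟩
    · rintro rfl
      exact h0 (map_zero _)
    · apply Subtype.ext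
      rw [IntermediateField.coe_mul, th_coe, th_coe, hrs, div_mul_cancel₀ _ h0]

/-- common denominators of polynomials -/
theorem th_poly {t : Fin 2 → E} (ht : AlgebraicIndependent k t) (Q : Polynomial (KT k t)) :
    ∃ (c : Po k) (N : PZ k), c ≠ 0 ∧
      N.map (th t : Po k →ₐ[k] KT k t).toRingHom = Polynomial.C (th t c) * Q := by
  induction Q using Polynomial.induction_on' with
  | add p q hp hq =>
    obtain ⟨c, N, hc, hN⟩ := hp
    obtain ⟨d, M, hd, hM⟩ := hq
    refine ⟨c * d, Polynomial.C d * N + Polynomial.C c * M, mul_ne_zero hc hd, ?_⟩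
    rw [Polynomial.map_add, Polynomial.map_mul, Polynomial.map_mul, hN, hM, Polynomial.map_C,
      Polynomial.map_C, map_mul, Polynomial.C_mul]
    change Polynomial.C (th t d) * _ + Polynomial.C (th t c) * _ = _
    ring
  | monomial n a =>
    obtain ⟨r, s, hs, hrs⟩ := th_frac ht a
    refine ⟨s, Polynomial.monomial n r, hs, ?_⟩
    rw [Polynomial.map_monomial, Polynomial.C_mul_monomial, mul_comm, hrs]
    rfl

theorem ev_map (t : Fin 2 → E) (z : E) (N : PZ k) :
    ev t z N = Polynomial.aeval z (N.map (th t : Po k →ₐ[k] KT k t).toRingHom) := by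
  rw [Polynomial.aeval_def, Polynomial.eval₂_map]
  have h : (algebraMap (KT k t) E).comp (th t : Po k →ₐ[k] KT k t).toRingHom =
      (MvPolynomial.aeval t : Po k →ₐ[k] E).toRingHom := by
    ext A
    · simp
    · simp [th]
  rw [h]
  rfl

end MdlAux

open MdlAux in
theorem tMdl : S_Mdl := by
  intro k E _ _ _ _ t ht
  have hE : CharZero E := charZero_of_injective_algebraMap (algebraMap k E).injective
  have hF : CharZero (KT k t) :=
    charZero_of_injective_algebraMap (algebraMap k (KT k t)).injective
  have hfin : Module.Finite (KT k t) E := ht.fin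
  have hinj := th_inj ht.ind
  obtain ⟨z₀, hz₀⟩ := Field.exists_primitive_element (KT k t) E
  have hi₀ : IsIntegral (KT k t) z₀ := Algebra.IsIntegral.isIntegral z₀
  obtain ⟨c, N₀, hc, hN₀⟩ := th_poly ht.ind (minpoly (KT k t) z₀)
  have hc' : th t c ≠ 0 := fun h => hc (hinj (by rw [h, map_zero]))
  have hmon := minpoly.monic hi₀
  have hN0 : N₀ ≠ 0 := by
    rintro rfl
    rw [Polynomial.map_zero] at hN₀
    exact (mul_ne_zero (Polynomial.C_ne_zero.2 hc') hmon.ne_zero) hN₀.symm
  have hinj' : Function.Injective (th t : Po k →ₐ[k] KT k t).toRingHom := hinj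
  have hdeg : N₀.natDegree = (minpoly (KT k t) z₀).natDegree := by
    rw [← Polynomial.natDegree_map_eq_of_injective hinj' N₀, hN₀, Polynomial.natDegree_C_mul hc']
  have hlc : th t N₀.leadingCoeff = th t c := by
    have h1 := Polynomial.leadingCoeff_map_of_injective hinj' N₀
    rw [hN₀, Polynomial.leadingCoeff_mul, Polynomial.leadingCoeff_C, hmon.leadingCoeff,
      mul_one] at h1
    exact h1.symm
  obtain ⟨P, hP⟩ : ∃ P : PZ k, P = Polynomial.integralNormalization N₀ := ⟨_, rfl⟩
  have hPm : P.Monic := by rw [hP]; exact Polynomial.monic_integralNormalization hN0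
  have hPd : P.natDegree = N₀.natDegree := by
    rw [hP]; exact Polynomial.natDegree_integralNormalization
  obtain ⟨z, hz⟩ : ∃ z : E, z = (th t c : E) * z₀ := ⟨_, rfl⟩
  have hz0 : ev t z₀ N₀ = 0 := by
    rw [ev_map, hN₀, map_mul, minpoly.aeval, mul_zero]
  have hroot : ev t z P = 0 := by
    have h1 := Polynomial.integralNormalization_eval₂_eq_zero
      (MvPolynomial.aeval t : Po k →ₐ[k] E).toRingHom (p := N₀) (z := z₀) hz0 (by
        intro x hx
        exact ht.ind (hx.trans (map_zero _).symm))
    have h2 : (MvPolynomial.aeval t : Po k →ₐ[k] E).toRingHom N₀.leadingCoeff = (th t c : E) := by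
      rw [← hlc]
      exact (th_coe t _).symm
    rw [h2, ← hz, ← hP] at h1
    exact h1
  -- the field generated by `z`
  have htop : IntermediateField.adjoin (KT k t) {z} = ⊤ := by
    rw [eq_top_iff, ← hz₀, IntermediateField.adjoin_simple_le_iff]
    have h1 : z ∈ IntermediateField.adjoin (KT k t) {z} :=
      IntermediateField.mem_adjoin_simple_self _ _
    have h2 : z₀ = algebraMap (KT k t) E (th t c)⁻¹ * z := by
      rw [hz, map_inv₀, ← mul_assoc]
      have h3 : algebraMap (KT k t) E (th t c) = (th t c : E) := rfl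
      rw [h3, inv_mul_cancel₀, one_mul]
      intro h4
      exact hc' (Subtype.ext h4)
    rw [h2]
    exact mul_mem (IntermediateField.algebraMap_mem _ _) h1
  have hi : IsIntegral (KT k t) z := Algebra.IsIntegral.isIntegral z
  have hdz : (minpoly (KT k t) z).natDegree = (minpoly (KT k t) z₀).natDegree := by
    rw [← IntermediateField.adjoin.finrank hi, ← IntermediateField.adjoin.finrank hi₀, htop, hz₀]
  have hmap : P.map (th t : Po k →ₐ[k] KT k t).toRingHom = minpoly (KT k t) z := by
    have h1 : minpoly (KT k t) z ∣ P.map (th t : Po k →ₐ[k] KT k t).toRingHom := by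
      refine minpoly.dvd _ _ ?_
      rw [← ev_map, hroot]
    refine Polynomial.eq_of_monic_of_dvd_of_natDegree_le (minpoly.monic hi) (hPm.map _) h1 ?_
    rw [hPm.natDegree_map, hPd, hdeg, hdz]
  have hder : ev t z P.derivative ≠ 0 := by
    rw [ev_map, ← Polynomial.derivative_map, hmap]
    exact (Algebra.IsSeparable.isSeparable (KT k t) z).aeval_derivative_ne_zero
      (minpoly.aeval _ _)
  have hgen : ∀ e : E, ∃ (N : PZ k) (c : Po k), c ≠ 0 ∧
      e * MvPolynomial.aeval t c = ev t z N := by
    intro e
    have h1 : e ∈ (IntermediateField.adjoin (KT k t) {z}).toSubalgebra := by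
      rw [htop]
      exact IntermediateField.mem_top
    rw [IntermediateField.adjoin_simple_toSubalgebra_of_isAlgebraic hi.isAlgebraic,
      Algebra.adjoin_singleton_eq_range_aeval] at h1
    obtain ⟨Q, hQ⟩ := h1
    obtain ⟨d, N, hd, hN⟩ := th_poly ht.ind Q
    refine ⟨N, d, hd, ?_⟩
    rw [ev_map, hN, map_mul, Polynomial.aeval_C, mul_comm]
    have h3 : algebraMap (KT k t) E (th t d) = MvPolynomial.aeval t d := th_coe t d
    rw [h3, ← hQ]
    rfl
  obtain ⟨V, D, hD, hV⟩ := hgen (ev t z P.derivative)⁻¹
  refine ⟨z, P, P.support.sup fun j => (P.coeff j).totalDegree, D, hPm, hroot, ?_, hgen, hD, V, ?_⟩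
  · intro j hj
    rcases lt_or_eq_of_le (Polynomial.le_natDegree_of_mem_supp j hj) with h1 | h1
    · have h2 : (P.coeff j).totalDegree ≤ P.support.sup fun j => (P.coeff j).totalDegree :=
        Finset.le_sup (f := fun j => (P.coeff j).totalDegree) hj
      calc (P.coeff j).totalDegree + (P.support.sup fun j => (P.coeff j).totalDegree) * j
          ≤ (P.support.sup fun j => (P.coeff j).totalDegree) +
            (P.support.sup fun j => (P.coeff j).totalDegree) * j := Nat.add_le_add_right h2 _
        _ = (P.support.sup fun j => (P.coeff j).totalDegree) * (j + 1) := by ring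
        _ ≤ _ := Nat.mul_le_mul_left _ h1
    · rw [h1]
      have h2 : P.coeff P.natDegree = 1 := hPm
      rw [h2, MvPolynomial.totalDegree_one, zero_add]
  · rw [← hV, mul_comm (ev t z P.derivative)⁻¹, mul_assoc, inv_mul_cancel₀ hder, mul_one]

end Pool.Agent.Lib.MP_16285c_agS.Cn
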