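import Pool.Agent.Lib.MP_16285c_agS.Can.Spec

/-!
# Package CAN: the product of linear systems (`S_Pr`)
-/

set_option autoImplicit false

namespace Pool.Agent.Lib.MP_16285c_agS.Cn

namespace PrAux

/-- A finite dimensional linear system which is not zero has an element with the largest valuation. -/
theorem top {k E : Type} [Field k] [Field E] [Algebra k E] (O : ValuationSubring E)
    (hk : ∀ c : k, algebraMap k E c ∈ O) (U : Submodule k E) (hf : Module.Finite k U)
    (hne : ∃ u ∈ U, u ≠ 0) :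
    ∃ u₀ ∈ U, u₀ ≠ 0 ∧ ∀ u ∈ U, u / u₀ ∈ O := by
  have hfg : U.FG := Module.Finite.iff_fg.1 hf
  obtain ⟨S, hS⟩ := hfg
  obtain ⟨x, hxU, hx0⟩ := hne
  have hSne : S.Nonempty := by
    by_contra h
    rw [Finset.not_nonempty_iff_eq_empty] at h
    subst h
    rw [Finset.coe_empty, Submodule.span_empty] at hS
    rw [← hS, Submodule.mem_bot] at hxU
    exact hx0 hxU
  obtain ⟨u₀, hu₀, hmax⟩ := S.exists_max_image (fun s => O.valuation s) hSne
  have hle : ∀ u ∈ U, O.valuation u ≤ O.valuation u₀ := by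
    intro u hu
    rw [← hS] at hu
    refine Submodule.span_induction (p := fun u _ => O.valuation u ≤ O.valuation u₀) ?_ ?_ ?_ ?_ hu
    · intro s hs
      exact hmax s hs
    · rw [map_zero]
      exact zero_le
    · intro a b _ _ ha hb
      exact (O.valuation.map_add a b).trans (max_le ha hb)
    · intro c a _ ha
      rw [Algebra.smul_def, map_mul]
      have h1 := (O.valuation_le_one_iff _).2 (hk c)
      calc O.valuation (algebraMap k E c) * O.valuation a ≤ 1 * O.valuation u₀ := mul_le_mul' h1 ha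
        _ = O.valuation u₀ := one_mul _
  have hu0 : u₀ ≠ 0 := by
    rintro rfl
    have h2 := hle x hxU
    rw [map_zero, le_zero_iff] at h2
    exact hx0 (O.valuation.zero_iff.1 h2)
  refine ⟨u₀, hS ▸ Submodule.subset_span hu₀, hu0, fun u hu => ?_⟩
  rw [← O.valuation_le_one_iff, map_div₀]
  have h3 : O.valuation u₀ ≠ 0 := O.valuation.ne_zero_iff.2 hu0
  rw [div_le_iff₀ (zero_lt_iff.2 h3), one_mul]
  exact hle u hu

/-- The product of elements of `U` and `W`, divided by the largest ones, is in `O`. -/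
theorem prod {k E : Type} [Field k] [Field E] [Algebra k E] (O : ValuationSubring E)
    (U W : Submodule k E) (u₀ w₀ : E) (hu : ∀ u ∈ U, u / u₀ ∈ O) (hw : ∀ w ∈ W, w / w₀ ∈ O)
    (e : E) (he : e ∈ U * W) : e / (u₀ * w₀) ∈ O := by
  refine Submodule.mul_induction_on (C := fun e => e / (u₀ * w₀) ∈ O) he ?_ ?_
  · intro m hm n hn
    have h1 : m * n / (u₀ * w₀) = (m / u₀) * (n / w₀) := mul_div_mul_comm m n u₀ w₀
    rw [h1]
    exact O.mul_mem _ _ (hu m hm) (hw n hn)
  · intro x y hx hy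
    rw [add_div]
    exact O.add_mem _ _ hx hy

end PrAux

/-- The product of linear systems. -/
theorem tPr : S_Cst → S_Pr := by
  intro hC k E _ _ _ _ O hk U W hU hW hct
  obtain ⟨⟨C, hmem, -, -, hCO, -, hinv⟩, -⟩ := hC k E O hk
  obtain ⟨e, he, he0, hdiv⟩ := hct
  have hdiv' : ∀ u ∈ U, ∀ w ∈ W, (u * w) / e ∈ C := fun u hu w hw =>
    (hmem _).2 (hdiv _ (Submodule.mul_mem_mul hu hw))
  have hUne : ∃ u ∈ U, u ≠ 0 := by
    by_contra h
    have hbot : U = ⊥ := by
      rw [Submodule.eq_bot_iff]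
      intro x hx
      by_contra hx0
      exact h ⟨x, hx, hx0⟩
    rw [hbot, Submodule.bot_mul, Submodule.mem_bot] at he
    exact he0 he
  have hWne : ∃ w ∈ W, w ≠ 0 := by
    by_contra h
    have hbot : W = ⊥ := by
      rw [Submodule.eq_bot_iff]
      intro x hx
      by_contra hx0
      exact h ⟨x, hx, hx0⟩
    rw [hbot, Submodule.mul_bot, Submodule.mem_bot] at he
    exact he0 he
  obtain ⟨u₀, hu₀, hu₀0, hutop⟩ := PrAux.top O hk U hU hUne
  obtain ⟨w₀, hw₀, hw₀0, hwtop⟩ := PrAux.top O hk W hW hWne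
  have h1 : e / (u₀ * w₀) ∈ O := PrAux.prod O U W u₀ w₀ hutop hwtop e he
  have h2 : (u₀ * w₀) / e ∈ C := hdiv' u₀ hu₀ w₀ hw₀
  have huw : u₀ * w₀ ≠ 0 := mul_ne_zero hu₀0 hw₀0
  have h3 : O.valuation ((u₀ * w₀) / e) = 1 := by
    apply le_antisymm
    · exact (O.valuation_le_one_iff _).2 (hCO _ h2)
    · have h4 := (O.valuation_le_one_iff _).2 h1
      have h5 : O.valuation ((u₀ * w₀) / e) * O.valuation (e / (u₀ * w₀)) = 1 := by
        rw [← map_mul, div_mul_div_cancel₀ he0, div_self huw, map_one]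
      calc (1 : O.ValueGroup) = O.valuation ((u₀ * w₀) / e) * O.valuation (e / (u₀ * w₀)) := h5.symm
        _ ≤ O.valuation ((u₀ * w₀) / e) * 1 := mul_le_mul' le_rfl h4
        _ = O.valuation ((u₀ * w₀) / e) := mul_one _
  have h6 : ((u₀ * w₀) / e)⁻¹ ∈ C := hinv _ h2 h3
  refine ⟨⟨u₀, hu₀, hu₀0, fun u hu => (hmem _).1 ?_⟩, ⟨w₀, hw₀, hw₀0, fun w hw => (hmem _).1 ?_⟩⟩
  · have h7 : u / u₀ = ((u * w₀) / e) * ((u₀ * w₀) / e)⁻¹ := by
      field_simp
    rw [h7]
    exact C.mul_mem (hdiv' u hu w₀ hw₀) h6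
  · have h7 : w / w₀ = ((u₀ * w) / e) * ((u₀ * w₀) / e)⁻¹ := by
      field_simp
    rw [h7]
    exact C.mul_mem (hdiv' u₀ hu₀ w hw) h6

end Pool.Agent.Lib.MP_16285c_agS.Cn
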