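import Pool.Agent.Lib.MP_16285c_agS.Can.Spec

/-!
# Package CAN: the functions with bounded poles form a finite dimensional space
-/

set_option autoImplicit false

namespace Pool.Agent.Lib.MP_16285c_agS.Cn

open Pool.Agent.Lib.MP_16285c_agS

namespace QAux

open IntermediateField.algebraAdjoinAdjoin

/-- Elements which are integral over `k[x]` are in every valuation ring which contains `k` and the `x i`. -/
theorem mem_of_integral {k E : Type} [Field k] [Field E] [Algebra k E] (x : Fin 2 → E) (e : E)
    (he : IsIntegral (Algebra.adjoin k (Set.range x)) e) (O : ValuationSubring E)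
    (hc : ∀ c : k, algebraMap k E c ∈ O) (hx : ∀ i, x i ∈ O) : e ∈ O := by
  let S : Subalgebra k E := { O.toSubring with algebraMap_mem' := hc }
  have hS : Algebra.adjoin k (Set.range x) ≤ S := by
    apply Algebra.adjoin_le
    rintro _ ⟨i, rfl⟩
    exact hx i
  have hr : ∀ r : Algebra.adjoin k (Set.range x), (r : E) ∈ O := fun r => hS r.2
  let φ : Algebra.adjoin k (Set.range x) →+* O :=
    (algebraMap (Algebra.adjoin k (Set.range x)) E).codRestrict O hr
  have h1 : IsIntegral O (RingHom.id E e) := by
    refine IsIntegral.map_of_comp_eq φ (RingHom.id E) ?_ he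
    ext r
    rfl
  obtain ⟨y, hy⟩ := IsIntegrallyClosed.isIntegral_iff.1 h1
  have : (y : E) = e := hy
  rw [← this]
  exact y.2

end QAux

theorem tQ (hf : S_Qf) (hi : S_Qi) : S_Q := by
  intro k E _ _ _ _ x hx A hA hfin
  classical
  have hFin : Module.Finite (IntermediateField.adjoin k (Set.range x)) E := hx.fin
  obtain ⟨c, hc0, hc⟩ := hf k E x hx A hA hfin
  have hcx : (MvPolynomial.aeval x c : E) ≠ 0 := by
    intro h
    apply hc0
    have hinj := hx.ind
    rw [algebraicIndependent_iff_injective_aeval] at hinj
    exact hinj (by rw [h, map_zero])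
  -- a basis, and a common multiple
  let b := Module.finBasis (IntermediateField.adjoin k (Set.range x)) E
  have halg : Algebra.IsAlgebraic (Algebra.adjoin k (Set.range x)) E := by
    open IntermediateField.algebraAdjoinAdjoin in
    exact (IsFractionRing.comap_isAlgebraic_iff (A := Algebra.adjoin k (Set.range x))
      (K := IntermediateField.adjoin k (Set.range x)) (C := E)).2 inferInstance
  obtain ⟨y, hy0, hy⟩ := Algebra.IsAlgebraic.exists_integral_multiples
    (Algebra.adjoin k (Set.range x)) (Finset.univ.image b)
  have hyE : (y : E) ≠ 0 := fun h => hy0 (Subtype.ext h)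
  have hint : ∀ j, IsIntegral (Algebra.adjoin k (Set.range x)) ((y : E) * b j) := by
    intro j
    have := hy (b j) (Finset.mem_image_of_mem _ (Finset.mem_univ j))
    rwa [Algebra.smul_def] at this
  -- the degrees
  choose n hn using fun j => hi k E x hx A hA ((y : E) * b j)
  let N : ℕ := c.totalDegree + Finset.univ.sup n
  let T : E →ₗ[k] (Fin (Module.finrank (IntermediateField.adjoin k (Set.range x)) E) → E) :=
    LinearMap.pi fun j =>
      ((IsScalarTower.toAlgHom k (IntermediateField.adjoin k (Set.range x)) E).toLinearMap ∘ₗ
        ((Algebra.trace (IntermediateField.adjoin k (Set.range x)) E).restrictScalars k)) ∘ₗ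
        (LinearMap.mulRight k ((y : E) * b j) ∘ₗ LinearMap.mulLeft k (MvPolynomial.aeval x c : E))
  have hT : ∀ a j, T a j = algebraMap (IntermediateField.adjoin k (Set.range x)) E
      (Algebra.trace (IntermediateField.adjoin k (Set.range x)) E
        (MvPolynomial.aeval x c * a * ((y : E) * b j))) := fun a j => rfl
  let W : Submodule k E := (MvPolynomial.restrictTotalDegree (Fin 2) k N).map
    (MvPolynomial.aeval x : Po k →ₐ[k] E).toLinearMap
  have hTinj : Function.Injective T := by
    rw [injective_iff_map_eq_zero]
    intro a ha
    have h1 : ∀ j, Algebra.trace (IntermediateField.adjoin k (Set.range x)) E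
        ((MvPolynomial.aeval x c * a * (y : E)) * b j) = 0 := by
      intro j
      have h2 := congrFun ha j
      rw [hT, Pi.zero_apply] at h2
      have h3 := (map_eq_zero_iff _ (algebraMap (IntermediateField.adjoin k (Set.range x)) E).injective).1 h2
      rwa [← mul_assoc] at h3
    have h2 : ∀ z : E, Algebra.traceForm (IntermediateField.adjoin k (Set.range x)) E
        (MvPolynomial.aeval x c * a * (y : E)) z = 0 := by
      intro z
      have h3 : Algebra.traceForm (IntermediateField.adjoin k (Set.range x)) E
          (MvPolynomial.aeval x c * a * (y : E)) = 0 := by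
        apply b.ext
        intro j
        rw [Algebra.traceForm_apply, h1 j]
        rfl
      rw [h3]
      rfl
    have h3 := (traceForm_nondegenerate (IntermediateField.adjoin k (Set.range x)) E).1 _ h2
    rcases mul_eq_zero.1 h3 with h4 | h4
    · rcases mul_eq_zero.1 h4 with h5 | h5
      · exact absurd h5 hcx
      · exact h5
    · exact absurd h4 hyE
  let Q : Submodule k E := (Submodule.pi Set.univ fun _ => W).comap T
  refine ⟨Q, ?_, ?_⟩
  · let T' : Q →ₗ[k] (Fin (Module.finrank (IntermediateField.adjoin k (Set.range x)) E) → W) :=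
      LinearMap.pi fun j => LinearMap.codRestrict W ((LinearMap.proj j ∘ₗ T) ∘ₗ Q.subtype)
        (fun a => a.2 j (Set.mem_univ j))
    refine Module.Finite.of_injective T' ?_
    intro a a' h
    apply Subtype.ext
    apply hTinj
    funext j
    have h5 : ((T' a j : W) : E) = ((T' a' j : W) : E) := congrArg Subtype.val (congrFun h j)
    exact h5
  · intro a ha
    change T a ∈ Submodule.pi Set.univ fun _ => W
    rw [Submodule.mem_pi]
    intro j _
    have hej : ∀ O, Dv k x O → (∀ i, x i ∈ O) → (y : E) * b j ∈ O := fun O hO hxO =>
      QAux.mem_of_integral x _ (hint j) O hO.con hxO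
    obtain ⟨p, hp⟩ := hc a ha _ hej
    refine ⟨p, ?_, ?_⟩
    · have h1 : algebraMap (IntermediateField.adjoin k (Set.range x)) E
          (Algebra.trace (IntermediateField.adjoin k (Set.range x)) E (a * ((y : E) * b j))) *
          MvPolynomial.aeval x c = MvPolynomial.aeval x p := by
        have hmem : (MvPolynomial.aeval x c : E) ∈ IntermediateField.adjoin k (Set.range x) := by
          apply IntermediateField.algebra_adjoin_le_adjoin
          rw [Algebra.adjoin_range_eq_range_aeval]
          exact ⟨c, rfl⟩
        rw [← hp, mul_assoc (MvPolynomial.aeval x c : E) a]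
        have h2 : (MvPolynomial.aeval x c : E) * (a * ((y : E) * b j)) =
            (⟨MvPolynomial.aeval x c, hmem⟩ : IntermediateField.adjoin k (Set.range x)) •
              (a * ((y : E) * b j)) := rfl
        rw [h2, LinearMap.map_smul, smul_eq_mul, RingHom.map_mul, mul_comm]
        rfl
      have h2 := hn j a ha p c hc0 h1
      show p ∈ MvPolynomial.restrictTotalDegree (Fin 2) k N
      rw [MvPolynomial.mem_restrictTotalDegree]
      exact h2.trans (Nat.add_le_add_left (Finset.le_sup (f := n) (Finset.mem_univ j)) _)
    · rw [hT, hp]
      rfl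

end Pool.Agent.Lib.MP_16285c_agS.Cn
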