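import Pool.Agent.Lib.MP_16285c_agS.Can.Spec

/-!
# Can/Q2: forms with bounded poles
-/

set_option autoImplicit false

namespace Pool.Agent.Lib.MP_16285c_agS.Cn

open Pool.Agent.Lib.MP_16285c_agS

namespace Q2Aux

theorem aeval_mem {k E : Type} [Field k] [Field E] [Algebra k E] (O : ValuationSubring E)
    (hc : ∀ c : k, algebraMap k E c ∈ O) (x : Fin 2 → E) (hx : ∀ i, x i ∈ O) (D : Po k) :
    MvPolynomial.aeval x D ∈ O := by
  induction D using MvPolynomial.induction_on with
  | C a =>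
    rw [MvPolynomial.algHom_C]
    exact hc a
  | add p q hp hq =>
    rw [map_add]
    exact O.add_mem _ _ hp hq
  | mul_X p i hp =>
    rw [map_mul, MvPolynomial.aeval_X]
    exact O.mul_mem _ _ hp (hx i)

theorem om_mem {k E : Type} [Field k] [Field E] [Algebra k E] (O : ValuationSubring E)
    (Δ : Fin 2 → Derivation k E E) (B : E) (h : ∀ h ∈ O, ∀ i, B * Δ i h ∈ O) (w : Fin 2 → E)
    (hw : w ∈ Om Δ O) (i : Fin 2) : B * w i ∈ O := by
  unfold Om at hw
  induction hw using Submodule.span_induction with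
  | mem y hy =>
    obtain ⟨a, rfl⟩ := hy
    exact h a a.2 i
  | zero =>
    rw [Pi.zero_apply, mul_zero]
    exact O.zero_mem
  | add y z _ _ hy hz =>
    rw [Pi.add_apply, mul_add]
    exact O.add_mem _ _ hy hz
  | smul a y _ hy =>
    have e : B * (a • y) i = (a : E) * (B * y i) := by
      change B * ((a : E) * y i) = _
      ring
    rw [e]
    exact O.mul_mem _ _ a.2 hy

end Q2Aux

open Q2Aux in
theorem tQ2 : S_Q → S_Mdl → S_Exc → S_DO → S_DBd → S_Q2 := by
  intro hQ hM hE hDO hDBd k E _ _ _ _ x hx Δ hΔ A hA hfin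
  obtain ⟨z, P, m, D, hmod⟩ := hM k E x hx
  have hExc := hE k E x hx D hmod.ne
  have hB : ∀ O : ValuationSubring E, ∃ B : E, B ≠ 0 ∧
      (Dv k x O → ∀ h ∈ O, ∀ i, B * Δ i h ∈ O) ∧ (Dv k x O → O ∉ Exc k x D → B = 1) := by
    intro O
    by_cases hd : Dv k x O
    · by_cases he : O ∈ Exc k x D
      · obtain ⟨B, hB0, hB⟩ := hDBd k E x hx Δ hΔ O hd
        exact ⟨B, hB0, fun _ => hB, fun _ h => absurd he h⟩
      · have hfi : ∀ i, x i ∈ O := by
          intro i
          by_contra h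
          exact he ⟨hd, Or.inl ⟨i, h⟩⟩
        have hle : O.valuation (MvPolynomial.aeval x D) ≤ 1 :=
          (O.valuation_le_one_iff _).2 (aeval_mem O hd.con x hfi D)
        have hg : Gd k x D O := ⟨hd, hfi, by
          refine le_antisymm hle (not_lt.1 fun h => he ⟨hd, Or.inr h⟩)⟩
        refine ⟨1, one_ne_zero, fun _ h hh i => ?_, fun _ _ => rfl⟩
        rw [one_mul]
        exact hDO k E x z P m D hx hmod Δ hΔ O hg h hh i
    · exact ⟨1, one_ne_zero, fun h => absurd h hd, fun h => absurd h hd⟩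
  choose B hB0 hB1 hB2 using hB
  have hfin2 : {O | Dv k x O ∧ B O * A O ≠ 1}.Finite := by
    refine (hfin.union hExc).subset ?_
    rintro O ⟨h1, h2⟩
    by_cases he : O ∈ Exc k x D
    · exact Or.inr he
    · refine Or.inl ⟨h1, fun h3 => h2 ?_⟩
      rw [h3, hB2 O h1 he, one_mul]
  obtain ⟨Q, hQf, hQm⟩ := hQ k E x hx (fun O => B O * A O)
    (fun O => mul_ne_zero (hB0 O) (hA O)) hfin2
  refine ⟨Q.map (LinearMap.single k (fun _ : Fin 2 => E) 0) ⊔
    Q.map (LinearMap.single k (fun _ : Fin 2 => E) 1), inferInstance, ?_⟩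
  intro w hw
  have hwi : ∀ i, w i ∈ Q := by
    intro i
    refine hQm _ fun O hO => ?_
    have h := om_mem O Δ (B O) (hB1 O hO) _ (hw O hO) i
    rw [mul_assoc]
    exact h
  have e : w = LinearMap.single k (fun _ : Fin 2 => E) 0 (w 0) +
      LinearMap.single k (fun _ : Fin 2 => E) 1 (w 1) := by
    funext i
    fin_cases i
    · simp
    · simp
  rw [e]
  exact Submodule.add_mem_sup (Submodule.mem_map_of_mem (hwi 0)) (Submodule.mem_map_of_mem (hwi 1))

end Pool.Agent.Lib.MP_16285c_agS.Cn
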