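import Pool.Agent.Lib.MP_16285c_agS.Can.Spec

/-!
# Package CAN, module Res: the prime of a divisor over the plane is principal
-/

set_option autoImplicit false

namespace Pool.Agent.Lib.MP_16285c_agS.Cn

open Pool.Agent.Lib.MP_16285c_agS

namespace ResAux

section

variable {k E : Type} [Field k] [Field E] [Algebra k E]

lemma aeval_mem (t : Fin 2 → E) (O : ValuationSubring E) (hk : ∀ c : k, algebraMap k E c ∈ O)
    (hO : ∀ i, t i ∈ O) (G : Po k) : MvPolynomial.aeval t G ∈ O := by
  induction G using MvPolynomial.induction_on with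
  | C a =>
    rw [MvPolynomial.aeval_C]
    exact hk a
  | add p q hp hq =>
    rw [map_add]
    exact O.add_mem _ _ hp hq
  | mul_X p n hp =>
    rw [map_mul, MvPolynomial.aeval_X]
    exact O.mul_mem _ _ hp (hO n)

/-- The evaluation at `t` with values in `O`. -/
noncomputable def psi (t : Fin 2 → E) (O : ValuationSubring E) (hk : ∀ c : k, algebraMap k E c ∈ O)
    (hO : ∀ i, t i ∈ O) : Po k →+* O :=
  (MvPolynomial.aeval t : Po k →ₐ[k] E).toRingHom.codRestrict O.toSubring
    (fun G => aeval_mem t O hk hO G)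

lemma psi_coe (t : Fin 2 → E) (O : ValuationSubring E) (hk : ∀ c : k, algebraMap k E c ∈ O)
    (hO : ∀ i, t i ∈ O) (G : Po k) : ((psi t O hk hO G : O) : E) = MvPolynomial.aeval t G := rfl

/-- The prime ideal of `O` on the plane. -/
noncomputable def pp (t : Fin 2 → E) (O : ValuationSubring E) (hk : ∀ c : k, algebraMap k E c ∈ O)
    (hO : ∀ i, t i ∈ O) : Ideal (Po k) :=
  (IsLocalRing.maximalIdeal O).comap (psi t O hk hO)

lemma mem_pp (t : Fin 2 → E) (O : ValuationSubring E) (hk : ∀ c : k, algebraMap k E c ∈ O)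
    (hO : ∀ i, t i ∈ O) (G : Po k) :
    G ∈ pp t O hk hO ↔ O.valuation (MvPolynomial.aeval t G) < 1 := by
  rw [pp, Ideal.mem_comap, ValuationSubring.valuation_lt_one_iff, psi_coe]

lemma pp_prime (t : Fin 2 → E) (O : ValuationSubring E) (hk : ∀ c : k, algebraMap k E c ∈ O)
    (hO : ∀ i, t i ∈ O) : (pp t O hk hO).IsPrime :=
  Ideal.comap_isPrime _ _

lemma exists_poly (t : Fin 2 → E) (x : E) (hx : x ∈ Algebra.adjoin k (Set.range t)) :
    ∃ G : Po k, MvPolynomial.aeval t G = x := by
  rw [Algebra.adjoin_range_eq_range_aeval] at hx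
  exact hx

open scoped IntermediateField.algebraAdjoinAdjoin in
lemma pp_ne_bot (t : Fin 2 → E) (htb : Tb k t) (O : ValuationSubring E)
    (hd : IsDiscreteValuationRing O) (hk : ∀ c : k, algebraMap k E c ∈ O)
    (hO : ∀ i, t i ∈ O) : pp t O hk hO ≠ ⊥ := by
  obtain ⟨π, hπ⟩ := IsDiscreteValuationRing.exists_irreducible O
  have hπ0 : (π : E) ≠ 0 := fun h => hπ.ne_zero (Subtype.ext h)
  have hπ1 : O.valuation (π : E) < 1 := by
    rw [← ValuationSubring.valuation_lt_one_iff]
    exact (IsLocalRing.mem_maximalIdeal _).mpr hπ.not_isUnit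
  have := htb.fin
  have h1 : IsAlgebraic (IntermediateField.adjoin k (Set.range t)) (π : E) :=
    Algebra.IsAlgebraic.isAlgebraic _
  have h2 : IsAlgebraic (Algebra.adjoin k (Set.range t)) (π : E) :=
    (IsFractionRing.isAlgebraic_iff (Algebra.adjoin k (Set.range t))
      (IntermediateField.adjoin k (Set.range t)) E).mpr h1
  obtain ⟨q, hq0, hq⟩ := h2.exists_nonzero_coeff_and_aeval_eq_zero
    (mem_nonZeroDivisors_of_ne_zero hπ0)
  have hA : ∀ a : Algebra.adjoin k (Set.range t), (a : E) ∈ O := by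
    intro a
    obtain ⟨G, hG⟩ := exists_poly t _ a.2
    rw [← hG]
    exact aeval_mem t O hk hO G
  have hqm : ∀ p : Polynomial (Algebra.adjoin k (Set.range t)), Polynomial.aeval (π : E) p ∈ O := by
    intro p
    rw [Polynomial.aeval_eq_sum_range]
    refine sum_mem (fun i _ => ?_)
    rw [Algebra.smul_def]
    exact O.mul_mem _ _ (hA _) (pow_mem π.2 i)
  have e : (q.coeff 0 : E) = -(Polynomial.aeval (π : E) q.divX) * π := by
    have h3 := congrArg (Polynomial.aeval (π : E)) (Polynomial.divX_mul_X_add q)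
    rw [hq, map_add, map_mul, Polynomial.aeval_X, Polynomial.aeval_C] at h3
    have h4 : algebraMap (Algebra.adjoin k (Set.range t)) E (q.coeff 0) = (q.coeff 0 : E) := rfl
    rw [h4] at h3
    linear_combination h3
  have hv : O.valuation (q.coeff 0 : E) < 1 := by
    rw [e, map_mul, Valuation.map_neg]
    have h5 : O.valuation (Polynomial.aeval (π : E) q.divX) ≤ 1 :=
      (O.valuation_le_one_iff _).mpr (hqm _)
    calc O.valuation (Polynomial.aeval (π : E) q.divX) * O.valuation (π : E)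
        ≤ 1 * O.valuation (π : E) := mul_le_mul_left h5 _
      _ = O.valuation (π : E) := one_mul _
      _ < 1 := hπ1
  obtain ⟨G, hG⟩ := exists_poly t _ (q.coeff 0).2
  have hGm : G ∈ pp t O hk hO := by
    rw [mem_pp]
    rw [hG]
    exact hv
  intro hbot
  rw [hbot, Ideal.mem_bot] at hGm
  apply hq0
  apply Subtype.ext
  rw [← hG, hGm, map_zero]
  rfl

/-- A prime of `k[T₀, T₁]` strictly above a principal prime is maximal. -/
lemma maximal_of_lt (R : Po k) (hR : Prime R) (P : Ideal (Po k)) (hP : P.IsPrime)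
    (hlt : Ideal.span {R} < P) : P.IsMaximal := by
  obtain ⟨m, hm, hle⟩ := Ideal.exists_le_maximal P hP.ne_top
  by_contra hcon
  have hne : P ≠ m := fun h => hcon (h ▸ hm)
  have hPm : P < m := lt_of_le_of_ne hle hne
  have hRp : (Ideal.span {R}).IsPrime := (Ideal.span_singleton_prime hR.ne_zero).mpr hR
  have h0R : (⊥ : Ideal (Po k)) < Ideal.span {R} := by
    rw [bot_lt_iff_ne_bot]
    intro h
    exact hR.ne_zero (Ideal.span_singleton_eq_bot.mp h)
  have hbp : (⊥ : Ideal (Po k)).IsPrime := Ideal.isPrime_bot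
  let s : LTSeries (PrimeSpectrum (Po k)) :=
    { length := 3
      toFun := ![⟨⊥, hbp⟩, ⟨Ideal.span {R}, hRp⟩, ⟨P, hP⟩, ⟨m, hm.isPrime⟩]
      step := by
        intro i
        fin_cases i
        · exact h0R
        · exact hlt
        · exact hPm }
  have h1 : (s.length : WithBot ℕ∞) ≤ ringKrullDim (Po k) := Order.LTSeries.length_le_krullDim s
  have h2 : ringKrullDim (Po k) = 2 := by
    rw [MvPolynomial.ringKrullDim_of_isNoetherianRing, ringKrullDim_eq_zero_of_field]
    simp
  rw [h2] at h1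
  have h3 : ((3 : ℕ) : WithBot ℕ∞) ≤ ((2 : ℕ) : WithBot ℕ∞) := h1
  have h4 : (3 : ℕ) ≤ 2 := by exact_mod_cast h3
  omega

/-- Zariski's lemma for a maximal ideal of `k[T₀, T₁]`. -/
lemma alg_of_maximal (P : Ideal (Po k)) (hP : P.IsMaximal) (i : Fin 2) :
    ∃ G : Polynomial k, G ≠ 0 ∧ Polynomial.aeval (MvPolynomial.X i : Po k) G ∈ P := by
  let : Field (Po k ⧸ P) := Ideal.Quotient.field P
  have : Algebra.FiniteType k (Po k ⧸ P) :=
    Algebra.FiniteType.of_surjective (Ideal.Quotient.mkₐ k P) (Ideal.Quotient.mkₐ_surjective _ _)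
  have : Module.Finite k (Po k ⧸ P) := finite_of_finite_type_of_isJacobsonRing _ _
  have h : IsAlgebraic k (Ideal.Quotient.mkₐ k P (MvPolynomial.X i)) :=
    Algebra.IsAlgebraic.isAlgebraic _
  obtain ⟨G, hG0, hG⟩ := h
  refine ⟨G, hG0, ?_⟩
  rw [Polynomial.aeval_algHom_apply] at hG
  exact Ideal.Quotient.eq_zero_iff_mem.mp hG

end

end ResAux

open ResAux in
theorem tRes : S_Dvc → S_Res := by
  intro hDvc k E _ _ _ _ t htb O hDv hO
  have hk := hDv.con
  obtain ⟨R, hRm, hRp⟩ := (pp_prime t O hk hO).exists_mem_prime_of_ne_bot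
    (pp_ne_bot t htb O hDv.dvr hk hO)
  refine ⟨R, hRp.irreducible, fun G => ?_⟩
  rw [← mem_pp t O hk hO]
  constructor
  · intro hG
    by_contra hRG
    have hle : Ideal.span {R} ≤ pp t O hk hO := by
      rw [Ideal.span_singleton_le_iff_mem]
      exact hRm
    have hlt : Ideal.span {R} < pp t O hk hO := by
      refine lt_of_le_of_ne hle (fun h => hRG ?_)
      rw [← Ideal.mem_span_singleton, h]
      exact hG
    have hmax := maximal_of_lt R hRp _ (pp_prime t O hk hO) hlt
    obtain ⟨i, hi⟩ := (hDvc k E t O).1 hDv hO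
    apply hi
    obtain ⟨F, hF0, hF⟩ := alg_of_maximal _ hmax i
    refine ⟨F, hF0, ?_⟩
    rw [mem_pp, ← Polynomial.aeval_algHom_apply, MvPolynomial.aeval_X] at hF
    exact hF
  · rintro ⟨H, rfl⟩
    exact Ideal.mul_mem_right _ _ hRm

end Pool.Agent.Lib.MP_16285c_agS.Cn
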