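import Pool.Agent.Lib.MP_16285c_agS.Can.Spec

/-!
# `S_TrA`: the trace formula, finiteness and the degrees of the traces

`int_pair`: for `q ≠ 0` and a ring `A` whose image contains `k`, `q⁻¹` and `y₀ / q`, the elements `y₁ / q` and `w / q ^ m` are
integral over `A`. For `q = 1`, `A = k[X]` with `X ↦ y₀` this is step (2), for `q = y₀`, `A = k[X]` with `X ↦ y₀⁻¹` it is step (3).
-/

set_option autoImplicit false

namespace Pool.Agent.Lib.MP_16285c_agS.Cn

namespace TrAAux

/-- An element with a monic relation is integral. -/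
theorem int_of {A B ι : Type} [CommRing A] [CommRing B] [Algebra A B] (z : B) (n : ℕ) (S : Finset ι)
    (c : ι → A) (j : ι → ℕ) (hj : ∀ e ∈ S, j e < n)
    (h : z ^ n + ∑ e ∈ S, algebraMap A B (c e) * z ^ j e = 0) : IsIntegral A z := by
  refine ⟨Polynomial.X ^ n + ∑ e ∈ S, Polynomial.C (c e) * Polynomial.X ^ j e,
    Polynomial.monic_X_pow_add ?_, ?_⟩
  · rw [← Polynomial.mem_degreeLT]
    refine Submodule.sum_mem _ fun e he => ?_
    rw [Polynomial.mem_degreeLT]
    exact lt_of_le_of_lt (Polynomial.degree_C_mul_X_pow_le _ _) (by exact_mod_cast hj e he)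
  · simpa [Polynomial.eval₂_finsetSum] using h

theorem scale {κ : Type} [Field κ] (q a b : κ) (hq : q ≠ 0) (N i j : ℕ) (h : i + j ≤ N) :
    a ^ i * b ^ j = q ^ N * (q⁻¹ ^ (N - (i + j)) * (a / q) ^ i * (b / q) ^ j) := by
  obtain ⟨n, rfl⟩ := Nat.exists_eq_add_of_le h
  rw [Nat.add_sub_cancel_left, div_pow, div_pow, inv_pow, pow_add, pow_add]
  field_simp

theorem deg_le {k : Type} [Field k] (G : Po k) (e : Fin 2 →₀ ℕ) (he : e ∈ G.support) :
    e 0 + e 1 ≤ G.totalDegree := by
  have h := MvPolynomial.le_totalDegree he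
  rw [Finsupp.sum_fintype _ _ (fun _ => rfl), Fin.sum_univ_two] at h
  exact h

theorem aeval_sum {k κ : Type} [Field k] [Field κ] [Algebra k κ] (y : Fin 2 → κ) (G : Po k) :
    MvPolynomial.aeval y G =
      ∑ e ∈ G.support, algebraMap k κ (MvPolynomial.coeff e G) * (y 0 ^ e 0 * y 1 ^ e 1) := by
  rw [MvPolynomial.aeval_def, MvPolynomial.eval₂_eq']
  simp [Fin.prod_univ_two]

/-- Homogenization: `G(y) / q ^ N` is a polynomial in `1 / q, y₀ / q, y₁ / q`. -/
theorem hom_mem {k κ : Type} [Field k] [Field κ] [Algebra k κ] (y : Fin 2 → κ) (q : κ) (hq : q ≠ 0)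
    (G : Po k) (N : ℕ) (hN : G.totalDegree ≤ N) (C : Subring κ) (hk : ∀ c : k, algebraMap k κ c ∈ C)
    (h1 : q⁻¹ ∈ C) (h0 : y 0 / q ∈ C) (h2 : y 1 / q ∈ C) :
    ∃ a ∈ C, MvPolynomial.aeval y G = q ^ N * a := by
  refine ⟨∑ e ∈ G.support, algebraMap k κ (MvPolynomial.coeff e G) *
    (q⁻¹ ^ (N - (e 0 + e 1)) * (y 0 / q) ^ e 0 * (y 1 / q) ^ e 1), ?_, ?_⟩
  · exact Subring.sum_mem _ fun e _ => mul_mem (hk _)
      (mul_mem (mul_mem (pow_mem h1 _) (pow_mem h0 _)) (pow_mem h2 _))
  · rw [aeval_sum, Finset.mul_sum]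
    refine Finset.sum_congr rfl fun e he => ?_
    rw [scale q (y 0) (y 1) hq N _ _ ((deg_le G e he).trans hN)]
    ring

theorem ev_sum {k κ : Type} [Field k] [Field κ] [Algebra k κ] (y : Fin 2 → κ) (w : κ) (P : PZ k) :
    ev y w P = ∑ l ∈ Finset.range (P.natDegree + 1), MvPolynomial.aeval y (P.coeff l) * w ^ l := by
  rw [ev, Polynomial.coe_eval₂RingHom, Polynomial.eval₂_eq_sum_range]
  rfl

theorem int_pair {k κ A : Type} [Field k] [Field κ] [Algebra k κ] [CommRing A] [Algebra A κ]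
    (y : Fin 2 → κ) (w : κ) (R : Po k) (P : PZ k) (m : ℕ) (q : κ) (hq : q ≠ 0)
    (hk : ∀ c : k, ∃ a : A, algebraMap A κ a = algebraMap k κ c)
    (h1 : ∃ a : A, algebraMap A κ a = q⁻¹) (h0 : ∃ a : A, algebraMap A κ a = y 0 / q)
    (hR : MvPolynomial.aeval y R = 0)
    (hR1 : MvPolynomial.coeff (Finsupp.single 1 R.totalDegree) R ≠ 0) (hP : P.Monic)
    (hP0 : ev y w P = 0) (hW : Wle m (m * P.natDegree) P) :
    IsIntegral A (y 1 / q) ∧ IsIntegral A (w / q ^ m) := by
  have hy : IsIntegral A (y 1 / q) := by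
    obtain ⟨d, hd⟩ : ∃ d, d = R.totalDegree := ⟨_, rfl⟩
    rw [← hd] at hR1
    obtain ⟨r, hr⟩ : ∃ r, r = MvPolynomial.coeff (Finsupp.single 1 d) R := ⟨_, rfl⟩
    rw [← hr] at hR1
    have hc : ∀ e : Fin 2 →₀ ℕ, ∃ a : A, algebraMap A κ a =
        algebraMap k κ (r⁻¹ * MvPolynomial.coeff e R) *
          (q⁻¹ ^ (d - (e 0 + e 1)) * (y 0 / q) ^ e 0) := by
      intro e
      obtain ⟨a, ha⟩ := hk (r⁻¹ * MvPolynomial.coeff e R)
      obtain ⟨b, hb⟩ := h1
      obtain ⟨x, hx⟩ := h0
      exact ⟨a * (b ^ (d - (e 0 + e 1)) * x ^ e 0), by rw [map_mul, map_mul, map_pow, map_pow, ha, hb, hx]⟩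
    choose c hc using hc
    have hs0 : Finsupp.single 1 d ∈ R.support := by
      rw [MvPolynomial.mem_support_iff, ← hr]
      exact hR1
    refine int_of (y 1 / q) d (R.support.erase (Finsupp.single 1 d)) c (fun e => e 1) ?_ ?_
    · intro e he
      obtain ⟨he1, he2⟩ := Finset.mem_erase.1 he
      have h3 := deg_le R e he2
      rw [← hd] at h3
      refine lt_of_le_of_ne (by omega) fun h4 => he1 ?_
      ext i
      fin_cases i
      · simp only [Fin.zero_eta, Finsupp.single_apply]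
        rw [if_neg (by decide)]
        omega
      · simp only [Fin.mk_one, Finsupp.single_eq_same]
        exact h4
    · have h5 : ∑ e ∈ R.support, algebraMap A κ (c e) * (y 1 / q) ^ e 1 = 0 := by
        have h6 : q ^ d * algebraMap k κ r *
            ∑ e ∈ R.support, algebraMap A κ (c e) * (y 1 / q) ^ e 1 = 0 := by
          rw [Finset.mul_sum, ← hR, aeval_sum]
          refine Finset.sum_congr rfl fun e he => ?_
          have h7 := deg_le R e he
          rw [← hd] at h7
          have h8 : MvPolynomial.coeff e R = r * (r⁻¹ * MvPolynomial.coeff e R) := by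
            rw [mul_inv_cancel_left₀ hR1]
          rw [hc, scale q (y 0) (y 1) hq d _ _ h7]
          conv_rhs => rw [h8, map_mul]
          ring
        have h9 : q ^ d * algebraMap k κ r ≠ 0 :=
          mul_ne_zero (pow_ne_zero _ hq) fun h => hR1 ((map_eq_zero (algebraMap k κ)).1 h)
        exact (mul_eq_zero.1 h6).resolve_left h9
      rw [← Finset.add_sum_erase _ _ hs0] at h5
      have h10 : algebraMap A κ (c (Finsupp.single 1 d)) * (y 1 / q) ^ (Finsupp.single (1 : Fin 2) d) 1
          = (y 1 / q) ^ d := by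
        rw [hc, ← hr, inv_mul_cancel₀ hR1]
        simp
      rw [h10] at h5
      exact h5
  refine ⟨hy, ?_⟩
  obtain ⟨C, hC⟩ : ∃ C : Subalgebra A κ, C = integralClosure A κ := ⟨_, rfl⟩
  have hCm : ∀ z : κ, z ∈ C ↔ IsIntegral A z := fun z => by rw [hC]; exact mem_integralClosure_iff _ _
  have hAC : ∀ z : κ, (∃ a : A, algebraMap A κ a = z) → z ∈ C.toSubring := by
    rintro z ⟨a, rfl⟩
    exact C.algebraMap_mem a
  have hcoef : ∀ l : ℕ, l < P.natDegree → ∃ a : C, algebraMap C κ a * q ^ (m * (P.natDegree - l)) =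
      MvPolynomial.aeval y (P.coeff l) := by
    intro l hl
    have h3 : (P.coeff l).totalDegree ≤ m * (P.natDegree - l) := by
      by_cases h4 : l ∈ P.support
      · have h5 := hW l h4
        rw [Nat.mul_sub]
        omega
      · rw [Polynomial.notMem_support_iff.1 h4, MvPolynomial.totalDegree_zero]
        exact Nat.zero_le _
    obtain ⟨a, ha, h⟩ := hom_mem y q hq (P.coeff l) _ h3 C.toSubring (fun c => hAC _ (hk c))
      (hAC _ h1) (hAC _ h0) ((hCm _).2 hy)
    refine ⟨⟨a, ha⟩, ?_⟩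
    rw [h, mul_comm]
    rfl
  choose! c hc using hcoef
  have h11 : IsIntegral C (w / q ^ m) := by
    refine int_of (w / q ^ m) P.natDegree (Finset.range P.natDegree) c (fun l => l)
      (fun l hl => Finset.mem_range.1 hl) ?_
    have h12 : q ^ (m * P.natDegree) * ((w / q ^ m) ^ P.natDegree +
        ∑ l ∈ Finset.range P.natDegree, algebraMap C κ (c l) * (w / q ^ m) ^ l) = ev y w P := by
      rw [ev_sum, Finset.sum_range_succ, hP.coeff_natDegree, map_one, one_mul, add_comm, mul_add,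
        Finset.mul_sum]
      refine congrArg₂ _ (Finset.sum_congr rfl fun l hl => ?_) ?_
      · have hl' := Finset.mem_range.1 hl
        rw [← hc l hl', div_pow, ← pow_mul]
        have h13 : q ^ (m * P.natDegree) = q ^ (m * (P.natDegree - l)) * q ^ (m * l) := by
          rw [← pow_add, ← mul_add, Nat.sub_add_cancel hl'.le]
        rw [h13]
        have h14 : q ^ (m * l) ≠ 0 := pow_ne_zero _ hq
        field_simp
      · rw [div_pow, ← pow_mul, mul_div_cancel₀ _ (pow_ne_zero _ hq)]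
    rw [hP0] at h12
    exact (mul_eq_zero.1 h12).resolve_left (pow_ne_zero _ hq)
  have : Algebra.IsIntegral A C := by
    rw [hC]
    exact integralClosure.AlgebraIsIntegral
  exact isIntegral_trans (R := A) (A := C) _ h11

/-- The trace of an integral element. -/
theorem tr_mem {k κ : Type} [Field k] [Field κ] [Algebra k κ] (L : IntermediateField k κ)
    [FiniteDimensional L κ] (x : L) (hx : Transcendental k x)
    (hL : L = IntermediateField.adjoin k {(x : κ)}) (g : κ)
    (hg : ∀ [Algebra (Polynomial k) κ], (∀ p : Polynomial k, algebraMap (Polynomial k) κ p =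
      Polynomial.aeval (x : κ) p) → IsIntegral (Polynomial k) g) :
    ∃ Θ : Polynomial k, Polynomial.aeval (x : κ) Θ = algebraMap L κ (Algebra.trace L κ g) := by
  let a1 : Algebra (Polynomial k) L := (Polynomial.aeval x).toRingHom.toAlgebra
  let a2 : Algebra (Polynomial k) κ := (Polynomial.aeval (x : κ)).toRingHom.toAlgebra
  have hxx : ∀ p : Polynomial k, Polynomial.aeval (x : κ) p = algebraMap L κ (Polynomial.aeval x p) :=
    fun p => Polynomial.aeval_algebraMap_apply κ x p
  have : IsScalarTower (Polynomial k) L κ := IsScalarTower.of_algebraMap_eq hxx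
  have : FaithfulSMul (Polynomial k) L :=
    (faithfulSMul_iff_algebraMap_injective _ _).2 (transcendental_iff_injective.1 hx)
  have : IsFractionRing (Polynomial k) L := by
    refine IsFractionRing.of_field _ _ fun z => ?_
    have hz : (z : κ) ∈ IntermediateField.adjoin k {(x : κ)} := hL ▸ z.2
    obtain ⟨p, q, h⟩ := (IntermediateField.mem_adjoin_simple_iff k _).1 hz
    refine ⟨p, q, Subtype.ext ?_⟩
    rw [h, hxx, hxx, ← map_div₀]
    rfl
  have h := Algebra.isIntegral_trace (L := L) (F := κ) (hg fun _ => rfl)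
  obtain ⟨Θ, hΘ⟩ := IsIntegrallyClosed.isIntegral_iff.1 h
  refine ⟨Θ, ?_⟩
  rw [hxx, ← hΘ]
  rfl

/-- `κ` is finite over `k(y₀)`. -/
theorem fd {k κ : Type} [Field k] [Field κ] [Algebra k κ] (y : Fin 2 → κ) (w : κ)
    (hgen : ∀ a : κ, ∃ N C : PZ k, ev y w C ≠ 0 ∧ a * ev y w C = ev y w N)
    (h1 : IsIntegral (IntermediateField.adjoin k {y 0}) (y 1))
    (h2 : IsIntegral (IntermediateField.adjoin k {y 0}) w) :
    FiniteDimensional (IntermediateField.adjoin k {y 0}) κ := by
  obtain ⟨L, hL⟩ : ∃ L : IntermediateField (IntermediateField.adjoin k {y 0}) κ,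
    L = IntermediateField.adjoin (IntermediateField.adjoin k {y 0}) {y 1, w} := ⟨_, rfl⟩
  have hf : FiniteDimensional (IntermediateField.adjoin k {y 0}) L := by
    rw [hL]
    refine IntermediateField.finiteDimensional_adjoin fun x hx => ?_
    rcases hx with rfl | hx
    · exact h1
    · rw [Set.mem_singleton_iff.1 hx]
      exact h2
  have h1L : y 1 ∈ L := by
    rw [hL]
    exact IntermediateField.subset_adjoin _ _ (Or.inl rfl)
  have h2L : w ∈ L := by
    rw [hL]
    exact IntermediateField.subset_adjoin _ _ (Or.inr rfl)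
  have h0L : y 0 ∈ L := L.algebraMap_mem
    (⟨y 0, IntermediateField.subset_adjoin _ _ rfl⟩ : IntermediateField.adjoin k {y 0})
  have hkL : ∀ c : k, algebraMap k κ c ∈ L := fun c => L.algebraMap_mem
    (algebraMap k (IntermediateField.adjoin k {y 0}) c)
  have hev : ∀ N : PZ k, ev y w N ∈ L := by
    intro N
    rw [ev_sum]
    refine sum_mem fun l _ => mul_mem ?_ (pow_mem h2L _)
    rw [aeval_sum]
    exact sum_mem fun e _ => mul_mem (hkL _) (mul_mem (pow_mem h0L _) (pow_mem h1L _))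
  have htop : L = ⊤ := by
    rw [eq_top_iff]
    rintro a -
    obtain ⟨N, C, hC, h⟩ := hgen a
    rw [eq_div_of_mul_eq hC h]
    exact div_mem (hev N) (hev C)
  rw [htop] at hf
  exact Module.Finite.equiv IntermediateField.topEquiv.toLinearEquiv

/-- The degree bound. -/
theorem deg_bound {k κ : Type} [Field k] [Field κ] [Algebra k κ] (x : κ) (hx : Transcendental k x)
    (Θ S : Polynomial k) (N : ℕ)
    (h : Polynomial.aeval x Θ = x ^ N * Polynomial.aeval x⁻¹ S) : Θ.natDegree ≤ N := by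
  have hx0 : x ≠ 0 := by
    rintro rfl
    exact hx (isAlgebraic_zero)
  have h1 : Polynomial.aeval x S.reverse = x ^ S.natDegree * Polynomial.aeval x⁻¹ S := by
    let hi : Invertible x⁻¹ := ⟨x, mul_inv_cancel₀ hx0, inv_mul_cancel₀ hx0⟩
    have h2 : Polynomial.aeval x S.reverse * x⁻¹ ^ S.natDegree = Polynomial.aeval x⁻¹ S :=
      Polynomial.eval₂_reverse_mul_pow (algebraMap k κ) x⁻¹ S
    rw [← h2, mul_left_comm, ← mul_pow, mul_inv_cancel₀ hx0, one_pow, mul_one]
  have h3 : Polynomial.X ^ S.natDegree * Θ = Polynomial.X ^ N * S.reverse := by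
    refine transcendental_iff_injective.1 hx ?_
    rw [map_mul, map_mul, map_pow, map_pow, Polynomial.aeval_X, h1, h]
    ring
  by_cases hΘ : Θ = 0
  · rw [hΘ, Polynomial.natDegree_zero]
    exact Nat.zero_le _
  have h4 := congrArg Polynomial.natDegree h3
  rw [Polynomial.natDegree_mul (pow_ne_zero _ Polynomial.X_ne_zero) hΘ, Polynomial.natDegree_X_pow] at h4
  have h5 := Polynomial.natDegree_mul_le (p := (Polynomial.X : Polynomial k) ^ N) (q := S.reverse)
  have h6 := S.reverse_natDegree_le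
  rw [Polynomial.natDegree_X_pow] at h5
  omega

end TrAAux

open TrAAux in
theorem tTrA : S_TrA := by
  intro k κ _ _ _ _ y w R P m hy hgen hR hR0 hR1 hP hP0 hW
  have hy0 : y 0 ≠ 0 := by
    intro h
    exact hy (h ▸ isAlgebraic_zero)
  obtain ⟨K, hK⟩ : ∃ K : IntermediateField k κ, K = IntermediateField.adjoin k {y 0} := ⟨_, rfl⟩
  have hyK : y 0 ∈ K := by
    rw [hK]
    exact IntermediateField.subset_adjoin _ _ rfl
  have hKi : IsIntegral K (y 1) ∧ IsIntegral K w := by
    have h := int_pair (A := K) y w R P m 1 one_ne_zero (fun c => ⟨algebraMap k K c, rfl⟩)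
      ⟨1, by simp⟩ ⟨⟨y 0, hyK⟩, by simp⟩ hR hR1 hP hP0 hW
    simpa using h
  have hfd : FiniteDimensional K κ := by
    subst hK
    exact fd y w hgen hKi.1 hKi.2
  have hinv : K = IntermediateField.adjoin k {(y 0)⁻¹} := by
    refine le_antisymm ?_ ?_
    · rw [hK, IntermediateField.adjoin_simple_le_iff]
      have h := (IntermediateField.adjoin k {(y 0)⁻¹}).inv_mem (IntermediateField.mem_adjoin_simple_self k (y 0)⁻¹)
      rwa [inv_inv] at h
    · rw [IntermediateField.adjoin_simple_le_iff]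
      exact K.inv_mem hyK
  have hyi : Transcendental k (y 0)⁻¹ := fun h => hy (by simpa using h.inv)
  rw [← hK]
  refine ⟨hfd, ?_⟩
  have key : ∀ b c : ℕ, ∃ Θ : Polynomial k, Θ.natDegree ≤ b + m * c ∧
      Polynomial.aeval (y 0) Θ = algebraMap K κ (Algebra.trace K κ (y 1 ^ b * w ^ c)) := by
    intro b c
    obtain ⟨Θ, hΘ⟩ := tr_mem K ⟨y 0, hyK⟩
      ((transcendental_algebraMap_iff (algebraMap K κ).injective).1 hy) hK (y 1 ^ b * w ^ c)
      fun {_} hA => by
        obtain ⟨h1, h2⟩ := int_pair (A := Polynomial k) y w R P m 1 one_ne_zero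
          (fun c => ⟨Polynomial.C c, by rw [hA, Polynomial.aeval_C]⟩)
          ⟨1, by simp⟩ ⟨Polynomial.X, by rw [hA, Polynomial.aeval_X, div_one]⟩ hR hR1 hP hP0 hW
        rw [div_one] at h1
        rw [one_pow, div_one] at h2
        exact (h1.pow b).mul (h2.pow c)
    obtain ⟨S, hS⟩ := tr_mem K ⟨(y 0)⁻¹, K.inv_mem hyK⟩
      ((transcendental_algebraMap_iff (algebraMap K κ).injective).1 hyi) hinv
      ((y 1 / y 0) ^ b * (w / y 0 ^ m) ^ c)
      fun {_} hA => by
        obtain ⟨h1, h2⟩ := int_pair (A := Polynomial k) y w R P m (y 0) hy0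
          (fun c => ⟨Polynomial.C c, by rw [hA, Polynomial.aeval_C]⟩)
          ⟨Polynomial.X, by rw [hA, Polynomial.aeval_X]⟩
          ⟨1, by rw [map_one, div_self hy0]⟩ hR hR1 hP hP0 hW
        exact (h1.pow b).mul (h2.pow c)
    refine ⟨Θ, deg_bound (y 0) hy Θ S _ ?_, hΘ⟩
    have h1 : y 1 ^ b * w ^ c = (⟨y 0, hyK⟩ ^ (b + m * c) : K) • ((y 1 / y 0) ^ b * (w / y 0 ^ m) ^ c) := by
      rw [Algebra.smul_def, map_pow, IntermediateField.algebraMap_apply, div_pow, div_pow, ← pow_mul,
        pow_add]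
      field_simp
    rw [h1, map_smul, smul_eq_mul, map_mul, ← hS, map_pow] at hΘ
    exact hΘ
  choose Θ hΘ using key
  exact ⟨Θ, hΘ⟩

end Pool.Agent.Lib.MP_16285c_agS.Cn
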