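import Pool.Agent.Lib.MP_16285c_agS.Can.Spec

/-!
# The trace formula
-/

set_option autoImplicit false

namespace Pool.Agent.Lib.MP_16285c_agS.Cn

open Pool.Agent.Lib.MP_16285c_agS

namespace TrBAux

variable {k : Type} [Field k]

theorem ev_C {E : Type} [Field E] [Algebra k E] (t : Fin 2 → E) (z : E) (g : Po k) :
    ev t z (Polynomial.C g) = MvPolynomial.aeval t g := by
  unfold ev
  rw [Polynomial.coe_eval₂RingHom, Polynomial.eval₂_C]
  rfl

theorem ev_X {E : Type} [Field E] [Algebra k E] (t : Fin 2 → E) (z : E) :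
    ev (k := k) t z Polynomial.X = z := by
  unfold ev
  rw [Polynomial.coe_eval₂RingHom, Polynomial.eval₂_X]

theorem ev_hom {E E' : Type} [Field E] [Field E'] [Algebra k E] [Algebra k E'] (g : E →ₐ[k] E')
    (t : Fin 2 → E) (z : E) (N : PZ k) : g (ev t z N) = ev (fun i => g (t i)) (g z) N := by
  induction N using Polynomial.induction_on' with
  | add p q hp hq => rw [map_add, map_add, map_add, hp, hq]
  | monomial n a =>
    rw [← Polynomial.C_mul_X_pow_eq_monomial, map_mul, map_mul, map_mul, map_pow, map_pow, map_pow,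
      ev_C, ev_C, ev_X, ev_X]
    congr 1
    exact MvPolynomial.comp_aeval_apply t g a

theorem ev_sum {E : Type} [Field E] [Algebra k E] (t : Fin 2 → E) (z : E) (P : PZ k) :
    ev t z P = ∑ l ∈ P.support, MvPolynomial.aeval t (P.coeff l) * z ^ l := by
  unfold ev
  rw [Polynomial.coe_eval₂RingHom, Polynomial.eval₂_eq_sum, Polynomial.sum_def]
  rfl

theorem aeval_two {S : Type} [CommRing S] [Algebra k S] (y : Fin 2 → S) (R : Po k) :
    MvPolynomial.aeval y R = ∑ e ∈ R.support,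
      algebraMap k S (R.coeff e) * (y 0 ^ e 0 * y 1 ^ e 1) := by
  rw [MvPolynomial.aeval_def, MvPolynomial.eval₂_eq']
  refine Finset.sum_congr rfl fun e _ => ?_
  rw [Fin.prod_univ_two]

/-- The divided difference of `R`. -/
noncomputable def AA {S : Type} [CommRing S] [Algebra k S] (R : Po k) (u t s : S) : S :=
  ∑ e ∈ R.support, algebraMap k S (R.coeff e) * u ^ e 0 *
    ∑ a ∈ Finset.range (e 1), t ^ a * s ^ (e 1 - 1 - a)

/-- The divided difference of `P`. -/
noncomputable def BB {S : Type} [CommRing S] [Algebra k S] (P : PZ k) (y : Fin 2 → S) (z v : S) :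
    S :=
  ∑ l ∈ P.support, MvPolynomial.aeval y (P.coeff l) *
    ∑ c ∈ Finset.range l, z ^ c * v ^ (l - 1 - c)

theorem AA_mul {S : Type} [CommRing S] [Algebra k S] (R : Po k) (y y' : Fin 2 → S)
    (h : y 0 = y' 0) :
    AA R (y 0) (y 1) (y' 1) * (y 1 - y' 1) = MvPolynomial.aeval y R - MvPolynomial.aeval y' R := by
  rw [aeval_two, aeval_two, AA, Finset.sum_mul, ← Finset.sum_sub_distrib]
  refine Finset.sum_congr rfl fun e _ => ?_
  rw [mul_assoc, geom_sum₂_mul, h]
  ring

theorem BB_mul {S : Type} [Field S] [Algebra k S] (P : PZ k) (y : Fin 2 → S) (z v : S) :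
    BB P y z v * (z - v) = ev y z P - ev y v P := by
  rw [ev_sum, ev_sum, BB, Finset.sum_mul, ← Finset.sum_sub_distrib]
  refine Finset.sum_congr rfl fun e _ => ?_
  rw [mul_assoc, geom_sum₂_mul]
  ring

/-- The polynomial of the trace formula. -/
noncomputable def HH (R : Po k) (P : PZ k) (Θ : ℕ → ℕ → Polynomial k) : PZ k :=
  ∑ e ∈ R.support, ∑ a ∈ Finset.range (e 1), ∑ l ∈ P.support, ∑ c ∈ Finset.range l,
    Polynomial.C (MvPolynomial.C (R.coeff e) * MvPolynomial.X 0 ^ e 0 * MvPolynomial.X 1 ^ a *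
      P.coeff l * Polynomial.aeval (MvPolynomial.X 0 : Po k) (Θ (e 1 - 1 - a) (l - 1 - c))) *
      Polynomial.X ^ c

theorem ev_HH {S : Type} [Field S] [Algebra k S] (R : Po k) (P : PZ k)
    (Θ : ℕ → ℕ → Polynomial k) (Y : Fin 2 → S) (W : S) (T : Type) [Fintype T] (sy sw : T → S)
    (hΘ : ∀ b c, Polynomial.aeval (Y 0) (Θ b c) = ∑ τ, sy τ ^ b * sw τ ^ c) :
    ev Y W (HH R P Θ) = ∑ τ, AA R (Y 0) (Y 1) (sy τ) * BB P Y W (sw τ) := by
  have h1 : ∀ τ, AA R (Y 0) (Y 1) (sy τ) * BB P Y W (sw τ) =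
      ∑ e ∈ R.support, ∑ a ∈ Finset.range (e 1), ∑ l ∈ P.support, ∑ c ∈ Finset.range l,
        (algebraMap k S (R.coeff e) * Y 0 ^ e 0 * Y 1 ^ a * MvPolynomial.aeval Y (P.coeff l) *
          W ^ c) * (sy τ ^ (e 1 - 1 - a) * sw τ ^ (l - 1 - c)) := by
    intro τ
    rw [AA, Finset.sum_mul]
    refine Finset.sum_congr rfl fun e _ => ?_
    rw [Finset.mul_sum, Finset.sum_mul]
    refine Finset.sum_congr rfl fun a _ => ?_
    rw [BB, Finset.mul_sum]
    refine Finset.sum_congr rfl fun l _ => ?_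
    rw [Finset.mul_sum, Finset.mul_sum]
    refine Finset.sum_congr rfl fun c _ => ?_
    ring
  rw [Finset.sum_congr rfl fun τ _ => h1 τ, HH, map_sum, Finset.sum_comm]
  refine Finset.sum_congr rfl fun e _ => ?_
  rw [map_sum, Finset.sum_comm]
  refine Finset.sum_congr rfl fun a _ => ?_
  rw [map_sum, Finset.sum_comm]
  refine Finset.sum_congr rfl fun l _ => ?_
  rw [map_sum, Finset.sum_comm]
  refine Finset.sum_congr rfl fun c _ => ?_
  rw [← Finset.mul_sum, ← hΘ, map_mul, map_pow, ev_X, ev_C, map_mul, map_mul, map_mul, map_mul,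
    map_pow, map_pow, MvPolynomial.aeval_C, MvPolynomial.aeval_X, MvPolynomial.aeval_X]
  have h2 : MvPolynomial.aeval Y (Polynomial.aeval (MvPolynomial.X 0 : Po k)
      (Θ (e 1 - 1 - a) (l - 1 - c))) = Polynomial.aeval (Y 0) (Θ (e 1 - 1 - a) (l - 1 - c)) := by
    rw [← Polynomial.aeval_algHom_apply, MvPolynomial.aeval_X]
  rw [h2]
  ring

/-! ## Weights -/

theorem wle_zero (m N : ℕ) : Wle m N (0 : PZ k) := by
  intro c hc
  simp at hc

theorem wle_add {m N : ℕ} {A B : PZ k} (hA : Wle m N A) (hB : Wle m N B) : Wle m N (A + B) := by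
  intro c hc
  rw [Polynomial.mem_support_iff, Polynomial.coeff_add] at hc
  rw [Polynomial.coeff_add]
  by_cases h1 : A.coeff c = 0
  · rw [h1, zero_add] at hc ⊢
    exact hB c (Polynomial.mem_support_iff.2 hc)
  · by_cases h2 : B.coeff c = 0
    · rw [h2, add_zero]
      exact hA c (Polynomial.mem_support_iff.2 h1)
    · have h3 := hA c (Polynomial.mem_support_iff.2 h1)
      have h4 := hB c (Polynomial.mem_support_iff.2 h2)
      have h5 := MvPolynomial.totalDegree_add (A.coeff c) (B.coeff c)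
      rcases le_max_iff.1 h5 with h6 | h6 <;> omega

theorem wle_sum {m N : ℕ} {ι : Type} (s : Finset ι) (f : ι → PZ k)
    (h : ∀ i ∈ s, Wle m N (f i)) : Wle m N (∑ i ∈ s, f i) := by
  classical
  induction s using Finset.induction_on with
  | empty =>
    rw [Finset.sum_empty]
    exact wle_zero m N
  | insert a s ha ih =>
    rw [Finset.sum_insert ha]
    exact wle_add (h a (Finset.mem_insert_self a s))
      (ih fun i hi => h i (Finset.mem_insert_of_mem hi))

theorem wle_mono {m N c : ℕ} (g : Po k) (h : g.totalDegree + m * c ≤ N) :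
    Wle m N (Polynomial.C g * Polynomial.X ^ c) := by
  intro c' hc
  rw [Polynomial.mem_support_iff, Polynomial.coeff_C_mul_X_pow] at hc
  rw [Polynomial.coeff_C_mul_X_pow]
  split_ifs at hc ⊢ with h1
  · rw [h1]
    exact h
  · exact absurd rfl hc

theorem deg_aeval (Q : Polynomial k) :
    (Polynomial.aeval (MvPolynomial.X 0 : Po k) Q).totalDegree ≤ Q.natDegree := by
  rw [Polynomial.aeval_eq_sum_range]
  refine MvPolynomial.totalDegree_finsetSum_le fun i hi => ?_
  refine (MvPolynomial.totalDegree_smul_le _ _).trans ?_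
  rw [MvPolynomial.totalDegree_X_pow]
  have := Finset.mem_range.1 hi
  omega

theorem wle_HH {m : ℕ} (R : Po k) (P : PZ k) (Θ : ℕ → ℕ → Polynomial k)
    (hP : Wle m (m * P.natDegree) P) (hΘ : ∀ b c, (Θ b c).natDegree ≤ b + m * c) :
    Wle m (R.totalDegree + m * P.natDegree) (HH R P Θ) := by
  refine wle_sum _ _ fun e he => wle_sum _ _ fun a ha => wle_sum _ _ fun l hl =>
    wle_sum _ _ fun c hc => wle_mono _ ?_
  have ha' := Finset.mem_range.1 ha
  have hc' := Finset.mem_range.1 hc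
  have h1 : e 0 + e 1 ≤ R.totalDegree := by
    have h2 := MvPolynomial.le_totalDegree he
    have h3 : (e.sum fun _ n => n) = e 0 + e 1 := by
      rw [Finsupp.sum_fintype _ _ (fun _ => rfl), Fin.sum_univ_two]
    rwa [h3] at h2
  have h2 := hP l hl
  have h3 := hΘ (e 1 - 1 - a) (l - 1 - c)
  have h4 := deg_aeval (Θ (e 1 - 1 - a) (l - 1 - c))
  have h5 : (MvPolynomial.C (R.coeff e) * MvPolynomial.X 0 ^ e 0 * MvPolynomial.X 1 ^ a *
      P.coeff l * Polynomial.aeval (MvPolynomial.X 0 : Po k)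
        (Θ (e 1 - 1 - a) (l - 1 - c))).totalDegree ≤
      e 0 + a + (P.coeff l).totalDegree + (Θ (e 1 - 1 - a) (l - 1 - c)).natDegree := by
    refine (MvPolynomial.totalDegree_mul _ _).trans (add_le_add ?_ h4)
    refine (MvPolynomial.totalDegree_mul _ _).trans (add_le_add ?_ le_rfl)
    refine (MvPolynomial.totalDegree_mul _ _).trans (add_le_add ?_ ?_)
    · refine (MvPolynomial.totalDegree_mul _ _).trans ?_
      rw [MvPolynomial.totalDegree_C, MvPolynomial.totalDegree_X_pow, zero_add]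
    · rw [MvPolynomial.totalDegree_X_pow]
  have h6 : m * (l - 1 - c) + m * c ≤ m * l := by
    rw [← mul_add]
    exact Nat.mul_le_mul_left m (by omega)
  omega

/-! ## Derivatives -/

theorem AA_diag {S : Type} [CommRing S] [Algebra k S] (R : Po k) (y : Fin 2 → S) :
    AA R (y 0) (y 1) (y 1) = MvPolynomial.aeval y (MvPolynomial.pderiv 1 R) := by
  have h1 : MvPolynomial.pderiv 1 R = ∑ e ∈ R.support,
      MvPolynomial.monomial (e - Finsupp.single 1 1) (R.coeff e * (e 1 : k)) := by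
    conv_lhs => rw [MvPolynomial.as_sum R]
    rw [map_sum]
    refine Finset.sum_congr rfl fun e _ => ?_
    rw [MvPolynomial.pderiv_monomial]
  rw [h1, map_sum, AA]
  refine Finset.sum_congr rfl fun e _ => ?_
  rw [MvPolynomial.aeval_monomial]
  have h2 : ∑ a ∈ Finset.range (e 1), y 1 ^ a * y 1 ^ (e 1 - 1 - a) =
      (e 1 : S) * y 1 ^ (e 1 - 1) := by
    rw [Finset.sum_congr rfl (g := fun _ => y 1 ^ (e 1 - 1)), Finset.sum_const,
      Finset.card_range, nsmul_eq_mul]
    intro a ha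
    have := Finset.mem_range.1 ha
    rw [← pow_add]
    congr 1
    omega
  have h3 : ((e - Finsupp.single 1 1).prod fun i n => y i ^ n) = y 0 ^ e 0 * y 1 ^ (e 1 - 1) := by
    rw [Finsupp.prod_fintype _ _ (fun i => pow_zero _), Fin.prod_univ_two]
    simp
  rw [h2, h3, map_mul, map_natCast]
  ring

theorem BB_diag {S : Type} [Field S] [Algebra k S] (P : PZ k) (y : Fin 2 → S) (z : S) :
    BB P y z z = ev y z P.derivative := by
  rw [Polynomial.derivative_apply, Polynomial.sum_def, map_sum, BB]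
  refine Finset.sum_congr rfl fun l _ => ?_
  rw [map_mul, map_pow, ev_C, ev_X, map_mul, map_natCast]
  have h2 : ∑ a ∈ Finset.range l, z ^ a * z ^ (l - 1 - a) = (l : S) * z ^ (l - 1) := by
    rw [Finset.sum_congr rfl (g := fun _ => z ^ (l - 1)), Finset.sum_const,
      Finset.card_range, nsmul_eq_mul]
    intro a ha
    have := Finset.mem_range.1 ha
    rw [← pow_add]
    congr 1
    omega
  rw [h2]
  ring

/-! ## Embeddings -/

open scoped IntermediateField in
theorem emb {κ : Type} [CharZero k] [Field κ] [Algebra k κ] (y : Fin 2 → κ) (w : κ)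
    (Θ : ℕ → ℕ → Polynomial k) (hfin : FiniteDimensional k⟮y 0⟯ κ)
    (hΘ : ∀ b c, Polynomial.aeval (y 0) (Θ b c) = algebraMap k⟮y 0⟯ κ
        (Algebra.trace k⟮y 0⟯ κ (y 1 ^ b * w ^ c)))
    (Ω : Type) [Field Ω] [Algebra k Ω] [IsAlgClosed Ω] (φ : k⟮y 0⟯ →ₐ[k] Ω) :
    ∃ (T : Type) (_ : Fintype T) (g : T → (κ →ₐ[k] Ω)),
      (∀ τ, ∀ a : k⟮y 0⟯, g τ (algebraMap k⟮y 0⟯ κ a) = φ a) ∧
      (∀ g₀ : κ →ₐ[k] Ω, (∀ a : k⟮y 0⟯, g₀ (algebraMap k⟮y 0⟯ κ a) = φ a) → ∃ τ, g τ = g₀) ∧
      Function.Injective g ∧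
      ∀ b c, Polynomial.aeval (φ (IntermediateField.AdjoinSimple.gen k (y 0))) (Θ b c) =
        ∑ τ, g τ (y 1) ^ b * g τ w ^ c := by
  let : Algebra k⟮y 0⟯ Ω := φ.toRingHom.toAlgebra
  have : IsScalarTower k k⟮y 0⟯ Ω := IsScalarTower.of_algebraMap_eq fun c => (φ.commutes c).symm
  have hφ : ∀ a : k⟮y 0⟯, algebraMap k⟮y 0⟯ Ω a = φ a := fun a => rfl
  refine ⟨κ →ₐ[k⟮y 0⟯] Ω, inferInstance, fun τ => τ.restrictScalars k, ?_, ?_, ?_, ?_⟩
  · intro τ a
    exact τ.commutes a
  · intro g₀ h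
    exact ⟨{ g₀ with commutes' := h }, by ext a; rfl⟩
  · intro τ τ' h
    ext a
    exact congrArg (fun g : κ →ₐ[k] Ω => g a) h
  · intro b c
    have h1 : Polynomial.aeval (IntermediateField.AdjoinSimple.gen k (y 0)) (Θ b c) =
        Algebra.trace k⟮y 0⟯ κ (y 1 ^ b * w ^ c) := by
      apply (algebraMap k⟮y 0⟯ κ).injective
      rw [← hΘ b c]
      have h2 := Polynomial.aeval_algebraMap_apply κ
        (IntermediateField.AdjoinSimple.gen k (y 0)) (Θ b c)
      rw [← h2, IntermediateField.AdjoinSimple.algebraMap_gen]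
    rw [Polynomial.aeval_algHom_apply, h1, ← hφ, trace_eq_sum_embeddings Ω]
    refine Finset.sum_congr rfl fun τ _ => ?_
    rw [map_mul, map_pow, map_pow]
    rfl

end TrBAux

open TrBAux in
open scoped IntermediateField in
theorem tTrB : S_TrA → S_TrB := by
  intro hTrA k κ _ _ _ _ y w R P m hy hgen hR hR0 hRc hPm hPw hPW
  obtain ⟨hfin, Θ, hΘ⟩ := hTrA k κ y w R P m hy hgen hR hR0 hRc hPm hPw hPW
  have hgen0 : ∀ (Ω : Type) [Field Ω] [Algebra k Ω] (φ : k⟮y 0⟯ →ₐ[k] Ω) (g : κ →ₐ[k] Ω),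
      (∀ a : k⟮y 0⟯, g (algebraMap k⟮y 0⟯ κ a) = φ a) →
      g (y 0) = φ (IntermediateField.AdjoinSimple.gen k (y 0)) := by
    intro Ω _ _ φ g h
    rw [← h, IntermediateField.AdjoinSimple.algebraMap_gen]
  -- the terms
  have hterm : ∀ (Ω : Type) [Field Ω] [Algebra k Ω] (g : κ →ₐ[k] Ω) (Y : Fin 2 → Ω) (W : Ω),
      g (y 0) = Y 0 → MvPolynomial.aeval Y R = 0 → ev Y W P = 0 →
      AA R (Y 0) (Y 1) (g (y 1)) * BB P Y W (g w) ≠ 0 → (∀ i, g (y i) = Y i) ∧ g w = W := by
    intro Ω _ _ g Y W h0 hY hW hne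
    have h1 := AA_mul R Y (fun i => g (y i)) h0.symm
    have h2 : MvPolynomial.aeval (fun i => g (y i)) R = 0 := by
      rw [← MvPolynomial.comp_aeval_apply y g R, hR, map_zero]
    rw [hY, h2, sub_zero] at h1
    have h3 : Y 1 - g (y 1) = 0 := by
      rcases mul_eq_zero.1 h1 with h | h
      · exact absurd h (left_ne_zero_of_mul hne)
      · exact h
    have h4 : ∀ i, g (y i) = Y i := by
      intro i
      fin_cases i
      · exact h0
      · exact (sub_eq_zero.1 h3).symm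
    refine ⟨h4, ?_⟩
    have h5 := BB_mul P Y W (g w)
    have h6 : ev Y (g w) P = 0 := by
      have h7 := ev_hom g y w P
      rw [hPw, map_zero, funext h4] at h7
      exact h7.symm
    rw [hW, h6, sub_zero] at h5
    rcases mul_eq_zero.1 h5 with h | h
    · exact absurd h (right_ne_zero_of_mul hne)
    · exact (sub_eq_zero.1 h).symm
  refine ⟨HH R P Θ, wle_HH R P Θ hPW fun b c => (hΘ b c).1, ?_, ?_⟩
  · -- the value at `(y, w)`
    obtain ⟨T, hT, g, hg1, hg2, hg3, hg4⟩ := emb y w Θ hfin (fun b c => (hΘ b c).2)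
      (AlgebraicClosure κ) ((IsScalarTower.toAlgHom k κ (AlgebraicClosure κ)).comp k⟮y 0⟯.val)
    obtain ⟨τ₀, hτ₀⟩ := hg2 (IsScalarTower.toAlgHom k κ (AlgebraicClosure κ)) (fun a => rfl)
    obtain ⟨ι, hι⟩ : ∃ ι, ι = IsScalarTower.toAlgHom k κ (AlgebraicClosure κ) := ⟨_, rfl⟩
    rw [← hι] at hτ₀ hg4
    have hY0 : ∀ τ, g τ (y 0) = ι (y 0) := by
      intro τ
      rw [hgen0 _ _ (g τ) (hg1 τ), hι]
      rfl
    have e1 := ev_HH R P Θ (fun i => ι (y i)) (ι w) T (fun τ => g τ (y 1)) (fun τ => g τ w) (by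
      intro b c
      rw [← hg4 b c]
      rfl)
    rw [← ev_hom, Finset.sum_eq_single τ₀] at e1
    · rw [hτ₀] at e1
      have e2 := AA_diag R (fun i => ι (y i))
      have e3 := BB_diag P (fun i => ι (y i)) (ι w)
      rw [← ev_hom] at e3
      rw [← MvPolynomial.comp_aeval_apply] at e2
      rw [e2, e3, ← map_mul] at e1
      exact ι.toRingHom.injective e1
    · intro τ _ hne
      by_contra hcon
      apply hne
      apply hg3
      obtain ⟨h1, h2⟩ := hterm _ (g τ) (fun i => ι (y i)) (ι w) (hY0 τ) (by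
        rw [← MvPolynomial.comp_aeval_apply y ι R, hR, map_zero]) (by
        rw [← ev_hom, hPw, map_zero]) hcon
      rw [hτ₀]
      ext a
      obtain ⟨N, C, hC, ha⟩ := hgen a
      have h3 : ∀ F : PZ k, g τ (ev y w F) = ι (ev y w F) := by
        intro F
        rw [ev_hom, ev_hom, h2, funext h1]
      have h4 := congrArg (g τ) ha
      have h5 := congrArg ι ha
      rw [map_mul, h3, h3, ← h5, map_mul] at h4
      refine mul_right_cancel₀ ?_ h4
      intro h6
      exact hC (ι.toRingHom.injective (by simpa using h6))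
    · intro h
      exact absurd (Finset.mem_univ _) h
  · intro κ' _ _ y' w' hy' hR' hP'
    by_cases hH : ev y' w' (HH R P Θ) = 0
    · exact Or.inl hH
    right
    obtain ⟨φ₀, hφ₀⟩ : ∃ φ₀ : k⟮y 0⟯ →ₐ[k] κ',
        φ₀ (IntermediateField.AdjoinSimple.gen k (y 0)) = y' 0 := by
      refine ⟨(k⟮y' 0⟯.val.comp (RatFunc.algEquivOfTranscendental (y' 0) hy').toAlgHom).comp
        (RatFunc.algEquivOfTranscendental (y 0) hy).symm.toAlgHom, ?_⟩
      have h1 := RatFunc.algEquivOfTranscendental_symm_gen (y 0) hy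
      have h2 := RatFunc.algEquivOfTranscendental_X (y' 0) hy'
      show ((RatFunc.algEquivOfTranscendental (y' 0) hy')
        ((RatFunc.algEquivOfTranscendental (y 0) hy).symm
          (IntermediateField.AdjoinSimple.gen k (y 0))) : κ') = y' 0
      rw [h1, h2]
    obtain ⟨ι, hι⟩ : ∃ ι, ι = IsScalarTower.toAlgHom k κ' (AlgebraicClosure κ') := ⟨_, rfl⟩
    obtain ⟨T, hT, g, hg1, hg2, hg3, hg4⟩ := emb y w Θ hfin (fun b c => (hΘ b c).2)
      (AlgebraicClosure κ') (ι.comp φ₀)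
    have hY0 : ∀ τ, g τ (y 0) = ι (y' 0) := by
      intro τ
      rw [hgen0 _ _ (g τ) (hg1 τ), AlgHom.comp_apply, hφ₀]
    have e1 := ev_HH R P Θ (fun i => ι (y' i)) (ι w') T (fun τ => g τ (y 1)) (fun τ => g τ w) (by
      intro b c
      rw [← hg4 b c, AlgHom.comp_apply, hφ₀])
    rw [← ev_hom] at e1
    have e2 : ∑ τ, AA R (ι (y' 0)) (ι (y' 1)) (g τ (y 1)) * BB P (fun i => ι (y' i)) (ι w')
        (g τ w) ≠ 0 := by
      rw [← e1]
      intro h
      exact hH (ι.toRingHom.injective (by simpa using h))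
    obtain ⟨τ, -, hτ⟩ := Finset.exists_ne_zero_of_sum_ne_zero e2
    obtain ⟨h1, h2⟩ := hterm _ (g τ) (fun i => ι (y' i)) (ι w') (hY0 τ) (by
        rw [← MvPolynomial.comp_aeval_apply y' ι R, hR', map_zero]) (by
        rw [← ev_hom, hP', map_zero]) hτ
    intro N
    have h3 : g τ (ev y w N) = ι (ev y' w' N) := by
      rw [ev_hom, ev_hom, h2, funext h1]
    constructor
    · intro h
      rw [h, map_zero] at h3
      exact ι.toRingHom.injective (by simpa using h3.symm)
    · intro h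
      rw [h, map_zero] at h3
      exact (g τ).toRingHom.injective (by simpa using h3)

end Pool.Agent.Lib.MP_16285c_agS.Cn
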