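import Pool.Agent.Lib.MP_16285c_agS.Can.Spec

/-!
# Divisors with `D(t)` a unit are localizations of `k[t, z]` and not ramified (proof of `S_Unr`)
-/

set_option autoImplicit false

namespace Pool.Agent.Lib.MP_16285c_agS.Cn

namespace UnrAux

open Polynomial

/-- Denominators of a polynomial over the field of fractions of the image of `g`. -/
theorem clear {B κ : Type} [CommRing B] [Field κ] (g : B →+* κ)
    (F : (FractionRing g.range)[X]) :
    ∃ b : B, ((algebraMap g.range (FractionRing g.range)).comp g.rangeRestrict) b ≠ 0 ∧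
      ∃ F' : B[X], F'.map ((algebraMap g.range (FractionRing g.range)).comp g.rangeRestrict) =
        C (((algebraMap g.range (FractionRing g.range)).comp g.rangeRestrict) b) * F := by
  obtain ⟨b, hbM, hb⟩ := IsLocalization.integerNormalization_spec (nonZeroDivisors g.range) F
  obtain ⟨F', hF'⟩ := Polynomial.map_surjective g.rangeRestrict g.rangeRestrict_surjective
    (IsLocalization.integerNormalization (nonZeroDivisors g.range) F)
  obtain ⟨b', hb'⟩ := g.rangeRestrict_surjective b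
  refine ⟨b', ?_, F', ?_⟩
  · rw [RingHom.comp_apply, hb']
    intro h
    have h2 : b = 0 := by
      have := (IsFractionRing.injective g.range (FractionRing g.range)) (h.trans (map_zero _).symm)
      exact this
    exact nonZeroDivisors.ne_zero hbM h2
  · rw [← Polynomial.map_map, hF', hb, RingHom.comp_apply, hb', ← Polynomial.smul_eq_C_mul,
      algebraMap_smul]

/-- The algebraic core of the claim. -/
theorem core {B κ : Type} [CommRing B] [Field κ] (g : B →+* κ) (p : B) (hp : ∀ b, g b = 0 ↔ p ∣ b)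
    (α : κ) (P A : B[X]) (hP : P.eval₂ g α = 0) (hd : P.derivative.eval₂ g α ≠ 0)
    (hA : A.eval₂ g α = 0) :
    ∃ Q U A' : B[X], Q.eval₂ g α ≠ 0 ∧ Q * A = P * U + C p * A' := by
  have hinj : Function.Injective (g.range.subtype) := Subtype.val_injective
  obtain ⟨χ, hχ⟩ : ∃ χ : FractionRing g.range →+* κ, ∀ b : g.range,
      χ (algebraMap g.range (FractionRing g.range) b) = (b : κ) :=
    ⟨IsFractionRing.lift hinj, fun b => IsFractionRing.lift_algebraMap hinj b⟩
  have hcl := clear g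
  obtain ⟨ψ, hψdef⟩ : ∃ ψ : B →+* FractionRing g.range,
    ψ = (algebraMap g.range (FractionRing g.range)).comp g.rangeRestrict := ⟨_, rfl⟩
  rw [← hψdef] at hcl
  have hχψ : χ.comp ψ = g := by
    ext b
    rw [hψdef, RingHom.comp_apply, RingHom.comp_apply, hχ]
    rfl
  have hψ : ∀ b, ψ b = 0 ↔ p ∣ b := by
    intro b
    have h1 : g b = χ (ψ b) := by rw [← RingHom.comp_apply, hχψ]
    rw [← hp, h1]
    exact (map_eq_zero χ).symm
  have hev : ∀ F : B[X], F.eval₂ g α = (F.map ψ).eval₂ χ α := by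
    intro F
    rw [Polynomial.eval₂_map, hχψ]
  obtain ⟨μ, hμ⟩ := (IsPrincipalIdealRing.principal
    (RingHom.ker (Polynomial.eval₂RingHom χ α))).principal
  have hker : ∀ F : (FractionRing g.range)[X], F.eval₂ χ α = 0 → μ ∣ F := by
    intro F hF
    have : F ∈ RingHom.ker (Polynomial.eval₂RingHom χ α) := by
      rw [RingHom.mem_ker]
      exact hF
    rw [hμ] at this
    exact Ideal.mem_span_singleton.mp this
  have hμ0 : μ.eval₂ χ α = 0 := by
    have : μ ∈ RingHom.ker (Polynomial.eval₂RingHom χ α) := by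
      rw [hμ]
      exact Ideal.mem_span_singleton_self μ
    rw [RingHom.mem_ker] at this
    exact this
  obtain ⟨Qb, hQb⟩ := hker (P.map ψ) (by rw [← hev]; exact hP)
  obtain ⟨Ub, hUb⟩ := hker (A.map ψ) (by rw [← hev]; exact hA)
  have hQb0 : Qb.eval₂ χ α ≠ 0 := by
    intro h0
    apply hd
    rw [hev, ← Polynomial.derivative_map, hQb, Polynomial.derivative_mul, Polynomial.eval₂_add,
      Polynomial.eval₂_mul, Polynomial.eval₂_mul, h0, hμ0, mul_zero, zero_mul, add_zero]
  obtain ⟨b₁, hb₁, Q₁, hQ₁⟩ := hcl Qb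
  obtain ⟨b₂, hb₂, U₁, hU₁⟩ := hcl Ub
  have hdiv : C p ∣ (C b₂ * Q₁) * A - P * (C b₁ * U₁) := by
    rw [Polynomial.C_dvd_iff_dvd_coeff]
    intro n
    rw [← hψ, ← Polynomial.coeff_map]
    have : ((C b₂ * Q₁) * A - P * (C b₁ * U₁)).map ψ = 0 := by
      rw [Polynomial.map_sub, Polynomial.map_mul, Polynomial.map_mul, Polynomial.map_mul,
        Polynomial.map_mul, Polynomial.map_C, Polynomial.map_C, hQ₁, hU₁, hUb, hQb]
      ring
    rw [this, Polynomial.coeff_zero]
  obtain ⟨A', hA'⟩ := hdiv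
  refine ⟨C b₂ * Q₁, C b₁ * U₁, A', ?_, ?_⟩
  · rw [hev, Polynomial.map_mul, Polynomial.map_C, hQ₁, Polynomial.eval₂_mul, Polynomial.eval₂_mul,
      Polynomial.eval₂_C, Polynomial.eval₂_C]
    exact mul_ne_zero ((map_ne_zero χ).mpr hb₂) (mul_ne_zero ((map_ne_zero χ).mpr hb₁) hQb0)
  · rw [← hA']
    ring

section

variable {k E : Type} [Field k] [Field E] [Algebra k E]

theorem aeval_mem (t : Fin 2 → E) (O : ValuationSubring E) (hk : ∀ c : k, algebraMap k E c ∈ O)
    (ht : ∀ i, t i ∈ O) (G : Po k) : (MvPolynomial.aeval t : Po k →ₐ[k] E).toRingHom G ∈ O := by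
  change MvPolynomial.aeval t G ∈ O
  induction G using MvPolynomial.induction_on with
  | C a =>
    rw [MvPolynomial.aeval_C]
    exact hk a
  | add p q hp hq => rw [map_add]; exact O.add_mem _ _ hp hq
  | mul_X p i hp => rw [map_mul, MvPolynomial.aeval_X]; exact O.mul_mem _ _ hp (ht i)

theorem z_mem (t : Fin 2 → E) (z : E) (P : PZ k) (hP : P.Monic) (h0 : ev t z P = 0)
    (O : ValuationSubring E) (hk : ∀ c : k, algebraMap k E c ∈ O) (ht : ∀ i, t i ∈ O) : z ∈ O := by
  obtain ⟨g, hg⟩ : ∃ g : Po k →+* O, (algebraMap O E).comp g =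
      (MvPolynomial.aeval t : Po k →ₐ[k] E).toRingHom :=
    ⟨RingHom.codRestrict ((MvPolynomial.aeval t : Po k →ₐ[k] E).toRingHom) O
      (aeval_mem t O hk ht), RingHom.ext fun _ => rfl⟩
  have hint : IsIntegral O z := by
    refine ⟨P.map g, hP.map g, ?_⟩
    rw [Polynomial.eval₂_map, hg]
    exact h0
  obtain ⟨y, hy⟩ := IsIntegrallyClosed.isIntegral_iff.mp hint
  rw [← hy]
  exact y.2

/-- Evaluation in `O`. -/
theorem exists_evO (t : Fin 2 → E) (z : E) (O : ValuationSubring E)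
    (hk : ∀ c : k, algebraMap k E c ∈ O) (ht : ∀ i, t i ∈ O) (hz : z ∈ O) :
    ∃ g : Po k →+* O, (∀ G, (g G : E) = MvPolynomial.aeval t G) ∧
      ∀ N : PZ k, ((N.eval₂ g ⟨z, hz⟩ : O) : E) = ev t z N := by
  obtain ⟨g, hg⟩ : ∃ g : Po k →+* O, (algebraMap O E).comp g =
      (MvPolynomial.aeval t : Po k →ₐ[k] E).toRingHom :=
    ⟨RingHom.codRestrict ((MvPolynomial.aeval t : Po k →ₐ[k] E).toRingHom) O
      (aeval_mem t O hk ht), RingHom.ext fun _ => rfl⟩
  refine ⟨g, fun G => ?_, fun N => ?_⟩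
  · have := DFunLike.congr_fun hg G
    exact this
  · have h := Polynomial.hom_eval₂ N g (algebraMap O E) ⟨z, hz⟩
    rw [hg] at h
    exact h

theorem ev_mem (t : Fin 2 → E) (z : E) (O : ValuationSubring E)
    (hk : ∀ c : k, algebraMap k E c ∈ O) (ht : ∀ i, t i ∈ O) (hz : z ∈ O) (N : PZ k) :
    ev t z N ∈ O := by
  obtain ⟨g, -, h⟩ := exists_evO t z O hk ht hz
  rw [← h N]
  exact (N.eval₂ g ⟨z, hz⟩).2

theorem res_zero (O : ValuationSubring E) (a : O) :
    IsLocalRing.residue O a = 0 ↔ O.valuation (a : E) < 1 := by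
  rw [IsLocalRing.residue_eq_zero_iff, ValuationSubring.valuation_lt_one_iff]

theorem eq_one_of (O : ValuationSubring E) {a : E} (ha : a ∈ O) (h : ¬ O.valuation a < 1) :
    O.valuation a = 1 :=
  le_antisymm ((ValuationSubring.valuation_le_one_iff O a).mpr ha) (not_lt.mp h)

/-- The claim. -/
theorem claim (t : Fin 2 → E) (z : E) (P : PZ k) (h0 : ev t z P = 0) (O : ValuationSubring E)
    (hk : ∀ c : k, algebraMap k E c ∈ O) (ht : ∀ i, t i ∈ O) (hz : z ∈ O)
    (hd : O.valuation (ev t z P.derivative) = 1) (R : Po k)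
    (hR : ∀ G : Po k, O.valuation (MvPolynomial.aeval t G) < 1 ↔ R ∣ G) (A : PZ k)
    (hA : O.valuation (ev t z A) < 1) :
    ∃ S A' : PZ k, O.valuation (ev t z S) = 1 ∧
      ev t z S * ev t z A = MvPolynomial.aeval t R * ev t z A' := by
  obtain ⟨g, hg, hev⟩ := exists_evO t z O hk ht hz
  have hcomp : ∀ N : PZ k, N.eval₂ ((IsLocalRing.residue O).comp g)
      (IsLocalRing.residue O ⟨z, hz⟩) = IsLocalRing.residue O (N.eval₂ g ⟨z, hz⟩) := fun N =>
    (Polynomial.hom_eval₂ N g (IsLocalRing.residue O) ⟨z, hz⟩).symm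
  have hzero : ∀ N : PZ k, N.eval₂ ((IsLocalRing.residue O).comp g)
      (IsLocalRing.residue O ⟨z, hz⟩) = 0 ↔ O.valuation (ev t z N) < 1 := by
    intro N
    rw [hcomp, res_zero, hev]
  obtain ⟨Q, U, A', hQ, hQA⟩ := core ((IsLocalRing.residue O).comp g) R (by
      intro b
      rw [RingHom.comp_apply, res_zero, hg, hR]) (IsLocalRing.residue O ⟨z, hz⟩) P A
    ((hzero P).mpr (by rw [h0, map_zero]; exact zero_lt_one))
    (fun h => by
      have := (hzero _).mp h
      rw [hd] at this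
      exact lt_irrefl _ this) ((hzero A).mpr hA)
  refine ⟨Q, A', eq_one_of O (ev_mem t z O hk ht hz Q) (fun h => hQ ((hzero Q).mpr h)), ?_⟩
  have h1 := congrArg (ev t z) hQA
  rw [map_mul, map_add, map_mul, map_mul, h0, zero_mul, zero_add] at h1
  rw [h1]
  congr 1
  exact Polynomial.eval₂_C _ _

/-- (i). -/
theorem partI (t : Fin 2 → E) (z : E) (P : PZ k) (h0 : ev t z P = 0) (O : ValuationSubring E)
    (hO : IsDiscreteValuationRing O)
    (hk : ∀ c : k, algebraMap k E c ∈ O) (ht : ∀ i, t i ∈ O) (hz : z ∈ O)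
    (hd : O.valuation (ev t z P.derivative) = 1) (R : Po k)
    (hR : ∀ G : Po k, O.valuation (MvPolynomial.aeval t G) < 1 ↔ R ∣ G) (e : E) (he : e ∈ O) :
    ∀ c : O, c ≠ 0 → ∀ N C : PZ k, ev t z C = (c : E) → e * ev t z C = ev t z N →
      ∃ N C : PZ k, O.valuation (ev t z C) = 1 ∧ e * ev t z C = ev t z N := by
  intro c
  induction c using (wellFounded_dvdNotUnit (α := O)).induction with
  | _ c ih =>
  intro hc N C hC hN
  by_cases hlt : O.valuation (ev t z C) < 1
  · have hNlt : O.valuation (ev t z N) < 1 := by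
      rw [← hN, map_mul]
      exact lt_of_le_of_lt (mul_le_of_le_one_left' ((ValuationSubring.valuation_le_one_iff O e).mpr he))
        hlt
    obtain ⟨S₁, C', hS₁, hC'⟩ := claim t z P h0 O hk ht hz hd R hR C hlt
    obtain ⟨S₂, N', hS₂, hN'⟩ := claim t z P h0 O hk ht hz hd R hR N hNlt
    have hc' : (c : E) ≠ 0 := fun h => hc (Subtype.ext h)
    have hS₁0 : ev t z S₁ ≠ 0 := by
      intro h
      rw [h, map_zero] at hS₁
      exact zero_ne_one hS₁
    have hS₂0 : ev t z S₂ ≠ 0 := by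
      intro h
      rw [h, map_zero] at hS₂
      exact zero_ne_one hS₂
    have hprod : ev t z S₁ * ev t z C ≠ 0 := mul_ne_zero hS₁0 (by rw [hC]; exact hc')
    rw [hC'] at hprod
    have hR0 : MvPolynomial.aeval t R ≠ 0 := left_ne_zero_of_mul hprod
    have hC'0 : ev t z C' ≠ 0 := right_ne_zero_of_mul hprod
    have hmem := ev_mem t z O hk ht hz
    have hval : (⟨ev t z (S₂ * C'), hmem _⟩ : O) ≠ 0 := by
      intro h
      have h2 := congrArg (Subtype.val) h
      simp only [map_mul] at h2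
      exact mul_ne_zero hS₂0 hC'0 h2
    refine ih ⟨ev t z (S₂ * C'), hmem _⟩ ?_ hval (S₁ * N') (S₂ * C') rfl ?_
    · refine ⟨hval, ?_⟩
      have hRmem : MvPolynomial.aeval t R ∈ O := aeval_mem t O hk ht R
      have hinv₁ : (ev t z S₁)⁻¹ ∈ O := by
        rw [← ValuationSubring.valuation_le_one_iff, map_inv₀, hS₁, inv_one]
      have hinv₂ : (ev t z S₂)⁻¹ ∈ O := by
        rw [← ValuationSubring.valuation_le_one_iff, map_inv₀, hS₂, inv_one]
      refine ⟨⟨(ev t z S₁)⁻¹ * (ev t z S₂)⁻¹ * MvPolynomial.aeval t R,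
        O.mul_mem _ _ (O.mul_mem _ _ hinv₁ hinv₂) hRmem⟩, ?_, ?_⟩
      · intro hu
        have hlt' : O.valuation ((ev t z S₁)⁻¹ * (ev t z S₂)⁻¹ * MvPolynomial.aeval t R) < 1 := by
          rw [map_mul, map_mul, map_inv₀, map_inv₀, hS₁, hS₂, inv_one, one_mul, one_mul]
          exact (hR R).mpr dvd_rfl
        have h2 := (ValuationSubring.valuation_lt_one_iff O
          ⟨(ev t z S₁)⁻¹ * (ev t z S₂)⁻¹ * MvPolynomial.aeval t R,
          O.mul_mem _ _ (O.mul_mem _ _ hinv₁ hinv₂) hRmem⟩).mpr hlt'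
        exact (IsLocalRing.mem_maximalIdeal _).mp h2 hu
      · apply Subtype.ext
        change (c : E) = ev t z (S₂ * C') *
          ((ev t z S₁)⁻¹ * (ev t z S₂)⁻¹ * MvPolynomial.aeval t R)
        rw [map_mul, ← hC]
        have h3 : ev t z C = (ev t z S₁)⁻¹ * (MvPolynomial.aeval t R * ev t z C') := by
          rw [← hC', inv_mul_cancel_left₀ hS₁0]
        rw [h3]
        field_simp
    · rw [map_mul, map_mul]
      apply mul_left_cancel₀ hR0
      calc MvPolynomial.aeval t R * (e * (ev t z S₂ * ev t z C'))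
          = e * ev t z S₂ * (MvPolynomial.aeval t R * ev t z C') := by ring
        _ = e * ev t z S₂ * (ev t z S₁ * ev t z C) := by rw [hC']
        _ = ev t z S₁ * (ev t z S₂ * (e * ev t z C)) := by ring
        _ = ev t z S₁ * (ev t z S₂ * ev t z N) := by rw [hN]
        _ = ev t z S₁ * (MvPolynomial.aeval t R * ev t z N') := by rw [hN']
        _ = MvPolynomial.aeval t R * (ev t z S₁ * ev t z N') := by ring
  · exact ⟨N, C, eq_one_of O (ev_mem t z O hk ht hz C) hlt, hN⟩

/-- A discrete valuation ring is maximal. -/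
theorem dvr_max (O O₁ : ValuationSubring E) (hO : IsDiscreteValuationRing O)
    (hO₁ : IsDiscreteValuationRing O₁) (hle : ∀ x ∈ O, x ∈ O₁) : O₁ = O := by
  apply le_antisymm _ hle
  obtain ⟨ϖ₁, hϖ₁⟩ := IsDiscreteValuationRing.exists_irreducible O₁
  have ha0 : (ϖ₁ : E) ≠ 0 := fun h => hϖ₁.ne_zero (Subtype.ext h)
  have hainv : (ϖ₁ : E)⁻¹ ∉ O₁ := by
    intro h
    apply hϖ₁.not_isUnit
    exact IsUnit.of_mul_eq_one ⟨(ϖ₁ : E)⁻¹, h⟩ (Subtype.ext (mul_inv_cancel₀ ha0))
  have haO : (ϖ₁ : E) ∈ O := by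
    rcases O.mem_or_inv_mem (ϖ₁ : E) with h | h
    · exact h
    · exact absurd (hle _ h) hainv
  intro x hx
  by_contra hxO
  have hx0 : x ≠ 0 := fun h => hxO (h ▸ O.zero_mem)
  have hxinv : x⁻¹ ∈ O := (O.mem_or_inv_mem x).resolve_left hxO
  obtain ⟨ϖ, hϖ⟩ := IsDiscreteValuationRing.exists_irreducible O
  obtain ⟨n, u, hu⟩ := IsDiscreteValuationRing.eq_unit_mul_pow_irreducible
    (x := (⟨(ϖ₁ : E), haO⟩ : O)) (fun h => ha0 (congrArg Subtype.val h)) hϖ
  have hnu : ¬ IsUnit (⟨x⁻¹, hxinv⟩ : O) := by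
    intro h
    obtain ⟨y, hy⟩ := h.exists_right_inv
    apply hxO
    have h2 : x⁻¹ * (y : E) = 1 := congrArg Subtype.val hy
    have h3 : x = (y : E) := by
      have h4 : (y : E) = x * (x⁻¹ * y) := by rw [mul_inv_cancel_left₀ hx0]
      rw [h4, h2, mul_one]
    rw [h3]
    exact y.2
  have hdvd : ϖ ∣ (⟨x⁻¹, hxinv⟩ : O) := by
    have hm : (⟨x⁻¹, hxinv⟩ : O) ∈ IsLocalRing.maximalIdeal O := (IsLocalRing.mem_maximalIdeal _).mpr hnu
    rw [hϖ.maximalIdeal_eq] at hm
    exact Ideal.mem_span_singleton.mp hm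
  obtain ⟨w, hw⟩ := pow_dvd_pow_of_dvd hdvd n
  apply hainv
  -- ϖ₁ * (u⁻¹ * w) = (x⁻¹)^n
  have h5 : (⟨x⁻¹, hxinv⟩ : O) ^ n = ⟨(ϖ₁ : E), haO⟩ * (((u⁻¹ : Oˣ) : O) * w) := by
    rw [hw, hu]
    calc ϖ ^ n * w = ((u : O) * ((u⁻¹ : Oˣ) : O)) * (ϖ ^ n * w) := by rw [Units.mul_inv, one_mul]
      _ = (u : O) * ϖ ^ n * (((u⁻¹ : Oˣ) : O) * w) := by ring
  have h6 : (x⁻¹) ^ n = (ϖ₁ : E) * ((((u⁻¹ : Oˣ) : O) * w : O) : E) := congrArg Subtype.val h5
  have h7 : (ϖ₁ : E)⁻¹ = ((((u⁻¹ : Oˣ) : O) * w : O) : E) * x ^ n := by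
    have hxn : (x⁻¹) ^ n * x ^ n = 1 := by rw [← mul_pow, inv_mul_cancel₀ hx0, one_pow]
    rw [h6] at hxn
    rw [inv_eq_of_mul_eq_one_right]
    rw [← mul_assoc]
    exact hxn
  rw [h7]
  exact O₁.mul_mem _ _ (hle _ (Subtype.mem _)) (pow_mem hx n)

end

end UnrAux

open UnrAux in
theorem tUnr : S_Unr := by
  intro k E _ _ _ _ t z P m D hTb hM O hG R _hRirr hR
  have hk := hG.con
  have ht := hG.fin
  have hz := z_mem t z P hM.mon hM.rt O hk ht
  have hmem := ev_mem t z O hk ht hz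
  have hd : O.valuation (ev t z P.derivative) = 1 := by
    obtain ⟨V, hV⟩ := hM.dis
    apply eq_one_of O (hmem _)
    intro hlt
    have h1 : O.valuation (ev t z V * ev t z P.derivative) < 1 := by
      rw [map_mul]
      exact lt_of_le_of_lt (mul_le_of_le_one_left'
        ((ValuationSubring.valuation_le_one_iff O _).mpr (hmem V))) hlt
    rw [hV, hG.unit] at h1
    exact lt_irrefl _ h1
  have hI : ∀ e ∈ O, ∃ N C : PZ k, O.valuation (ev t z C) = 1 ∧ e * ev t z C = ev t z N := by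
    intro e he
    obtain ⟨N, c, hc, hN⟩ := hM.gen e
    have hCc : ev t z (Polynomial.C c) = MvPolynomial.aeval t c := Polynomial.eval₂_C _ _
    have hc0 : MvPolynomial.aeval t c ≠ 0 := by
      intro h
      apply hc
      exact hTb.ind (by rw [h, map_zero])
    refine partI t z P hM.rt O hG.dvr hk ht hz hd R hR e he
      ⟨ev t z (Polynomial.C c), hmem _⟩ ?_ N (Polynomial.C c) rfl (by rw [hCc]; exact hN)
    intro h
    have h2 : ev t z (Polynomial.C c) = 0 := congrArg Subtype.val h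
    rw [hCc] at h2
    exact hc0 h2
  refine ⟨hI, ?_, ?_⟩
  · intro e he
    by_cases hR0 : MvPolynomial.aeval t R = 0
    · rw [hR0, div_zero]
      exact O.zero_mem
    obtain ⟨N, C, hC, hN⟩ := hI e ((ValuationSubring.valuation_le_one_iff O e).mp he.le)
    have hNlt : O.valuation (ev t z N) < 1 := by
      rw [← hN, map_mul, hC, mul_one]
      exact he
    obtain ⟨S, N', hS, hN'⟩ := claim t z P hM.rt O hk ht hz hd R hR N hNlt
    have hS0 : ev t z S ≠ 0 := by
      intro h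
      rw [h, map_zero] at hS
      exact zero_ne_one hS
    have hC0 : ev t z C ≠ 0 := by
      intro h
      rw [h, map_zero] at hC
      exact zero_ne_one hC
    have h1 : e / MvPolynomial.aeval t R = ev t z N' * ((ev t z S)⁻¹ * (ev t z C)⁻¹) := by
      rw [div_eq_iff hR0]
      have h2 : e = ev t z N * (ev t z C)⁻¹ := by
        rw [← hN, mul_inv_cancel_right₀ hC0]
      have h3 : ev t z N = (ev t z S)⁻¹ * (MvPolynomial.aeval t R * ev t z N') := by
        rw [← hN', inv_mul_cancel_left₀ hS0]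
      rw [h2, h3]
      ring
    rw [h1, ← ValuationSubring.valuation_le_one_iff, map_mul, map_mul, map_inv₀, map_inv₀, hS, hC,
      inv_one, mul_one, mul_one]
    exact (ValuationSubring.valuation_le_one_iff O _).mpr (hmem N')
  · intro O₁ hPl ht₁ hiff
    have hz₁ := z_mem t z P hM.mon hM.rt O₁ hPl.con ht₁
    have hmem₁ := ev_mem t z O₁ hPl.con ht₁ hz₁
    apply dvr_max O O₁ hG.dvr hPl.dvr
    intro e he
    obtain ⟨N, C, hC, hN⟩ := hI e he
    have hC₁ : O₁.valuation (ev t z C) = 1 := by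
      apply eq_one_of O₁ (hmem₁ C)
      intro h
      have := (hiff C).mpr h
      rw [hC] at this
      exact lt_irrefl _ this
    have h1 : O₁.valuation e * O₁.valuation (ev t z C) = O₁.valuation (ev t z N) := by
      rw [← map_mul, hN]
    rw [hC₁, mul_one] at h1
    rw [← ValuationSubring.valuation_le_one_iff, h1]
    exact (ValuationSubring.valuation_le_one_iff O₁ _).mpr (hmem₁ N)

end Pool.Agent.Lib.MP_16285c_agS.Cn
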