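import Pool.Agent.Lib.MP_16285c_agS.Can.Spec

/-! # ZDS, package CAN, module VR: the valuation rings of `k(x)` (helper36) -/

set_option autoImplicit false

namespace Pool.Agent.Lib.MP_16285c_agS.Cn

open Pool.Agent.Lib.MP_16285c_agS

namespace VRAux

section field

variable {F : Type} [Field F] (N : F → ℤ)

theorem N_one (hmul : ∀ f g : F, f ≠ 0 → g ≠ 0 → N (f * g) = N f + N g) : N 1 = 0 := by
  have h := hmul 1 1 one_ne_zero one_ne_zero
  rw [mul_one] at h
  omega

theorem N_inv (hmul : ∀ f g : F, f ≠ 0 → g ≠ 0 → N (f * g) = N f + N g) (f : F) (hf : f ≠ 0) :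
    N f⁻¹ = -N f := by
  have h := hmul f f⁻¹ hf (inv_ne_zero hf)
  rw [mul_inv_cancel₀ hf, N_one N hmul] at h
  omega

theorem N_neg (hmul : ∀ f g : F, f ≠ 0 → g ≠ 0 → N (f * g) = N f + N g) (f : F) (hf : f ≠ 0) :
    N (-f) = N f := by
  have h := hmul (-1) (-1) (neg_ne_zero.mpr one_ne_zero) (neg_ne_zero.mpr one_ne_zero)
  rw [neg_mul_neg, mul_one, N_one N hmul] at h
  have h2 := hmul (-1) f (neg_ne_zero.mpr one_ne_zero) hf
  rw [neg_one_mul] at h2
  omega

theorem N_pow (hmul : ∀ f g : F, f ≠ 0 → g ≠ 0 → N (f * g) = N f + N g) (f : F) (hf : f ≠ 0)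
    (n : ℕ) : N (f ^ n) = n * N f := by
  induction n with
  | zero => rw [pow_zero, N_one N hmul]; simp
  | succ n ih =>
    rw [pow_succ, hmul _ _ (pow_ne_zero n hf) hf, ih]
    push_cast
    ring

/-- The valuation ring of `N`. -/
def VS (hmul : ∀ f g : F, f ≠ 0 → g ≠ 0 → N (f * g) = N f + N g)
    (hadd : ∀ f g : F, f ≠ 0 → g ≠ 0 → f + g ≠ 0 → min (N f) (N g) ≤ N (f + g)) :
    ValuationSubring F where
  carrier := {f | f = 0 ∨ 0 ≤ N f}
  mul_mem' := by
    intro f g hf hg
    by_cases h1 : f = 0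
    · exact Or.inl (by rw [h1, zero_mul])
    by_cases h2 : g = 0
    · exact Or.inl (by rw [h2, mul_zero])
    have h3 := hf.resolve_left h1
    have h4 := hg.resolve_left h2
    exact Or.inr (by rw [hmul f g h1 h2]; omega)
  one_mem' := Or.inr (by rw [N_one N hmul])
  add_mem' := by
    intro f g hf hg
    by_cases h1 : f = 0
    · rw [h1, zero_add]
      exact hg
    by_cases h2 : g = 0
    · rw [h2, add_zero]
      exact hf
    by_cases h5 : f + g = 0
    · exact Or.inl h5
    have h3 := hf.resolve_left h1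
    have h4 := hg.resolve_left h2
    exact Or.inr (le_trans (le_min h3 h4) (hadd f g h1 h2 h5))
  zero_mem' := Or.inl rfl
  neg_mem' := by
    intro f hf
    by_cases h1 : f = 0
    · exact Or.inl (by rw [h1, neg_zero])
    exact Or.inr (by rw [N_neg N hmul f h1]; exact hf.resolve_left h1)
  mem_or_inv_mem' := by
    intro f
    by_cases h1 : f = 0
    · exact Or.inl (Or.inl h1)
    rcases le_total 0 (N f) with h | h
    · exact Or.inl (Or.inr h)
    · exact Or.inr (Or.inr (by rw [N_inv N hmul f h1]; omega))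

theorem dvr (hmul : ∀ f g : F, f ≠ 0 → g ≠ 0 → N (f * g) = N f + N g)
    (hadd : ∀ f g : F, f ≠ 0 → g ≠ 0 → f + g ≠ 0 → min (N f) (N g) ≤ N (f + g))
    (π : F) (hπ : π ≠ 0) (hπ1 : N π = 1) : IsDiscreteValuationRing (VS N hmul hadd) := by
  have hmem : ∀ f : F, f ∈ VS N hmul hadd ↔ f = 0 ∨ 0 ≤ N f := fun f => Iff.rfl
  have hunit : ∀ a : VS N hmul hadd, (a : F) ≠ 0 → N (a : F) = 0 → IsUnit a := by
    intro a ha h0
    have h1 : (a : F)⁻¹ ∈ VS N hmul hadd := (hmem _).mpr (Or.inr (by
      rw [N_inv N hmul _ ha, h0, neg_zero]))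
    refine IsUnit.of_mul_eq_one ⟨(a : F)⁻¹, h1⟩ ?_
    exact Subtype.ext (mul_inv_cancel₀ ha)
  have hge : ∀ a : VS N hmul hadd, (a : F) ≠ 0 → 0 ≤ N (a : F) := fun a ha =>
    ((hmem _).mp a.2).resolve_left ha
  let p : VS N hmul hadd := ⟨π, (hmem _).mpr (Or.inr (by rw [hπ1]; exact zero_le_one))⟩
  have hp : Irreducible p := by
    constructor
    · intro hu
      obtain ⟨q, hq⟩ := hu.exists_right_inv
      have h1 : π * (q : F) = 1 := congrArg Subtype.val hq
      have h2 : (q : F) ≠ 0 := by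
        intro h
        rw [h, mul_zero] at h1
        exact zero_ne_one h1
      have h3 := hmul π q hπ h2
      rw [h1, N_one N hmul, hπ1] at h3
      have h4 := hge q h2
      omega
    · intro a b hab
      have h1 : π = (a : F) * (b : F) := congrArg Subtype.val hab
      have ha : (a : F) ≠ 0 := by
        intro h
        rw [h, zero_mul] at h1
        exact hπ h1
      have hb : (b : F) ≠ 0 := by
        intro h
        rw [h, mul_zero] at h1
        exact hπ h1
      have h3 := hmul a b ha hb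
      rw [← h1, hπ1] at h3
      have h4 := hge a ha
      have h5 := hge b hb
      rcases (by omega : N (a : F) = 0 ∨ N (b : F) = 0) with h | h
      · exact Or.inl (hunit a ha h)
      · exact Or.inr (hunit b hb h)
  refine IsDiscreteValuationRing.ofHasUnitMulPowIrreducibleFactorization ⟨p, hp, ?_⟩
  intro x hx
  have hx0 : (x : F) ≠ 0 := fun h => hx (Subtype.ext h)
  have hx1 := hge x hx0
  obtain ⟨n, hn⟩ := Int.eq_ofNat_of_zero_le hx1
  refine ⟨n, ?_⟩
  have hpn : (π : F) ^ n ≠ 0 := pow_ne_zero n hπ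
  have hu0 : (x : F) * (π ^ n)⁻¹ ≠ 0 := mul_ne_zero hx0 (inv_ne_zero hpn)
  have hu1 : N ((x : F) * (π ^ n)⁻¹) = 0 := by
    rw [hmul _ _ hx0 (inv_ne_zero hpn), N_inv N hmul _ hpn, N_pow N hmul π hπ, hπ1, hn]
    ring
  let u : VS N hmul hadd := ⟨(x : F) * (π ^ n)⁻¹, (hmem _).mpr (Or.inr hu1.ge)⟩
  obtain ⟨w, hw⟩ := hunit u hu0 hu1
  refine ⟨w, ?_⟩
  rw [hw]
  refine Subtype.ext ?_
  change π ^ n * ((x : F) * (π ^ n)⁻¹) = x
  field_simp

end field

section frac

variable {A F : Type} [CommRing A] [IsDomain A] [Field F] (φ : A →+* F)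

/-- The general construction. -/
theorem main (hφ : Function.Injective φ) (hfr : ∀ f : F, ∃ a b : A, b ≠ 0 ∧ f * φ b = φ a)
    (ν : A → ℤ) (hmul : ∀ a b : A, a ≠ 0 → b ≠ 0 → ν (a * b) = ν a + ν b)
    (hadd : ∀ a b : A, a ≠ 0 → b ≠ 0 → a + b ≠ 0 → min (ν a) (ν b) ≤ ν (a + b))
    (p q : A) (hp : p ≠ 0) (hq : q ≠ 0) (hpq : ν p = ν q + 1) :
    ∃ V : ValuationSubring F, IsDiscreteValuationRing V ∧ ∀ f : F, f ∈ V ↔
      ∃ a b : A, b ≠ 0 ∧ (a = 0 ∨ ν b ≤ ν a) ∧ f * φ b = φ a := by
  classical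
  choose num den hden hnd using hfr
  have hφ0 : ∀ a : A, a ≠ 0 → φ a ≠ 0 := fun a ha h => ha (hφ (by rw [h, map_zero]))
  have hnum : ∀ f : F, f ≠ 0 → num f ≠ 0 := by
    intro f hf h
    have h1 := hnd f
    rw [h, map_zero] at h1
    exact (mul_ne_zero hf (hφ0 _ (hden f))) h1
  let N : F → ℤ := fun f => ν (num f) - ν (den f)
  have hN : ∀ (f : F) (a b : A), f ≠ 0 → b ≠ 0 → f * φ b = φ a → N f = ν a - ν b := by
    intro f a b hf hb h
    have ha : a ≠ 0 := by
      rintro rfl
      rw [map_zero] at h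
      exact (mul_ne_zero hf (hφ0 b hb)) h
    have h1 : num f * b = a * den f := by
      refine hφ ?_
      rw [map_mul, map_mul, ← hnd f, ← h]
      ring
    have h2 := congrArg ν h1
    rw [hmul _ _ (hnum f hf) hb, hmul _ _ ha (hden f)] at h2
    change ν (num f) - ν (den f) = _
    omega
  have hNmul : ∀ f g : F, f ≠ 0 → g ≠ 0 → N (f * g) = N f + N g := by
    intro f g hf hg
    rw [hN (f * g) (num f * num g) (den f * den g) (mul_ne_zero hf hg)
      (mul_ne_zero (hden f) (hden g)) (by rw [map_mul, map_mul, ← hnd f, ← hnd g]; ring),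
      hmul _ _ (hnum f hf) (hnum g hg), hmul _ _ (hden f) (hden g)]
    change _ = (ν (num f) - ν (den f)) + (ν (num g) - ν (den g))
    ring
  have hNadd : ∀ f g : F, f ≠ 0 → g ≠ 0 → f + g ≠ 0 → min (N f) (N g) ≤ N (f + g) := by
    intro f g hf hg hfg
    have h1 : (f + g) * φ (den f * den g) = φ (num f * den g + num g * den f) := by
      rw [map_mul, map_add, map_mul, map_mul, ← hnd f, ← hnd g]
      ring
    have h2 : num f * den g + num g * den f ≠ 0 := by
      intro h
      rw [h, map_zero] at h1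
      exact (mul_ne_zero hfg (hφ0 _ (mul_ne_zero (hden f) (hden g)))) h1
    rw [hN (f + g) _ _ hfg (mul_ne_zero (hden f) (hden g)) h1, hmul _ _ (hden f) (hden g)]
    have h3 := hadd (num f * den g) (num g * den f) (mul_ne_zero (hnum f hf) (hden g))
      (mul_ne_zero (hnum g hg) (hden f)) h2
    rw [hmul _ _ (hnum f hf) (hden g), hmul _ _ (hnum g hg) (hden f)] at h3
    change min (ν (num f) - ν (den f)) (ν (num g) - ν (den g)) ≤ _
    omega
  have hπ : φ p * (φ q)⁻¹ ≠ 0 := mul_ne_zero (hφ0 p hp) (inv_ne_zero (hφ0 q hq))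
  have hπ1 : N (φ p * (φ q)⁻¹) = 1 := by
    rw [hN (φ p * (φ q)⁻¹) p q hπ hq (by rw [inv_mul_cancel_right₀ (hφ0 q hq)]), hpq]
    ring
  refine ⟨VS N hNmul hNadd, dvr N hNmul hNadd _ hπ hπ1, ?_⟩
  intro f
  change (f = 0 ∨ 0 ≤ N f) ↔ _
  constructor
  · rintro (rfl | h)
    · exact ⟨0, 1, one_ne_zero, Or.inl rfl, by rw [zero_mul, map_zero]⟩
    · refine ⟨num f, den f, hden f, Or.inr ?_, hnd f⟩
      change 0 ≤ ν (num f) - ν (den f) at h
      omega
  · rintro ⟨a, b, hb, ha, h⟩
    by_cases hf : f = 0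
    · exact Or.inl hf
    refine Or.inr ?_
    rw [hN f a b hf hb h]
    rcases ha with rfl | ha
    · exfalso
      rw [map_zero] at h
      exact (mul_ne_zero hf (hφ0 b hb)) h
    · omega

end frac

end VRAux

open VRAux in
theorem tVR : S_VR := by
  intro k F _ _ _ x hx hfr
  have hφ : Function.Injective (MvPolynomial.aeval x : Po k →ₐ[k] F) := hx
  have hfr' : ∀ f : F, ∃ a b : Po k, b ≠ 0 ∧
      f * (MvPolynomial.aeval x : Po k →ₐ[k] F).toRingHom b =
        (MvPolynomial.aeval x : Po k →ₐ[k] F).toRingHom a := hfr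
  constructor
  · intro R hR
    have hRp : Prime R := hR.prime
    have hfin : ∀ a : Po k, a ≠ 0 → FiniteMultiplicity R a := fun a ha =>
      FiniteMultiplicity.of_prime_left hRp ha
    obtain ⟨V, hV, hVm⟩ := main (MvPolynomial.aeval x : Po k →ₐ[k] F).toRingHom hφ hfr'
      (fun a => (multiplicity R a : ℤ))
      (fun a b ha hb => by
        rw [multiplicity_mul hRp (hfin _ (mul_ne_zero ha hb))]
        push_cast
        rfl)
      (fun a b ha hb hab => by
        have h1 : R ^ min (multiplicity R a) (multiplicity R b) ∣ a + b :=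
          dvd_add ((pow_dvd_pow R (min_le_left _ _)).trans (pow_multiplicity_dvd R a))
            ((pow_dvd_pow R (min_le_right _ _)).trans (pow_multiplicity_dvd R b))
        have h2 := (hfin _ hab).le_multiplicity_of_pow_dvd h1
        exact_mod_cast h2)
      R 1 hR.ne_zero one_ne_zero (by
        rw [multiplicity_self, multiplicity_of_one_right hR.not_isUnit]
        norm_num)
    refine ⟨V, hV, fun f => (hVm f).trans ?_⟩
    constructor
    · rintro ⟨a, b, hb, hab, h⟩
      obtain ⟨b', hb', hb2⟩ := (hfin b hb).exists_eq_pow_mul_and_not_dvd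
      have hR0 : (MvPolynomial.aeval x R : F) ^ multiplicity R b ≠ 0 := by
        refine pow_ne_zero _ fun h0 => hR.ne_zero (hφ ?_)
        rw [h0, map_zero]
      rcases hab with rfl | hab
      · refine ⟨0, 1, fun h1 => hR.not_isUnit (isUnit_of_dvd_one h1), ?_⟩
        have h1 : f * (MvPolynomial.aeval x b : F) = (MvPolynomial.aeval x (0 : Po k) : F) := h
        have h2 : (MvPolynomial.aeval x b : F) ≠ 0 := fun h0 => hb (hφ (by rw [h0, map_zero]))
        rw [map_zero] at h1 ⊢
        rw [(mul_eq_zero.mp h1).resolve_right h2, zero_mul]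
      · have hab' : multiplicity R b ≤ multiplicity R a := by exact_mod_cast hab
        obtain ⟨a', ha'⟩ := (pow_dvd_pow R hab').trans (pow_multiplicity_dvd R a)
        refine ⟨a', b', hb2, ?_⟩
        have h1 : f * (MvPolynomial.aeval x b : F) = (MvPolynomial.aeval x a : F) := h
        rw [hb', ha', map_mul, map_mul, map_pow] at h1
        refine mul_left_cancel₀ hR0 ?_
        rw [← h1]
        ring
    · rintro ⟨a, b, hb, h⟩
      have hb0 : b ≠ 0 := by
        rintro rfl
        exact hb (dvd_zero R)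
      refine ⟨a, b, hb0, Or.inr ?_, h⟩
      rw [multiplicity_eq_zero.mpr hb]
      exact_mod_cast Nat.zero_le _
  · obtain ⟨V, hV, hVm⟩ := main (MvPolynomial.aeval x : Po k →ₐ[k] F).toRingHom hφ hfr'
      (fun a => -(a.totalDegree : ℤ))
      (fun a b ha hb => by
        rw [MvPolynomial.totalDegree_mul_of_isDomain ha hb]
        push_cast
        ring)
      (fun a b ha hb hab => by
        have h1 := MvPolynomial.totalDegree_add a b
        have h2 : ((a + b).totalDegree : ℤ) ≤ max (a.totalDegree : ℤ) (b.totalDegree : ℤ) := by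
          exact_mod_cast h1
        omega)
      1 (MvPolynomial.X 0) one_ne_zero (MvPolynomial.X_ne_zero 0) (by
        rw [MvPolynomial.totalDegree_one, MvPolynomial.totalDegree_X]
        norm_num)
    refine ⟨V, hV, fun f => (hVm f).trans ?_⟩
    constructor
    · rintro ⟨a, b, hb, hab, h⟩
      refine ⟨a, b, hb, ?_, h⟩
      rcases hab with rfl | hab
      · rw [MvPolynomial.totalDegree_zero]
        exact Nat.zero_le _
      · have h1 : (a.totalDegree : ℤ) ≤ b.totalDegree := by omega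
        exact_mod_cast h1
    · rintro ⟨a, b, hb, hab, h⟩
      refine ⟨a, b, hb, Or.inr ?_, h⟩
      have h1 : (a.totalDegree : ℤ) ≤ b.totalDegree := by exact_mod_cast hab
      omega

end Pool.Agent.Lib.MP_16285c_agS.Cn
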