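import Pool.Agent.Lib.MP_16285c_agS.Can.AllA
import Pool.Agent.Lib.MP_16285c_agS.Can.Apx
import Pool.Agent.Lib.MP_16285c_agS.Can.Cmp
import Pool.Agent.Lib.MP_16285c_agS.Can.Cst
import Pool.Agent.Lib.MP_16285c_agS.Can.DBd
import Pool.Agent.Lib.MP_16285c_agS.Can.DO
import Pool.Agent.Lib.MP_16285c_agS.Can.DV
import Pool.Agent.Lib.MP_16285c_agS.Can.Der
import Pool.Agent.Lib.MP_16285c_agS.Can.Dvc
import Pool.Agent.Lib.MP_16285c_agS.Can.Dvr
import Pool.Agent.Lib.MP_16285c_agS.Can.Exc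
import Pool.Agent.Lib.MP_16285c_agS.Can.F1
import Pool.Agent.Lib.MP_16285c_agS.Can.F1a
import Pool.Agent.Lib.MP_16285c_agS.Can.F3
import Pool.Agent.Lib.MP_16285c_agS.Can.F4
import Pool.Agent.Lib.MP_16285c_agS.Can.F4e
import Pool.Agent.Lib.MP_16285c_agS.Can.F5
import Pool.Agent.Lib.MP_16285c_agS.Can.F7
import Pool.Agent.Lib.MP_16285c_agS.Can.Fbc
import Pool.Agent.Lib.MP_16285c_agS.Can.Fib
import Pool.Agent.Lib.MP_16285c_agS.Can.GN
import Pool.Agent.Lib.MP_16285c_agS.Can.Inf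
import Pool.Agent.Lib.MP_16285c_agS.Can.Int
import Pool.Agent.Lib.MP_16285c_agS.Can.Inz
import Pool.Agent.Lib.MP_16285c_agS.Can.Jac
import Pool.Agent.Lib.MP_16285c_agS.Can.Loc
import Pool.Agent.Lib.MP_16285c_agS.Can.Mdl
import Pool.Agent.Lib.MP_16285c_agS.Can.Pb
import Pool.Agent.Lib.MP_16285c_agS.Can.Pr
import Pool.Agent.Lib.MP_16285c_agS.Can.Q
import Pool.Agent.Lib.MP_16285c_agS.Can.Q2
import Pool.Agent.Lib.MP_16285c_agS.Can.Qf
import Pool.Agent.Lib.MP_16285c_agS.Can.Qi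
import Pool.Agent.Lib.MP_16285c_agS.Can.Res
import Pool.Agent.Lib.MP_16285c_agS.Can.TbC
import Pool.Agent.Lib.MP_16285c_agS.Can.TrA
import Pool.Agent.Lib.MP_16285c_agS.Can.TrB
import Pool.Agent.Lib.MP_16285c_agS.Can.Unr
import Pool.Agent.Lib.MP_16285c_agS.Can.VR

/-!
# Package CAN: `StmtCan` without hypotheses
-/

set_option autoImplicit false

namespace Pool.Agent.Lib.MP_16285c_agS.Cn

open Pool.Agent.Lib.MP_16285c_agS

theorem cDvc : S_Dvc := tDvc tCst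

theorem cCmp : S_Cmp := tCmp tCst tDvr

theorem cFib : S_Fib := tFib tApx

theorem cLoc : S_Loc := tLoc tApx cFib

theorem cRes : S_Res := tRes cDvc

theorem cInf : S_Inf := tInf cDvc

theorem cExc : S_Exc := tExc cRes cInf cFib

theorem cDO : S_DO := tDO cRes tUnr

theorem cDBd : S_DBd := tDBd tDvr cLoc tInt (tDV cRes cInf)

theorem cF1 : S_F1 :=
  tF1 tCst cDvc (tPr tCst) tGN cCmp
    (tF1a tCst cCmp cDvc tMdl cExc tDer cDO (tJac tDer)) tTbC

theorem cF3 : S_F3 := tF3 tCst cDvc tUnr (tTrB tTrA)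

theorem cF4 : S_F4 := tF4 cRes cInf tInz tUnr cF3 (tF4e tDer cDO)

theorem cPb : S_Pb := tPb tDer

theorem cQ2 : S_Q2 :=
  tQ2 (tQ (tQf tVR tInt cDvc tCst) (tQi tVR tInt cDvc cFib)) tMdl cExc cDO cDBd

/-- An endomorphism of a field of transcendence degree two without invariants has only finitely many
totally invariant divisors. -/
theorem tCan : StmtCan :=
  tCanA cDvc tDer tMdl cExc cF1 cF4 cPb (tF5 cPb) (tFbc cFib) cQ2 tF7

end Pool.Agent.Lib.MP_16285c_agS.Cn
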