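import Pool.Agent.Lib.MP_16285c_agS.Can.Spec

/-!
# Package CAN: assembly of `StmtCan`
-/

set_option autoImplicit false

namespace Pool.Agent.Lib.MP_16285c_agS.Cn

open Pool.Agent.Lib.MP_16285c_agS

namespace CanAux

variable {k E : Type} [Field k] [Field E] [Algebra k E]

theorem aeval_mem {O : ValuationSubring E} (hc : ∀ c : k, algebraMap k E c ∈ O) {t : Fin 2 → E}
    (ht : ∀ i, t i ∈ O) (G : MvPolynomial (Fin 2) k) : MvPolynomial.aeval t G ∈ O := by
  induction G using MvPolynomial.induction_on with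
  | C a =>
    rw [MvPolynomial.aeval_C]
    exact hc a
  | add p q hp hq =>
    rw [map_add]
    exact O.add_mem _ _ hp hq
  | mul_X p i hp =>
    rw [map_mul, MvPolynomial.aeval_X]
    exact O.mul_mem _ _ hp (ht i)

theorem gd_or {t : Fin 2 → E} {D : Po k} {O : ValuationSubring E} (h : Dv k t O) :
    O ∈ Exc k t D ∨ Gd k t D O := by
  by_cases hO : O ∈ Exc k t D
  · exact Or.inl hO
  · right
    have h1 : ¬ ((∃ i, t i ∉ O) ∨ O.valuation (MvPolynomial.aeval t D) < 1) := fun h1 => hO ⟨h, h1⟩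
    rw [not_or, not_exists] at h1
    have h2 : ∀ i, t i ∈ O := fun i => not_not.1 (h1.1 i)
    refine { h with fin := h2, unit := ?_ }
    exact le_antisymm ((O.valuation_le_one_iff _).2 (aeval_mem h.con h2 D)) (not_lt.1 h1.2)

theorem om_smul {Δ : Fin 2 → Derivation k E E} {O : ValuationSubring E} {a : E} (ha : a ∈ O)
    {w : Fin 2 → E} (hw : w ∈ Om Δ O) : a • w ∈ Om Δ O :=
  (Om Δ O).smul_mem ⟨a, ha⟩ hw

theorem om_k {Δ : Fin 2 → Derivation k E E} {O : ValuationSubring E}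
    (hc : ∀ c : k, algebraMap k E c ∈ O) {w : Fin 2 → E} (hw : w ∈ Om Δ O) (c : k) :
    c • w ∈ Om Δ O := by
  rw [← algebraMap_smul E c w]
  exact om_smul (hc c) hw

theorem lin {Δ : Fin 2 → Derivation k E E} (O : ℕ → ValuationSubring E) (ω : ℕ → Fin 2 → E)
    (hc : ∀ n, ∀ c : k, algebraMap k E c ∈ O n) (h1 : ∀ n, ω n ∉ Om Δ (O n))
    (h2 : ∀ n m, n ≠ m → ω n ∈ Om Δ (O m)) : LinearIndependent k ω := by
  rw [linearIndependent_iff']
  intro s g hg i hi
  by_contra hne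
  apply h1 i
  have h3 : g i • ω i = - ∑ j ∈ s.erase i, g j • ω j := by
    rw [← Finset.add_sum_erase s _ hi] at hg
    exact eq_neg_of_add_eq_zero_left hg
  have h4 : ω i = (g i)⁻¹ • (- ∑ j ∈ s.erase i, g j • ω j) := by
    rw [← h3, smul_smul, inv_mul_cancel₀ hne, one_smul]
  rw [h4]
  apply om_k (hc i)
  apply Submodule.neg_mem
  apply Submodule.sum_mem
  intro j hj
  exact om_k (hc i) (h2 j i (Finset.ne_of_mem_erase hj)) (g j)

end CanAux

open CanAux

theorem tCanA (hDvc : S_Dvc) (hDer : S_Der) (hMdl : S_Mdl) (hExc : S_Exc) (hF1 : S_F1)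
    (hF4 : S_F4) (hPb : S_Pb) (hF5 : S_F5) (hFbc : S_Fbc) (hQ2 : S_Q2) (hF7 : S_F7) : StmtCan := by
  intro k E _ _ _ _ ρ x hind hfin hρ hinv
  classical
  have hx : Tb k x := ⟨hind, hfin⟩
  obtain ⟨⟨Δ, hΔ⟩, -⟩ := hDer k E x hx
  obtain ⟨t, ht, htO⟩ := hF1 k E x hx ρ hρ
  obtain ⟨z, P, m, D, hM⟩ := hMdl k E t ht
  have hE : (Exc k t D).Finite := hExc k E t ht D hM.ne
  obtain ⟨B, hB0, hB1, hB2, hB3⟩ := hF4 k E x hx Δ hΔ t z P m D ht hM
  obtain ⟨hp1, hp2, hp3, hp4⟩ := hPb k E x hx Δ hΔ ρ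
  obtain ⟨h51, h52⟩ := hF5 k E x hx Δ hΔ ρ
  set S : Set (ValuationSubring E) := {O | InTI k E ρ O ∧ (∀ i, x i ∈ O) ∧
    (∃ R : MvPolynomial (Fin 2) k, R ≠ 0 ∧ O.valuation (MvPolynomial.aeval x R) < 1) ∧
    ∃ i, ∀ G : Polynomial k, G ≠ 0 → ¬ O.valuation (Polynomial.aeval (x i) G) < 1} with hS
  by_cases hfinS : S.Finite
  · have hR : ∀ O : ValuationSubring E, ∃ R : MvPolynomial (Fin 2) k, R ≠ 0 ∧
        (O ∈ S → O.valuation (MvPolynomial.aeval x R) < 1) := by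
      intro O
      by_cases hO : O ∈ S
      · obtain ⟨R, hR0, hR1⟩ := hO.2.2.1
        exact ⟨R, hR0, fun _ => hR1⟩
      · exact ⟨1, one_ne_zero, fun h => absurd h hO⟩
    choose R hR0 hR1 using hR
    refine ⟨∏ O ∈ hfinS.toFinset, R O, Finset.prod_ne_zero_iff.2 fun O _ => hR0 O, ?_⟩
    intro O hTI hxO hRO hres
    have hOS : O ∈ S := ⟨hTI, hxO, hRO, hres⟩
    rw [← Finset.mul_prod_erase _ _ (hfinS.mem_toFinset.2 hOS), map_mul, map_mul]
    refine lt_of_le_of_lt ?_ (hR1 O hOS)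
    exact mul_le_of_le_one_right' ((O.valuation_le_one_iff _).2 (aeval_mem hTI.con hxO _))
  · exfalso
    have hinf : (S \ Exc k t D).Infinite := Set.Infinite.sdiff hfinS hE
    set e := hinf.natEmbedding with he
    set O : ℕ → ValuationSubring E := fun n => (e n : ValuationSubring E) with hOdef
    have hOS : ∀ n, O n ∈ S := fun n => (e n).2.1
    have hOE : ∀ n, O n ∉ Exc k t D := fun n => (e n).2.2
    have hOinj : ∀ n m, n ≠ m → O n ≠ O m := fun n m hnm h => hnm (e.injective (Subtype.ext h))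
    have hDvx : ∀ n, Dv k x (O n) := by
      intro n
      refine (hDvc k E x (O n)).2.1 ⟨(hOS n).1.dvr, (hOS n).1.con⟩ (hOS n).2.1 ?_
      obtain ⟨i, hi⟩ := (hOS n).2.2.2
      exact ⟨i, fun ⟨G, hG0, hG1⟩ => hi G hG0 hG1⟩
    have hGd : ∀ n, Gd k t D (O n) := fun n => (gd_or (htO _ (hDvx n)).1).resolve_left (hOE n)
    choose ω r hr0 hr1 hr2 hω1 hω2 hω3 using fun n => hB3 (O n) (hGd n)
    have hcm : ∀ n, cm ρ (O n) = O n := fun n => by
      ext a
      exact (hOS n).1.inv a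
    have hlin : LinearIndependent k ω := by
      refine lin O ω (fun n => (hOS n).1.con) hω2 ?_
      intro n m hnm
      have h := hω3 n (O m) (hGd m).toDv (hOinj m n (Ne.symm hnm))
      rwa [hB2 _ (hGd m), one_smul] at h
    obtain ⟨Q, hQ1, hQ2'⟩ := hQ2 k E x hx Δ hΔ (fun O₁ => B O₁ * ρ (B (cm ρ O₁)))
      (fun O₁ => mul_ne_zero (hB0 _) (by
        rw [Ne, map_eq_zero]
        exact hB0 _)) (by
        refine (hE.union (hFbc k E ρ hρ _ hE)).subset ?_
        rintro O₁ ⟨h1, h2⟩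
        by_contra hne
        rw [Set.mem_union, not_or] at hne
        apply h2
        obtain ⟨h3, h4⟩ := htO O₁ h1
        have h5 : cm ρ O₁ ∉ Exc k t D := fun h => hne.2 ⟨h1.toPlc, h⟩
        change B O₁ * ρ (B (cm ρ O₁)) = 1
        rw [hB2 _ ((gd_or h3).resolve_left hne.1), hB2 _ ((gd_or h4).resolve_left h5), map_one,
          one_mul])
    refine hF7 k E ρ hinv
      { toFun := pb ρ x Δ
        map_add' := hp3
        map_smul' := fun c w => by
          rw [RingHom.id_apply, ← algebraMap_smul E c w, hp2, AlgHom.commutes, algebraMap_smul] }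
      (fun a w => hp2 a w) Q hQ1 ω hlin (fun n => hQ2' _ ?_)
    intro O₁ hO₁
    change (B O₁ * ρ (B (cm ρ O₁))) • (pb ρ x Δ (ω n) - ω n) ∈ Om Δ O₁
    by_cases h1 : O₁ = O n
    · rw [h1, hcm n, hB2 _ (hGd n), map_one, one_mul, one_smul]
      exact h51 (O n) (ω n) (r n) (hOS n).1 (hr0 n) (hr1 n) (hr2 n) (hω1 n)
    · have h2 : cm ρ O₁ ≠ O n := by
        intro h
        apply h1
        refine (hOS n).1.uq O₁ hO₁.dvr hO₁.con ?_
        intro a
        rw [← h]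
        rfl
      obtain ⟨h3, h4⟩ := htO O₁ hO₁
      exact h52 O₁ (ω n) (B O₁) (B (cm ρ O₁)) (hB1 _ h3) (hB1 _ h4) (hω3 n O₁ h3 h1)
        (hω3 n (cm ρ O₁) h4 h2)

end Pool.Agent.Lib.MP_16285c_agS.Cn
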