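import Pool.Agent.Lib.MP_16285c_agS.Can.Spec

/-!
# Package CAN, Exc: there are finitely many exceptional divisors
-/

set_option autoImplicit false

namespace Pool.Agent.Lib.MP_16285c_agS.Cn

open Pool.Agent.Lib.MP_16285c_agS

namespace ExcAux

variable {k E : Type} [Field k] [Field E] [Algebra k E] {t : Fin 2 → E}

/-- Every element of `k(t)` is a quotient of polynomials in `t`. -/
theorem frac (hind : AlgebraicIndependent k t)
    (f : IntermediateField.adjoin k (Set.range t)) :
    ∃ a b : Po k, b ≠ 0 ∧ (f : E) * MvPolynomial.aeval t b = MvPolynomial.aeval t a := by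
  obtain ⟨r, s, hrs⟩ := (IntermediateField.mem_adjoin_range_iff k t (f : E)).1 f.2
  by_cases hs : s = 0
  · refine ⟨0, 1, one_ne_zero, ?_⟩
    rw [hrs, hs, map_zero, div_zero, zero_mul]
  · have hs' : MvPolynomial.aeval t s ≠ 0 := fun h => hs (hind.eq_zero_of_aeval_eq_zero s h)
    exact ⟨r, s, hs, by rw [hrs, div_mul_cancel₀ _ hs']⟩

theorem inf_iff (hind : AlgebraicIndependent k t) (O : ValuationSubring E) (l : Fin 2)
    (hl : 1 < O.valuation (t l))
    (hG : ∀ G : Po k, G ≠ 0 →
      O.valuation (MvPolynomial.aeval t G) = O.valuation (t l) ^ G.totalDegree)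
    (f : IntermediateField.adjoin k (Set.range t)) :
    (f : E) ∈ O ↔ ∃ a b : Po k, b ≠ 0 ∧ a.totalDegree ≤ b.totalDegree ∧
      (f : E) * MvPolynomial.aeval t b = MvPolynomial.aeval t a := by
  constructor
  · intro hf
    obtain ⟨a, b, hb, hab⟩ := frac hind f
    refine ⟨a, b, hb, ?_, hab⟩
    by_cases ha : a = 0
    · rw [ha, MvPolynomial.totalDegree_zero]
      exact Nat.zero_le _
    · have h1 := congrArg O.valuation hab
      rw [map_mul, hG a ha, hG b hb] at h1
      have h2 : O.valuation (f : E) ≤ 1 := (O.valuation_le_one_iff _).2 hf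
      have h3 : O.valuation (t l) ^ a.totalDegree ≤ O.valuation (t l) ^ b.totalDegree := by
        rw [← h1]
        exact mul_le_of_le_one_left' h2
      exact (pow_le_pow_iff_right₀ hl).1 h3
  · rintro ⟨a, b, hb, hdeg, hab⟩
    rw [← O.valuation_le_one_iff]
    have hbv : O.valuation (MvPolynomial.aeval t b) ≠ 0 := by
      rw [hG b hb]
      exact pow_ne_zero _ (ne_of_gt (lt_trans zero_lt_one hl))
    have hva : O.valuation (MvPolynomial.aeval t a) ≤ O.valuation (MvPolynomial.aeval t b) := by
      by_cases ha : a = 0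
      · rw [ha, map_zero, map_zero]
        exact zero_le
      · rw [hG a ha, hG b hb]
        exact pow_le_pow_right₀ hl.le hdeg
    have h1 := congrArg O.valuation hab
    rw [map_mul] at h1
    rw [← h1] at hva
    by_contra hcon
    have h2 : 1 < O.valuation (f : E) := not_le.1 hcon
    have h3 := mul_lt_mul_of_pos_right h2 (zero_lt_iff.2 hbv)
    rw [one_mul] at h3
    exact absurd hva (not_le.2 h3)

/-- Polynomials in `t` are in `O`. -/
theorem pol_mem (O : ValuationSubring E) (hk : ∀ c : k, algebraMap k E c ∈ O) (ht : ∀ i, t i ∈ O)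
    (G : Po k) : MvPolynomial.aeval t G ∈ O := by
  induction G using MvPolynomial.induction_on with
  | C a =>
    rw [MvPolynomial.aeval_C]
    exact hk a
  | add p q hp hq =>
    rw [map_add]
    exact O.add_mem _ _ hp hq
  | mul_X p i hp =>
    rw [map_mul, MvPolynomial.aeval_X]
    exact O.mul_mem _ _ hp (ht i)

theorem fin_iff (hind : AlgebraicIndependent k t) (O : ValuationSubring E)
    (hk : ∀ c : k, algebraMap k E c ∈ O) (ht : ∀ i, t i ∈ O) (R : Po k) (hR : Irreducible R)
    (hG : ∀ G : Po k, O.valuation (MvPolynomial.aeval t G) < 1 ↔ R ∣ G)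
    (f : IntermediateField.adjoin k (Set.range t)) :
    (f : E) ∈ O ↔ ∃ a b : Po k, ¬ R ∣ b ∧
      (f : E) * MvPolynomial.aeval t b = MvPolynomial.aeval t a := by
  have hle : ∀ G : Po k, O.valuation (MvPolynomial.aeval t G) ≤ 1 := fun G =>
    (O.valuation_le_one_iff _).2 (pol_mem O hk ht G)
  constructor
  · intro hf
    have hfv : O.valuation (f : E) ≤ 1 := (O.valuation_le_one_iff _).2 hf
    have hRt : MvPolynomial.aeval t R ≠ 0 := fun h0 =>
      hR.ne_zero (hind.eq_zero_of_aeval_eq_zero R h0)
    have key : ∀ (n : ℕ) (a c : Po k), (f : E) * MvPolynomial.aeval t (R ^ n * c) =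
        MvPolynomial.aeval t a → ∃ a' : Po k,
          (f : E) * MvPolynomial.aeval t c = MvPolynomial.aeval t a' := by
      intro n
      induction n with
      | zero =>
        intro a c h
        rw [pow_zero, one_mul] at h
        exact ⟨a, h⟩
      | succ n ih =>
        intro a c h
        have h1 : O.valuation (MvPolynomial.aeval t a) < 1 := by
          rw [← h, map_mul]
          have h2 : O.valuation (MvPolynomial.aeval t (R ^ (n + 1) * c)) < 1 := by
            rw [hG]
            exact Dvd.intro (R ^ n * c) (by ring)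
          exact lt_of_le_of_lt (mul_le_of_le_one_left' hfv) h2
        obtain ⟨a'', ha''⟩ := (hG a).1 h1
        apply ih a'' c
        have h3 : R ^ (n + 1) * c = R * (R ^ n * c) := by ring
        rw [h3, ha'', map_mul (MvPolynomial.aeval t) R (R ^ n * c),
          map_mul (MvPolynomial.aeval t) R a''] at h
        apply mul_left_cancel₀ hRt
        rw [← h]
        ring
    obtain ⟨a, b, hb, hab⟩ := frac hind f
    obtain ⟨n, c, hc, hbc⟩ := WfDvdMonoid.max_power_factor hb hR
    rw [hbc] at hab
    obtain ⟨a', ha'⟩ := key n a c hab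
    exact ⟨a', c, hc, ha'⟩
  · rintro ⟨a, b, hb, hab⟩
    rw [← O.valuation_le_one_iff]
    have hbv : O.valuation (MvPolynomial.aeval t b) = 1 := by
      rcases lt_or_eq_of_le (hle b) with h1 | h1
      · exact absurd ((hG b).1 h1) hb
      · exact h1
    have h1 := congrArg O.valuation hab
    rw [map_mul, hbv, mul_one] at h1
    rw [h1]
    exact hle a

end ExcAux

open ExcAux in
theorem tExc : S_Res → S_Inf → S_Fib → S_Exc := by
  intro hRes hInf hFib k E _ _ _ _ t hT D hD
  classical
  have := hT.fin
  have hfib := hFib (IntermediateField.adjoin k (Set.range t)) E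
  have hsub : Exc k t D ⊆
      {O : ValuationSubring E | IsDiscreteValuationRing O ∧
        ∀ f : IntermediateField.adjoin k (Set.range t),
          algebraMap (IntermediateField.adjoin k (Set.range t)) E f ∈ O ↔
          f ∈ {f : IntermediateField.adjoin k (Set.range t) | ∃ a b : Po k, b ≠ 0 ∧
            a.totalDegree ≤ b.totalDegree ∧
            (f : E) * MvPolynomial.aeval t b = MvPolynomial.aeval t a}} ∪
      ⋃ q ∈ (UniqueFactorizationMonoid.factors D).toFinset,
        {O : ValuationSubring E | IsDiscreteValuationRing O ∧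
          ∀ f : IntermediateField.adjoin k (Set.range t),
            algebraMap (IntermediateField.adjoin k (Set.range t)) E f ∈ O ↔
            f ∈ {f : IntermediateField.adjoin k (Set.range t) | ∃ a b : Po k, ¬ q ∣ b ∧
              (f : E) * MvPolynomial.aeval t b = MvPolynomial.aeval t a}} := by
    rintro O ⟨hO, hcase⟩
    by_cases hi : ∃ i, t i ∉ O
    · left
      obtain ⟨l, hl, -, -, hG⟩ := hInf k E t O hO hi
      exact ⟨hO.dvr, fun f => inf_iff hT.ind O l hl hG f⟩
    · right
      have hDv : O.valuation (MvPolynomial.aeval t D) < 1 := hcase.resolve_left hi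
      push Not at hi
      obtain ⟨R, hR, hG⟩ := hRes k E t hT O hO hi
      obtain ⟨q, hq, hRq⟩ := UniqueFactorizationMonoid.exists_mem_factors_of_dvd hD hR
        ((hG D).1 hDv)
      refine Set.mem_iUnion₂.2 ⟨q, Multiset.mem_toFinset.2 hq, hO.dvr, fun f => ?_⟩
      have h1 := fin_iff hT.ind O hO.con hi R hR hG f
      refine h1.trans ?_
      constructor
      · rintro ⟨a, b, hb, hab⟩
        exact ⟨a, b, fun h => hb (hRq.dvd.trans h), hab⟩
      · rintro ⟨a, b, hb, hab⟩
        exact ⟨a, b, fun h => hb (hRq.symm.dvd.trans h), hab⟩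
  refine Set.Finite.subset ?_ hsub
  refine Set.Finite.union (hfib _) ?_
  exact Set.Finite.biUnion (Finset.finite_toSet _) fun q _ => hfib _

end Pool.Agent.Lib.MP_16285c_agS.Cn
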