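import Pool.Agent.Lib.MP_16285c_agS.Can.Spec

/-!
# Divisors at infinity: the valuation of a polynomial is its degree
-/

set_option autoImplicit false

namespace Pool.Agent.Lib.MP_16285c_agS.Cn

namespace InfAux

variable {k E : Type} [Field k] [Field E] [Algebra k E]

/-- `1` is constant. -/
theorem one_mem (O : ValuationSubring E) : (1 : E) ∈ Cst k O := by
  refine ⟨Polynomial.X - Polynomial.C 1, Polynomial.X_sub_C_ne_zero 1, ?_⟩
  simp

/-- The degree of an exponent. -/
theorem deg_eq (α : Fin 2 →₀ ℕ) : (α.sum fun _ e => e) = α 0 + α 1 := by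
  rw [Finsupp.sum_fintype _ _ (fun _ => rfl), Fin.sum_univ_two]

/-- The value of a polynomial as a sum. -/
theorem aeval_eq (t : Fin 2 → E) (G : Po k) :
    MvPolynomial.aeval t G =
      ∑ α ∈ G.support, algebraMap k E (G.coeff α) * (t 0 ^ α 0 * t 1 ^ α 1) := by
  rw [MvPolynomial.aeval_def, MvPolynomial.eval₂_eq']
  refine Finset.sum_congr rfl fun α _ => ?_
  rw [Fin.prod_univ_two]

/-- One term. -/
theorem term_eq (t : Fin 2 → E) (w : E) (hw : w ≠ 0) (c : E) (a b d : ℕ) (h : a + b ≤ d) :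
    c * (t 0 ^ a * t 1 ^ b) =
      w ^ d * (c * ((t 0 / w) ^ a * (t 1 / w) ^ b) * (w⁻¹) ^ (d - (a + b))) := by
  obtain ⟨e, rfl⟩ := Nat.exists_eq_add_of_le h
  have h1 : a + b + e - (a + b) = e := by omega
  rw [h1, div_pow, div_pow, inv_pow, pow_add, pow_add]
  field_simp

/-- The leading form in one variable. -/
noncomputable def lead (G : Po k) (i : Fin 2) : Polynomial k :=
  ∑ α ∈ G.support.filter (fun α => α 0 + α 1 = G.totalDegree),
    Polynomial.C (G.coeff α) * Polynomial.X ^ (α i)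

/-- The leading form is not zero. -/
theorem lead_ne (G : Po k) (hG : G ≠ 0) (i : Fin 2) : lead G i ≠ 0 := by
  classical
  have hne : G.support.Nonempty := by
    rw [Finset.nonempty_iff_ne_empty]
    intro h
    exact hG (MvPolynomial.support_eq_empty.1 h)
  obtain ⟨β, hβ, hd⟩ := Finset.exists_mem_eq_sup G.support hne (fun s => s.sum fun _ e => e)
  have hd' : β 0 + β 1 = G.totalDegree := by
    rw [← deg_eq]
    exact hd.symm
  intro h0
  have h1 : (lead G i).coeff (β i) = G.coeff β := by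
    rw [lead, Polynomial.finsetSum_coeff,
      Finset.sum_eq_single_of_mem β (Finset.mem_filter.2 ⟨hβ, hd'⟩)]
    · rw [Polynomial.coeff_C_mul, Polynomial.coeff_X_pow, if_pos rfl, mul_one]
    · intro α hα hne
      rw [Polynomial.coeff_C_mul, Polynomial.coeff_X_pow, if_neg, mul_zero]
      intro hi
      apply hne
      have hα' := (Finset.mem_filter.1 hα).2
      ext j
      fin_cases i <;> fin_cases j <;> simp at hi ⊢ <;> omega
  rw [h0, Polynomial.coeff_zero] at h1
  exact (MvPolynomial.mem_support_iff.1 hβ) h1.symm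

/-- The value of the leading form. -/
theorem lead_eval (G : Po k) (s : Fin 2 → E) (i l : Fin 2) (hil : i ≠ l) (hl : s l = 1) :
    Polynomial.aeval (s i) (lead G i) =
      ∑ α ∈ G.support.filter (fun α => α 0 + α 1 = G.totalDegree),
        algebraMap k E (G.coeff α) * (s 0 ^ α 0 * s 1 ^ α 1) := by
  rw [lead, map_sum]
  refine Finset.sum_congr rfl fun α _ => ?_
  rw [map_mul, Polynomial.aeval_C, map_pow, Polynomial.aeval_X]
  congr 1
  fin_cases i <;> fin_cases l
  · exact absurd rfl hil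
  · have hl' : s 1 = 1 := hl
    simp [hl']
  · have hl' : s 0 = 1 := hl
    simp [hl']
  · exact absurd rfl hil

/-- The valuation of a polynomial. -/
theorem key (O : ValuationSubring E) (hcon : ∀ c : k, algebraMap k E c ∈ O) (t : Fin 2 → E)
    (l : Fin 2) (hl : 1 < O.valuation (t l)) (hi : ∀ i, t i / t l ∈ O) (i : Fin 2)
    (hs : t i / t l ∉ Cst k O) (G : Po k) (hG : G ≠ 0) :
    O.valuation (MvPolynomial.aeval t G) = O.valuation (t l) ^ G.totalDegree := by
  classical
  have hw : t l ≠ 0 := by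
    intro h
    rw [h, map_zero] at hl
    exact absurd hl (by simp)
  have hil : i ≠ l := by
    rintro rfl
    apply hs
    rw [div_self hw]
    exact one_mem O
  have hu : O.valuation (t l)⁻¹ < 1 := by
    rw [map_inv₀]
    exact inv_lt_one_of_one_lt₀ hl
  have hO : ∀ α : Fin 2 →₀ ℕ,
      O.valuation (algebraMap k E (G.coeff α) * ((t 0 / t l) ^ α 0 * (t 1 / t l) ^ α 1)) ≤ 1 := by
    intro α
    rw [ValuationSubring.valuation_le_one_iff]
    exact O.mul_mem _ _ (hcon _) (O.mul_mem _ _ (pow_mem (hi 0) _) (pow_mem (hi 1) _))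
  set d := G.totalDegree with hd
  have hdeg : ∀ α ∈ G.support, α 0 + α 1 ≤ d := by
    intro α hα
    rw [← deg_eq]
    exact MvPolynomial.le_totalDegree hα
  set H1 : E := ∑ α ∈ G.support.filter (fun α => α 0 + α 1 = d),
    algebraMap k E (G.coeff α) * ((t 0 / t l) ^ α 0 * (t 1 / t l) ^ α 1) with hH1
  set H2 : E := ∑ α ∈ G.support.filter (fun α => ¬ α 0 + α 1 = d),
    algebraMap k E (G.coeff α) * ((t 0 / t l) ^ α 0 * (t 1 / t l) ^ α 1) *
      ((t l)⁻¹) ^ (d - (α 0 + α 1)) with hH2
  have hsum : MvPolynomial.aeval t G = t l ^ d * (H1 + H2) := by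
    have h1 : H1 = ∑ α ∈ G.support.filter (fun α => α 0 + α 1 = d),
        algebraMap k E (G.coeff α) * ((t 0 / t l) ^ α 0 * (t 1 / t l) ^ α 1) *
          ((t l)⁻¹) ^ (d - (α 0 + α 1)) := by
      rw [hH1]
      refine Finset.sum_congr rfl fun α hα => ?_
      rw [(Finset.mem_filter.1 hα).2, Nat.sub_self, pow_zero, mul_one]
    rw [h1, hH2, Finset.sum_filter_add_sum_filter_not, Finset.mul_sum, aeval_eq]
    exact Finset.sum_congr rfl fun α hα => term_eq t (t l) hw _ _ _ _ (hdeg α hα)
  have hv2 : O.valuation H2 < 1 := by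
    rw [hH2]
    refine Valuation.map_sum_lt _ one_ne_zero fun α hα => ?_
    rw [map_mul, map_pow]
    have h1 := hdeg α (Finset.mem_filter.1 hα).1
    have h2 := (Finset.mem_filter.1 hα).2
    have h3 : d - (α 0 + α 1) ≠ 0 := by omega
    refine lt_of_le_of_lt (mul_le_of_le_one_left zero_le (hO α)) ?_
    exact pow_lt_one₀ zero_le hu h3
  have hv1 : O.valuation H1 = 1 := by
    refine le_antisymm ?_ ?_
    · rw [hH1]
      exact Valuation.map_sum_le _ fun α _ => hO α
    · refine not_lt.1 fun h => hs ⟨lead G i, lead_ne G hG i, ?_⟩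
      rw [lead_eval G (fun j => t j / t l) i l hil (div_self hw)]
      exact h
  rw [hsum, map_mul, map_pow, Valuation.map_add_eq_of_lt_left _ (by rw [hv1]; exact hv2), hv1,
    mul_one]

end InfAux

/-- The valuation of a polynomial at a divisor at infinity. -/
theorem tInf : S_Dvc → S_Inf := by
  intro hD k E _ _ _ _ t O hO hi
  obtain ⟨l, hl, h1, i, h2⟩ := (hD k E t O).2.2.1 hO hi
  exact ⟨l, hl, h1, ⟨i, h2⟩, fun G hG => InfAux.key O hO.con t l hl h1 i h2 G hG⟩

end Pool.Agent.Lib.MP_16285c_agS.Cn
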