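import Pool.Agent.Lib.MP_16285c_agS.Defs

/-!
# Package CAN: totally invariant discrete valuation rings of a function field of two variables

Goal: `StmtCan` of `Defs.lean` (section F of note 4871 on MP_16285c_ag): an endomorphism `ρ` of a field `E` of transcendence
degree two over a field `k` of characteristic zero with `E^ρ = k` has only finitely many totally invariant divisors.

`t : Fin 2 → E` is always a transcendence basis of `E` over `k` (`AlgebraicIndependent k t` and `E` finite over `k(t)`).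

* `Cst k O` : the elements of `O` whose residue is algebraic over `k`; an integrally closed subring of `E` (`S_Cst`).
* `Ct k O U` : the linear system `U` is contracted by `O`: all quotients `u / w`, `u ∈ U`, of some `w ∈ U` are in `Cst k O`.
* `Dv k t O` : `O` is a discrete valuation ring, contains `k` and does not contract `⟨1, t₀, t₁⟩`.
  It is FINITE if `t₀, t₁ ∈ O`, and INFINITE otherwise.
* `Mdl k t z P m D` : `E = k(t)(z)`, `z` integral over `k[t]`, with weights: `z` has weight `m`. `D(t)` is a multiple of `P_z(t, z)`.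
* `Exc k t D` : the infinite `O`, and the finite `O` with `D(t) ∈ 𝔪_O`; `Gd k t D O` : the others (`S_Exc`: `Exc` is finite).
* forms are vectors `Fin 2 → E` (coordinates with respect to `dx₀, dx₁`), `dd Δ h` is the differential of `h`,
  `Om Δ O` the `O`-module spanned by the differentials of the elements of `O`, `pb ρ x Δ` the pullback.

Every lemma is a `Prop` with its complete proof in the docstring; the files proving them are independent: used statements are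
hypotheses (name of the theorem for `S_Abc`: `tAbc`, in `Can/Abc.lean`, with the used statements as hypotheses, in the order in which they are named). `O.valuation a < 1` means `a ∈ 𝔪_O`, `O.valuation a = 1` means that
`a` is a unit of `O`, `O.valuation a ≤ 1` is `a ∈ O` (`ValuationSubring.valuation_le_one_iff`).
-/

set_option autoImplicit false

namespace Pool.Agent.Lib.MP_16285c_agS.Cn

open Pool.Agent.Lib.MP_16285c_agS

section

variable (k : Type) {E : Type} [Field k] [Field E] [Algebra k E]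

/-- Polynomials in two variables. -/
abbrev Po (k : Type) [Field k] : Type := MvPolynomial (Fin 2) k

/-- Polynomials in `Z` over the polynomials in two variables. -/
abbrev PZ (k : Type) [Field k] : Type := Polynomial (MvPolynomial (Fin 2) k)

/-- The elements of `O` whose residue is algebraic over `k`. -/
def Cst (O : ValuationSubring E) : Set E :=
  {a | ∃ G : Polynomial k, G ≠ 0 ∧ O.valuation (Polynomial.aeval a G) < 1}

/-- The linear system `U` is contracted by `O`. -/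
def Ct (O : ValuationSubring E) (U : Submodule k E) : Prop :=
  ∃ w ∈ U, w ≠ 0 ∧ ∀ u ∈ U, u / w ∈ Cst k O

/-- The linear system `⟨1, t₀, t₁⟩`. -/
def U3 (t : Fin 2 → E) : Submodule k E := Submodule.span k {1, t 0, t 1}

/-- A discrete valuation ring containing `k`. -/
structure Plc (O : ValuationSubring E) : Prop where
  dvr : IsDiscreteValuationRing O
  con : ∀ c : k, algebraMap k E c ∈ O

/-- `O` is a divisor on the plane with coordinates `t₀, t₁` (or over it). -/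
structure Dv (t : Fin 2 → E) (O : ValuationSubring E) : Prop extends Plc k O where
  nc : ¬ Ct k O (U3 k t)

/-- `t` is a transcendence basis. -/
structure Tb (t : Fin 2 → E) : Prop where
  ind : AlgebraicIndependent k t
  fin : Module.Finite (IntermediateField.adjoin k (Set.range t)) E

variable {k} in
/-- The value at `(t, z)`. -/
noncomputable def ev (t : Fin 2 → E) (z : E) : PZ k →+* E :=
  Polynomial.eval₂RingHom (MvPolynomial.aeval t : Po k →ₐ[k] E).toRingHom z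

variable {k} in
/-- The weight of `H` is at most `N` (the variables `t₀, t₁` have weight one, `Z` has weight `m`). -/
def Wle (m N : ℕ) (H : PZ k) : Prop := ∀ c ∈ H.support, (H.coeff c).totalDegree + m * c ≤ N

/-- `E = k(t)(z)`. -/
structure Mdl (t : Fin 2 → E) (z : E) (P : PZ k) (m : ℕ) (D : Po k) : Prop where
  mon : P.Monic
  rt : ev t z P = 0
  wt : Wle m (m * P.natDegree) P
  gen : ∀ e : E, ∃ (N : PZ k) (c : Po k), c ≠ 0 ∧ e * MvPolynomial.aeval t c = ev t z N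
  ne : D ≠ 0
  dis : ∃ V : PZ k, ev t z V * ev t z P.derivative = MvPolynomial.aeval t D

/-- The exceptional divisors. -/
def Exc (t : Fin 2 → E) (D : Po k) : Set (ValuationSubring E) :=
  {O | Dv k t O ∧ ((∃ i, t i ∉ O) ∨ O.valuation (MvPolynomial.aeval t D) < 1)}

/-- The divisors which are not exceptional. -/
structure Gd (t : Fin 2 → E) (D : Po k) (O : ValuationSubring E) : Prop extends Dv k t O where
  fin : ∀ i, t i ∈ O
  unit : O.valuation (MvPolynomial.aeval t D) = 1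

variable {k} in
/-- The inverse image of `O`. -/
def cm (ρ : E →ₐ[k] E) (O : ValuationSubring E) : ValuationSubring E := O.comap (ρ : E →+* E)

variable {k} in
/-- The derivations `∂/∂t₀`, `∂/∂t₁`. -/
def Dual (t : Fin 2 → E) (Δ : Fin 2 → Derivation k E E) : Prop :=
  ∀ i j, Δ i (t j) = if i = j then 1 else 0

variable {k} in
/-- The differential of `h`. -/
def dd (Δ : Fin 2 → Derivation k E E) (h : E) : Fin 2 → E := fun i => Δ i h

variable {k} in
/-- The forms which are regular at `O`. -/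
def Om (Δ : Fin 2 → Derivation k E E) (O : ValuationSubring E) : Submodule O (Fin 2 → E) :=
  Submodule.span O (Set.range fun h : O => dd Δ (h : E))

variable {k} in
/-- The pullback of forms. -/
def pb (ρ : E →ₐ[k] E) (x : Fin 2 → E) (Δ : Fin 2 → Derivation k E E) (w : Fin 2 → E) : Fin 2 → E :=
  fun i => ∑ j, ρ (w j) * Δ i (ρ (x j))

end

/-! ## Places -/

/-- (Cst) PROOF. Let `κ` be the residue field of `O`, a field over `k`. If `v(G(a)) < 1` with `G ≠ 0` then `a ∈ O`: otherwise `v(a) > 1`, and `v(G(a)) = v(a) ^ deg G ≥ 1` (the other terms are smaller;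
nonzero constants of `k` have valuation one). For `a ∈ O`: `v(G(a)) < 1` iff the residue of `a` is a root of `G`. So `a ∈ Cst k O` iff `a ∈ O` and its residue is algebraic over `k`; `C` = the inverse image in `O` of the
relative algebraic closure of `k` in `κ` (a subfield of `κ`). If `a ∈ E` is integral over `C ⊆ O` then `a ∈ O` (valuation rings are integrally closed) and the residue of `a` is integral over the relative algebraic closure, so in it. If `a ∈ C` is a unit of `O`, then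
the residue of `a⁻¹` is the inverse of the residue of `a`. Last statement: `G` = the minimal polynomial over `k` of the residue of `a` (separable: characteristic zero). -/
def S_Cst : Prop :=
  ∀ (k E : Type) [Field k] [CharZero k] [Field E] [Algebra k E] (O : ValuationSubring E),
    (∀ c : k, algebraMap k E c ∈ O) →
    (∃ C : Subring E, (∀ a, a ∈ C ↔ a ∈ Cst k O) ∧ (∀ c : k, algebraMap k E c ∈ C) ∧
      (∀ a : E, IsIntegral C a → a ∈ C) ∧ (∀ a ∈ C, a ∈ O) ∧ (∀ a, O.valuation a < 1 → a ∈ C) ∧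
      ∀ a ∈ C, O.valuation a = 1 → a⁻¹ ∈ C) ∧
    ∀ a ∈ Cst k O, ∃ G : Polynomial k, O.valuation (Polynomial.aeval a G) < 1 ∧
      O.valuation (Polynomial.aeval a G.derivative) = 1

/-- (Dvc) PROOF (uses `S_Cst`; `C` = the subring `Cst k O`). (1) Otherwise all elements of `⟨1, t₀, t₁⟩` are in `C`, and `w = 1` contracts. (2) Suppose `w` contracts, `1 / w, t i / w ∈ C`. `w ∈ O` (a `k`-combination of `1, t₀, t₁`) and `1 / w ∈ O`: `w` is a unit, `w = (1 / w)⁻¹ ∈ C`,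
`t i = (t i / w) * w ∈ C` for both `i`: a contradiction. (3) Let `v(t l)` be the larger one of `v(t 0)`, `v(t 1)`; it is `> 1`; `t i / t l ∈ O`. If `t i / t l ∈ C` for both `i` then `w = t l` contracts: `u / w` is a combination of `1 / t l` (`v < 1`), `t 0 / t l`, `t 1 / t l`. (4) Suppose `w` contracts.
`w / t l ∈ O` (combination of `1 / t l`, `t i / t l`) and `t l / w ∈ C ⊆ O`, so `t l / w` is a unit and `w / t l ∈ C`, `t i / t l = (t i / w) * (w / t l) ∈ C` for both `i`: a contradiction. (5) from (1) and (3). -/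
def S_Dvc : Prop :=
  ∀ (k E : Type) [Field k] [CharZero k] [Field E] [Algebra k E] (t : Fin 2 → E) (O : ValuationSubring E),
    (Dv k t O → (∀ i, t i ∈ O) → ∃ i, t i ∉ Cst k O) ∧
    (Plc k O → (∀ i, t i ∈ O) → (∃ i, t i ∉ Cst k O) → Dv k t O) ∧
    (Dv k t O → (∃ i, t i ∉ O) → ∃ l, 1 < O.valuation (t l) ∧ (∀ i, t i / t l ∈ O) ∧
      ∃ i, t i / t l ∉ Cst k O) ∧
    (Plc k O → ∀ l, 1 < O.valuation (t l) → (∀ i, t i / t l ∈ O) → (∃ i, t i / t l ∉ Cst k O) →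
      Dv k t O) ∧
    (Dv k t O → ∃ a ∈ O, a ∉ Cst k O)

/-- (Pr) The product of linear systems. PROOF (uses `S_Cst`). Let `e ∈ U * W`, `e ≠ 0`, `(u * w) / e ∈ C` for all `u ∈ U`, `w ∈ W` (`C` = the subring `Cst k O`). `U`, `W` are finite dimensional and not zero: there is `u₀ ∈ U`, `u₀ ≠ 0`, with `u / u₀ ∈ O` for all `u ∈ U` (an element of a basis with the
largest valuation), and `w₀ ∈ W` in the same way. `e / (u₀ * w₀) ∈ O` (`e` is a sum of products `u * w`: `Submodule.mul_induction_on`), `c := (u₀ * w₀) / e ∈ C ⊆ O`: so `c` is a unit of `O` and `c⁻¹ ∈ C`. For `u ∈ U`: `u / u₀ = ((u * w₀) / e) * c⁻¹ ∈ C`; for `w ∈ W`: `w / w₀ = ((u₀ * w) / e) * c⁻¹ ∈ C`. -/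
def S_Pr : Prop :=
  ∀ (k E : Type) [Field k] [CharZero k] [Field E] [Algebra k E] (O : ValuationSubring E),
    (∀ c : k, algebraMap k E c ∈ O) → ∀ U W : Submodule k E, Module.Finite k U → Module.Finite k W →
    Ct k O (U * W) → Ct k O U ∧ Ct k O W

/-- (GN) Graded Noether normalization. PROOF. Induction on `finrank k U`. If it is three, take a basis. Let it be `M + 1 ≥ 4`, `u_0, …, u_M` a basis. The elements `y_i = u_i / u_M`, `i = 0, 1, 2`, are algebraically dependent: `G(y_0, y_1, y_2) = 0`, `G ∈ k[Y_0, Y_1, Y_2]`, `G ≠ 0`, `n` = total degree of `G`.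
`k` is infinite: there is `λ ∈ k ^ 3` with `G(λ) ≠ 0` (`MvPolynomial.funext`). Let `u'_i = u_i - λ_i u_M` for `i = 0, 1, 2` and `u'_i = u_i` for `3 ≤ i < M`, `U' = ⟨u'_0, …, u'_(M-1)⟩`, of dimension `M`, `U = U' + k u_M`. `G(λ + Y) = G(λ) + ∑_(1 ≤ |α| ≤ n) g_α Y ^ α`. So for `w ∈ U'`, `w ≠ 0`, with `U' / w ⊆ C`, and `y = u_M / w`:
`0 = y ^ n * G(u_0 / u_M, …) = G(λ) y ^ n + ∑_(1 ≤ |α| ≤ n) g_α (u' / w) ^ α y ^ (n - |α|)`: `y` is integral over `C`, so `y ∈ C` and `U / w ⊆ C`. Apply the induction hypothesis to `U'`. -/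
def S_GN : Prop :=
  ∀ (k E : Type) [Field k] [Infinite k] [Field E] [Algebra k E],
    (∀ y : Fin 3 → E, ¬ AlgebraicIndependent k y) → ∀ U : Submodule k E, Module.Finite k U →
    3 ≤ Module.finrank k U → ∃ s : Fin 3 → E, (∀ i, s i ∈ U) ∧ LinearIndependent k s ∧
      ∀ C : Subring E, (∀ c : k, algebraMap k E c ∈ C) → (∀ a : E, IsIntegral C a → a ∈ C) →
        ∀ w ∈ Submodule.span k (Set.range s), w ≠ 0 → (∀ i, s i / w ∈ C) → ∀ u ∈ U, u / w ∈ C

/-- (Dvr) PROOF. Let `π` be a uniformizer of `O`; every `a ∈ E`, `a ≠ 0`, is `u π ^ n`, `u` a unit of `O`, `n = n(a) ∈ ℤ`. Some `f ∈ F`, `f ≠ 0`, has `n(f) ≠ 0`: `π` is algebraic over `F`, `∑ c_i π ^ i = 0` with `c_0 ≠ 0`; if all `c_i ≠ 0` had `n(c_i) = 0` then `c_0 = -∑_(i ≥ 1) c_i π ^ i ∈ 𝔪_O`.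
So the subgroup `n(F^×)` of `ℤ` is `e ℤ`, `e > 0`; let `n(f₀) = e`. `f₀ ∈ O'` is not a unit of `O' = O ∩ F`, and every nonzero element of `O'` is `f₀ ^ j` times a unit of `O'`: `f₀` is irreducible, `O'` is a discrete valuation ring (`IsDiscreteValuationRing.ofHasUnitMulPowIrreducibleFactorization`). -/
def S_Dvr : Prop :=
  ∀ (F E : Type) [Field F] [Field E] [Algebra F E] [FiniteDimensional F E] (O : ValuationSubring E),
    IsDiscreteValuationRing O → IsDiscreteValuationRing (O.comap (algebraMap F E))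

/-- (Cmp) PROOF (uses `S_Dvr`, with `E` as an algebra over `E` by `ρ`; `S_Cst`). Second statement: for `a ≠ 0`, `v(a) < 1` iff `a⁻¹` is not in the ring. Third: `aeval (ρ a) G = ρ (aeval a G)`. Last statement: suppose that all `b ∈ E` with `ρ b ∈ O` are in `Cst k (cm ρ O)`, so `ρ b ∈ C`, `C` = the subring `Cst k O`. Let `a ∈ O`. It is algebraic over
`ρ E`: `∑ ρ(b_i) a ^ i = 0`, not all `b_i` zero; divide by the `ρ(b_i)` of largest valuation: all `ρ(b_i) ∈ O`, so in `C`, and one of them is `1`. So the residue of `a` is a root of a nonzero polynomial over the residues of `C`, a field algebraic over `k`: `a ∈ C`. [In terms of `C`: let `l` be the largest index such that `ρ(b_l)` is a unit. Or: the residue field of `O`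
is algebraic over the residue field of `C`, which is algebraic over `k`.] So `O ⊆ Cst k O`. -/
def S_Cmp : Prop :=
  ∀ (k E : Type) [Field k] [CharZero k] [Field E] [Algebra k E] (ρ : E →ₐ[k] E),
    Module.Finite ρ.fieldRange E → ∀ O : ValuationSubring E, Plc k O →
    Plc k (cm ρ O) ∧ (∀ a, (cm ρ O).valuation a < 1 ↔ O.valuation (ρ a) < 1) ∧
    (∀ a, a ∈ Cst k (cm ρ O) ↔ ρ a ∈ Cst k O) ∧
    ((∃ a ∈ O, a ∉ Cst k O) → ∃ a ∈ cm ρ O, a ∉ Cst k (cm ρ O))

/-- (Apx) Approximation. PROOF. A discrete valuation ring of `E` is contained in no other valuation ring `≠ E`; so for `i ≠ j` there are `a ∈ O_i`, `a ∉ O_j`, and `b ∈ O_j`, `b ∉ O_i`; `c = b / a` has `v_i(c) > 1`, `v_j(c) < 1`. CLAIM: there is `c` with `v_i(c) > 1` and `v_j(c) < 1` for all `j ≠ i` (for every finite set of indices `j ≠ i`).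
Induction: let `c` be as claimed for the set `J`, `j' ∉ J`, and `d` as claimed for `{j'}`. If `v_j'(c) ≤ 1` take `c ^ n * d`, otherwise `c ^ n / (1 + c ^ n) * d`, `n` large (`v_j(c) < 1` for `j ∈ J`, so `v_j(c ^ n d) < 1` for large `n`, a discrete valuation ring; if `v(c) > 1` then `c ^ n / (1 + c ^ n)` is a unit; `v_i(c ^ n / (1 + c ^ n)) = 1`).
Then `a = c / (1 + c)`: `v_i(a) = 1`, `v_j(a) = v_j(c) < 1`. -/
def S_Apx : Prop :=
  ∀ (E : Type) [Field E] (s : ℕ) (O : Fin s → ValuationSubring E), Function.Injective O →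
    (∀ i, IsDiscreteValuationRing (O i)) → ∀ i, ∃ a : E, (O i).valuation a = 1 ∧
      ∀ j, j ≠ i → (O j).valuation a < 1

/-- (Fib) PROOF (uses `S_Apx`). Suppose there are `s > [E : F]` different such rings `O_1, …, O_s`; `a_i` with `v_i(a_i) = 1`, `v_j(a_i) < 1` for `j ≠ i`. The `a_i` are linearly independent over `F`: let `∑ c_i a_i = 0`, not all `c_i` zero. The `O_j` have the same restriction `V` to `F`, a valuation ring: divide by some `c_l ≠ 0` such that all `c_i / c_l ∈ V`.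
So `a_l = -∑_(i ≠ l) (c_i / c_l) a_i` has `v_l < 1`: a contradiction. So the set has at most `[E : F]` elements. -/
def S_Fib : Prop :=
  ∀ (F E : Type) [Field F] [Field E] [Algebra F E] [FiniteDimensional F E] (V : Set F),
    {O : ValuationSubring E | IsDiscreteValuationRing O ∧ ∀ f : F, algebraMap F E f ∈ O ↔ f ∈ V}.Finite

/-- (Fbc) PROOF (uses `S_Fib`, with `E` as an algebra over `E` by `ρ`). For every `O' ∈ T` the set of the discrete valuation rings `O` with `cm ρ O = O'` (i.e. `ρ f ∈ O ↔ f ∈ O'`) is finite. -/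
def S_Fbc : Prop :=
  ∀ (k E : Type) [Field k] [Field E] [Algebra k E] (ρ : E →ₐ[k] E),
    Module.Finite ρ.fieldRange E → ∀ T : Set (ValuationSubring E), T.Finite →
    {O : ValuationSubring E | Plc k O ∧ cm ρ O ∈ T}.Finite

/-- (Loc) PROOF (uses `S_Apx`, `S_Fib`). Let `O = O_1, O_2, …, O_s` be the discrete valuation rings with the same restriction `V` (finitely many), `a` with `v_1(a) = 1`, `v_j(a) < 1` for `j ≥ 2`. `s = a ^ n`, `n` large: `v_j(a ^ n * e) ≤ 1` for `j ≥ 2` (discrete valuation rings), `v_1(a ^ n) = 1`. -/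
def S_Loc : Prop :=
  ∀ (F E : Type) [Field F] [Field E] [Algebra F E] [FiniteDimensional F E] (V : Set F)
    (O : ValuationSubring E), IsDiscreteValuationRing O → (∀ f : F, algebraMap F E f ∈ O ↔ f ∈ V) →
    ∀ e ∈ O, ∃ s : E, O.valuation s = 1 ∧ ∀ O' : ValuationSubring E, IsDiscreteValuationRing O' →
      (∀ f : F, algebraMap F E f ∈ O' ↔ f ∈ V) → s ∈ O' ∧ s * e ∈ O'

/-- (Int) PROOF. `B` = integral closure of `V` in `E`: a Dedekind domain with field of fractions `E` (`integralClosure.isDedekindDomain V F E`; separable: characteristic zero). For every height one prime `q` of `B` let `O_q = (q.valuation E).valuationSubring`: a discrete valuation ring (`q.valuation_exists_uniformizer E`), it contains `B ⊇ V`, and it contains a non-unit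
from `V` (an element of `q`, `≠ 0`, has a nonzero multiple in `V`: constant term of an integral equation), so `O_q ∩ F = V` (a discrete valuation ring is contained in no other valuation ring `≠ F`). So `b ∈ O_q` for all `q`, and `b ∈ B` (`IsDedekindDomain.HeightOneSpectrum.mem_integers_of_valuation_le_one`). [If `B` were a field then `V` would be a field.] -/
def S_Int : Prop :=
  ∀ (F E : Type) [Field F] [CharZero F] [Field E] [Algebra F E] [FiniteDimensional F E]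
    (V : ValuationSubring F), IsDiscreteValuationRing V → ∀ b : E,
    (∀ O : ValuationSubring E, IsDiscreteValuationRing O → (∀ f : F, algebraMap F E f ∈ O ↔ f ∈ V) →
      b ∈ O) → ∃ G : Polynomial F, G.Monic ∧ (∀ i, G.coeff i ∈ V) ∧ Polynomial.aeval b G = 0

/-! ## Divisors over the plane -/

/-- (Res) PROOF (uses `S_Dvc` (1)). `𝔭 = {G : v(G(t)) < 1}` is a prime ideal of `k[T₀, T₁]` (`k[t] ⊆ O`). `𝔭 ≠ 0`: a uniformizer `π` of `O` is algebraic over `k(t)`: `∑ c_i(t) π ^ i = 0`, `c_i ∈ k[T₀, T₁]`, `c_0 ≠ 0` (divide by a power of `π`); `c_0(t) = -∑_(i ≥ 1) c_i(t) π ^ i ∈ 𝔪_O`. So `𝔭` contains an irreducible `R` (prime ideal, factorial ring).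
Suppose `𝔭 ≠ (R)`. `0 ⊂ (R) ⊂ 𝔭`: as `k[T₀, T₁]` has dimension two, `𝔭` is a maximal ideal, and `k[T₀, T₁] / 𝔭` is algebraic over `k` (Zariski's lemma), so there are `G_i ≠ 0` in `k[X]` with `G_i(T_i) ∈ 𝔭`: `t₀, t₁ ∈ Cst k O`, a contradiction to `S_Dvc`. [Or by elimination: for `G ∈ 𝔭`, `R ∤ G`, Gauss' lemma gives `A R + B G ∈ k[T₀]`, `≠ 0`, and
the same for `T₁`.] -/
def S_Res : Prop :=
  ∀ (k E : Type) [Field k] [CharZero k] [Field E] [Algebra k E] (t : Fin 2 → E), Tb k t →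
    ∀ O : ValuationSubring E, Dv k t O → (∀ i, t i ∈ O) →
    ∃ R : Po k, Irreducible R ∧ ∀ G : Po k, O.valuation (MvPolynomial.aeval t G) < 1 ↔ R ∣ G

/-- (Inf) PROOF (uses `S_Dvc` (3), `S_Cst`). `l` from `S_Dvc` (3), `l'` the other index, `s = t l' / t l`; `s ∉ Cst k O` (`t l / t l = 1 ∈ Cst k O`). Let `d` be the total degree of `G = ∑ g_α T ^ α`. `G(t) / (t l) ^ d = ∑ g_α (t 0 / t l) ^ (α 0) (t 1 / t l) ^ (α 1) (1 / t l) ^ (d - |α|)`; the terms with `|α| < d` have valuation `< 1`. The terms with `|α| = d` have the sum `g(s)`,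
`g = ∑_(|α| = d) g_α S ^ (α l')`, a nonzero polynomial (the exponents are different). `v(g(s)) ≤ 1`, and not `< 1` because `s ∉ Cst k O`. So `v(G(t) / (t l) ^ d) = 1`. -/
def S_Inf : Prop :=
  ∀ (k E : Type) [Field k] [CharZero k] [Field E] [Algebra k E] (t : Fin 2 → E)
    (O : ValuationSubring E), Dv k t O → (∃ i, t i ∉ O) →
    ∃ l : Fin 2, 1 < O.valuation (t l) ∧ (∀ i, t i / t l ∈ O) ∧ (∃ i, t i / t l ∉ Cst k O) ∧
      ∀ G : Po k, G ≠ 0 → O.valuation (MvPolynomial.aeval t G) = O.valuation (t l) ^ G.totalDegree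

/-- (Exc) PROOF (uses `S_Res`, `S_Inf`, `S_Fib`). `F = k(t)` = `IntermediateField.adjoin k (Set.range t)`, every `f ∈ F` is `a(t) / b(t)`, `b ≠ 0` (`IntermediateField.mem_adjoin_range_iff`). For the infinite `O` all restrictions to `F` are the same set: `a(t) / b(t) ∈ O` iff `a.totalDegree ≤ b.totalDegree` (or `a = 0`) by `S_Inf` (`v(t l) > 1`). For the finite `O` with
`v(D(t)) < 1` let `R` be as in `S_Res`: `R ∣ D`, and `R` determines the restriction: for relatively prime `a, b`: `a(t) / b(t) ∈ O` iff `R ∤ b` (if `R ∣ b` then `R ∤ a`, `v(a(t)) = 1 > v(b(t))`). There are finitely many `R` up to units (`UniqueFactorizationMonoid.normalizedFactors D`, or the associates dividing `D`). So `Exc` is contained in a finite union of sets which are finite by `S_Fib`. -/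
def S_Exc : Prop :=
  ∀ (k E : Type) [Field k] [CharZero k] [Field E] [Algebra k E] (t : Fin 2 → E), Tb k t →
    ∀ D : Po k, D ≠ 0 → (Exc k t D).Finite

/-- (Mdl) PROOF. `F = k(t)`; `z₀` a primitive element of `E` over `F` (`Field.exists_primitive_element`), `μ` its minimal polynomial, `δ` its degree, `c ∈ k[T]`, `c ≠ 0`, a common denominator of the coefficients: `μ_j = a_j(t) / c(t)`. `z = c(t) z₀`, `P = Z ^ δ + ∑_(j < δ) a_j c ^ (δ - j - 1) Z ^ j`: `P(t, z) = c(t) ^ δ μ(z₀) = 0`,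
`P_z(t, z) = c(t) ^ (δ - 1) μ'(z₀) ≠ 0` (separable). `m` = the maximum of the total degrees of the coefficients of `P`: for `j < δ`: `deg P_j + m j ≤ m + m j ≤ m δ`. `gen`: `e ∈ E = F(z) = F[z]`, common denominator of the coefficients. `dis`: `gen` for `e = 1 / P_z(t, z)`: `c(t) = N(t, z) P_z(t, z)`, `D = c`. -/
def S_Mdl : Prop :=
  ∀ (k E : Type) [Field k] [CharZero k] [Field E] [Algebra k E] (t : Fin 2 → E), Tb k t →
    ∃ (z : E) (P : PZ k) (m : ℕ) (D : Po k), Mdl k t z P m D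

/-- (Unr) Divisors with `D(t) ∉ 𝔪_O` are not ramified. PROOF. `z ∈ O` (integral over `k[t] ⊆ O`), so `ev t z N ∈ O` for all `N`. `v(P_z(t, z)) = 1` because of `dis` and `v(D(t)) = 1`. CLAIM: for `A ∈ PZ k` with `v(A(t, z)) < 1` there are `S, A' ∈ PZ k` with `v(S(t, z)) = 1` and `S(t, z) A(t, z) = R(t) A'(t, z)`. Let `κ` be the residue field of `O`,
`L₀ ⊆ κ` the field of fractions of the image of `k[T]` in `κ` (isomorphic to `k[T] / (R)`), bars = residues. `P̄ ∈ L₀[Z]`, `P̄(z̄) = 0`, `P̄'(z̄) ≠ 0`. `μ` = minimal polynomial of `z̄` over `L₀`, `P̄ = μ Q̄`, `P̄'(z̄) = μ'(z̄) Q̄(z̄)`, so `Q̄(z̄) ≠ 0`. `Ā(z̄) = 0`, so `μ ∣ Ā`, `P̄ ∣ Q̄ Ā`, `Q̄ Ā = P̄ Ū`. There are `b ∈ k[T]`, `R ∤ b`, and `Q, U ∈ PZ k` which reduce to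
`b̄ Q̄`, `b̄ Ū`. The coefficients of `Q A - P U` reduce to `0`, so they are divisible by `R`: `Q A = P U + R A'`. Evaluate at `(t, z)`; `S = Q`. (i) `e = N(t, z) / C(t, z)` with `C(t, z) ≠ 0` by `gen`. Induction on the exponent `n`, `v(C(t, z)) = v(π) ^ n`: if `n > 0` then `v(N(t, z)) < 1` (`e ∈ O`); the claim for `C` and for `N` with `S₁`, `S₂`: `S₁ S₂ C = R(t) C'`,
`S₁ S₂ N = R(t) N'` (values), `e = N'(t, z) / C'(t, z)`, and the exponent of `C'(t, z)` is smaller (`v(R(t)) < 1`). (ii) `e = N(t, z) / C(t, z)` with `v(C(t, z)) = 1`, `v(N(t, z)) < 1`; the claim: `e / R(t) = N'(t, z) / (S(t, z) C(t, z)) ∈ O`. (iii) `z ∈ O₁` (integral over `k[t] ⊆ O₁`). Every `e ∈ O` is in `O₁` by (i): `v(C(t, z)) = 1`, so `v₁(C(t, z)) = 1`.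
`O ≤ O₁`, `O` is a discrete valuation ring and `O₁ ≠ E`: `O = O₁`. -/
def S_Unr : Prop :=
  ∀ (k E : Type) [Field k] [CharZero k] [Field E] [Algebra k E] (t : Fin 2 → E) (z : E) (P : PZ k)
    (m : ℕ) (D : Po k), Tb k t → Mdl k t z P m D → ∀ O : ValuationSubring E, Gd k t D O →
    ∀ R : Po k, Irreducible R → (∀ G : Po k, O.valuation (MvPolynomial.aeval t G) < 1 ↔ R ∣ G) →
    (∀ e ∈ O, ∃ N C : PZ k, O.valuation (ev t z C) = 1 ∧ e * ev t z C = ev t z N) ∧
    (∀ e : E, O.valuation e < 1 → e / MvPolynomial.aeval t R ∈ O) ∧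
    ∀ O₁ : ValuationSubring E, Plc k O₁ → (∀ i, t i ∈ O₁) →
      (∀ N : PZ k, O.valuation (ev t z N) < 1 ↔ O₁.valuation (ev t z N) < 1) → O₁ = O

/-- (VR) The valuation rings of `k(x)`. PROOF. First: `V = {f : ∃ a b, R ∤ b ∧ f * b(x) = a(x)}`, a subring (`R` prime); if `f = a(x) / b(x)` with relatively prime `a, b` then `R ∤ b` or `R ∤ a`, so `f ∈ V` or `f⁻¹ ∈ V`. Discrete: every nonzero `f` is `R(x) ^ n` times a unit (multiplicity of `R`), `R(x)` is irreducible in `V`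
(`IsDiscreteValuationRing.ofHasUnitMulPowIrreducibleFactorization`). Second: `V = {f : ∃ a b, b ≠ 0 ∧ deg a ≤ deg b ∧ f * b(x) = a(x)}`, a subring (`deg (a b' + a' b) ≤ deg (b b')`, `MvPolynomial.totalDegree_mul_of_isDomain`), total. Every nonzero `f = a(x) / b(x)` is `(x 0)⁻¹ ^ (deg b - deg a)` times a unit, `(x 0)⁻¹` irreducible. -/
def S_VR : Prop :=
  ∀ (k F : Type) [Field k] [Field F] [Algebra k F] (x : Fin 2 → F), AlgebraicIndependent k x →
    (∀ f : F, ∃ a b : Po k, b ≠ 0 ∧ f * MvPolynomial.aeval x b = MvPolynomial.aeval x a) →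
    (∀ R : Po k, Irreducible R → ∃ V : ValuationSubring F, IsDiscreteValuationRing V ∧ ∀ f : F, f ∈ V ↔
      ∃ a b : Po k, ¬ R ∣ b ∧ f * MvPolynomial.aeval x b = MvPolynomial.aeval x a) ∧
    ∃ V : ValuationSubring F, IsDiscreteValuationRing V ∧ ∀ f : F, f ∈ V ↔
      ∃ a b : Po k, b ≠ 0 ∧ a.totalDegree ≤ b.totalDegree ∧
        f * MvPolynomial.aeval x b = MvPolynomial.aeval x a

/-! ## Derivations -/

/-- (Der) PROOF. UNIQUENESS. `F = k(t)`. `δ` vanishes on `G(t)`, `G ∈ k[T]` (`MvPolynomial.induction_on`), and on `F` (`f b = a`, `δ(f) φ(b) + φ(f) δ(b) = δ(a)`). For `a ∈ E` with minimal polynomial `μ` over `F`: `0 = δ(μ(a)) = φ(μ'(a)) δ(a)` (terms `δ(μ_i a ^ i) = φ(μ_i) i φ(a) ^ (i - 1) δ(a)`), `μ'(a) ≠ 0` (characteristic zero). EXISTENCE. The derivation `∂/∂T_i` of `k[T]` extends to `k(T)`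
and to the finite separable extension `E` (see the proof in one variable in `Lib/MP_16285c_agZ/Hru/Der.lean`, and Mathlib `RingTheory/Derivation/MapCoeffs.lean`, `DifferentialRing.lean`). By hand: with `z`, `μ` a primitive element over `F` and its minimal polynomial: `Δ_i(∑ f_j z ^ j) = ∑ ∂_i(f_j) z ^ j + (∑ j f_j z ^ (j - 1)) * (-(∂_i μ)(z) / μ'(z))`. -/
def S_Der : Prop :=
  ∀ (k E : Type) [Field k] [CharZero k] [Field E] [Algebra k E] (t : Fin 2 → E), Tb k t →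
    (∃ Δ : Fin 2 → Derivation k E E, Dual t Δ) ∧
    ∀ (φ : E →+* E) (δ : E → E), (∀ a b, δ (a + b) = δ a + δ b) →
      (∀ a b, δ (a * b) = φ a * δ b + φ b * δ a) → (∀ c : k, δ (algebraMap k E c) = 0) →
      (∀ j, δ (t j) = 0) → ∀ a, δ a = 0

/-- (DO) PROOF (uses `S_Res`, `S_Unr` (i)). `R` from `S_Res`. For `N ∈ PZ k`: `Δ_i(N(t, z)) = (∂_i N)(t, z) + N_Z(t, z) Δ_i(z)` (`∂_i` on the coefficients, as `Δ_i(t_j) = δ_ij`; induction on `N`). `N = P`: `Δ_i(z) = -(∂_i P)(t, z) / P_z(t, z) ∈ O`, because `v(P_z(t, z)) = 1` (`dis`, `v(D(t)) = 1`) and `z ∈ O`. So `Δ_i(N(t, z)) ∈ O`.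
`e = N(t, z) / C(t, z)`, `v(C(t, z)) = 1`: `Δ_i(e) = (Δ_i(N) C - N Δ_i(C)) / C ^ 2 ∈ O`. -/
def S_DO : Prop :=
  ∀ (k E : Type) [Field k] [CharZero k] [Field E] [Algebra k E] (t : Fin 2 → E) (z : E) (P : PZ k)
    (m : ℕ) (D : Po k), Tb k t → Mdl k t z P m D → ∀ Δ : Fin 2 → Derivation k E E, Dual t Δ →
    ∀ O : ValuationSubring E, Gd k t D O → ∀ e ∈ O, ∀ i, Δ i e ∈ O

/-- (DV) PROOF (uses `S_Res`, `S_Inf`). `f = a(t) / b(t)` with relatively prime `a, b ∈ k[T]`, `b ≠ 0` (`IntermediateField.mem_adjoin_range_iff`), `Δ_i(G(t)) = (pderiv i G)(t)`, `Δ_i(f) = ((∂_i a) b - a ∂_i b)(t) / b(t) ^ 2`. If `O` is finite, `R` from `S_Res`: `f ∈ O` implies `R ∤ b` (if `R ∣ b` then `R ∤ a`, `v(a(t)) = 1 > v(b(t))`), so `v(b(t)) = 1` and `Δ_i(f) ∈ O`. If `O` is infinite, `f ∈ O` implies `a = 0` or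
`deg a ≤ deg b` (`S_Inf`, `v(t l) > 1`), and `deg ((∂_i a) b - a ∂_i b) ≤ 2 deg b`, so `Δ_i(f) ∈ O`. -/
def S_DV : Prop :=
  ∀ (k E : Type) [Field k] [CharZero k] [Field E] [Algebra k E] (t : Fin 2 → E), Tb k t →
    ∀ Δ : Fin 2 → Derivation k E E, Dual t Δ → ∀ O : ValuationSubring E, Dv k t O →
    ∀ f ∈ IntermediateField.adjoin k (Set.range t), f ∈ O → ∀ i, Δ i f ∈ O

/-- (DBd) Derivations have bounded poles. PROOF (uses `S_Dvr`, `S_Loc`, `S_Int`, `S_DV`). `F = k(t)`, `V = O ∩ F`, a discrete valuation ring (`S_Dvr`). (1) `Δ_i(V) ⊆ V` by `S_DV`. (2) Let `B` be the set of the `b ∈ E` which are in all discrete valuation rings `O'` of `E` with `O' ∩ F = V`; they are integral over `V` (`S_Int`). There are `z' ∈ B` with `E = F(z')` (a primitive element times a nonzero element of `V` which clears the denominators of its minimal polynomial)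
and `d ∈ V`, `d ≠ 0`, with `d B ⊆ ∑_(j < δ) V z' ^ j` (discriminant, `Algebra.discr_mul_isIntegral_mem_adjoin`; or: `B` is a finite `V`-module, `IsIntegralClosure.isNoetherian`; then take generators). Let `B₀ ∈ E`, `B₀ ≠ 0`, with `B₀ z' ^ j, B₀ Δ_i(z'), B₀ Δ_i(d⁻¹), B₀ d⁻¹ ∈ O` (all `i, j`): for `b ∈ B`, `b = d⁻¹ ∑ v_j z' ^ j`, `B₀ ^ 3 Δ_i(b) ∈ O` or a higher power; let
`B₁ Δ_i(b) ∈ O` for all `b ∈ B`. (3) `h ∈ O`: `S_Loc` gives `s ∈ B` with `v(s) = 1`, `s h = a ∈ B`: `Δ_i(h) = (s Δ_i(a) - a Δ_i(s)) / s ^ 2`, so `B₁ Δ_i(h) ∈ O`. -/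
def S_DBd : Prop :=
  ∀ (k E : Type) [Field k] [CharZero k] [Field E] [Algebra k E] (t : Fin 2 → E), Tb k t →
    ∀ Δ : Fin 2 → Derivation k E E, Dual t Δ → ∀ O : ValuationSubring E, Dv k t O →
    ∃ B : E, B ≠ 0 ∧ ∀ h ∈ O, ∀ i, B * Δ i h ∈ O

/-! ## No contraction -/

/-- (Jac) PROOF (uses `S_Der`). First: `ρ` is injective, so `y_j = ρ(x_j)` are algebraically independent; `E` is finite over `ρ E`, and `ρ E` is finite over `ρ(k(x)) = k(y)`. Second: if the determinant is `0` then there are `(e_0, e_1) ≠ 0` with `∑ e_i Δ_i(y_j) = 0` for `j = 0, 1`; the derivation `∑ e_i Δ_i` vanishes on `y_0, y_1`,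
so it is `0` (uniqueness in `S_Der` for `y`, `φ = id`), and `e_i = (∑ e Δ)(x_i) = 0`. -/
def S_Jac : Prop :=
  ∀ (k E : Type) [Field k] [CharZero k] [Field E] [Algebra k E] (x : Fin 2 → E), Tb k x →
    (∀ ρ : E →ₐ[k] E, Module.Finite ρ.fieldRange E → Tb k fun i => ρ (x i)) ∧
    ∀ Δ : Fin 2 → Derivation k E E, Dual x Δ → ∀ y : Fin 2 → E, Tb k y →
      Δ 0 (y 0) * Δ 1 (y 1) - Δ 0 (y 1) * Δ 1 (y 0) ≠ 0

/-- (TbC) PROOF. Let `C` be the relative algebraic closure of `k(t₀, t₁)` in `E` (as a subring): it contains `k`, `t₀, t₁`, it is integrally closed in `E` and a field. So `x_i ∈ C`, and `E`, which is algebraic over `k(x)`, is `C`: `E` is algebraic over `k(t₀, t₁)`. As `E` has transcendence degree two over `k` (`x` is a transcendence basis), `t₀, t₁` are algebraically independent. `E` is generated over `k(t)` by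
`x₀, x₁` and a basis of `E` over `k(x)`, finitely many algebraic elements: `E` is finite over `k(t)`. -/
def S_TbC : Prop :=
  ∀ (k E : Type) [Field k] [CharZero k] [Field E] [Algebra k E] (x : Fin 2 → E), Tb k x →
    ∀ t : Fin 2 → E, (∀ C : Subring E, (∀ c : k, algebraMap k E c ∈ C) → (∀ a : E, IsIntegral C a → a ∈ C) →
      (∀ a ∈ C, a⁻¹ ∈ C) → (∀ i, t i ∈ C) → ∀ i, x i ∈ C) → Tb k t

/-- (F1a) PROOF (uses `S_Cst`, `S_Cmp`, `S_Dvc`, `S_Mdl`, `S_Exc`, `S_Der`, `S_DO`, `S_Jac`). `z, P, m, D` from `S_Mdl`, `Δ` from `S_Der`, `y_j = ρ(x_j)`, `J = Δ_0(y_0) Δ_1(y_1) - Δ_0(y_1) Δ_1(y_0) ≠ 0` (`S_Jac`). By `gen` there is `c ∈ k[T]`, `c ≠ 0`, with `c(x) y_j`, `c(x) J⁻¹`, in the image of `PZ k`. `O` in `Dv k x`, not in `Exc k x (D * c)` (finitely many are in it): finite, `Gd k x D O`, `v(c(x)) = 1`, `y_j ∈ O`, `J⁻¹ ∈ O`, `Δ_i(O) ⊆ O` (`S_DO`). Claim: `Dv k x (cm ρ O)`. `Plc` by `S_Cmp`. `x_j ∈ cm ρ O`. By `S_Dvc` (2)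 it is enough that
not both `x_j ∈ Cst k (cm ρ O)`, i.e. (`S_Cmp`) not both `y_j ∈ Cst k O`. Otherwise `S_Cst` gives `G_j` with `v(G_j(y_j)) < 1`, `v(G_j'(y_j)) = 1`. Let `π` be a uniformizer, `G_j(y_j) = π h_j`, `h_j ∈ O`. Apply `Δ_i`: `G_j'(y_j) Δ_i(y_j) = h_j Δ_i(π) + π Δ_i(h_j)`. So `G_0'(y_0) G_1'(y_1) J = det (h_j Δ_i π + π Δ_i h_j) ∈ π O` (the matrix `h_j Δ_i π` has determinant `0`), so `v(J) < 1`: a contradiction to `J⁻¹ ∈ O`. -/
def S_F1a : Prop :=
  ∀ (k E : Type) [Field k] [CharZero k] [Field E] [Algebra k E] (x : Fin 2 → E), Tb k x →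
    ∀ ρ : E →ₐ[k] E, Module.Finite ρ.fieldRange E →
    {O : ValuationSubring E | Dv k x O ∧ ¬ Dv k x (cm ρ O)}.Finite

/-- (F1) PROOF (uses `S_Cst`, `S_Dvc` (5), `S_Pr`, `S_GN`, `S_Cmp`, `S_F1a`, `S_TbC`). Let `X` = the finite set of the rings `cm ρ O`, `Dv k x O`, `¬ Dv k x (cm ρ O)` (`S_F1a`). For `O' = cm ρ O ∈ X` there is `f ∈ O'`, `f ∉ Cst k O'` (`S_Dvc` (5) for `O`, `S_Cmp`); `¬ Ct k O' ⟨1, f⟩`: if `w ∈ ⟨1, f⟩` contracts, `1 / w, f / w ∈ C'`, then `w ∈ O'`, `1 / w ∈ O'`, `w` is a unit, `w ∈ C'` and `f = (f / w) * w ∈ C'`.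
Let `U = ⟨1, x₀, x₁⟩ * ∏_(O' ∈ X) ⟨1, f_O'⟩` (a finite dimensional subspace of `E`, it contains `1, x₀, x₁`, which are independent, so `finrank ≥ 3`). By `S_Pr` (and induction): `¬ Ct k O U` for all `O` with `Dv k x O`, and `¬ Ct k (cm ρ O) U` for those `O`: if `Dv k x (cm ρ O)` because of the factor `⟨1, x₀, x₁⟩`, otherwise because of `⟨1, f⟩`. Three elements of `E` are algebraically
dependent (transcendence degree two). `s` from `S_GN` (`k` is infinite), `t = (s 1 / s 0, s 2 / s 0)`. If `O'` is a place over `k` (`Plc`) and `Ct k O' ⟨1, t₀, t₁⟩` then there is `w' ≠ 0` with `1 / w', t_i / w' ∈ C'`, `w = s 0 * w' ∈ span s`, `s i / w ∈ C'`, so `U / w ⊆ C'` by `S_GN` (`S_Cst`: `C'` is integrally closed and contains `k`), and `w ∈ span s ⊆ U`: `Ct k O' U`. So `Dv k t O` and `Dv k t (cm ρ O)` for all `O` with `Dv k x O`.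
`Tb k t` by `S_TbC`: let `C` be as there; `w = s 0`: `s i / s 0 ∈ C`, so `U / s 0 ⊆ C` by `S_GN`, so `x_i = (x_i / s 0) / (1 / s 0) ∈ C`. -/
def S_F1 : Prop :=
  ∀ (k E : Type) [Field k] [CharZero k] [Field E] [Algebra k E] (x : Fin 2 → E), Tb k x →
    ∀ ρ : E →ₐ[k] E, Module.Finite ρ.fieldRange E →
    ∃ t : Fin 2 → E, Tb k t ∧ ∀ O : ValuationSubring E, Dv k x O → Dv k t O ∧ Dv k t (cm ρ O)

/-! ## The trace formula -/

/-- (TrA) PROOF. `K₁ = k(y₀)`, `d` = total degree of `R`, `δ = P.natDegree`. (1) `y₁` is integral over `k[y₀]`: `R(y₀, y₁) = 0`; as a polynomial in `y₁` its leading term is `r y₁ ^ d` with the constant `r = coeff (T₁ ^ d) R ≠ 0` (the coefficients `r_j(y₀)` of `y₁ ^ j` have degree `≤ d - j`). `w` is integral over `k[y₀, y₁]` (`P` monic). Every `a ∈ κ` is a quotient of polynomials in `y₀, y₁, w`: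
`κ = K₁(y₁, w)` is finite over `K₁`. (2) `y₁ ^ b w ^ c` is integral over `k[y₀]`, so its trace is integral over `k[y₀]` (`Algebra.isIntegral_trace`), and it is in `K₁`; `k[y₀] ≅ k[X]` is integrally closed in `K₁ ≅ k(X)`: it is `Θ(y₀)`. (3) `y₁ / y₀` is integral over `k[y₀⁻¹]`: divide `R(y₀, y₁) = 0` by `y₀ ^ d`: `∑ r_ij (y₀⁻¹) ^ (d - i - j) (y₁ / y₀) ^ j = 0`, leading term `r (y₁ / y₀) ^ d`. `w / y₀ ^ m` is integral over `k[y₀⁻¹, y₁ / y₀]`:
divide `∑ P_l(y₀, y₁) w ^ l = 0` by `y₀ ^ (m δ)`: `P_l(y₀, y₁) / y₀ ^ (m (δ - l)) ∈ k[y₀⁻¹, y₁ / y₀]` as `deg P_l ≤ m (δ - l)`. So `y₁ ^ b w ^ c / y₀ ^ (b + m c)` is integral over `k[y₀⁻¹]` and so is its trace `Θ(y₀) / y₀ ^ (b + m c)`; `k[y₀⁻¹]` is integrally closed in `K₁`: it is `S(y₀⁻¹)`, `S ∈ k[X]`, so `Θ(y₀) y₀ ^ s = y₀ ^ (b + m c) * S^rev(y₀)` with `s = deg S`, `deg S^rev ≤ s`, and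
`deg Θ ≤ b + m c` (`y₀` is transcendental). -/
def S_TrA : Prop :=
  ∀ (k κ : Type) [Field k] [CharZero k] [Field κ] [Algebra k κ] (y : Fin 2 → κ) (w : κ) (R : Po k)
    (P : PZ k) (m : ℕ), Transcendental k (y 0) →
    (∀ a : κ, ∃ N C : PZ k, ev y w C ≠ 0 ∧ a * ev y w C = ev y w N) →
    MvPolynomial.aeval y R = 0 → R ≠ 0 → MvPolynomial.coeff (Finsupp.single 1 R.totalDegree) R ≠ 0 →
    P.Monic → ev y w P = 0 → Wle m (m * P.natDegree) P →
    FiniteDimensional (IntermediateField.adjoin k {y 0}) κ ∧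
    ∃ Θ : ℕ → ℕ → Polynomial k, ∀ b c, (Θ b c).natDegree ≤ b + m * c ∧
      Polynomial.aeval (y 0) (Θ b c) = algebraMap (IntermediateField.adjoin k {y 0}) κ
        (Algebra.trace (IntermediateField.adjoin k {y 0}) κ (y 1 ^ b * w ^ c))

/-- (TrB) PROOF (uses `S_TrA`). `R = ∑_(i,j) r_ij T₀ ^ i T₁ ^ j`, `P = ∑_l P_l Z ^ l`, `d` = total degree of `R`, `δ = P.natDegree`. Put
`H = ∑_(i,j) ∑_(a < j) ∑_l ∑_(c < l) r_ij T₀ ^ i T₁ ^ a P_l Z ^ c Θ_(j-1-a, l-1-c)(T₀)`. Weights: `i + a + (j - 1 - a) + deg P_l + m c + m (l - 1 - c) ≤ (d - 1) + m (δ - l) + m (l - 1) ≤ d + m δ`. Let `κ', y', w'` be given, `Ω` an algebraic closure of `κ'`, an algebra over `K₁ = k(y₀)` by `y₀ ↦ y'₀` (both transcendental). For `a ∈ κ` the image of `Tr(a)` in `Ω` is `∑_τ τ(a)`, over the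
`K₁`-embeddings `τ : κ → Ω` (`trace_eq_sum_embeddings`). So `H(y', w') = ∑_τ A_τ B_τ`, `A_τ = ∑ r_ij y'₀ ^ i ∑_(a<j) y'₁ ^ a τ(y₁) ^ (j-1-a)`, `B_τ = ∑ P_l(y') ∑_(c<l) w' ^ c τ(w) ^ (l-1-c)`; `A_τ (y'₁ - τ y₁) = R(y'₀, y'₁) - R(y'₀, τ y₁) = 0` and `B_τ (w' - τ w) = P(y', w') - P(y', τ w)` (`geom_sum₂_mul`), which is `0` if `τ y₁ = y'₁`. So the term of `τ` is `0` unless
`τ y₁ = y'₁` and `τ w = w'`. If `H(y', w') ≠ 0` there is such a `τ`, and `N(y', w') = τ(N(y, w))` for all `N`. For `κ' = κ`, `(y', w') = (y, w)`: only the inclusion `τ` has `τ y₁ = y₁`, `τ w = w` (`κ` is generated by `y, w`), and its term is `(∑ r_ij y₀ ^ i j y₁ ^ (j-1)) (∑ P_l(y) l w ^ (l-1)) = R_1(y) P_z(y, w)`. -/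
def S_TrB : Prop :=
  ∀ (k κ : Type) [Field k] [CharZero k] [Field κ] [Algebra k κ] (y : Fin 2 → κ) (w : κ) (R : Po k)
    (P : PZ k) (m : ℕ), Transcendental k (y 0) →
    (∀ a : κ, ∃ N C : PZ k, ev y w C ≠ 0 ∧ a * ev y w C = ev y w N) →
    MvPolynomial.aeval y R = 0 → R ≠ 0 → MvPolynomial.coeff (Finsupp.single 1 R.totalDegree) R ≠ 0 →
    P.Monic → ev y w P = 0 → Wle m (m * P.natDegree) P →
    ∃ H : PZ k, Wle m (R.totalDegree + m * P.natDegree) H ∧
      ev y w H = MvPolynomial.aeval y (MvPolynomial.pderiv 1 R) * ev y w P.derivative ∧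
      ∀ (κ' : Type) [Field κ'] [Algebra k κ'] (y' : Fin 2 → κ') (w' : κ'), Transcendental k (y' 0) →
        MvPolynomial.aeval y' R = 0 → ev y' w' P = 0 →
        ev y' w' H = 0 ∨ ∀ N : PZ k, ev y w N = 0 ↔ ev y' w' N = 0

/-- (F3) PROOF (uses `S_TrB`, `S_Unr`, `S_Dvc`, `S_Cst`). For `c ∈ k` let `φ_c` be the automorphism `T₀ ↦ T₀ + c T₁`, `T₁ ↦ T₁` of `k[T₀, T₁]`, `R^c = φ_c R`, `P^c = φ_c P` (on the coefficients); `N^c(t₀ - c t₁, t₁, z) = N(t, z)`. Total degrees and weights do not change. With `R^top` = the form of degree `d` of `R`, `coeff (T₁ ^ d) R^c = R^top(c, 1)`, which is not `0` for all but finitely many `c`: choose two such values `c ≠ c'`.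
Let `κ` be the residue field of `O` (a field over `k`), `y = (t₀ - c t₁, t₁)`, `w = z` (residues). `R^c(y) = 0`. `y₀` is transcendental over `k`: `y₁` is integral over `k[y₀]` (`R^c(y) = 0` with leading coefficient `R^top(c, 1)` in `T₁`), so if `y₀` is algebraic over `k` then both residues of `t₀, t₁` are: a contradiction to `S_Dvc` (1). Every element of `κ` is a quotient of polynomials in `y, w` by `S_Unr` (i). So `S_TrB` gives `H^c ∈ PZ k`;
`H^(c) = φ_(-c) H^c` (in the variables `T`): `H^(c)(t, z) ≡ ((∂_1 R^c)(y)) P_z = (c R_0 + R_1)(t) P_z(t, z) mod 𝔪_O` (chain rule: `∂_1 (φ_c R) = φ_c (c ∂_0 R + ∂_1 R)`). At `O₁ ≠ O` with `v₁(R(t)) < 1` the residues `(y', w')` of the same elements in the residue field of `O₁` satisfy `R^c(y') = 0`, `P^c(y', w') = 0`, `y'₀` transcendental (same argument): either `H^c(y', w') = 0`, i.e. `v₁(H^(c)(t, z)) < 1`, or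
`v(N(t, z)) < 1 ↔ v₁(N(t, z)) < 1` for all `N` (replace `N` by `N^c`), which gives `O₁ = O` by `S_Unr` (iii). Now `H 0 = (H^(c) - H^(c')) / (c - c')`, `H 1 = (c H^(c') - c' H^(c)) / (c - c')`: `(c (c' R_0 + R_1) - c' (c R_0 + R_1)) / (c - c') = R_1`. -/
def S_F3 : Prop :=
  ∀ (k E : Type) [Field k] [CharZero k] [Field E] [Algebra k E] (t : Fin 2 → E) (z : E) (P : PZ k)
    (m : ℕ) (D : Po k), Tb k t → Mdl k t z P m D → ∀ O : ValuationSubring E, Gd k t D O →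
    ∀ R : Po k, Irreducible R → (∀ G : Po k, O.valuation (MvPolynomial.aeval t G) < 1 ↔ R ∣ G) →
    ∃ H : Fin 2 → PZ k, ∀ i, Wle m (R.totalDegree + m * P.natDegree) (H i) ∧
      O.valuation (ev t z (H i) -
        MvPolynomial.aeval t (MvPolynomial.pderiv i R) * ev t z P.derivative) < 1 ∧
      ∀ O₁ : ValuationSubring E, Dv k t O₁ → (∀ j, t j ∈ O₁) →
        O₁.valuation (MvPolynomial.aeval t R) < 1 → O₁ ≠ O → O₁.valuation (ev t z (H i)) < 1

/-! ## Forms -/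

/-- (Inz) PROOF (uses nothing; `l` is later the index of `S_Inf`). `v(P_j(t)) ≤ v(t l) ^ (m (δ - j))` for the coefficients `P_j` of `P`, `δ = P.natDegree` (`wt`; `v(G(t)) ≤ v(t l) ^ (totalDegree G)` for all `G`: monomials). `v(z) ≤ v(t l) ^ m`: otherwise `v(z ^ δ) > v(P_j(t) z ^ j)` for all `j < δ`, contradicting `P(t, z) = 0`. So `v(H_c(t) z ^ c) ≤ v(t l) ^ (deg H_c + m c) ≤ v(t l) ^ N`. -/
def S_Inz : Prop :=
  ∀ (k E : Type) [Field k] [CharZero k] [Field E] [Algebra k E] (t : Fin 2 → E) (z : E) (P : PZ k)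
    (m : ℕ) (D : Po k), Mdl k t z P m D → ∀ O : ValuationSubring E, (∀ c : k, algebraMap k E c ∈ O) →
    ∀ l : Fin 2, 1 < O.valuation (t l) → (∀ i, t i / t l ∈ O) → ∀ (N : ℕ) (H : PZ k), Wle m N H →
    O.valuation (ev t z H) ≤ O.valuation (t l) ^ N

/-- (F4e) PROOF (uses `S_Der`, `S_DO`). Let `Δ'` be dual to `t` (`S_Der`), `Ψ(w) i = ∑ j, w j * Δ' i (x j)`, `E`-linear; `Ψ(dd Δ h) i = Δ' i h` (uniqueness in `S_Der` for `x`, `φ = id`, `δ = Δ' i - ∑ j, Δ' i (x j) • Δ j`). So `Ψ(w) i ∈ O` for `w ∈ Om Δ O` (`S_DO` for `t`, `Δ'`). If `r⁻¹ • dd Δ r ∈ Om Δ O`, `r = R(t)`, then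
`Ψ(r⁻¹ • dd Δ r) i = R_i(t) / R(t) ∈ O`, `R_i = pderiv i R`, so `v(R_i(t)) < 1`, `R ∣ R_i`, and `R_i = 0` by degrees (`degreeOf i`) for `i = 0, 1`: `R` is a constant: a contradiction (characteristic zero; `R` is irreducible). -/
def S_F4e : Prop :=
  ∀ (k E : Type) [Field k] [CharZero k] [Field E] [Algebra k E] (x : Fin 2 → E), Tb k x →
    ∀ Δ : Fin 2 → Derivation k E E, Dual x Δ → ∀ (t : Fin 2 → E) (z : E) (P : PZ k) (m : ℕ) (D : Po k),
    Tb k t → Mdl k t z P m D → ∀ O : ValuationSubring E, Gd k t D O → ∀ R : Po k, Irreducible R →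
    (∀ G : Po k, O.valuation (MvPolynomial.aeval t G) < 1 ↔ R ∣ G) →
    (MvPolynomial.aeval t R)⁻¹ • dd Δ (MvPolynomial.aeval t R) ∉ Om Δ O

/-- (F4) Logarithmic forms with bounded poles. PROOF (uses `S_Res`, `S_Inf`, `S_Inz`, `S_Unr`, `S_F3`, `S_F4e`). Notation: `P_z = ev t z P.derivative ≠ 0` (`dis`, `D(t) ≠ 0`), `δ = P.natDegree`. `B O₁ = 1` if `Gd k t D O₁`; `B O₁ = P_z` for the other `O₁` with `t₀, t₁ ∈ O₁`; `B O₁ = P_z / (t l) ^ (m δ + 2)` with `l` from `S_Inf` if `Dv k t O₁` is infinite; `B O₁ = 1` otherwise. `B O₁ ∈ O₁`: for finite `O₁` since `z ∈ O₁`; for infinite `O₁` since (I) below gives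
`v(P_z) ≤ v(t l) ^ (m δ)` (`Wle m (m δ) P.derivative`). (I) is `S_Inz`: `v(H(t, z)) ≤ v(t l) ^ N` if `Wle m N H`, `O₁` infinite.
Now let `Gd k t D O`, `R` from `S_Res`, `H` from `S_F3`, `r = R(t)`, `ω = ∑ i, (H i)(t, z) / (P_z r) • dd Δ (t i)`. `v(r) < 1`, `r ≠ 0`, `e / r ∈ O` for `v(e) < 1` by `S_Unr` (ii). (a) `dd Δ r = ∑ R_i(t) • dd Δ (t i)` (`R_i = pderiv i R`), so `ω - r⁻¹ • dd Δ r = ∑ ((H i)(t, z) - R_i(t) P_z) / (P_z r) • dd Δ (t i)`; `v(P_z) = 1` at `O` (`dis`, `v(D(t)) = 1`), and `((H i)(t, z) - R_i(t) P_z) / r ∈ O` by `S_Unr` (ii).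
(b) `O₁ ≠ O`, `Gd k t D O₁`: `v₁(P_z) = 1`; if `v₁(r) = 1`, the coefficients are in `O₁`; if `v₁(r) < 1`: `R₁` from `S_Res` for `O₁` divides `R`, so it is associated to `R`, `v₁((H i)(t, z)) < 1` by `S_F3`, so `(H i)(t, z) / r ∈ O₁` by `S_Unr` (ii) for `O₁`. (c) `O₁` finite, not `Gd`: `v₁(D(t)) < 1`. `v₁(r) = 1`: otherwise `R₁` (from `S_Res`) is associated to `R` and divides `D`, so `v(D(t)) < 1`. So
`P_z • ω = ∑ (H i)(t, z) / r • dd Δ (t i) ∈ Om Δ O₁`. (d) `O₁` infinite, `u = 1 / t l ∈ O₁`, `s_i = t i / t l ∈ O₁`, `t i = s_i / u`: `dd Δ (t i) = (t l) • dd Δ s_i - (s_i * (t l) ^ 2) • dd Δ u`; `v((H i)(t, z) / r) ≤ v(t l) ^ (m δ)` by (I) and `S_Inf` (`v(r) = v(t l) ^ d`). So `B O₁ • ω ∈ Om Δ O₁`.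
(e) `ω ∉ Om Δ O`: otherwise `r⁻¹ • dd Δ r ∈ Om Δ O` by (a): a contradiction to `S_F4e`. -/
def S_F4 : Prop :=
  ∀ (k E : Type) [Field k] [CharZero k] [Field E] [Algebra k E] (x : Fin 2 → E), Tb k x →
    ∀ Δ : Fin 2 → Derivation k E E, Dual x Δ → ∀ (t : Fin 2 → E) (z : E) (P : PZ k) (m : ℕ) (D : Po k),
    Tb k t → Mdl k t z P m D → ∃ B : ValuationSubring E → E, (∀ O₁, B O₁ ≠ 0) ∧
      (∀ O₁, Dv k t O₁ → B O₁ ∈ O₁) ∧ (∀ O₁, Gd k t D O₁ → B O₁ = 1) ∧
      ∀ O : ValuationSubring E, Gd k t D O → ∃ (ω : Fin 2 → E) (r : E), r ≠ 0 ∧ O.valuation r < 1 ∧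
        (∀ e, O.valuation e < 1 → e / r ∈ O) ∧ ω - r⁻¹ • dd Δ r ∈ Om Δ O ∧ ω ∉ Om Δ O ∧
        ∀ O₁ : ValuationSubring E, Dv k t O₁ → O₁ ≠ O → B O₁ • ω ∈ Om Δ O₁

/-- (Pb) PROOF (uses `S_Der`). (1) For fixed `i` let `δ(h) = Δ i (ρ h) - ∑ j, ρ (Δ j h) * Δ i (ρ (x j))`: additive, `δ(a b) = ρ(a) δ(b) + ρ(b) δ(a)`, zero on `k` and on the `x j` (`Dual x Δ`): `δ = 0` by `S_Der` with `φ = ρ`. (2), (3) are clear. (4) `w = ∑ a_n • dd Δ h_n`, `a_n, h_n ∈ cm ρ O`: `pb w = ∑ ρ(a_n) • dd Δ (ρ h_n)` (`Submodule.span_induction`). -/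
def S_Pb : Prop :=
  ∀ (k E : Type) [Field k] [CharZero k] [Field E] [Algebra k E] (x : Fin 2 → E), Tb k x →
    ∀ Δ : Fin 2 → Derivation k E E, Dual x Δ → ∀ ρ : E →ₐ[k] E,
    (∀ h, pb ρ x Δ (dd Δ h) = dd Δ (ρ h)) ∧ (∀ (a : E) (w : Fin 2 → E), pb ρ x Δ (a • w) = ρ a • pb ρ x Δ w) ∧
    (∀ w w' : Fin 2 → E, pb ρ x Δ (w + w') = pb ρ x Δ w + pb ρ x Δ w') ∧
    ∀ (O : ValuationSubring E) (w : Fin 2 → E), w ∈ Om Δ (cm ρ O) → pb ρ x Δ w ∈ Om Δ O

/-- (F5) PROOF (uses `S_Pb`). First: `cm ρ O = O` (`InTI.inv`). `η = ω - r⁻¹ • dd Δ r ∈ Om Δ O`, so `pb η ∈ Om Δ O`. `r` is an irreducible element of `O` (it generates the maximal ideal), so `ρ r` is irreducible (`InTI.uni`) and `c = ρ r / r` is a unit of `O`. `pb (r⁻¹ • dd Δ r) = (ρ r)⁻¹ • dd Δ (ρ r) = r⁻¹ • dd Δ r + c⁻¹ • dd Δ c` (`ρ r = c r`, `dd (c r) = c • dd r + r • dd c`), and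
`c⁻¹ • dd Δ c ∈ Om Δ O`. So `pb ω - ω = pb η - η + c⁻¹ • dd Δ c ∈ Om Δ O`. Second: `(b₁ * ρ b₂) • (pb ω - ω) = b₁ • pb (b₂ • ω) - ρ b₂ • (b₁ • ω)`, and `b₁, ρ b₂ ∈ O₁`. -/
def S_F5 : Prop :=
  ∀ (k E : Type) [Field k] [CharZero k] [Field E] [Algebra k E] (x : Fin 2 → E), Tb k x →
    ∀ Δ : Fin 2 → Derivation k E E, Dual x Δ → ∀ ρ : E →ₐ[k] E,
    (∀ (O : ValuationSubring E) (ω : Fin 2 → E) (r : E), InTI k E ρ O → r ≠ 0 → O.valuation r < 1 →
      (∀ e, O.valuation e < 1 → e / r ∈ O) → ω - r⁻¹ • dd Δ r ∈ Om Δ O → pb ρ x Δ ω - ω ∈ Om Δ O) ∧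
    ∀ (O₁ : ValuationSubring E) (ω : Fin 2 → E) (b₁ b₂ : E), b₁ ∈ O₁ → b₂ ∈ cm ρ O₁ →
      b₁ • ω ∈ Om Δ O₁ → b₂ • ω ∈ Om Δ (cm ρ O₁) → (b₁ * ρ b₂) • (pb ρ x Δ ω - ω) ∈ Om Δ O₁

/-! ## Finiteness -/

/-- (Qf) PROOF (uses `S_VR`, `S_Int`, `S_Dvc`, `S_Cst`). `F = k(x)`. (1) There is `c ∈ k[T]`, `c ≠ 0`, with `c(x) / A O ∈ O` for all finite `O` (`x₀, x₁ ∈ O`) with `Dv k x O`: only finitely many `O` have `A O ≠ 1`, and each one has some `R_O ≠ 0` with `v(R_O(x)) < 1` (a uniformizer is algebraic over `k(x)`, see the proof of `S_Res`); `c` = product of large powers of the `R_O`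
(all `G(x)` are in all finite `O`). So `c(x) b e ∈ O` for all finite `O`. (2) Let `R` be irreducible, `V` = the ring of `S_VR` for `R`, `x` in `F`. Every discrete valuation ring `O` of `E` with `O ∩ F = V` is finite, and `Dv k x O`: `k, x₀, x₁ ∈ V`, and not both `x₀, x₁ ∈ Cst k O` (`S_Dvc` (2)): otherwise `v(G_i(x_i)) < 1` with `G_i ≠ 0`
in `k[X]`, so `R` divides `G_0(T₀)` and `G_1(T₁)` (otherwise `1 / G_i(x_i) ∈ V`), and `R` has degree `0` in `T₁` and in `T₀` (`MvPolynomial.degreeOf_mul_eq`), so it is a constant. So `c(x) b e` is integral over `V` by `S_Int`, and `Tr(c(x) b e) ∈ V` (`Tr : E → F`; `Algebra.isIntegral_trace`, `V` is integrally closed).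
This holds for all `R`, so `Tr(c(x) b e) = p(x)`, `p ∈ k[T]`: if `f = a(x) / q(x)`, `a, q` relatively prime, is in all these `V` then no irreducible `R` divides `q` (`a q' = a' q` with `R ∤ q'`), so `q` is a constant. -/
def S_Qf : Prop :=
  ∀ (k E : Type) [Field k] [CharZero k] [Field E] [Algebra k E] (x : Fin 2 → E), Tb k x →
    ∀ A : ValuationSubring E → E, (∀ O, A O ≠ 0) → {O | Dv k x O ∧ A O ≠ 1}.Finite →
    ∃ c : Po k, c ≠ 0 ∧ ∀ b : E, (∀ O, Dv k x O → A O * b ∈ O) →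
      ∀ e : E, (∀ O, Dv k x O → (∀ i, x i ∈ O) → e ∈ O) → ∃ p : Po k,
        algebraMap (IntermediateField.adjoin k (Set.range x)) E
          (Algebra.trace (IntermediateField.adjoin k (Set.range x)) E (MvPolynomial.aeval x c * b * e)) =
        MvPolynomial.aeval x p

/-- (Qi) PROOF (uses `S_VR`, `S_Int`, `S_Dvc`, `S_Fib`). `F = k(x)`, `V` = the ring at infinity of `S_VR`. Every discrete valuation ring `O` of `E` with `O ∩ F = V` has `Dv k x O` (`S_Dvc` (4), `l = 0`: `v(x 0) > 1` as `x 0 ∉ V`; `x 1 / x 0 ∈ V`; and `G(x 1 / x 0)`, `G ∈ k[X]`, `G ≠ 0`, is `(form ≠ 0 of degree deg G)(x) / (x 0) ^ (deg G)`,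
a unit of `V`, so `x 1 / x 0 ∉ Cst k O`). There are finitely many such `O` (`S_Fib`), so there is `n` with `(x 0) ^ (-n) e / A O ∈ O` for all of them (discrete valuation rings, `v(x 0) > 1`). So `(x 0) ^ (-n) b e ∈ O` for all these `O`, it is integral over `V` (`S_Int`), and its trace `f = Tr(b e) / (x 0) ^ n` is in `V` (`Tr : E → F`; `V` is integrally closed):
`f q(x) = p(x)` with `deg p ≤ deg q`, `q ≠ 0`. `a(x) q(x) = Tr(b e) c(x) q(x) = (x 0) ^ n p(x) c(x)`, so `a q = T₀ ^ n p c`, `deg a + deg q = n + deg p + deg c` if `a ≠ 0`, `deg a ≤ deg c + n`. -/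
def S_Qi : Prop :=
  ∀ (k E : Type) [Field k] [CharZero k] [Field E] [Algebra k E] (x : Fin 2 → E), Tb k x →
    ∀ A : ValuationSubring E → E, (∀ O, A O ≠ 0) → ∀ e : E, ∃ n : ℕ,
      ∀ b : E, (∀ O, Dv k x O → A O * b ∈ O) → ∀ a c : Po k, c ≠ 0 →
        algebraMap (IntermediateField.adjoin k (Set.range x)) E
          (Algebra.trace (IntermediateField.adjoin k (Set.range x)) E (b * e)) * MvPolynomial.aeval x c =
          MvPolynomial.aeval x a → a.totalDegree ≤ c.totalDegree + n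

/-- (Q) PROOF (uses `S_Qf`, `S_Qi`). `F = k(x)`, `e_1, …, e_n` a basis of `E` over `F` of elements integral over `k[x]` (multiply the elements of a basis by suitable nonzero elements of `k[x]`), so `e_j ∈ O` for all finite `O` (valuation rings are integrally closed and `k[x] ⊆ O`). `c` from `S_Qf`, `n_j` from `S_Qi` for `e_j`, `N = deg c + max n_j`. For `b` with `A O * b ∈ O` for all `O`, `Dv k x O`:
`Tr(c(x) b e_j) = p_j(x)` by `S_Qf` and `= c(x) Tr(b e_j)`, so `deg p_j ≤ N` by `S_Qi`. `Q = {b : for all j, Tr(c(x) b e_j) = p(x) for some p of degree ≤ N}`, a subspace over `k`; `b ↦ (Tr(c(x) b e_j))_j` is injective (the trace form is nondegenerate, `traceForm_nondegenerate`, `e_j` a basis, `c(x) ≠ 0`) and `k`-linear,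
with values in the `n`-th power of the space of the `p(x)`, `deg p ≤ N` (`MvPolynomial.restrictTotalDegree`, finite dimensional). So `Q` is finite dimensional. -/
def S_Q : Prop :=
  ∀ (k E : Type) [Field k] [CharZero k] [Field E] [Algebra k E] (x : Fin 2 → E), Tb k x →
    ∀ A : ValuationSubring E → E, (∀ O, A O ≠ 0) → {O | Dv k x O ∧ A O ≠ 1}.Finite →
    ∃ Q : Submodule k E, Module.Finite k Q ∧ ∀ b : E, (∀ O, Dv k x O → A O * b ∈ O) → b ∈ Q

/-- (Q2) PROOF (uses `S_Q`, `S_Mdl`, `S_Exc`, `S_DO`, `S_DBd`). `z, P, m, D` from `S_Mdl` for `x`. `B' O = 1` if `Gd k x D O`, and `B' O` = the `B` of `S_DBd` if `Dv k x O` and not `Gd`, `B' O = 1` otherwise. If `O` is `Dv` and `w' ∈ Om Δ O` then `B' O * w' i ∈ O` (`w' = ∑ a_n • dd Δ h_n`, `B' O * Δ i h_n ∈ O`; `S_DO`, `S_DBd`). Apply `S_Q` to `A' O = B' O * A O`; `A' O ≠ 1` only if `A O ≠ 1` or `O ∈ Exc k x D` (finite, `S_Exc`).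
`Q₂ = {w : w 0 ∈ Q ∧ w 1 ∈ Q}` (`Submodule.pi`). -/
def S_Q2 : Prop :=
  ∀ (k E : Type) [Field k] [CharZero k] [Field E] [Algebra k E] (x : Fin 2 → E), Tb k x →
    ∀ Δ : Fin 2 → Derivation k E E, Dual x Δ →
    ∀ A : ValuationSubring E → E, (∀ O, A O ≠ 0) → {O | Dv k x O ∧ A O ≠ 1}.Finite →
    ∃ Q : Submodule k (Fin 2 → E), Module.Finite k Q ∧
      ∀ w : Fin 2 → E, (∀ O, Dv k x O → A O • w ∈ Om Δ O) → w ∈ Q

/-- (F7) PROOF. Let `q = finrank k Q`, `W` = the `k`-span of `ω 0, …, ω (q + 2)`, of dimension `q + 3`; `w ↦ σ w - w` maps `W` to `Q`, so its kernel has dimension `≥ 3`: there are `w_0, w_1, w_2 ∈ W`, linearly independent over `k`, with `σ w_j = w_j`. They are linearly dependent over `E` (`E ^ 2` has dimension two). Take a relation over `E` with the smallest number of nonzero coefficients, and one of them equal to `1`: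
`∑ c_j w_j = 0`, `c_l = 1`. Apply `σ`: `∑ ρ(c_j) w_j = 0`, subtract: `∑_(j ≠ l) (ρ(c_j) - c_j) w_j = 0` has fewer nonzero coefficients, so `ρ(c_j) = c_j` for all `j`, and `c_j ∈ k`: a contradiction to the independence over `k`. -/
def S_F7 : Prop :=
  ∀ (k E : Type) [Field k] [Field E] [Algebra k E] (ρ : E →ₐ[k] E),
    (∀ h : E, ρ h = h → ∃ c : k, h = algebraMap k E c) →
    ∀ σ : (Fin 2 → E) →ₗ[k] (Fin 2 → E), (∀ (a : E) (w : Fin 2 → E), σ (a • w) = ρ a • σ w) →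
    ∀ Q : Submodule k (Fin 2 → E), Module.Finite k Q → ∀ ω : ℕ → Fin 2 → E, LinearIndependent k ω →
    (∀ n, σ (ω n) - ω n ∈ Q) → False

end Pool.Agent.Lib.MP_16285c_agS.Cn
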